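import Pool.Agent.Helper92.AR.Tensor

/-!
AR-T4. Bias of the form.  Sum over `h last` first (`Fin.snocEquiv`, `Fin.init`):
`∑_{u : Fin n → F} ψ (∑_l u l * v l)` is `q^n` if `v = 0` and `0` otherwise (nontrivial character of the
finite group `Fin n → F`: `AddChar.sum_eq_zero_of_ne_one` applied to `ψ.compAddMonoidHom`, as `ψ ≠ 1` and
`v l ≠ 0` for some `l`; or factor as a product over `l` and use `AddChar.sum_mulShift`).
-/

set_option autoImplicit false

namespace Pool.Agent.Helper92.AR

open Polynomial Finset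
open Pool.Agent.Helper83.AH (IsML)

variable {k n : ℕ} {F : Type} [Field F] [Fintype F]

omit [Fintype F] in
private lemma char_sum_prod (ψ : AddChar F ℂ) (w : Fin n → F) (s : Finset (Fin n)) :
    ψ (∑ l ∈ s, w l) = ∏ l ∈ s, ψ (w l) := by
  classical
  induction s using Finset.induction_on with
  | empty => simp
  | insert a s ha ih => rw [Finset.sum_insert ha, Finset.prod_insert ha, AddChar.map_add_eq_mul, ih]

open Classical in
theorem dual_sum (ψ : AddChar F ℂ) (hψ : ψ ≠ 1) (v : Fin n → F) :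
    ∑ u : Fin n → F, ψ (∑ l, u l * v l) = if v = 0 then (Fintype.card F : ℂ) ^ n else 0 := by
  have h1 : ∑ u : Fin n → F, ψ (∑ l, u l * v l) = ∏ l : Fin n, ∑ a : F, ψ (a * v l) := by
    rw [Finset.prod_univ_sum, Fintype.piFinset_univ]
    apply Finset.sum_congr rfl
    intro u _
    exact char_sum_prod ψ (fun l => u l * v l) Finset.univ
  rw [h1]
  have h2 : ∀ l : Fin n, ∑ a : F, ψ (a * v l) = if v l = 0 then (Fintype.card F : ℂ) else 0 := by
    intro l
    rw [AddChar.sum_mulShift (v l) (AddChar.IsPrimitive.of_ne_one hψ)]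
    split_ifs <;> simp
  rw [Finset.prod_congr rfl fun l _ => h2 l]
  split_ifs with h
  · subst h
    simp
  · obtain ⟨l, hl⟩ := Function.ne_iff.1 h
    exact Finset.prod_eq_zero (Finset.mem_univ l) (if_neg hl)

theorem bias_sum (ψ : AddChar F ℂ) (hψ : ψ ≠ 1) (t : (Fin k → Fin n) → Fin n → F) :
    ∑ h : Fin (k + 1) → Fin n → F, ψ (tform t h) =
      (Fintype.card F : ℂ) ^ n * ((zset t).card : ℂ) := by
  classical
  have h1 : ∑ h : Fin (k + 1) → Fin n → F, ψ (tform t h) =
      ∑ p : (Fin n → F) × (Fin k → Fin n → F), ψ (∑ l, p.1 l * tev (A := F) t p.2 l) := by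
    rw [← Equiv.sum_comp (Fin.snocEquiv fun _ : Fin (k + 1) => (Fin n → F))]
    apply Finset.sum_congr rfl
    rintro ⟨u, x⟩ -
    congr 1
    unfold tform
    apply Finset.sum_congr rfl
    intro l _
    have e1 : (Fin.snocEquiv fun _ : Fin (k + 1) => (Fin n → F)) (u, x) =
        Fin.snoc (α := fun _ => Fin n → F) x u := rfl
    rw [e1, Fin.init_snoc, Fin.snoc_last]
  rw [h1, Fintype.sum_prod_type_right]
  have h2 : ∀ x : Fin k → Fin n → F, ∑ u : Fin n → F, ψ (∑ l, u l * tev (A := F) t x l) =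
      if tev (A := F) t x = 0 then (Fintype.card F : ℂ) ^ n else 0 := fun x => dual_sum ψ hψ _
  rw [Finset.sum_congr rfl fun x _ => h2 x, ← Finset.sum_filter, Finset.sum_const, nsmul_eq_mul,
    mul_comm]
  congr 2

end Pool.Agent.Helper92.AR
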