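import Pool.Agent.Helper92.AR.Defs

/-!
AR-C3. Choice of the level.  Let `b R = a R * Q^(κ R)`.  By `hK`, `b R ≤ K * Q^(-(κ R)) * a 0`, which tends
to `0`, and `b 0 = a 0 > 0`; so `b` attains its maximum at some `Rs`, and `b Rs ≥ b 0 > 0`, so
`a Rs > 0`.  `b (Rs + w) ≤ b Rs` gives `a (Rs + w) ≤ Q^(-(κ w)) * a Rs`.  And
`a 0 = b 0 ≤ b Rs ≤ K * Q^(-(κ Rs)) * a 0` gives `Q^(κ Rs) ≤ K`.
(Existence of the maximum: only finitely many `R` have `b R ≥ b 0`; take the maximum over a finite range.)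
-/

set_option autoImplicit false

namespace Pool.Agent.Helper92.AR

open Polynomial Finset
open Pool.Agent.Helper83.AH (IsML)

theorem exists_level (a : ℕ → ℝ) (ha : ∀ R, 0 ≤ a R) (h0 : 0 < a 0) (Q K κ : ℝ) (hQ : 1 < Q)
    (hκ : 0 < κ) (hK : ∀ R : ℕ, a R ≤ K * Q ^ (-(2 * κ * R)) * a 0) :
    ∃ Rs : ℕ, 0 < a Rs ∧ (∀ w : ℕ, a (Rs + w) ≤ Q ^ (-(κ * w)) * a Rs) ∧ Q ^ (κ * Rs) ≤ K := by
  have hQ0 : 0 < Q := by linarith
  set b : ℕ → ℝ := fun R => a R * Q ^ (κ * (R : ℝ)) with hb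
  have hb0 : b 0 = a 0 := by simp [hb]
  have hbK : ∀ R : ℕ, b R ≤ K * Q ^ (-(κ * (R : ℝ))) * a 0 := by
    intro R
    have h1 := mul_le_mul_of_nonneg_right (hK R) (Real.rpow_nonneg hQ0.le (κ * (R : ℝ)))
    have h2 : Q ^ (-(2 * κ * (R : ℝ))) * Q ^ (κ * (R : ℝ)) = Q ^ (-(κ * (R : ℝ))) := by
      rw [← Real.rpow_add hQ0]
      congr 1
      ring
    calc b R = a R * Q ^ (κ * (R : ℝ)) := rfl
      _ ≤ K * Q ^ (-(2 * κ * (R : ℝ))) * a 0 * Q ^ (κ * (R : ℝ)) := h1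
      _ = K * (Q ^ (-(2 * κ * (R : ℝ))) * Q ^ (κ * (R : ℝ))) * a 0 := by ring
      _ = _ := by rw [h2]
  have htend : Filter.Tendsto (fun R : ℕ => K * Q ^ (-(κ * (R : ℝ))) * a 0) Filter.atTop
      (nhds 0) := by
    have h1 : Filter.Tendsto (fun R : ℕ => (Q ^ (-κ)) ^ R) Filter.atTop (nhds 0) :=
      tendsto_pow_atTop_nhds_zero_of_lt_one (Real.rpow_nonneg hQ0.le _)
        (Real.rpow_lt_one_of_one_lt_of_neg hQ (by linarith))
    have h2 : (fun R : ℕ => K * Q ^ (-(κ * (R : ℝ))) * a 0) =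
        fun R : ℕ => K * (Q ^ (-κ)) ^ R * a 0 := by
      funext R
      rw [← Real.rpow_natCast, ← Real.rpow_mul hQ0.le, neg_mul]
    rw [h2]
    simpa using (h1.const_mul K).mul_const (a 0)
  have hev : ∀ᶠ R : ℕ in Filter.atTop, b R < a 0 := by
    filter_upwards [htend.eventually (gt_mem_nhds h0)] with R hR
    exact lt_of_le_of_lt (hbK R) hR
  obtain ⟨M, hM⟩ := Filter.eventually_atTop.mp hev
  obtain ⟨Rs, hRs, hmax⟩ := Finset.exists_max_image (Finset.range (M + 1)) b ⟨0, by simp⟩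
  have hmax' : ∀ R, b R ≤ b Rs := by
    intro R
    by_cases h : R < M + 1
    · exact hmax R (Finset.mem_range.mpr h)
    · have h1 := hM R (by omega)
      have h2 := hmax 0 (by simp)
      linarith
  have hbRs : a 0 ≤ b Rs := by
    rw [← hb0]
    exact hmax' 0
  have hpow : ∀ R : ℕ, 0 < Q ^ (κ * (R : ℝ)) := fun R => Real.rpow_pos_of_pos hQ0 _
  refine ⟨Rs, ?_, ?_, ?_⟩
  · by_contra h
    have h1 : a Rs = 0 := le_antisymm (not_lt.mp h) (ha Rs)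
    have h2 : b Rs = 0 := by simp [hb, h1]
    linarith
  · intro w
    have h1 := hmax' (Rs + w)
    have h2 : Q ^ (κ * ((Rs + w : ℕ) : ℝ)) = Q ^ (κ * (w : ℝ)) * Q ^ (κ * (Rs : ℝ)) := by
      rw [← Real.rpow_add hQ0]
      congr 1
      push_cast
      ring
    have h3 : (a (Rs + w) * Q ^ (κ * (w : ℝ))) * Q ^ (κ * (Rs : ℝ)) ≤
        a Rs * Q ^ (κ * (Rs : ℝ)) := by
      rw [mul_assoc, ← h2]
      exact h1
    have h4 := le_of_mul_le_mul_right h3 (hpow Rs)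
    rw [Real.rpow_neg hQ0.le, inv_mul_eq_div, le_div_iff₀ (hpow w)]
    exact h4
  · have h2 : a 0 ≤ K * Q ^ (-(κ * (Rs : ℝ))) * a 0 := hbRs.trans (hbK Rs)
    have h3 : 1 ≤ K * Q ^ (-(κ * (Rs : ℝ))) := by
      by_contra h
      push Not at h
      nlinarith
    rw [Real.rpow_neg hQ0.le, ← div_eq_mul_inv, le_div_iff₀ (hpow Rs), one_mul] at h3
    exact h3

end Pool.Agent.Helper92.AR
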