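import Pool.Agent.Helper92.AR.CountRho
import Pool.Agent.Helper92.AR.Potential

/-!
AR-C4. Choice of the level for a tensor.  `a R = |{x ∈ zset t | R ≤ Rho t x}|`, `Q = q`, `κ = 1/(2k)`.
If `Rho t x ≥ R` then some `rho t b x ≥ R/k` (real), so `a R ≤ ∑_b |{rho_b ≥ ⌈R/k⌉}| ≤
k q^(kn) q^(-⌈R/k⌉) ≤ k q^(kn) q^(-R/k)` (`card_rho_ge`), and `a 0 = |zset t| = q^(kn - anrk t)` (zset is
non-empty: it contains `0`, as `k ≥ 1`; definition of `anrk`).  So `a R ≤ K q^(-2κR) a 0` with
`K = k q^(anrk t)`.  `exists_level`; `q^(κ Rs) ≤ K` gives `Rs/(2k) ≤ anrk t + log_q k`.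
-/

set_option autoImplicit false

namespace Pool.Agent.Helper92.AR

open Polynomial Finset
open Pool.Agent.Helper83.AH (IsML)

variable {k n : ℕ} {F : Type} [Field F] [Fintype F]

theorem zset_nonempty (hk : 1 ≤ k) (t : (Fin k → Fin n) → Fin n → F) : (zset t).Nonempty := by
  classical
  refine ⟨0, ?_⟩
  unfold zset
  rw [Finset.mem_filter]
  refine ⟨Finset.mem_univ _, ?_⟩
  funext l
  unfold tev
  apply Finset.sum_eq_zero
  intro i _
  rw [Finset.prod_eq_zero (Finset.mem_univ (⟨0, hk⟩ : Fin k)), mul_zero]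
  rfl

theorem lv_card (hk : 1 ≤ k) (t : (Fin k → Fin n) → Fin n → F) : 0 < ((zset t).card : ℝ) := by
  have := Finset.card_pos.2 (zset_nonempty hk t)
  exact_mod_cast this

theorem lv_q (F : Type) [Field F] [Fintype F] : (1 : ℝ) < (Fintype.card F : ℝ) := by
  have : 1 < Fintype.card F := Fintype.one_lt_card
  exact_mod_cast this

theorem card_zset_eq (hk : 1 ≤ k) (t : (Fin k → Fin n) → Fin n → F) :
    ((zset t).card : ℝ) = (Fintype.card F : ℝ) ^ (((k * n : ℕ) : ℝ) - anrk t) := by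
  have hq := lv_q F
  have hq0 : (0 : ℝ) < Fintype.card F := by linarith
  have hz := lv_card hk t
  unfold anrk
  rw [sub_neg_eq_add, Real.rpow_add hq0, Real.rpow_natCast,
    Real.rpow_logb hq0 hq.ne' (div_pos hz (pow_pos hq0 _))]
  field_simp

theorem anrk_nonneg (hk : 1 ≤ k) (t : (Fin k → Fin n) → Fin n → F) : 0 ≤ anrk t := by
  have hq := lv_q F
  have hq0 : (0 : ℝ) < Fintype.card F := by linarith
  have hz := lv_card hk t
  unfold anrk
  rw [neg_nonneg]
  apply Real.logb_nonpos hq (div_nonneg hz.le (pow_nonneg hq0.le _))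
  rw [div_le_one (pow_pos hq0 _)]
  have h1 : (zset t).card ≤ Fintype.card F ^ (k * n) := by
    refine (Finset.card_le_univ _).trans (le_of_eq ?_)
    rw [Fintype.card_fun, Fintype.card_fun, Fintype.card_fin, Fintype.card_fin, ← pow_mul,
      mul_comm]
  exact_mod_cast h1

theorem exists_Rs (hk : 1 ≤ k) (t : (Fin k → Fin n) → Fin n → F) :
    ∃ Rs : ℕ, (∃ x ∈ zset t, Rs ≤ Rho t x) ∧
      (∀ w : ℕ, (((zset t).filter fun x => Rs + w ≤ Rho t x).card : ℝ) ≤
        (Fintype.card F : ℝ) ^ (-((w : ℝ) / (2 * k))) *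
          ((zset t).filter fun x => Rs ≤ Rho t x).card) ∧
      (Rs : ℝ) ≤ 2 * k * (anrk t + Real.logb (Fintype.card F) k) := by
  classical
  have hq := lv_q F
  have hq0 : (0 : ℝ) < Fintype.card F := by linarith
  have hk0 : (0 : ℝ) < k := by exact_mod_cast hk
  have h0 : ((zset t).filter fun x => 0 ≤ Rho t x) = zset t := by
    apply Finset.filter_true_of_mem
    intro x _
    exact Nat.zero_le _
  have hbound : ∀ R : ℕ, (((zset t).filter fun x => R ≤ Rho t x).card : ℝ) ≤
      k * (Fintype.card F : ℝ) ^ (((k * n : ℕ) : ℝ) - (R : ℝ) / k) := by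
    intro R
    have hsub : ((zset t).filter fun x => R ≤ Rho t x) ⊆
        Finset.univ.biUnion fun b : Fin k =>
          (zset t).filter fun x => ⌈(R : ℝ) / k⌉₊ ≤ rho t b x := by
      intro x hx
      obtain ⟨hx1, hx2⟩ := Finset.mem_filter.1 hx
      rw [Finset.mem_biUnion]
      by_contra hcon
      push Not at hcon
      have h1 : ∀ b : Fin k, (rho t b x : ℝ) < (R : ℝ) / k := by
        intro b
        have h2 : rho t b x < ⌈(R : ℝ) / k⌉₊ := by
          by_contra h3
          exact hcon b (Finset.mem_univ b) (Finset.mem_filter.2 ⟨hx1, not_lt.1 h3⟩)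
        exact Nat.lt_ceil.1 h2
      have h2 : (Rho t x : ℝ) < R := by
        unfold Rho
        push_cast
        have hne : (Finset.univ : Finset (Fin k)).Nonempty := ⟨⟨0, hk⟩, Finset.mem_univ _⟩
        calc ∑ b : Fin k, (rho t b x : ℝ) < ∑ _b : Fin k, (R : ℝ) / k :=
              Finset.sum_lt_sum_of_nonempty hne fun b _ => h1 b
          _ = R := by
            rw [Finset.sum_const, Finset.card_univ, Fintype.card_fin, nsmul_eq_mul]
            field_simp
      have h3 : (R : ℝ) ≤ Rho t x := by exact_mod_cast hx2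
      linarith
    have h1 : (((zset t).filter fun x => R ≤ Rho t x).card : ℝ) ≤
        ∑ b : Fin k, (((zset t).filter fun x => ⌈(R : ℝ) / k⌉₊ ≤ rho t b x).card : ℝ) := by
      have h2 := (Finset.card_le_card hsub).trans Finset.card_biUnion_le
      exact_mod_cast h2
    have h2 : ∀ b : Fin k, (((zset t).filter fun x => ⌈(R : ℝ) / k⌉₊ ≤ rho t b x).card : ℝ) ≤
        (Fintype.card F : ℝ) ^ (((k * n : ℕ) : ℝ) - (R : ℝ) / k) := by
      intro b
      have h3 := card_rho_ge t b ⌈(R : ℝ) / k⌉₊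
      have h3' : (((zset t).filter fun x => ⌈(R : ℝ) / k⌉₊ ≤ rho t b x).card : ℝ) *
          (Fintype.card F : ℝ) ^ ⌈(R : ℝ) / k⌉₊ ≤ (Fintype.card F : ℝ) ^ (k * n) := by
        exact_mod_cast h3
      rw [← le_div_iff₀ (pow_pos hq0 _)] at h3'
      refine h3'.trans ?_
      rw [← Real.rpow_natCast, ← Real.rpow_natCast, ← Real.rpow_sub hq0]
      apply Real.rpow_le_rpow_of_exponent_le hq.le
      have h4 := Nat.le_ceil ((R : ℝ) / k)
      linarith
    refine h1.trans ((Finset.sum_le_sum fun b _ => h2 b).trans (le_of_eq ?_))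
    rw [Finset.sum_const, Finset.card_univ, Fintype.card_fin, nsmul_eq_mul]
  obtain ⟨Rs, hR1, hR2, hR3⟩ := exists_level
    (fun R => (((zset t).filter fun x => R ≤ Rho t x).card : ℝ)) (fun R => Nat.cast_nonneg _)
    (by
      show 0 < (((zset t).filter fun x => 0 ≤ Rho t x).card : ℝ)
      rw [h0]
      exact lv_card hk t)
    (Fintype.card F : ℝ) (k * (Fintype.card F : ℝ) ^ anrk t) (1 / (2 * k)) hq (by positivity)
    (by
      intro R
      show (((zset t).filter fun x => R ≤ Rho t x).card : ℝ) ≤ k * (Fintype.card F : ℝ) ^ anrk t *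
        (Fintype.card F : ℝ) ^ (-(2 * (1 / (2 * (k : ℝ))) * R)) *
          (((zset t).filter fun x => 0 ≤ Rho t x).card : ℝ)
      rw [h0, card_zset_eq hk t, mul_assoc, mul_assoc, ← Real.rpow_add hq0, ← Real.rpow_add hq0]
      have e : anrk t + (-(2 * (1 / (2 * (k : ℝ))) * R) + (((k * n : ℕ) : ℝ) - anrk t)) =
          ((k * n : ℕ) : ℝ) - (R : ℝ) / k := by
        field_simp
        ring
      rw [e]
      exact hbound R)
  refine ⟨Rs, ?_, ?_, ?_⟩
  · have h1 : 0 < ((zset t).filter fun x => Rs ≤ Rho t x).card := by exact_mod_cast hR1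
    obtain ⟨x, hx⟩ := Finset.card_pos.1 h1
    exact ⟨x, (Finset.mem_filter.1 hx).1, (Finset.mem_filter.1 hx).2⟩
  · intro w
    have h1 := hR2 w
    have e : -(1 / (2 * (k : ℝ)) * w) = -((w : ℝ) / (2 * k)) := by ring
    rw [e] at h1
    exact h1
  · have hK0 : (0 : ℝ) < k * (Fintype.card F : ℝ) ^ anrk t :=
      mul_pos hk0 (Real.rpow_pos_of_pos hq0 _)
    have h1 := Real.logb_le_logb_of_le hq (Real.rpow_pos_of_pos hq0 _) hR3
    rw [Real.logb_rpow hq0 hq.ne', Real.logb_mul hk0.ne' (Real.rpow_pos_of_pos hq0 _).ne',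
      Real.logb_rpow hq0 hq.ne'] at h1
    have h2 : (Rs : ℝ) = 2 * k * (1 / (2 * k) * Rs) := by
      field_simp
    rw [h2]
    apply mul_le_mul_of_nonneg_left _ (by positivity)
    linarith

end Pool.Agent.Helper92.AR
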