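import Pool.Agent.Helper92.AR.Defs

/-!
More definitions: the predicate used for the killed process.
-/

set_option autoImplicit false

namespace Pool.Agent.Helper92.AR

open Polynomial Finset
open Pool.Agent.Helper83.AH (IsML)

/-- the point `evP c P` has rank sum at most `Bd`, and the ranks at `c` are within the factor
`1 - θ` of the generic ranks -/
def goodC {k n : ℕ} {F : Type} [Field F] (t : (Fin k → Fin n) → Fin n → F) (Bd θ : ℝ) (c : F) :
    ℕ → (Fin k → Fin n → F[X]) → Prop :=
  fun _ P => (Rho t (evP c P) : ℝ) ≤ Bd ∧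
    (Theta t P : ℝ) - Rho t (evP c P) ≤ θ * Theta t P

/-- the predicate for the base point `x` -/
def goodX {k n : ℕ} {F : Type} [Field F] (t : (Fin k → Fin n) → Fin n → F) (Bd Δ : ℝ)
    (x : Fin k → Fin n → F) : ℕ → (Fin k → Fin n → F[X]) → Prop :=
  fun _ P => (Theta t P : ℝ) ≤ 2 * Bd ∧
    ∀ b, (grank (tmat t b P) : ℝ) ≤ (rho t b x : ℝ) + Δ

end Pool.Agent.Helper92.AR
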