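import Pool.Agent.Helper92.AR.Tensor
import Pool.Agent.Helper92.AR.Defs2

/-!
AR-Q1. Admissible tuples.  `Adm.init`: `trP x i (cst x) = cst x`, `tev_cst`.
`Adm.step`: let `P'` be the updated tuple.  For `i ≤ j` the slot `j` of `trP x i P'` is `cst x`, so
`trP x i P' = trP x i P` and `zero` follows from `hP`.  `trP x (j+1) P' = P'` since the slots `> j` of
`P` are constant (`hP.const`).  For `i = j+1`: `tev t P' = (tmat t j P) (P_j + X ζ) = tev t P + X • M ζ = 0`
(`tev_update`, `tev_eq_mulVec`, `M ζ = 0` because `z ∈ Kset`, and `tev t P = tev t (trP x j P) = 0`).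
`eval0`: `X ζ` vanishes at `0`.  `deg`: in slot `j`, `P_j = cst x j` has degree `0` and `ζ = toPoly z` has
entries of degree `< L j` (if `L j = 0` then `ζ = 0`), so `P_j + X ζ` has natDegree `≤ L j`.
-/

set_option autoImplicit false

namespace Pool.Agent.Helper92.AR

open Polynomial Finset
open Pool.Agent.Helper83.AH (IsML)

variable {k n : ℕ} {F : Type} [Field F] [Fintype F]

theorem mem_zset {t : (Fin k → Fin n) → Fin n → F} {x : Fin k → Fin n → F} :
    x ∈ zset t ↔ tev (A := F) t x = 0 := by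
  classical
  unfold zset
  rw [Finset.mem_filter]
  exact and_iff_right (Finset.mem_univ _)

theorem mem_Kset {ℓ : ℕ} {M : Matrix (Fin n) (Fin n) F[X]} {z : Fin ℓ → Fin n → F} :
    z ∈ Kset ℓ M ↔ M.mulVec (toPoly z : Fin n → F[X]) = 0 := by
  classical
  unfold Kset
  rw [Finset.mem_filter]
  exact and_iff_right (Finset.mem_univ _)

theorem zero_mem_Kset (ℓ : ℕ) (M : Matrix (Fin n) (Fin n) F[X]) :
    (0 : Fin ℓ → Fin n → F) ∈ Kset ℓ M := by
  rw [mem_Kset, map_zero, Matrix.mulVec_zero]

omit [Fintype F] in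
private theorem as_trP (x : Fin k → Fin n → F) (i : ℕ) : trP x i (cst x) = cst x := by
  funext l
  unfold trP
  split_ifs <;> rfl

omit [Fintype F] in
private theorem as_deg {ℓ : ℕ} (z : Fin ℓ → Fin n → F) (a : Fin n) :
    (X * (toPoly z : Fin n → F[X]) a).natDegree ≤ ℓ := by
  have h1 : X * (toPoly z : Fin n → F[X]) a =
      ∑ i : Fin ℓ, Polynomial.C (z i a) * X ^ ((i : ℕ) + 1) := by
    show X * ∑ i : Fin ℓ, Polynomial.C (z i a) * X ^ (i : ℕ) = _
    rw [Finset.mul_sum]
    exact Finset.sum_congr rfl fun i _ => by ring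
  rw [h1]
  refine Polynomial.natDegree_sum_le_of_forall_le _ _ fun i _ => ?_
  exact (Polynomial.natDegree_C_mul_X_pow_le _ _).trans i.2

theorem Adm.init {t : (Fin k → Fin n) → Fin n → F} (L : ℕ → ℕ) {x : Fin k → Fin n → F}
    (hx : x ∈ zset t) : Adm t L x 0 (cst x) := by
  refine ⟨fun i _ => ?_, as_trP x 0, ?_, fun i a => ?_⟩
  · rw [as_trP, tev_cst, mem_zset.1 hx]
    funext l
    exact map_zero _
  · funext i a
    exact Polynomial.eval_C
  · show (Polynomial.C (x i a)).natDegree ≤ _
    rw [Polynomial.natDegree_C]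
    exact Nat.zero_le _

theorem Adm.step {t : (Fin k → Fin n) → Fin n → F} {L : ℕ → ℕ} {x : Fin k → Fin n → F} {j : ℕ}
    {P : Fin k → Fin n → F[X]} (hP : Adm t L x j P) (hj : j < k) {z : Fin (L j) → Fin n → F}
    (hz : z ∈ Kset (L j) (tmat t ⟨j, hj⟩ P)) :
    Adm t L x (j + 1) (Function.update P ⟨j, hj⟩ fun a =>
      P ⟨j, hj⟩ a + X * (toPoly z : Fin n → F[X]) a) := by
  set P' := Function.update P ⟨j, hj⟩ fun a =>
      P ⟨j, hj⟩ a + X * (toPoly z : Fin n → F[X]) a with hP'
  have hself : P' ⟨j, hj⟩ = fun a => P ⟨j, hj⟩ a + X * (toPoly z : Fin n → F[X]) a := by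
    rw [hP', Function.update_self]
  have hne : ∀ l : Fin k, (l : ℕ) ≠ j → P' l = P l := by
    intro l hl
    rw [hP', Function.update_of_ne]
    intro h
    exact hl (congrArg Fin.val h)
  have hcst : ∀ l : Fin k, j ≤ (l : ℕ) → P l = cst x l := by
    intro l hl
    have h1 := congrFun hP.const l
    unfold trP at h1
    rw [if_neg (not_lt.2 hl)] at h1
    exact h1.symm
  have hconst : trP x (j + 1) P' = P' := by
    funext l
    unfold trP
    split_ifs with h
    · rfl
    · rw [hne l (by omega), hcst l (by omega)]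
  have htevP : tev t P = 0 := by
    have h1 := hP.zero j le_rfl
    rwa [hP.const] at h1
  have htev : tev t P' = 0 := by
    rw [hP', tev_update]
    have h1 : (fun a => P ⟨j, hj⟩ a + X * (toPoly z : Fin n → F[X]) a) =
        P ⟨j, hj⟩ + (X : F[X]) • (toPoly z : Fin n → F[X]) := rfl
    rw [h1, Matrix.mulVec_add, Matrix.mulVec_smul, mem_Kset.1 hz, smul_zero, add_zero,
      ← tev_eq_mulVec, htevP]
  refine ⟨fun i hi => ?_, hconst, ?_, fun i a => ?_⟩
  · rcases Nat.lt_or_ge j i with h | h
    · have h2 : i = j + 1 := by omega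
      rw [h2, hconst, htev]
    · have h2 : trP x i P' = trP x i P := by
        funext l
        unfold trP
        split_ifs with hl
        · exact hne l (by omega)
        · rfl
      rw [h2]
      exact hP.zero i h
  · funext i a
    by_cases h : (i : ℕ) = j
    · have h1 : i = ⟨j, hj⟩ := Fin.ext h
      have h2 := congrFun (congrFun hP.eval0 i) a
      subst h1
      show (P' ⟨j, hj⟩ a).eval 0 = _
      rw [hself]
      show (P ⟨j, hj⟩ a + X * (toPoly z : Fin n → F[X]) a).eval 0 = _
      rw [Polynomial.eval_add, Polynomial.eval_mul, Polynomial.eval_X, zero_mul, add_zero]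
      exact h2
    · have h2 := congrFun (congrFun hP.eval0 i) a
      show (P' i a).eval 0 = _
      rw [hne i h]
      exact h2
  · by_cases h : (i : ℕ) = j
    · have h1 : i = ⟨j, hj⟩ := Fin.ext h
      subst h1
      rw [hself]
      show (P ⟨j, hj⟩ a + X * (toPoly z : Fin n → F[X]) a).natDegree ≤ L j
      rw [hcst ⟨j, hj⟩ le_rfl]
      refine (Polynomial.natDegree_add_le _ _).trans (max_le ?_ (as_deg z a))
      show (Polynomial.C (x ⟨j, hj⟩ a)).natDegree ≤ _
      rw [Polynomial.natDegree_C]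
      exact Nat.zero_le _
    · rw [hne i h]
      exact hP.deg i a

end Pool.Agent.Helper92.AR
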