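import Pool.Agent.Helper92.AR.Defs

/-!
AR-P5. Push-forward of the uniform distribution on a subspace under a linear map.
`(∑_{v ∈ S} g (y0 + φ v)) / |S|`: the fibres of `φ : S → φ(S)` all have size `|S| / |φ(S)|`
(`|S| = |φ(S)| * |ker φ ⊓ S|`), so it equals `(∑_{w ∈ φ(S)} g (y0 + w)) / |φ(S)|`.  As `y0 + w ∈ W'` and
`w ↦ y0 + w` is injective, and `g ≥ 0`, this is `≤ (∑_{w ∈ W'} g w) / |φ(S)| =
(|W'| / |φ(S)|) * avg W' g`, and `|W'| = q^(finrank W')`, `|φ(S)| = q^(finrank φ(S))`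
(`Module.card_eq_pow_finrank`), `Real.rpow_sub`, `Real.rpow_natCast`, monotone in the exponent as `q ≥ 1`.
`avg_surj` (equality): for `W' = ⊤.map φ`, averaging over `V` of `g (φ v)` is the average over the image.
-/

set_option autoImplicit false

namespace Pool.Agent.Helper92.AR

open Polynomial Finset
open Pool.Agent.Helper83.AH (IsML)

variable {F : Type} [Field F] [Fintype F]

private lemma ap_card {W : Type} [AddCommGroup W] [Fintype W] [Module F W]
    (W' : Submodule F W) (WF : Finset W) (hWF : ∀ w, w ∈ WF ↔ w ∈ W') :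
    (WF.card : ℝ) = (Fintype.card F : ℝ) ^ (Module.finrank F W' : ℝ) := by
  classical
  have h1 : WF.card = Fintype.card W' := (Fintype.card_of_subtype WF hWF).symm
  rw [h1, Module.card_eq_pow_finrank (K := F) (V := W'), Real.rpow_natCast]
  push_cast
  rfl

private lemma ap_avg {V W : Type} [AddCommGroup V] [AddCommGroup W] [Fintype V] [Fintype W]
    [Module F V] [Module F W] (S : Submodule F V) (φ : V →ₗ[F] W) (SF : Finset V)
    (hSF : ∀ v, v ∈ SF ↔ v ∈ S) (IF : Finset W) (hIF : ∀ w, w ∈ IF ↔ w ∈ S.map φ)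
    (h : W → ℝ) : avg SF (fun v => h (φ v)) = avg IF h := by
  classical
  have hmaps : ∀ v ∈ SF, φ v ∈ IF := by
    intro v hv
    rw [hIF]
    exact ⟨v, (hSF v).1 hv, rfl⟩
  have hfib : ∀ w ∈ IF, (SF.filter (fun v => φ v = w)).card =
      (SF.filter (fun v => φ v = 0)).card := by
    intro w hw
    obtain ⟨v0, hv0, rfl⟩ := (hIF w).1 hw
    have hv0' : v0 ∈ S := hv0
    refine Finset.card_nbij' (fun v => v - v0) (fun v => v + v0) ?_ ?_ ?_ ?_
    · intro v hv
      rw [Finset.mem_coe, Finset.mem_filter, hSF] at hv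
      rw [Finset.mem_coe, Finset.mem_filter, hSF]
      refine ⟨S.sub_mem hv.1 hv0', ?_⟩
      rw [map_sub, hv.2, sub_self]
    · intro v hv
      rw [Finset.mem_coe, Finset.mem_filter, hSF] at hv
      rw [Finset.mem_coe, Finset.mem_filter, hSF]
      refine ⟨S.add_mem hv.1 hv0', ?_⟩
      rw [map_add, hv.2, zero_add]
    · intro v _
      exact sub_add_cancel v v0
    · intro v _
      exact add_sub_cancel_right v v0
  have hk : (0 : ℝ) < ((SF.filter (fun v => φ v = 0)).card : ℝ) := by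
    have : 0 < (SF.filter (fun v => φ v = 0)).card := by
      rw [Finset.card_pos]
      refine ⟨0, ?_⟩
      rw [Finset.mem_filter, hSF]
      exact ⟨S.zero_mem, map_zero φ⟩
    exact_mod_cast this
  have hsum : ∑ v ∈ SF, h (φ v) =
      ((SF.filter (fun v => φ v = 0)).card : ℝ) * ∑ w ∈ IF, h w := by
    rw [← Finset.sum_fiberwise_of_maps_to hmaps, Finset.mul_sum]
    refine Finset.sum_congr rfl fun w hw => ?_
    have h1 : ∑ v ∈ SF.filter (fun v => φ v = w), h (φ v) =
        ∑ _v ∈ SF.filter (fun v => φ v = w), h w :=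
      Finset.sum_congr rfl fun v hv => by rw [(Finset.mem_filter.1 hv).2]
    rw [h1, Finset.sum_const, nsmul_eq_mul, hfib w hw]
  have hcard : (SF.card : ℝ) = ((SF.filter (fun v => φ v = 0)).card : ℝ) * IF.card := by
    have h1 : SF.card = IF.card * (SF.filter (fun v => φ v = 0)).card := by
      rw [Finset.card_eq_sum_card_fiberwise hmaps]
      rw [Finset.sum_congr rfl hfib, Finset.sum_const, smul_eq_mul]
    rw [h1]
    push_cast
    ring
  unfold avg
  rw [hsum, hcard, mul_div_mul_left _ _ hk.ne']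

theorem avg_push {V W : Type} [AddCommGroup V] [AddCommGroup W] [Fintype V] [Fintype W]
    [Module F V] [Module F W] (S : Submodule F V) (W' : Submodule F W) (φ : V →ₗ[F] W)
    (hφ : S.map φ ≤ W') (y0 : W) (hy0 : y0 ∈ W') (SF : Finset V) (hSF : ∀ v, v ∈ SF ↔ v ∈ S)
    (WF : Finset W) (hWF : ∀ w, w ∈ WF ↔ w ∈ W') (f : ℝ)
    (hf : (Module.finrank F W' : ℝ) - Module.finrank F (S.map φ) ≤ f)
    (g : W → ℝ) (hg : ∀ w, 0 ≤ g w) :
    avg SF (fun v => g (y0 + φ v)) ≤ (Fintype.card F : ℝ) ^ f * avg WF g := by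
  classical
  set IF : Finset W := Finset.univ.filter fun w => w ∈ S.map φ with hIFdef
  have hIF : ∀ w, w ∈ IF ↔ w ∈ S.map φ := fun w => by
    rw [hIFdef, Finset.mem_filter]
    exact ⟨fun h => h.2, fun h => ⟨Finset.mem_univ _, h⟩⟩
  have h1 := ap_avg S φ SF hSF IF hIF (fun w => g (y0 + w))
  rw [h1]
  have hcI := ap_card (S.map φ) IF hIF
  have hcW := ap_card W' WF hWF
  have hq : (1 : ℝ) ≤ (Fintype.card F : ℝ) := by exact_mod_cast Fintype.card_pos
  have hq0 : (0 : ℝ) < (Fintype.card F : ℝ) := by linarith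
  have hle : ∑ w ∈ IF, g (y0 + w) ≤ ∑ w ∈ WF, g w := by
    have h2 : ∑ w ∈ IF, g (y0 + w) = ∑ w ∈ IF.image (fun w => y0 + w), g w := by
      rw [Finset.sum_image]
      intro a _ b _ hab
      exact add_left_cancel hab
    rw [h2]
    apply Finset.sum_le_sum_of_subset_of_nonneg
    · intro w hw
      obtain ⟨v, hv, rfl⟩ := Finset.mem_image.1 hw
      rw [hWF]
      exact W'.add_mem hy0 (hφ ((hIF v).1 hv))
    · intro w _ _
      exact hg w
  have hsum0 : 0 ≤ ∑ w ∈ WF, g w := Finset.sum_nonneg fun w _ => hg w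
  unfold avg
  rw [hcI, hcW]
  have hA : (0 : ℝ) < (Fintype.card F : ℝ) ^ (Module.finrank F (S.map φ) : ℝ) :=
    Real.rpow_pos_of_pos hq0 _
  have hB : (0 : ℝ) < (Fintype.card F : ℝ) ^ (Module.finrank F W' : ℝ) :=
    Real.rpow_pos_of_pos hq0 _
  have hr : (Fintype.card F : ℝ) ^ (Module.finrank F W' : ℝ) /
      (Fintype.card F : ℝ) ^ (Module.finrank F (S.map φ) : ℝ) ≤ (Fintype.card F : ℝ) ^ f := by
    rw [← Real.rpow_sub hq0]
    exact Real.rpow_le_rpow_of_exponent_le hq hf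
  calc (∑ w ∈ IF, g (y0 + w)) / (Fintype.card F : ℝ) ^ (Module.finrank F (S.map φ) : ℝ)
      ≤ (∑ w ∈ WF, g w) / (Fintype.card F : ℝ) ^ (Module.finrank F (S.map φ) : ℝ) :=
        div_le_div_of_nonneg_right hle hA.le
    _ = ((Fintype.card F : ℝ) ^ (Module.finrank F W' : ℝ) /
          (Fintype.card F : ℝ) ^ (Module.finrank F (S.map φ) : ℝ)) *
        ((∑ w ∈ WF, g w) / (Fintype.card F : ℝ) ^ (Module.finrank F W' : ℝ)) := by
        field_simp
    _ ≤ (Fintype.card F : ℝ) ^ f *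
        ((∑ w ∈ WF, g w) / (Fintype.card F : ℝ) ^ (Module.finrank F W' : ℝ)) :=
        mul_le_mul_of_nonneg_right hr (div_nonneg hsum0 hB.le)

theorem avg_surj {V W : Type} [AddCommGroup V] [AddCommGroup W] [Fintype V] [Fintype W]
    [Module F V] [Module F W] (φ : V →ₗ[F] W) (WF : Finset W)
    (hWF : ∀ w, w ∈ WF ↔ w ∈ LinearMap.range φ) (g : W → ℝ) :
    avg Finset.univ (fun v => g (φ v)) = avg WF g := by
  refine ap_avg (⊤ : Submodule F V) φ Finset.univ (fun v => by simp) WF (fun w => ?_) g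
  rw [hWF, LinearMap.range_eq_map]

end Pool.Agent.Helper92.AR
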