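import Pool.Agent.Helper92.AR.Tensor

/-!
AR-G1. The canonical construction commutes with algebra maps `φ : A →ₐ[F] A'`: `tmat_map`, `tev_map`,
`RingHom.map_matrix_mul`, `Matrix.map_pow`, `map_sum`, `AlgHom.commutes`; induction on the number of
steps for `canP`.
-/

set_option autoImplicit false

namespace Pool.Agent.Helper92.AR

open Polynomial Finset
open Pool.Agent.Helper83.AH (IsML)

variable {s n : ℕ} {F : Type} [Field F] {A A' : Type} [CommRing A] [Algebra F A] [CommRing A']
  [Algebra F A']

private theorem cm_mulVec (φ : A →ₐ[F] A') (M : Matrix (Fin n) (Fin n) A) (z : Fin n → A) :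
    (M.map φ).mulVec (fun a => φ (z a)) = fun a => φ (M.mulVec z a) := by
  funext a
  simp only [Matrix.mulVec, dotProduct, Matrix.map_apply, map_sum, map_mul]

private theorem cm_canE (φ : A →ₐ[F] A') (t : (Fin (s + 1) → Fin n) → Fin n → F)
    (x : Fin (s + 1) → Fin n → F) (b : Fin (s + 1)) (p : Fin (s + 1) → Fin n → A) :
    canE t x b (fun i a => φ (p i a)) = (canE t x b p).map φ := by
  unfold canE
  rw [tmat_map]
  ext l a
  simp only [Matrix.sub_apply, Matrix.map_apply, map_sub, AlgHom.commutes]

theorem canZ_map (φ : A →ₐ[F] A') (t : (Fin (s + 1) → Fin n) → Fin n → F)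
    (x : Fin (s + 1) → Fin n → F) (N : Fin (s + 1) → Matrix (Fin n) (Fin n) F)
    (b : Fin (s + 1)) (p : Fin (s + 1) → Fin n → A) (z : Fin n → A) :
    canZ t x N b (fun i a => φ (p i a)) (fun a => φ (z a)) = fun a => φ (canZ t x N b p z a) := by
  unfold canZ
  rw [cm_canE]
  have h1 : (∑ i ∈ Finset.range (s + 1),
      (-((N b).map (algebraMap F A') * (canE t x b p).map φ)) ^ i) =
      (∑ i ∈ Finset.range (s + 1), (-((N b).map (algebraMap F A) * canE t x b p)) ^ i).map φ := by
    have h2 : (N b).map (algebraMap F A') = ((N b).map (algebraMap F A)).map φ := by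
      ext l a
      simp only [Matrix.map_apply, AlgHom.commutes]
    rw [h2]
    have h3 : ∀ M : Matrix (Fin n) (Fin n) A, M.map φ = RingHom.mapMatrix (φ : A →+* A') M :=
      fun _ => rfl
    simp only [h3, map_sum, map_pow, map_neg, map_mul]
  rw [h1, cm_mulVec]

theorem canP_map (φ : A →ₐ[F] A') (t : (Fin (s + 1) → Fin n) → Fin n → F)
    (x : Fin (s + 1) → Fin n → F) (N : Fin (s + 1) → Matrix (Fin n) (Fin n) F)
    (z : Fin (s + 1) → Fin n → A) (j : ℕ) :
    canP t x N (fun i a => φ (z i a)) j = fun i a => φ (canP t x N z j i a) := by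
  induction j with
  | zero =>
    funext i a
    simp only [canP, AlgHom.commutes]
  | succ j ih =>
    by_cases hj : j < s + 1
    · have h1 : canP t x N (fun i a => φ (z i a)) (j + 1) =
          Function.update (canP t x N (fun i a => φ (z i a)) j) ⟨j, hj⟩
            (fun a => algebraMap F A' (x ⟨j, hj⟩ a) +
              canZ t x N ⟨j, hj⟩ (canP t x N (fun i a => φ (z i a)) j)
                (fun a => φ (z ⟨j, hj⟩ a)) a) := by
        rw [canP, dif_pos hj]
      have h2 : canP t x N z (j + 1) =
          Function.update (canP t x N z j) ⟨j, hj⟩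
            (fun a => algebraMap F A (x ⟨j, hj⟩ a) +
              canZ t x N ⟨j, hj⟩ (canP t x N z j) (z ⟨j, hj⟩) a) := by
        rw [canP, dif_pos hj]
      rw [h1, h2, ih, canZ_map]
      funext i a
      by_cases hi : i = ⟨j, hj⟩
      · subst hi
        simp only [Function.update_self, map_add, AlgHom.commutes]
      · simp only [Function.update_of_ne hi]
    · have h1 : canP t x N (fun i a => φ (z i a)) (j + 1) =
          canP t x N (fun i a => φ (z i a)) j := by
        rw [canP, dif_neg hj]
      have h2 : canP t x N z (j + 1) = canP t x N z j := by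
        rw [canP, dif_neg hj]
      rw [h1, h2, ih]

theorem canV_map (φ : A →ₐ[F] A') (t : (Fin (s + 1) → Fin n) → Fin n → F)
    (x : Fin (s + 1) → Fin n → F) (N : Fin (s + 1) → Matrix (Fin n) (Fin n) F)
    (z : Fin (s + 1) → Fin n → A) :
    canV t x N (fun i a => φ (z i a)) = fun l => φ (canV t x N z l) := by
  unfold canV
  rw [canP_map, canZ_map, tmat_map, cm_mulVec]

theorem canPhi_map (φ : A →ₐ[F] A') (t : (Fin (s + 1) → Fin n) → Fin n → F)
    (x : Fin (s + 1) → Fin n → F) (N : Fin (s + 1) → Matrix (Fin n) (Fin n) F)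
    (z : Fin (s + 1) → Fin n → A) (u : Fin n → A) :
    canPhi t x N (fun i a => φ (z i a)) (fun a => φ (u a)) = φ (canPhi t x N z u) := by
  unfold canPhi
  rw [canV_map, map_sum]
  simp only [map_mul]

end Pool.Agent.Helper92.AR
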