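import Pool.Agent.Helper92.AR.BoxId
import Pool.Agent.Helper92.AR.CanMap

/-!
AR-G4. The box sum of `Phi` is `T1`.  Let `A3 = MvPolynomial (Fin s) F[X]` as an `F`-algebra,
`Z3 j a = C (zz (pry y) j a) + (if j < s then X_j * C (C ((prj t x N j *ᵥ h j) a)) else 0)`,
`U3 l = C (toPoly (prjO u) l)`, `β = canPhi t x N Z3 U3`.
(1) The map `ev_J : A3 →ₐ[F] F[X]`, `Y_j ↦ if j ∈ J then X else 0` (`MvPolynomial.eval` / `aeval` restricted
to `F`) sends `Z3` to `zz (pry (addz y (1_J h)))` (linearity of `prj *ᵥ` and of `toPoly`, coefficient `0`) and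
`U3` to `toPoly (prjO u)`; so by `canPhi_map` its value on `β` has coefficient `s` equal to
`Phi t x N (addz y (1_J h)) u`.
(2) The map `MvPolynomial.mapAlgHom` of `X ↦ 0` (`Polynomial.aeval 0`, `F[X] →ₐ[F] F`) sends `Z3` to
`zY t x N (join h (y last 0) (u 0))` and `U3` to `C (prjO (u 0))`, because `zz` in slot `j < s` is divisible by
`X` and in the last slot has constant coefficient `prj *ᵥ (y last 0)`; so `T1` is the coefficient
`ind univ` of the image of `β`, which is `(coeff (ind univ) β).coeff 0`.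
(3) `box_id β`.
-/

set_option autoImplicit false

namespace Pool.Agent.Helper92.AR

open Polynomial Finset
open Pool.Agent.Helper83.AH (IsML)

variable {s n : ℕ} {F : Type} [Field F]

private theorem bp_toPoly {l : ℕ} (c : Fin l → Fin n → F) (a : Fin n) :
    (toPoly c : Fin n → F[X]) a = ∑ i : Fin l, C (c i a) * X ^ (i : ℕ) := rfl

private theorem bp_toPoly_zero (c : Fin (s + 1) → Fin n → F) (a : Fin n) :
    ((toPoly c : Fin n → F[X]) a).coeff 0 = c 0 a := by
  rw [bp_toPoly, Fin.sum_univ_succ, coeff_add, finsetSum_coeff]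
  simp

private theorem bp_toPoly_add (c c' : Fin (s + 1) → Fin n → F) (a : Fin n) (r : F)
    (h0 : c' 0 a = c 0 a + r) (h1 : ∀ i : Fin s, c' i.succ a = c i.succ a) :
    (toPoly c' : Fin n → F[X]) a = (toPoly c : Fin n → F[X]) a + C r := by
  rw [bp_toPoly, bp_toPoly, Fin.sum_univ_succ, Fin.sum_univ_succ, h0]
  simp only [h1, C_add]
  simp only [Fin.val_zero, pow_zero, mul_one]
  ring

/-- the lifted parameters -/
private noncomputable def Z3 (t : (Fin (s + 1) → Fin n) → Fin n → F)
    (x : Fin (s + 1) → Fin n → F) (N : Fin (s + 1) → Matrix (Fin n) (Fin n) F)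
    (y : Fin (s + 1) → Fin (s + 1) → Fin n → F) (h : Fin s → Fin n → F) :
    Fin (s + 1) → Fin n → MvPolynomial (Fin s) F[X] := fun j a =>
  MvPolynomial.C (zz (pry t x N y) j a) + (if hj : (j : ℕ) < s then
    MvPolynomial.X ⟨j, hj⟩ * MvPolynomial.C (C ((prj t x N j).mulVec (h ⟨j, hj⟩) a)) else 0)

private theorem bp_ev (t : (Fin (s + 1) → Fin n) → Fin n → F)
    (x : Fin (s + 1) → Fin n → F) (N : Fin (s + 1) → Matrix (Fin n) (Fin n) F)
    (y : Fin (s + 1) → Fin (s + 1) → Fin n → F) (h : Fin s → Fin n → F) (J : Finset (Fin s))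
    (j : Fin (s + 1)) (a : Fin n) :
    MvPolynomial.eval (fun j => if j ∈ J then (X : F[X]) else 0) (Z3 t x N y h j a) =
      zz (pry t x N (addz y fun j => if j ∈ J then h j else 0)) j a := by
  unfold Z3
  rw [map_add, MvPolynomial.eval_C]
  by_cases hj : (j : ℕ) < s
  · have hne : j ≠ Fin.last s := by
      intro e
      rw [e] at hj
      simp at hj
    rw [dif_pos hj, map_mul, MvPolynomial.eval_X, MvPolynomial.eval_C]
    unfold zz
    rw [if_neg hne, if_neg hne]
    rw [bp_toPoly_add (pry t x N y j) (pry t x N (addz y fun j => if j ∈ J then h j else 0) j) a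
      ((prj t x N j).mulVec (if (⟨j, hj⟩ : Fin s) ∈ J then h ⟨j, hj⟩ else 0) a)]
    · rw [mul_add]
      congr 1
      by_cases hJ : (⟨j, hj⟩ : Fin s) ∈ J
      · rw [if_pos hJ, if_pos hJ]
      · rw [if_neg hJ, if_neg hJ, Matrix.mulVec_zero]
        simp
    · unfold pry addz
      rw [dif_pos hj, if_pos (by simp), Matrix.mulVec_add]
      rfl
    · intro i
      unfold pry addz
      rw [dif_pos hj, if_neg (by simp)]
  · rw [dif_neg hj, map_zero, add_zero]
    have : pry t x N (addz y fun j => if j ∈ J then h j else 0) j = pry t x N y j := by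
      unfold pry addz
      simp only [dif_neg hj]
    unfold zz
    rw [this]

private theorem bp_map (t : (Fin (s + 1) → Fin n) → Fin n → F)
    (x : Fin (s + 1) → Fin n → F) (N : Fin (s + 1) → Matrix (Fin n) (Fin n) F)
    (y : Fin (s + 1) → Fin (s + 1) → Fin n → F) (h : Fin s → Fin n → F) (w : Fin n → F)
    (j : Fin (s + 1)) (a : Fin n) :
    MvPolynomial.map (aeval (0 : F) : F[X] →ₐ[F] F).toRingHom (Z3 t x N y h j a) =
      zY t x N (join h (y (Fin.last s) 0) w) j a := by
  unfold Z3 zY
  have e0 : ∀ q : F[X], (aeval (0 : F) : F[X] →ₐ[F] F).toRingHom q = q.coeff 0 := by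
    intro q
    exact (coeff_zero_eq_aeval_zero q).symm
  rw [map_add, MvPolynomial.map_C, e0]
  by_cases hj : (j : ℕ) < s
  · have hne : j ≠ Fin.last s := by
      intro e
      rw [e] at hj
      simp at hj
    rw [dif_pos hj, dif_pos hj, map_mul, MvPolynomial.map_X, MvPolynomial.map_C, e0]
    unfold zz
    rw [if_neg hne, mul_coeff_zero, coeff_X_zero, zero_mul, map_zero, zero_add, coeff_C_zero]
    have : join h (y (Fin.last s) 0) w j.castSucc = h ⟨j, hj⟩ := by
      unfold join
      rw [Fin.snoc_castSucc]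
      have hc : (Fin.snoc (α := fun _ => Fin n → F) h (y (Fin.last s) 0) :
        Fin (s + 1) → Fin n → F) (Fin.castSucc ⟨j, hj⟩) = h ⟨j, hj⟩ := by
        rw [Fin.snoc_castSucc]
      exact hc
    rw [this]
  · have hl : j = Fin.last s := by
      apply Fin.ext
      have := j.2
      simp only [Fin.val_last]
      omega
    rw [dif_neg hj, dif_neg hj, map_zero, add_zero]
    subst hl
    unfold zz
    rw [if_pos rfl, bp_toPoly_zero]
    have : join h (y (Fin.last s) 0) w (Fin.last s).castSucc = y (Fin.last s) 0 := by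
      unfold join
      rw [Fin.snoc_castSucc, Fin.snoc_last]
    rw [this]
    rfl

theorem box_phi (t : (Fin (s + 1) → Fin n) → Fin n → F) (x : Fin (s + 1) → Fin n → F)
    (N : Fin (s + 1) → Matrix (Fin n) (Fin n) F) (y : Fin (s + 1) → Fin (s + 1) → Fin n → F)
    (u : Fin (s + 1) → Fin n → F) (h : Fin s → Fin n → F) :
    ∑ J : Finset (Fin s), (-1 : F) ^ (s - J.card) *
      Phi t x N (addz y fun j => if j ∈ J then h j else 0) u =
      T1 t x N (join h (y (Fin.last s) 0) (u 0)) := by
  classical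
  have h3 := box_id (canPhi t x N (Z3 t x N y h) fun l => (MvPolynomial.C
    ((toPoly (fun i => (prjO t x N).mulVec (u i)) : Fin n → F[X]) l) :
      MvPolynomial (Fin s) F[X]))
  have h1 : ∀ J : Finset (Fin s),
      (MvPolynomial.eval (fun j => if j ∈ J then (X : F[X]) else 0)
        (canPhi t x N (Z3 t x N y h) fun l => (MvPolynomial.C
          ((toPoly (fun i => (prjO t x N).mulVec (u i)) : Fin n → F[X]) l) :
            MvPolynomial (Fin s) F[X]))).coeff s =
      Phi t x N (addz y fun j => if j ∈ J then h j else 0) u := by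
    intro J
    let φ : MvPolynomial (Fin s) F[X] →ₐ[F] F[X] :=
      (MvPolynomial.aeval (fun j : Fin s => if j ∈ J then (X : F[X]) else 0)).restrictScalars F
    have hφ : ∀ q, φ q = MvPolynomial.eval (fun j => if j ∈ J then (X : F[X]) else 0) q := by
      intro q
      exact congrArg (fun e : MvPolynomial (Fin s) F[X] →+* F[X] => e q)
        (MvPolynomial.coe_aeval_eq_eval _)
    have h4 := canPhi_map φ t x N (Z3 t x N y h) fun l => (MvPolynomial.C
      ((toPoly (fun i => (prjO t x N).mulVec (u i)) : Fin n → F[X]) l) :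
        MvPolynomial (Fin s) F[X])
    simp only [hφ, bp_ev, MvPolynomial.eval_C] at h4
    rw [← h4]
    rfl
  have h2 : (MvPolynomial.coeff (ind Finset.univ)
      (canPhi t x N (Z3 t x N y h) fun l => (MvPolynomial.C
        ((toPoly (fun i => (prjO t x N).mulVec (u i)) : Fin n → F[X]) l) :
          MvPolynomial (Fin s) F[X]))).coeff 0 = T1 t x N (join h (y (Fin.last s) 0) (u 0)) := by
    let φ : MvPolynomial (Fin s) F[X] →ₐ[F] MvPolynomial (Fin s) F :=
      MvPolynomial.mapAlgHom (aeval (0 : F) : F[X] →ₐ[F] F)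
    have hφ : ∀ q, φ q = MvPolynomial.map (aeval (0 : F) : F[X] →ₐ[F] F).toRingHom q := by
      intro q
      rfl
    have h4 := canPhi_map φ t x N (Z3 t x N y h) fun l => (MvPolynomial.C
      ((toPoly (fun i => (prjO t x N).mulVec (u i)) : Fin n → F[X]) l) :
        MvPolynomial (Fin s) F[X])
    simp only [hφ, bp_map t x N y h (u 0), MvPolynomial.map_C] at h4
    have h5 := congrArg (MvPolynomial.coeff (ind Finset.univ)) h4
    rw [MvPolynomial.coeff_map] at h5
    have e0 : ∀ q : F[X], (aeval (0 : F) : F[X] →ₐ[F] F).toRingHom q = q.coeff 0 := by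
      intro q
      exact (coeff_zero_eq_aeval_zero q).symm
    simp only [e0, bp_toPoly_zero] at h5
    rw [← h5]
    unfold T1
    have : join h (y (Fin.last s) 0) (u 0) (Fin.last (s + 1)) = u 0 := by
      unfold join
      rw [Fin.snoc_last]
    rw [this]
  rw [← h2, ← h3]
  refine Finset.sum_congr rfl fun J _ => ?_
  rw [← h1 J]

end Pool.Agent.Helper92.AR
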