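import Pool.Agent.Helper92.AR.Tensor

/-!
AR-T3. Conversion between tensors and multilinear functions.
`tform_isML`: slot `last`: linear in `h last`; slot `b.castSucc`: `Fin.init (update h b.castSucc v) =
update (Fin.init h) b v` and `tev_update`.
`tform_tens`: a function which is linear in every slot is determined by its values on tuples of unit
vectors: package `f` as a `MultilinearMap F (fun _ => Fin n → F) F` and expand
`h j = ∑_a h j a • Pi.single a 1` with `MultilinearMap.map_sum` and `map_smul_univ`, or extend
`Basis.ext_multilinear`; alternatively use the uniqueness: two `IsML univ` functions which agree on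
unit vectors are equal (induct over slots).
-/

set_option autoImplicit false

namespace Pool.Agent.Helper92.AR

open Polynomial Finset
open Pool.Agent.Helper83.AH (IsML)

variable {k n : ℕ} {F : Type} [Field F]

theorem tform_isML (t : (Fin k → Fin n) → Fin n → F) : IsML F Finset.univ (tform t) := by
  refine ⟨fun x y h => ?_, fun i _ x v w => ?_, fun i _ x c v => ?_⟩
  · have h1 : x = y := funext fun i => h i (Finset.mem_univ i)
    rw [h1]
  · induction i using Fin.lastCases with
    | last =>
      unfold tform
      rw [← Finset.sum_add_distrib]
      refine Finset.sum_congr rfl fun l _ => ?_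
      rw [Fin.init_update_last, Fin.init_update_last, Fin.init_update_last,
        Function.update_self, Function.update_self, Function.update_self, Pi.add_apply, add_mul]
    | cast b =>
      unfold tform
      rw [← Finset.sum_add_distrib]
      refine Finset.sum_congr rfl fun l _ => ?_
      have hne : Fin.last k ≠ b.castSucc := (Fin.castSucc_lt_last b).ne'
      rw [Fin.init_update_castSucc, Fin.init_update_castSucc, Fin.init_update_castSucc,
        tev_update, tev_update, tev_update, Matrix.mulVec_add, Function.update_of_ne hne,
        Function.update_of_ne hne, Function.update_of_ne hne, Pi.add_apply, mul_add]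
  · induction i using Fin.lastCases with
    | last =>
      unfold tform
      rw [smul_eq_mul, Finset.mul_sum]
      refine Finset.sum_congr rfl fun l _ => ?_
      rw [Fin.init_update_last, Fin.init_update_last,
        Function.update_self, Function.update_self, Pi.smul_apply, smul_eq_mul, mul_assoc]
    | cast b =>
      unfold tform
      rw [smul_eq_mul, Finset.mul_sum]
      refine Finset.sum_congr rfl fun l _ => ?_
      have hne : Fin.last k ≠ b.castSucc := (Fin.castSucc_lt_last b).ne'
      rw [Fin.init_update_castSucc, Fin.init_update_castSucc,
        tev_update, tev_update, Matrix.mulVec_smul, Function.update_of_ne hne,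
        Function.update_of_ne hne, Pi.smul_apply, smul_eq_mul]
      ring

/-- the multilinear map of a function which is linear in every slot -/
private def toML {m : ℕ} {f : (Fin m → Fin n → F) → F} (hf : IsML F Finset.univ f) :
    MultilinearMap F (fun _ : Fin m => Fin n → F) F where
  toFun := f
  map_update_add' := by
    intro inst x i v w
    obtain rfl : inst = instDecidableEqFin m := Subsingleton.elim _ _
    exact hf.add i (Finset.mem_univ i) x v w
  map_update_smul' := by
    intro inst x i c v
    obtain rfl : inst = instDecidableEqFin m := Subsingleton.elim _ _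
    exact hf.smul i (Finset.mem_univ i) x c v

private theorem isML_ext {m : ℕ} {f g : (Fin m → Fin n → F) → F} (hf : IsML F Finset.univ f)
    (hg : IsML F Finset.univ g)
    (h : ∀ i : Fin m → Fin n, f (fun j => Pi.single (i j) 1) = g (fun j => Pi.single (i j) 1)) :
    f = g := by
  have h1 : toML hf = toML hg := by
    refine Module.Basis.ext_multilinear (fun _ : Fin m => Pi.basisFun F (Fin n)) fun i => ?_
    have h2 := h i
    have h3 : (fun j => (Pi.basisFun F (Fin n)) (i j)) =
        fun j : Fin m => (Pi.single (i j) 1 : Fin n → F) := by
      funext j
      rw [Pi.basisFun_apply]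
    change f (fun j => (Pi.basisFun F (Fin n)) (i j)) = g (fun j => (Pi.basisFun F (Fin n)) (i j))
    rw [h3]
    exact h2
  funext x
  exact DFunLike.congr_fun h1 x

theorem tform_tens {f : (Fin (k + 1) → Fin n → F) → F} (hf : IsML F Finset.univ f) :
    tform (tens f) = f := by
  refine isML_ext (tform_isML _) hf fun i => ?_
  have h1 : ∀ l, tev (A := F) (tens f) (Fin.init (α := fun _ => Fin n → F)
      (fun j => (Pi.single (i j) 1 : Fin n → F))) l = tens f (fun j => i j.castSucc) l := by
    intro l
    unfold tev
    rw [Finset.sum_eq_single (fun j => i j.castSucc)]
    · have h2 : ∏ j, (Fin.init (α := fun _ => Fin n → F)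
          (fun j => (Pi.single (i j) 1 : Fin n → F))) j (i j.castSucc) = 1 := by
        refine Finset.prod_eq_one fun j _ => ?_
        rw [Fin.init, Pi.single_eq_same]
      rw [h2, mul_one]
      rfl
    · intro i' _ hi'
      obtain ⟨j, hj⟩ := Function.ne_iff.1 hi'
      have h2 : ∏ j, (Fin.init (α := fun _ => Fin n → F)
          (fun j => (Pi.single (i j) 1 : Fin n → F))) j (i' j) = 0 := by
        refine Finset.prod_eq_zero (Finset.mem_univ j) ?_
        rw [Fin.init, Pi.single_eq_of_ne hj]
      rw [h2, mul_zero]
    · intro h
      exact absurd (Finset.mem_univ _) h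
  unfold tform
  rw [Finset.sum_eq_single (i (Fin.last k))]
  · rw [h1]
    beta_reduce
    rw [Pi.single_eq_same, one_mul]
    unfold tens
    congr 1
    funext j
    induction j using Fin.lastCases with
    | last => rw [Fin.snoc_last]
    | cast b => rw [Fin.snoc_castSucc]
  · intro l _ hl
    beta_reduce
    rw [Pi.single_eq_of_ne hl, zero_mul]
  · intro h
    exact absurd (Finset.mem_univ _) h

end Pool.Agent.Helper92.AR
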