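import Pool.Agent.Helper92.AR.GCS
import Pool.Agent.Helper92.AR.BoxPhi
import Pool.Agent.Helper92.AR.Bias
import Pool.Agent.Helper92.AR.Form

/-!
AR-G5. Lower bound for the bias of the new tensor.  Apply `gcs` with `V = Fin n → F` and
`W = (Fin (s+1) → Fin (s+1) → Fin n → F) × (Fin (s+1) → Fin n → F)`, `Φ z (y,u) = Phi t x N (addz y z) u`.
Left side: for every `z`, `y ↦ addz y z` is a bijection, so the average over `(z,y,u)` is the average over
`(y,u)` of `ψ (Phi y u)`.  Right side: `addz y (z + 1_J h) = addz (addz y z) (1_J h)`, so by `box_phi` the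
exponent is `T1 t x N (join h (y last 0) (u 0))` (`addz` does not change the last slot).  The average over
`z, h, y, u` is the average over `h, v, w` of `ψ (T1 (join h v w))`, i.e. (bijection `join`) over
`Fin (s+2) → Fin n → F`; as `T1` is multilinear, `T1 = tform (tens T1)` (`tform_tens`, hypothesis `hT1`),
and `bias_sum` gives `q^n |zset| / q^((s+2) n) = |zset| / q^((s+1) n)`.
-/

set_option autoImplicit false

namespace Pool.Agent.Helper92.AR

open Polynomial Finset
open Pool.Agent.Helper83.AH (IsML)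

variable {s n : ℕ} {F : Type} [Field F] [Fintype F]

theorem g5_avg_hom {A B : Type} [AddCommGroup A] [AddCommGroup B] [Fintype A] [Fintype B]
    (π : A →+ B) (hπ : Function.Surjective π) (f : B → ℂ) :
    avgC (fun a => f (π a)) = avgC f := by
  classical
  have hfib : ∀ b : B, (Finset.univ.filter fun a => π a = b).card =
      (Finset.univ.filter fun a => π a = 0).card := fun b =>
    AddMonoidHom.card_fiber_eq_of_mem_range π (hπ b) (hπ 0)
  obtain ⟨c, hc⟩ : ∃ c, c = (Finset.univ.filter fun a => π a = 0).card := ⟨_, rfl⟩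
  rw [← hc] at hfib
  have hcard : Fintype.card A = Fintype.card B * c := by
    have h1 := Finset.card_eq_sum_card_fiberwise (f := π) (s := (Finset.univ : Finset A))
      (t := (Finset.univ : Finset B)) (fun a _ => Finset.mem_coe.2 (Finset.mem_univ _))
    rw [Finset.card_univ] at h1
    rw [h1, Finset.sum_congr rfl fun b _ => hfib b, Finset.sum_const, Finset.card_univ,
      smul_eq_mul]
  have hsum : ∑ a : A, f (π a) = (c : ℂ) * ∑ b : B, f b := by
    rw [← Finset.sum_fiberwise_of_maps_to (g := π) (t := (Finset.univ : Finset B))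
      (fun a _ => Finset.mem_univ _), Finset.mul_sum]
    apply Finset.sum_congr rfl
    intro b _
    rw [Finset.sum_congr rfl (g := fun _ => f b)
      (fun a ha => by rw [(Finset.mem_filter.1 ha).2]), Finset.sum_const, hfib b, nsmul_eq_mul]
  have hA0 : 0 < Fintype.card A := Fintype.card_pos_iff.2 ⟨0⟩
  have hc0 : (c : ℂ) ≠ 0 := by
    intro h
    have h2 : c = 0 := by exact_mod_cast h
    rw [h2, mul_zero] at hcard
    omega
  unfold avgC
  rw [hsum, hcard, Nat.cast_mul, mul_comm (Fintype.card B : ℂ), mul_div_mul_left _ _ hc0]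

omit [Fintype F] in
theorem g5_addz_addz (y : Fin (s + 1) → Fin (s + 1) → Fin n → F) (z z' : Fin s → Fin n → F) :
    addz (addz y z) z' = addz y (fun j => z j + z' j) := by
  funext j i
  unfold addz
  by_cases hj : (j : ℕ) < s
  · by_cases hi : (i : ℕ) = 0
    · simp only [dif_pos hj, if_pos hi, add_assoc]
    · simp only [dif_pos hj, if_neg hi]
  · simp only [dif_neg hj]

omit [Fintype F] in
theorem g5_addz_zero (y : Fin (s + 1) → Fin (s + 1) → Fin n → F) :
    addz y (fun _ => 0) = y := by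
  funext j i
  unfold addz
  split_ifs
  · rw [add_zero]
  · rfl
  · rfl

omit [Fintype F] in
theorem g5_addz_last (y : Fin (s + 1) → Fin (s + 1) → Fin n → F) (z : Fin s → Fin n → F) :
    addz y z (Fin.last s) = y (Fin.last s) := by
  funext i
  unfold addz
  rw [dif_neg]
  rw [Fin.val_last]
  exact lt_irrefl s

/-- translation of the parameters -/
noncomputable def g5_tr (z : Fin s → Fin n → F) :
    Equiv.Perm (Fin (s + 1) → Fin (s + 1) → Fin n → F) where
  toFun y := addz y z
  invFun y := addz y fun j => -z j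
  left_inv y := by
    show addz (addz y z) (fun j => -z j) = y
    rw [g5_addz_addz]
    simp only [add_neg_cancel]
    exact g5_addz_zero y
  right_inv y := by
    show addz (addz y fun j => -z j) z = y
    rw [g5_addz_addz]
    simp only [neg_add_cancel]
    exact g5_addz_zero y

omit [Fintype F] in
theorem g5_join_add (h h' : Fin s → Fin n → F) (v v' u u' : Fin n → F) :
    join (h + h') (v + v') (u + u') = join h v u + join h' v' u' := by
  funext i
  unfold join
  refine Fin.lastCases ?_ (fun i => ?_) i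
  · rw [Pi.add_apply, Fin.snoc_last, Fin.snoc_last, Fin.snoc_last]
  · rw [Pi.add_apply, Fin.snoc_castSucc, Fin.snoc_castSucc, Fin.snoc_castSucc]
    refine Fin.lastCases ?_ (fun i => ?_) i
    · rw [Fin.snoc_last, Fin.snoc_last, Fin.snoc_last]
    · rw [Fin.snoc_castSucc, Fin.snoc_castSucc, Fin.snoc_castSucc, Pi.add_apply]

/-- the parameters of the box -/
def g5_pi (s n : ℕ) (F : Type) [Field F] : ((Fin s → Fin n → F) × (Fin s → Fin n → F) ×
    ((Fin (s + 1) → Fin (s + 1) → Fin n → F) × (Fin (s + 1) → Fin n → F))) →+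
      (Fin (s + 2) → Fin n → F) :=
  AddMonoidHom.mk' (fun a => join a.2.1 (a.2.2.1 (Fin.last s) 0) (a.2.2.2 0)) (by
    rintro ⟨z, h, y, u⟩ ⟨z', h', y', u'⟩
    exact g5_join_add h h' (y (Fin.last s) 0) (y' (Fin.last s) 0) (u 0) (u' 0))

omit [Fintype F] in
theorem g5_pi_surj : Function.Surjective (g5_pi s n F) := by
  intro w
  refine ⟨(0, fun j => w j.castSucc.castSucc, (fun _ _ => w (Fin.last s).castSucc,
    fun _ => w (Fin.last (s + 1)))), ?_⟩
  show join (fun j : Fin s => w j.castSucc.castSucc) (w (Fin.last s).castSucc)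
    (w (Fin.last (s + 1))) = w
  funext i
  unfold join
  refine Fin.lastCases ?_ (fun i => ?_) i
  · rw [Fin.snoc_last]
  · rw [Fin.snoc_castSucc]
    refine Fin.lastCases ?_ (fun i => ?_) i
    · rw [Fin.snoc_last]
    · rw [Fin.snoc_castSucc]

omit [Fintype F] in
open Classical in
theorem g5_inner (ψ : AddChar F ℂ) (t : (Fin (s + 1) → Fin n) → Fin n → F)
    (x : Fin (s + 1) → Fin n → F) (N : Fin (s + 1) → Matrix (Fin n) (Fin n) F)
    (a : (Fin s → Fin n → F) × (Fin s → Fin n → F) ×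
      ((Fin (s + 1) → Fin (s + 1) → Fin n → F) × (Fin (s + 1) → Fin n → F))) :
    ψ (∑ J : Finset (Fin s), (-1 : F) ^ (s - J.card) *
      Phi t x N (addz a.2.2.1 (fun j => a.1 j + if j ∈ J then a.2.1 j else 0)) a.2.2.2) =
      ψ (T1 t x N (g5_pi s n F a)) := by
  obtain ⟨z, h, y, u⟩ := a
  have h0 : g5_pi s n F (z, h, y, u) = join h (y (Fin.last s) 0) (u 0) := rfl
  rw [h0]
  have h2 := box_phi t x N (addz y z) u h
  rw [g5_addz_last] at h2
  rw [← h2]
  have h3 : ∀ J : Finset (Fin s),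
      addz (addz y z) (fun j => if j ∈ J then h j else 0) =
        addz y (fun j => z j + if j ∈ J then h j else 0) := fun J => g5_addz_addz _ _ _
  simp only [h3]

theorem g5_left (ψ : AddChar F ℂ) (t : (Fin (s + 1) → Fin n) → Fin n → F)
    (x : Fin (s + 1) → Fin n → F) (N : Fin (s + 1) → Matrix (Fin n) (Fin n) F) :
    avgC (fun a : (Fin s → Fin n → F) ×
      ((Fin (s + 1) → Fin (s + 1) → Fin n → F) × (Fin (s + 1) → Fin n → F)) =>
        ψ (Phi t x N (addz a.2.1 a.1) a.2.2)) =
      avgC (fun a : (Fin (s + 1) → Fin (s + 1) → Fin n → F) × (Fin (s + 1) → Fin n → F) =>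
        ψ (Phi t x N a.1 a.2)) := by
  unfold avgC
  rw [Fintype.sum_prod_type]
  have h1 : ∀ z : Fin s → Fin n → F,
      ∑ w : (Fin (s + 1) → Fin (s + 1) → Fin n → F) × (Fin (s + 1) → Fin n → F),
        ψ (Phi t x N (addz w.1 z) w.2) =
      ∑ w : (Fin (s + 1) → Fin (s + 1) → Fin n → F) × (Fin (s + 1) → Fin n → F),
        ψ (Phi t x N w.1 w.2) := by
    intro z
    rw [Fintype.sum_prod_type_right, Fintype.sum_prod_type_right]
    apply Finset.sum_congr rfl
    intro u _
    exact Equiv.sum_comp (g5_tr z) fun y => ψ (Phi t x N y u)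
  rw [Finset.sum_congr rfl fun z _ => h1 z, Finset.sum_const, Finset.card_univ, nsmul_eq_mul,
    Fintype.card_prod, Nat.cast_mul]
  have h2 : (Fintype.card (Fin s → Fin n → F) : ℂ) ≠ 0 := by
    have : 0 < Fintype.card (Fin s → Fin n → F) := Fintype.card_pos_iff.2 ⟨0⟩
    exact Nat.cast_ne_zero.2 this.ne'
  rw [mul_div_mul_left _ _ h2]

theorem g5_right (ψ : AddChar F ℂ) (hψ : ψ ≠ 1) (t : (Fin (s + 1) → Fin n) → Fin n → F)
    (x : Fin (s + 1) → Fin n → F) (N : Fin (s + 1) → Matrix (Fin n) (Fin n) F)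
    (hT1 : IsML F Finset.univ (T1 t x N)) :
    avgC (fun w => ψ (T1 t x N w)) =
      ((((zset (tens (T1 t x N))).card : ℝ) / (Fintype.card F : ℝ) ^ ((s + 1) * n) : ℝ) : ℂ) := by
  have h3 := bias_sum ψ hψ (tens (T1 t x N))
  rw [tform_tens hT1] at h3
  obtain ⟨Z, hZ⟩ : ∃ Z, Z = (zset (tens (T1 t x N))).card := ⟨_, rfl⟩
  rw [← hZ] at h3 ⊢
  have hc : Fintype.card (Fin (s + 1 + 1) → Fin n → F) = Fintype.card F ^ (n * (s + 1 + 1)) := by
    rw [Fintype.card_fun, Fintype.card_fun, Fintype.card_fin, Fintype.card_fin, ← pow_mul]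
  have hq : (Fintype.card F : ℂ) ≠ 0 := Nat.cast_ne_zero.2 Fintype.card_pos.ne'
  have h4 : avgC (fun w => ψ (T1 t x N w)) =
      (Fintype.card F : ℂ) ^ n * (Z : ℂ) / ((Fintype.card F ^ (n * (s + 1 + 1)) : ℕ) : ℂ) := by
    unfold avgC
    rw [h3, hc]
  rw [h4, Nat.cast_pow, Complex.ofReal_div, Complex.ofReal_pow, Complex.ofReal_natCast,
    Complex.ofReal_natCast, div_eq_div_iff (pow_ne_zero _ hq) (pow_ne_zero _ hq)]
  have e : n * (s + 1 + 1) = n + (s + 1) * n := by ring
  rw [e, pow_add]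
  ring

theorem bias_T1 (ψ : AddChar F ℂ) (hψ : ψ ≠ 1) (t : (Fin (s + 1) → Fin n) → Fin n → F)
    (x : Fin (s + 1) → Fin n → F) (N : Fin (s + 1) → Matrix (Fin n) (Fin n) F)
    (hT1 : IsML F Finset.univ (T1 t x N)) (δ : ℝ) (hδ : 0 ≤ δ)
    (hlow : δ ≤
      ‖avgC (fun a : (Fin (s + 1) → Fin (s + 1) → Fin n → F) × (Fin (s + 1) → Fin n → F) =>
        ψ (Phi t x N a.1 a.2))‖) :
    δ ^ (2 ^ s) ≤ ((zset (tens (T1 t x N))).card : ℝ) /
      (Fintype.card F : ℝ) ^ ((s + 1) * n) := by
  classical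
  have key := gcs (V := Fin n → F) (s := s) ψ
    (fun (z : Fin s → Fin n → F)
      (w : (Fin (s + 1) → Fin (s + 1) → Fin n → F) × (Fin (s + 1) → Fin n → F)) =>
        Phi t x N (addz w.1 z) w.2)
  have hleft := g5_left ψ t x N
  have h1 : δ ^ (2 ^ s) ≤ ‖avgC (fun a : (Fin (s + 1) → Fin (s + 1) → Fin n → F) ×
      (Fin (s + 1) → Fin n → F) => ψ (Phi t x N a.1 a.2))‖ ^ (2 ^ s) :=
    pow_le_pow_left₀ hδ hlow _
  refine h1.trans ?_
  rw [← hleft]
  refine key.trans (le_of_eq ?_)
  have h5 : (fun a : (Fin s → Fin n → F) × (Fin s → Fin n → F) ×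
      ((Fin (s + 1) → Fin (s + 1) → Fin n → F) × (Fin (s + 1) → Fin n → F)) =>
        ψ (∑ J : Finset (Fin s), (-1 : F) ^ (s - J.card) *
          Phi t x N (addz a.2.2.1 (fun j => a.1 j + if j ∈ J then a.2.1 j else 0)) a.2.2.2)) =
        fun a => (fun w => ψ (T1 t x N w)) (g5_pi s n F a) := by
    funext a
    have h6 := g5_inner ψ t x N a
    refine Eq.trans ?_ h6
    refine congrArg ψ (Finset.sum_congr rfl fun J _ => ?_)
    congr 3
  have h7 : avgC (fun a : (Fin s → Fin n → F) × (Fin s → Fin n → F) ×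
      ((Fin (s + 1) → Fin (s + 1) → Fin n → F) × (Fin (s + 1) → Fin n → F)) =>
        ψ (∑ J : Finset (Fin s), (-1 : F) ^ (s - J.card) *
          Phi t x N (addz a.2.2.1 (fun j => a.1 j + if j ∈ J then a.2.1 j else 0)) a.2.2.2)) =
      ((((zset (tens (T1 t x N))).card : ℝ) / (Fintype.card F : ℝ) ^ ((s + 1) * n) : ℝ) : ℂ) := by
    rw [h5, g5_avg_hom (g5_pi s n F) g5_pi_surj (fun w => ψ (T1 t x N w)),
      g5_right ψ hψ t x N hT1]
  have h2 := congrArg norm h7
  refine Eq.trans h2 ?_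
  rw [Complex.norm_real, Real.norm_eq_abs, abs_of_nonneg (by positivity)]

end Pool.Agent.Helper92.AR
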