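import Pool.Agent.Helper92.AR.Defs

/-!
AR-G3. Combinatorial identity.  Both sides are additive in `β`, so let `β = monomial m (C c * X^i)`
(`MvPolynomial.induction_on'` and `Polynomial` sums of monomials).  The evaluation `Y_j ↦ X` if `j ∈ J`, `Y_j ↦ 0`
if `j ∉ J` gives `c X^(i + |m|)` if `supp m ⊆ J` and `0` otherwise.  `∑_{J ⊇ supp m} (-1)^(s-|J|)` is `1` if
`supp m` is everything and `0` otherwise (`Finset.sum_powerset_neg_one_pow_card`, complement).  So the
left side is `c` if `supp m = univ` and `i + |m| = s`, i.e. `m = ind univ` and `i = 0`, else `0`; the right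
side is `coeff_{ind univ}` of `monomial m (c * 0^i)`.
-/

set_option autoImplicit false

namespace Pool.Agent.Helper92.AR

open Polynomial Finset
open Pool.Agent.Helper83.AH (IsML)

variable {s : ℕ} {F : Type} [Field F]

/-- alternating sum over the sets containing `S` -/
theorem bx_sum (S : Finset (Fin s)) :
    ∑ J : Finset (Fin s), (if S ⊆ J then (-1 : F) ^ (s - J.card) else 0) =
      if S = Finset.univ then 1 else 0 := by
  classical
  have h1 : ∑ J : Finset (Fin s), (if S ⊆ J then (-1 : F) ^ (s - J.card) else 0) =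
      ∑ T ∈ Sᶜ.powerset, (-1 : F) ^ T.card := by
    rw [← Finset.sum_filter]
    refine Finset.sum_nbij' (fun J => Jᶜ) (fun T => Tᶜ) ?_ ?_ ?_ ?_ ?_
    · intro J hJ
      rw [Finset.mem_filter] at hJ
      rw [Finset.mem_powerset]
      exact Finset.compl_subset_compl.2 hJ.2
    · intro T hT
      rw [Finset.mem_powerset] at hT
      rw [Finset.mem_filter]
      refine ⟨Finset.mem_univ _, ?_⟩
      have := Finset.compl_subset_compl.2 hT
      rwa [compl_compl] at this
    · intro J _
      exact compl_compl J
    · intro T _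
      exact compl_compl T
    · intro J _
      show (-1 : F) ^ (s - J.card) = (-1) ^ (Jᶜ).card
      rw [Finset.card_compl, Fintype.card_fin]
  have h2 : ∑ T ∈ Sᶜ.powerset, (-1 : F) ^ T.card =
      ((∑ T ∈ Sᶜ.powerset, (-1 : ℤ) ^ T.card : ℤ) : F) := by
    push_cast
    rfl
  rw [h1, h2, Finset.sum_powerset_neg_one_pow_card]
  by_cases h : S = Finset.univ
  · rw [if_pos h, if_pos (by rw [h, Finset.compl_univ]), Int.cast_one]
  · rw [if_neg h, if_neg (by rwa [Finset.compl_eq_empty_iff]), Int.cast_zero]

open Classical in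
/-- evaluation of a monomial -/
theorem bx_eval (J : Finset (Fin s)) (m : Fin s →₀ ℕ) (a : F[X]) :
    MvPolynomial.eval (fun j => if j ∈ J then (X : F[X]) else 0) (MvPolynomial.monomial m a) =
      if m.support ⊆ J then a * X ^ (∑ j, m j) else 0 := by
  rw [MvPolynomial.eval_monomial, Finsupp.prod]
  by_cases h : m.support ⊆ J
  · rw [if_pos h]
    congr 1
    rw [← Finset.prod_pow_eq_pow_sum]
    rw [← Finset.prod_subset (Finset.subset_univ m.support) (fun j _ hj => by
      rw [Finsupp.notMem_support_iff] at hj
      rw [hj, pow_zero])]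
    refine Finset.prod_congr rfl fun j hj => ?_
    rw [if_pos (h hj)]
  · rw [if_neg h]
    obtain ⟨j, hj, hjJ⟩ := Finset.not_subset.1 h
    rw [Finset.prod_eq_zero hj, mul_zero]
    rw [if_neg hjJ]
    exact zero_pow (Finsupp.mem_support_iff.1 hj)

/-- the exponents -/
theorem bx_coeff (m : Fin s →₀ ℕ) (a : F[X]) (hm : m.support = Finset.univ) :
    (a * X ^ (∑ j, m j)).coeff s = if m = ind Finset.univ then a.coeff 0 else 0 := by
  have h1 : ∀ j, 1 ≤ m j := by
    intro j
    have : j ∈ m.support := by rw [hm]; exact Finset.mem_univ j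
    exact Nat.one_le_iff_ne_zero.2 (Finsupp.mem_support_iff.1 this)
  have h2 : ∑ _j : Fin s, 1 = s := by simp
  by_cases h : m = ind Finset.univ
  · rw [if_pos h]
    have h3 : ∑ j, m j = s := by
      rw [h]
      conv_rhs => rw [← h2]
      refine Finset.sum_congr rfl fun j _ => ?_
      show (Finsupp.indicator Finset.univ fun _ _ => 1) j = 1
      rw [Finsupp.indicator_apply, dif_pos (Finset.mem_univ j)]
    rw [h3, Polynomial.coeff_mul_X_pow', if_pos le_rfl, Nat.sub_self]
  · rw [if_neg h, Polynomial.coeff_mul_X_pow', if_neg]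
    intro h3
    apply h
    have h4 : ∑ j, m j = ∑ _j : Fin s, 1 := by
      refine le_antisymm ?_ (Finset.sum_le_sum fun j _ => h1 j)
      rw [h2]
      exact h3
    have h5 := (Finset.sum_eq_sum_iff_of_le (fun j _ => h1 j)).1 h4.symm
    ext j
    show m j = (Finsupp.indicator Finset.univ fun _ _ => 1) j
    rw [Finsupp.indicator_apply, dif_pos (Finset.mem_univ j)]
    exact (h5 j (Finset.mem_univ j)).symm

open Classical in
theorem box_id (β : MvPolynomial (Fin s) F[X]) :
    ∑ J : Finset (Fin s), (-1 : F) ^ (s - J.card) *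
      (MvPolynomial.eval (fun j => if j ∈ J then (X : F[X]) else 0) β).coeff s =
    (MvPolynomial.coeff (ind Finset.univ) β).coeff 0 := by
  induction β using MvPolynomial.induction_on' with
  | monomial m a =>
    have h1 : ∀ J : Finset (Fin s), (-1 : F) ^ (s - J.card) *
        (MvPolynomial.eval (fun j => if j ∈ J then (X : F[X]) else 0)
          (MvPolynomial.monomial m a)).coeff s =
        (if m.support ⊆ J then (-1 : F) ^ (s - J.card) else 0) *
          (a * X ^ (∑ j, m j)).coeff s := by
      intro J
      rw [bx_eval]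
      split_ifs
      · rfl
      · rw [Polynomial.coeff_zero, mul_zero, zero_mul]
    rw [Finset.sum_congr rfl fun J _ => h1 J, ← Finset.sum_mul, bx_sum,
      MvPolynomial.coeff_monomial]
    by_cases hm : m.support = Finset.univ
    · rw [if_pos hm, one_mul, bx_coeff m a hm]
      split_ifs <;> simp
    · rw [if_neg hm, zero_mul]
      rw [if_neg, Polynomial.coeff_zero]
      rintro rfl
      apply hm
      ext j
      rw [Finsupp.mem_support_iff]
      show (Finsupp.indicator Finset.univ fun _ _ => 1) j ≠ 0 ↔ _
      rw [Finsupp.indicator_apply, dif_pos (Finset.mem_univ j)]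
      simp
  | add p q hp hq =>
    rw [MvPolynomial.coeff_add, Polynomial.coeff_add, ← hp, ← hq, ← Finset.sum_add_distrib]
    refine Finset.sum_congr rfl fun J _ => ?_
    rw [map_add, Polynomial.coeff_add, mul_add]

end Pool.Agent.Helper92.AR
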