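import Pool.Agent.Helper92.AR.AdmStep
import Pool.Agent.Helper92.AR.CanMap

/-!
AR-F3. The canonical construction reproduces an admissible tuple modulo `X^(s+1)`.
Notation: `m = s+1`, `π_j = prj t x N j = 1 - N_j M0_j`, `M0_j = tmat t j x`, `P^(j) = trP x j P`,
`M_j = tmat t j P^(j)` (polynomial), `E_j = M_j - M0_j`, all congruences modulo `X^m`, entrywise.
Write `P_j = cst x j + X ζ_j` (`Adm.eval0`; `ζ_j a = divX (P j a)`).  As `tev t P^(j) = 0 = tev t P^(j+1)` and
`P^(j+1) = update P^(j) j P_j`: `M_j ζ_j = 0` (`tev_update`, `tev_eq_mulVec`, cancel `X`).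
(1) `(1 + N_j E_j) ζ_j = ζ_j + N_j M_j ζ_j - N_j M0_j ζ_j = π_j ζ_j` (exactly).
(2) `E_j` is divisible by `X` (its value at `0` is `0` since `P^(j)(0) = x`), so `(N_j E_j)^m ≡ 0` and
`∑_{i<m} (-N_j E_j)^i (1 + N_j E_j) = 1 - (-N_j E_j)^m ≡ 1`; hence `∑_{i<m} (-N_j E_j)^i π_j ζ_j ≡ ζ_j`.
(3) `toPoly (recZ P j) ≡ π_j ζ_j` (the first `m` coefficients agree).
(4) Induction on `j ≤ s`: `canP ... (zz (recZ P)) j ≡ P^(j)`: in slot `j` the new value is
`x_j + ∑ (-N_j E'_j)^i (X toPoly (recZ P j))` with `E'_j ≡ E_j`, so `≡ x_j + X ζ_j = P_j` by (2), (3).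
(`tmat` of congruent tuples are congruent; conveniently: work in the quotient ring
`F[X] ⧸ span {X^m}` and use `tmat_map`, `canZ` commutes with algebra maps.)
(5) `canV = M' *ᵥ ζ'` with `M' ≡ M_s`, `ζ' ≡ ζ_s` (last slot: `zz` is `toPoly (recZ P s)` without `X`), so
`canV ≡ M_s ζ_s = 0`.
-/

set_option autoImplicit false

namespace Pool.Agent.Helper92.AR

open Polynomial Finset
open Pool.Agent.Helper83.AH (IsML)

variable {s n : ℕ} {F : Type} [Field F] [Fintype F]

omit [Fintype F] in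
private noncomputable def zt (P : Fin (s + 1) → Fin n → F[X]) (j : Fin (s + 1)) :
    Fin n → F[X] := fun a => (P j a).divX

omit [Fintype F] in
private theorem ca_split {t : (Fin (s + 1) → Fin n) → Fin n → F} {L : ℕ → ℕ}
    {x : Fin (s + 1) → Fin n → F} {P : Fin (s + 1) → Fin n → F[X]}
    (hP : Adm t L x (s + 1) P) (j : Fin (s + 1)) :
    P j = cst x j + (X : F[X]) • zt P j := by
  funext a
  have h0 : (P j a).coeff 0 = x j a := by
    rw [Polynomial.coeff_zero_eq_eval_zero]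
    exact congrFun (congrFun hP.eval0 j) a
  have h1 := Polynomial.divX_mul_X_add (P j a)
  show P j a = Polynomial.C (x j a) + X * (P j a).divX
  rw [← h0, mul_comm, add_comm]
  exact h1.symm

omit [Fintype F] in
private theorem ca_trP_succ (x : Fin (s + 1) → Fin n → F) (P : Fin (s + 1) → Fin n → F[X])
    (j : ℕ) (hj : j < s + 1) :
    trP x (j + 1) P = Function.update (trP x j P) ⟨j, hj⟩ (P ⟨j, hj⟩) := by
  funext i
  by_cases hi : i = ⟨j, hj⟩
  · subst hi
    rw [Function.update_self]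
    unfold trP
    rw [if_pos (Nat.lt_succ_self _)]
  · rw [Function.update_of_ne hi]
    have h1 : (i : ℕ) ≠ j := fun h2 => hi (Fin.ext h2)
    unfold trP
    by_cases h3 : (i : ℕ) < j
    · rw [if_pos h3, if_pos (by omega)]
    · rw [if_neg h3, if_neg (by omega)]

omit [Fintype F] in
private theorem ca_ker {t : (Fin (s + 1) → Fin n) → Fin n → F} {L : ℕ → ℕ}
    {x : Fin (s + 1) → Fin n → F} {P : Fin (s + 1) → Fin n → F[X]}
    (hP : Adm t L x (s + 1) P) (j : ℕ) (hj : j < s + 1) :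
    (tmat t ⟨j, hj⟩ (trP x j P)).mulVec (zt P ⟨j, hj⟩) = 0 := by
  have h2 := hP.zero (j + 1) (by omega)
  have h3 := hP.zero j (by omega)
  rw [ca_trP_succ x P j hj, tev_update] at h2
  rw [tev_eq_mulVec t ⟨j, hj⟩] at h3
  have h4 : trP x j P ⟨j, hj⟩ = cst x ⟨j, hj⟩ := by
    unfold trP
    rw [if_neg (lt_irrefl _)]
  rw [h4] at h3
  rw [ca_split hP ⟨j, hj⟩, Matrix.mulVec_add, h3, zero_add, Matrix.mulVec_smul] at h2
  exact (smul_eq_zero.mp h2).resolve_left Polynomial.X_ne_zero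

omit [Fintype F] in
private theorem ca_E {t : (Fin (s + 1) → Fin n) → Fin n → F} {L : ℕ → ℕ}
    {x : Fin (s + 1) → Fin n → F} {P : Fin (s + 1) → Fin n → F[X]}
    (hP : Adm t L x (s + 1) P) (j : ℕ) (hj : j < s + 1) :
    ∃ E' : Matrix (Fin n) (Fin n) F[X], canE t x ⟨j, hj⟩ (trP x j P) = (X : F[X]) • E' := by
  have h0 : evP 0 (trP x j P) = x := by
    funext i a
    show (trP x j P i a).eval 0 = x i a
    unfold trP
    split_ifs
    · exact congrFun (congrFun hP.eval0 i) a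
    · exact Polynomial.eval_C
  refine ⟨Matrix.of fun l a => (canE t x ⟨j, hj⟩ (trP x j P) l a).divX, ?_⟩
  ext1 l a
  have h1 : (canE t x ⟨j, hj⟩ (trP x j P) l a).coeff 0 = 0 := by
    rw [Polynomial.coeff_zero_eq_eval_zero]
    have h5 := congrFun (congrFun (tmat_evP t ⟨j, hj⟩ 0 (trP x j P)) l) a
    rw [h0, Matrix.map_apply] at h5
    unfold canE
    rw [Matrix.sub_apply, Matrix.map_apply, Polynomial.eval_sub, ← h5, Polynomial.algebraMap_eq,
      Polynomial.eval_C, sub_self]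
  have h2 := Polynomial.divX_mul_X_add (canE t x ⟨j, hj⟩ (trP x j P) l a)
  rw [h1, map_zero, add_zero] at h2
  show canE t x ⟨j, hj⟩ (trP x j P) l a = X * (canE t x ⟨j, hj⟩ (trP x j P) l a).divX
  rw [mul_comm]
  exact h2.symm

omit [Fintype F] in
private theorem ca_rec (t : (Fin (s + 1) → Fin n) → Fin n → F)
    (x : Fin (s + 1) → Fin n → F) (N : Fin (s + 1) → Matrix (Fin n) (Fin n) F)
    (P : Fin (s + 1) → Fin n → F[X]) (b : Fin (s + 1)) :
    ∃ w : Fin n → F[X], (toPoly (recZ t x N P b) : Fin n → F[X]) =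
      ((prj t x N b).map Polynomial.C).mulVec (zt P b) + (X ^ (s + 1) : F[X]) • w := by
  have h1 : ∀ a, (X : F[X]) ^ (s + 1) ∣ (toPoly (recZ t x N P b) : Fin n → F[X]) a -
      ((prj t x N b).map Polynomial.C).mulVec (zt P b) a := by
    intro a
    rw [Polynomial.X_pow_dvd_iff]
    intro d hd
    rw [Polynomial.coeff_sub, sub_eq_zero]
    have h2 : ((toPoly (recZ t x N P b) : Fin n → F[X]) a).coeff d =
        recZ t x N P b ⟨d, hd⟩ a := by
      show (∑ i : Fin (s + 1), Polynomial.C (recZ t x N P b i a) * X ^ (i : ℕ)).coeff d = _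
      rw [Polynomial.finsetSum_coeff, Finset.sum_eq_single (⟨d, hd⟩ : Fin (s + 1))]
      · rw [Polynomial.coeff_C_mul, Polynomial.coeff_X_pow, if_pos rfl, mul_one]
      · intro i _ hi
        rw [Polynomial.coeff_C_mul, Polynomial.coeff_X_pow, if_neg, mul_zero]
        intro h3
        exact hi (Fin.ext h3.symm)
      · intro h3
        exact absurd (Finset.mem_univ _) h3
    have h3 : (((prj t x N b).map Polynomial.C).mulVec (zt P b) a).coeff d =
        ∑ a', prj t x N b a a' * (P b a').coeff (d + 1) := by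
      show (∑ a', (Polynomial.C (prj t x N b a a')) * (P b a').divX).coeff d = _
      rw [Polynomial.finsetSum_coeff]
      refine Finset.sum_congr rfl fun a' _ => ?_
      rw [Polynomial.coeff_C_mul, Polynomial.coeff_divX]
    rw [h2, h3]
    rfl
  choose w hw using h1
  refine ⟨w, ?_⟩
  funext a
  have h4 := hw a
  rw [sub_eq_iff_eq_add'] at h4
  exact h4

omit [Fintype F] in
private theorem ca_Z {t : (Fin (s + 1) → Fin n) → Fin n → F} {L : ℕ → ℕ}
    {x : Fin (s + 1) → Fin n → F} (N : Fin (s + 1) → Matrix (Fin n) (Fin n) F)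
    {P : Fin (s + 1) → Fin n → F[X]}
    (hP : Adm t L x (s + 1) P) (j : ℕ) (hj : j < s + 1) :
    ∃ w : Fin n → F[X], canZ t x N ⟨j, hj⟩ (trP x j P) (toPoly (recZ t x N P ⟨j, hj⟩)) =
      zt P ⟨j, hj⟩ + (X ^ (s + 1) : F[X]) • w := by
  obtain ⟨E', hE'⟩ := ca_E hP j hj
  obtain ⟨w1, hw1⟩ := ca_rec t x N P ⟨j, hj⟩
  have hk := ca_ker hP j hj
  obtain ⟨ζ, hζ⟩ : ∃ ζ, ζ = zt P ⟨j, hj⟩ := ⟨_, rfl⟩
  obtain ⟨N', hN'⟩ : ∃ N', N' = (N ⟨j, hj⟩).map (algebraMap F F[X]) := ⟨_, rfl⟩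
  obtain ⟨M0, hM0⟩ : ∃ M0, M0 = (tmat (A := F) t ⟨j, hj⟩ x).map (algebraMap F F[X]) := ⟨_, rfl⟩
  rw [← hζ] at hk hw1 ⊢
  have hEz : (canE t x ⟨j, hj⟩ (trP x j P)).mulVec ζ = -(M0.mulVec ζ) := by
    unfold canE
    rw [Matrix.sub_mulVec, hk, zero_sub, ← hM0]
  have hpi : ((prj t x N ⟨j, hj⟩).map Polynomial.C).mulVec ζ =
      ζ - (-(N' * canE t x ⟨j, hj⟩ (trP x j P))).mulVec ζ := by
    have h1 : (prj t x N ⟨j, hj⟩).map Polynomial.C = 1 - N' * M0 := by
      unfold prj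
      have h2 : ∀ M : Matrix (Fin n) (Fin n) F,
          M.map (Polynomial.C : F → F[X]) = RingHom.mapMatrix (Polynomial.C : F →+* F[X]) M :=
        fun _ => rfl
      rw [h2, map_sub, map_one, map_mul, hN', hM0]
      rfl
    rw [h1, Matrix.sub_mulVec, Matrix.one_mulVec, Matrix.neg_mulVec, ← Matrix.mulVec_mulVec,
      ← Matrix.mulVec_mulVec, hEz, Matrix.mulVec_neg, neg_neg]
  have hB : (-(N' * canE t x ⟨j, hj⟩ (trP x j P))) = (X : F[X]) • (-(N' * E')) := by
    rw [hE', Matrix.mul_smul, smul_neg]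
  refine ⟨-((-(N' * E')) ^ (s + 1)).mulVec ζ +
    (∑ i ∈ Finset.range (s + 1), (-(N' * canE t x ⟨j, hj⟩ (trP x j P))) ^ i).mulVec w1, ?_⟩
  unfold canZ
  rw [← hN', hw1, Matrix.mulVec_add, Matrix.mulVec_smul, hpi]
  have htel : (∑ i ∈ Finset.range (s + 1), (-(N' * canE t x ⟨j, hj⟩ (trP x j P))) ^ i).mulVec
      (ζ - (-(N' * canE t x ⟨j, hj⟩ (trP x j P))).mulVec ζ) =
      ζ - (X ^ (s + 1) : F[X]) • ((-(N' * E')) ^ (s + 1)).mulVec ζ := by
    have h1 : ζ - (-(N' * canE t x ⟨j, hj⟩ (trP x j P))).mulVec ζ =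
        (1 - (-(N' * canE t x ⟨j, hj⟩ (trP x j P)))).mulVec ζ := by
      rw [Matrix.sub_mulVec, Matrix.one_mulVec]
    rw [h1, Matrix.mulVec_mulVec, geom_sum_mul_neg, Matrix.sub_mulVec, Matrix.one_mulVec, hB,
      _root_.smul_pow, Matrix.smul_mulVec]
  rw [htel, smul_add, smul_neg, sub_eq_add_neg, add_assoc]

omit [Fintype F] in
private theorem ca_P {t : (Fin (s + 1) → Fin n) → Fin n → F} {L : ℕ → ℕ}
    {x : Fin (s + 1) → Fin n → F} (N : Fin (s + 1) → Matrix (Fin n) (Fin n) F)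
    {P : Fin (s + 1) → Fin n → F[X]}
    (hP : Adm t L x (s + 1) P) {A : Type} [CommRing A] [Algebra F A] (φ : F[X] →ₐ[F] A)
    (hφ : ∀ f, φ (X ^ (s + 1) * f) = 0) (j : ℕ) (hj : j ≤ s) :
    canP t x N (fun i a => φ (zz (recZ t x N P) i a)) j = fun i a => φ (trP x j P i a) := by
  have hC : ∀ c : F, φ (Polynomial.C c) = algebraMap F A c := by
    intro c
    rw [← Polynomial.algebraMap_eq, AlgHom.commutes]
  induction j with
  | zero =>
    funext i a
    have h1 : trP x 0 P i a = Polynomial.C (x i a) := by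
      unfold trP
      rw [if_neg (Nat.not_lt_zero _)]
      rfl
    rw [h1, hC]
    rfl
  | succ j ih =>
    have hj' : j < s + 1 := by omega
    have ih' := ih (by omega)
    rw [canP, dif_pos hj', ih']
    have hzz : (fun a => φ (zz (recZ t x N P) ⟨j, hj'⟩ a)) =
        fun a => φ (((X : F[X]) • (toPoly (recZ t x N P ⟨j, hj'⟩) : Fin n → F[X])) a) := by
      funext a
      unfold zz
      rw [if_neg]
      · rfl
      · intro h1
        have h2 := congrArg Fin.val h1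
        simp only [Fin.val_last] at h2
        omega
    obtain ⟨w, hw⟩ := ca_Z N hP j hj'
    have hcz : canZ t x N ⟨j, hj'⟩ (trP x j P)
        ((X : F[X]) • (toPoly (recZ t x N P ⟨j, hj'⟩) : Fin n → F[X])) =
        (X : F[X]) • (zt P ⟨j, hj'⟩ + (X ^ (s + 1) : F[X]) • w) := by
      rw [← hw]
      unfold canZ
      rw [Matrix.mulVec_smul]
    have hnew : (fun a => algebraMap F A (x ⟨j, hj'⟩ a) +
        canZ t x N ⟨j, hj'⟩ (fun i a => φ (trP x j P i a))
          (fun a => φ (zz (recZ t x N P) ⟨j, hj'⟩ a)) a) = fun a => φ (P ⟨j, hj'⟩ a) := by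
      funext a
      rw [hzz, canZ_map, hcz]
      have h3 := congrFun (ca_split hP ⟨j, hj'⟩) a
      rw [h3]
      simp only [Pi.add_apply, Pi.smul_apply, smul_eq_mul, map_add, map_mul, mul_add]
      have h4 : φ (X : F[X]) * (φ (X ^ (s + 1) : F[X]) * φ (w a)) = 0 := by
        rw [← map_mul, hφ, mul_zero]
      rw [h4, add_zero]
      congr 1
      exact (hC _).symm
    have h5 : (Function.update (fun i a => φ (trP x j P i a)) ⟨j, hj'⟩
        fun a => φ (P ⟨j, hj'⟩ a)) = fun i a => φ (trP x (j + 1) P i a) := by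
      rw [ca_trP_succ x P j hj']
      funext i a
      by_cases hi : i = ⟨j, hj'⟩
      · subst hi
        simp only [Function.update_self]
      · simp only [Function.update_of_ne hi]
    exact (congrArg (Function.update (fun i a => φ (trP x j P i a)) ⟨j, hj'⟩) hnew).trans h5

theorem can_adm {t : (Fin (s + 1) → Fin n) → Fin n → F} {L : ℕ → ℕ}
    {x : Fin (s + 1) → Fin n → F} (N : Fin (s + 1) → Matrix (Fin n) (Fin n) F)
    (hN : ∀ b, GInv (tmat (A := F) t b x) (N b)) {P : Fin (s + 1) → Fin n → F[X]}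
    (hP : Adm t L x (s + 1) P) (l : Fin n) :
    (X : F[X]) ^ (s + 1) ∣ canV t x N (zz (recZ t x N P)) l := by
  obtain ⟨φ, hφ⟩ : ∃ φ : F[X] →ₐ[F] (F[X] ⧸ Ideal.span {(X : F[X]) ^ (s + 1)}),
      ∀ f, φ f = 0 ↔ (X : F[X]) ^ (s + 1) ∣ f := by
    refine ⟨Ideal.Quotient.mkₐ F _, fun f => ?_⟩
    rw [Ideal.Quotient.mkₐ_eq_mk, Ideal.Quotient.eq_zero_iff_mem, Ideal.mem_span_singleton]
  have hφ' : ∀ f, φ (X ^ (s + 1) * f) = 0 := fun f => (hφ _).mpr (Dvd.intro _ rfl)
  rw [← hφ]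
  have h1 := congrFun (canV_map φ t x N (zz (recZ t x N P))) l
  rw [← h1]
  unfold canV
  rw [ca_P N hP φ hφ' s le_rfl]
  have hzz : (fun a => φ (zz (recZ t x N P) (Fin.last s) a)) =
      fun a => φ ((toPoly (recZ t x N P (Fin.last s)) : Fin n → F[X]) a) := by
    funext a
    unfold zz
    rw [if_pos rfl]
  obtain ⟨w, hw⟩ := ca_Z N hP s (Nat.lt_succ_self s)
  have hk := ca_ker hP s (Nat.lt_succ_self s)
  have hlast : (⟨s, Nat.lt_succ_self s⟩ : Fin (s + 1)) = Fin.last s := rfl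
  rw [hlast] at hw hk
  have hgo : canZ t x N (Fin.last s) (fun i a => φ (trP x s P i a))
      (fun a => φ (zz (recZ t x N P) (Fin.last s) a)) =
      fun a => φ ((zt P (Fin.last s) + (X ^ (s + 1) : F[X]) • w) a) := by
    rw [hzz, canZ_map, hw]
  show (tmat t (Fin.last s) fun i a => φ (trP x s P i a)).mulVec
      (canZ t x N (Fin.last s) (fun i a => φ (trP x s P i a))
        (fun a => φ (zz (recZ t x N P) (Fin.last s) a))) l = 0
  rw [hgo, tmat_map]
  show ∑ a, φ (tmat t (Fin.last s) (trP x s P) l a) *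
    φ (zt P (Fin.last s) a + X ^ (s + 1) * w a) = 0
  have h2 : ∀ a, φ (tmat t (Fin.last s) (trP x s P) l a) *
      φ (zt P (Fin.last s) a + X ^ (s + 1) * w a) =
      φ (tmat t (Fin.last s) (trP x s P) l a * zt P (Fin.last s) a) := by
    intro a
    rw [map_add, hφ', add_zero, map_mul]
  rw [Finset.sum_congr rfl fun a _ => h2 a, ← map_sum]
  have h3 := congrFun hk l
  have h4 : ∑ a, tmat t (Fin.last s) (trP x s P) l a * zt P (Fin.last s) a = 0 := h3
  rw [h4, map_zero]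

end Pool.Agent.Helper92.AR
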