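import Pool.Agent.Helper92.AR.CanMap
import Pool.Agent.Helper92.AR.Bias

/-!
AR-F4. The character sum over `u` detects the vanishing of the residual vector modulo `X^(s+1)`.
Let `m = s+1`, `V = canV t x N (zz (pry t x N y))`, `N' = N (last)`, `M0 = tmat t (last) x`.
(a) `N' V ≡ 0` modulo `X^m`: `V = M ζ'`, `M = tmat t last p`, `p = canP .. s`, `E = M - M0`,
`ζ' = ∑_{i<m} (-N' E)^i z'`, `z' = toPoly (pry y last) = π toPoly(..)`, `π = 1 - N' M0`.
`E` is divisible by `X`: apply `canP_map` to `X ↦ 0` (the parameters of the slots `< s` are multiples of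
`X`, so the canonical tuple at `X = 0` is `x`: with zero parameters `canZ = 0`).  `(1 + N'E) ζ' = z' - (-N'E)^m z' ≡ z'`.
`N' M0 ζ' = ζ' - π ζ'`, `π N' = N' - N' M0 N' = 0` so `π ζ' = π z' = z'` (`π² = π`).  Hence
`N' V = N' M0 ζ' + N' E ζ' = (1 + N'E) ζ' - z' ≡ 0`.
(b) `u ↦ Phi t x N y u = coeff_s (∑_l toPoly(prjO u)_l V_l) = ∑_{i ≤ s} (prjO u_i) ⬝ V_{s-i}`, `V_j` = vector of
coefficients `j` of `V`.  `(prjO u) ⬝ w = u ⬝ (w - M0 N' w)`, and `N' V_j = 0` for `j ≤ s` by (a), so
`Phi t x N y u = ∑_{i ≤ s} u_i ⬝ V_{s-i}`.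
(c) Sum over `u`: product of `dual_sum`: `q^(m n)` if all `V_j = 0` (`j ≤ s`), i.e. `X^m ∣ V l` for all `l`,
else `0`.
-/

set_option autoImplicit false

namespace Pool.Agent.Helper92.AR

open Polynomial Finset
open Pool.Agent.Helper83.AH (IsML)

section aux

variable {s n : ℕ} {F : Type} [Field F]

private theorem cd_char (ψ : AddChar F ℂ) {ι : Type} (w : ι → F) (S : Finset ι) :
    ψ (∑ l ∈ S, w l) = ∏ l ∈ S, ψ (w l) := by
  classical
  induction S using Finset.induction_on with
  | empty => simp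
  | insert a S ha ih => rw [Finset.sum_insert ha, Finset.prod_insert ha, AddChar.map_add_eq_mul, ih]

private theorem cd_base (t : (Fin (s + 1) → Fin n) → Fin n → F) (x : Fin (s + 1) → Fin n → F)
    (N : Fin (s + 1) → Matrix (Fin n) (Fin n) F) (z : Fin (s + 1) → Fin n → F)
    (hz : ∀ i, i ≠ Fin.last s → z i = 0) (j : ℕ) (hj : j ≤ s) :
    canP (A := F) t x N z j = x := by
  induction j with
  | zero =>
    funext i a
    rfl
  | succ j ih =>
    have hj' : j < s + 1 := by omega
    rw [canP, dif_pos hj', ih (by omega)]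
    have h1 : (⟨j, hj'⟩ : Fin (s + 1)) ≠ Fin.last s := by
      intro h
      have h2 := congrArg Fin.val h
      simp only [Fin.val_last] at h2
      omega
    have h3 : canZ (A := F) t x N ⟨j, hj'⟩ x (z ⟨j, hj'⟩) = 0 := by
      rw [hz _ h1]
      exact Matrix.mulVec_zero _
    rw [h3]
    funext i a
    by_cases hi : i = ⟨j, hj'⟩
    · subst hi
      rw [Function.update_self]
      show x ⟨j, hj'⟩ a + 0 = x ⟨j, hj'⟩ a
      rw [add_zero]
    · rw [Function.update_of_ne hi]

private theorem cd_E (t : (Fin (s + 1) → Fin n) → Fin n → F) (x : Fin (s + 1) → Fin n → F)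
    (N : Fin (s + 1) → Matrix (Fin n) (Fin n) F) (z : Fin (s + 1) → Fin n → F[X])
    (hz : ∀ i, i ≠ Fin.last s → ∀ a, (z i a).eval 0 = 0) (l a : Fin n) :
    (X : F[X]) ∣ canE t x (Fin.last s) (canP t x N z s) l a := by
  rw [Polynomial.X_dvd_iff, Polynomial.coeff_zero_eq_eval_zero]
  have h1 := canP_map (Polynomial.aeval (0 : F) : F[X] →ₐ[F] F) t x N z s
  simp only [Polynomial.coe_aeval_eq_eval] at h1
  rw [cd_base t x N _ (fun i hi => by
    funext a
    exact hz i hi a) s le_rfl] at h1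
  have h3 : evP 0 (canP t x N z s) = x := h1.symm
  have h2 := tmat_evP t (Fin.last s) 0 (canP t x N z s)
  rw [h3] at h2
  unfold canE
  rw [Matrix.sub_apply, Polynomial.eval_sub, Matrix.map_apply]
  have h4 := congrFun (congrFun h2 l) a
  rw [Matrix.map_apply] at h4
  rw [← h4]
  have h5 : (algebraMap F F[X]) (tmat (A := F) t (Fin.last s) x l a) =
      Polynomial.C (tmat (A := F) t (Fin.last s) x l a) := rfl
  rw [h5, Polynomial.eval_C, sub_self]

private theorem cd_mat {R : Type} [CommRing R] (M0 N E : Matrix (Fin n) (Fin n) R)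
    (hN : N * M0 * N = N) (m : ℕ) (z : Fin n → R) (hz : (1 - N * M0).mulVec z = z) :
    N.mulVec ((M0 + E).mulVec
      ((∑ i ∈ Finset.range (m + 1), (-(N * E)) ^ i).mulVec z)) =
      -(((-(N * E)) ^ (m + 1)).mulVec z) := by
  set a : Matrix (Fin n) (Fin n) R := -(N * E) with ha
  have h1 : (a - 1) * ∑ i ∈ Finset.range (m + 1), a ^ i = a ^ (m + 1) - 1 := mul_geom_sum a (m + 1)
  have h2 : (1 - N * M0) * a = 0 := by
    have e : (1 - N * M0) * a = -((N - N * M0 * N) * E) := by
      rw [ha]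
      noncomm_ring
    rw [e, hN, sub_self, zero_mul, neg_zero]
  have h3 : (1 - N * M0) * ∑ i ∈ Finset.range (m + 1), a ^ i = 1 - N * M0 := by
    rw [Finset.sum_range_succ', mul_add, Finset.mul_sum]
    have e : ∀ i ∈ Finset.range m, (1 - N * M0) * a ^ (i + 1) = 0 := by
      intro i _
      rw [pow_succ', ← mul_assoc, h2, zero_mul]
    rw [Finset.sum_eq_zero e, zero_add, pow_zero, mul_one]
  have h4 : N * (M0 + E) = 1 - (1 - N * M0) - a := by
    rw [ha]
    noncomm_ring
  have h5 : N * (M0 + E) * ∑ i ∈ Finset.range (m + 1), a ^ i =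
      1 - a ^ (m + 1) - (1 - N * M0) := by
    have e : N * (M0 + E) * ∑ i ∈ Finset.range (m + 1), a ^ i =
        -((a - 1) * ∑ i ∈ Finset.range (m + 1), a ^ i) -
          (1 - N * M0) * ∑ i ∈ Finset.range (m + 1), a ^ i := by
      rw [h4]
      noncomm_ring
    rw [e, h1, h3, neg_sub]
  rw [Matrix.mulVec_mulVec, Matrix.mulVec_mulVec, h5, Matrix.sub_mulVec,
    Matrix.sub_mulVec, Matrix.one_mulVec, hz]
  abel

private theorem cd_dvd (N E : Matrix (Fin n) (Fin n) F[X]) (hE : ∀ l a, (X : F[X]) ∣ E l a)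
    (m : ℕ) (z : Fin n → F[X]) (l : Fin n) :
    (X : F[X]) ^ m ∣ (((-(N * E)) ^ m).mulVec z) l := by
  choose E' hE' using hE
  have h1 : E = (X : F[X]) • Matrix.of (fun l a => E' l a) := by
    ext1 l a
    rw [Matrix.smul_apply, Matrix.of_apply, smul_eq_mul, hE']
  rw [h1, Matrix.mul_smul, ← smul_neg, _root_.smul_pow, Matrix.smul_mulVec]
  exact Dvd.intro _ rfl

private theorem cd_toPoly {m : ℕ} (P : Matrix (Fin n) (Fin n) F) (w : Fin m → Fin n → F) :
    (P.map (algebraMap F F[X])).mulVec (toPoly w : Fin n → F[X]) =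
      toPoly (fun i => P.mulVec (w i)) := by
  funext l
  show ∑ a, (algebraMap F F[X]) (P l a) * (∑ i : Fin m, Polynomial.C (w i a) * X ^ (i : ℕ)) =
    ∑ i : Fin m, Polynomial.C (∑ a, P l a * w i a) * X ^ (i : ℕ)
  have h5 : ∀ c : F, (algebraMap F F[X]) c = Polynomial.C c := fun c => rfl
  simp only [h5, Finset.mul_sum, map_sum, Polynomial.C_mul, Finset.sum_mul]
  rw [Finset.sum_comm]
  refine Finset.sum_congr rfl fun i _ => Finset.sum_congr rfl fun a _ => ?_
  ring

private theorem cd_map_mul (A B : Matrix (Fin n) (Fin n) F) :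
    (A * B).map (algebraMap F F[X]) = A.map (algebraMap F F[X]) * B.map (algebraMap F F[X]) := by
  have h3 : ∀ M : Matrix (Fin n) (Fin n) F, M.map (algebraMap F F[X]) =
    RingHom.mapMatrix (algebraMap F F[X]) M := fun _ => rfl
  simp only [h3, map_mul]

/-- part (a) -/
private theorem cd_NV (t : (Fin (s + 1) → Fin n) → Fin n → F)
    (x : Fin (s + 1) → Fin n → F) (N : Fin (s + 1) → Matrix (Fin n) (Fin n) F)
    (hN : ∀ b, GInv (tmat (A := F) t b x) (N b)) (y : Fin (s + 1) → Fin (s + 1) → Fin n → F)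
    (l : Fin n) :
    (X : F[X]) ^ (s + 1) ∣ (((N (Fin.last s)).map (algebraMap F F[X])).mulVec
      (canV t x N (zz (pry t x N y)))) l := by
  set z := zz (pry t x N y) with hzdef
  set N' := (N (Fin.last s)).map (algebraMap F F[X]) with hN'
  set M0 := (tmat (A := F) t (Fin.last s) x).map (algebraMap F F[X]) with hM0
  set E := canE t x (Fin.last s) (canP t x N z s) with hE
  have hM : tmat t (Fin.last s) (canP t x N z s) = M0 + E := by
    rw [hE]
    unfold canE
    abel
  have hV : canV t x N z = (M0 + E).mulVec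
      ((∑ i ∈ Finset.range (s + 1), (-(N' * E)) ^ i).mulVec (z (Fin.last s))) := by
    unfold canV
    rw [hM]
    rfl
  have hNMN : N' * M0 * N' = N' := by
    rw [hN', hM0, ← cd_map_mul, ← cd_map_mul, (hN (Fin.last s)).2]
  have hzl : z (Fin.last s) = toPoly (fun i => (prj t x N (Fin.last s)).mulVec
      (y (Fin.last s) i)) := by
    rw [hzdef]
    unfold zz
    rw [if_pos rfl]
    rfl
  have hpp : prj t x N (Fin.last s) * prj t x N (Fin.last s) = prj t x N (Fin.last s) := by
    unfold prj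
    set A := N (Fin.last s)
    set B := tmat (A := F) t (Fin.last s) x
    have e : A * B * A = A := (hN (Fin.last s)).2
    have e2 : (1 - A * B) * (1 - A * B) = 1 - A * B - (A * B - A * B * A * B) := by
      noncomm_ring
    rw [e2, e, sub_self, sub_zero]
  have hprj : (1 - N' * M0) = (prj t x N (Fin.last s)).map (algebraMap F F[X]) := by
    unfold prj
    have h3 : ∀ M : Matrix (Fin n) (Fin n) F, M.map (algebraMap F F[X]) =
      RingHom.mapMatrix (algebraMap F F[X]) M := fun _ => rfl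
    rw [h3, map_sub, map_one, map_mul]
    rfl
  have hz : (1 - N' * M0).mulVec (z (Fin.last s)) = z (Fin.last s) := by
    rw [hprj, hzl, cd_toPoly]
    congr 1
    funext i
    rw [Matrix.mulVec_mulVec, hpp]
  rw [hV, cd_mat M0 N' E hNMN s (z (Fin.last s)) hz]
  rw [Pi.neg_apply, dvd_neg]
  refine cd_dvd N' E (fun l a => ?_) (s + 1) _ l
  refine cd_E t x N z (fun i hi a => ?_) l a
  rw [hzdef]
  unfold zz
  rw [if_neg hi, Polynomial.eval_mul, Polynomial.eval_X, zero_mul]

/-- part (b) -/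
private theorem cd_Phi (t : (Fin (s + 1) → Fin n) → Fin n → F)
    (x : Fin (s + 1) → Fin n → F) (N : Fin (s + 1) → Matrix (Fin n) (Fin n) F)
    (hN : ∀ b, GInv (tmat (A := F) t b x) (N b)) (y : Fin (s + 1) → Fin (s + 1) → Fin n → F)
    (u : Fin (s + 1) → Fin n → F) :
    Phi t x N y u = ∑ i : Fin (s + 1), ∑ l, u i l *
      (canV t x N (zz (pry t x N y)) l).coeff (s - i) := by
  have hNV := cd_NV t x N hN y
  set V := canV t x N (zz (pry t x N y)) with hV
  have h0 : ∀ i : Fin (s + 1), (N (Fin.last s)).mulVec (fun l => (V l).coeff (s - i)) = 0 := by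
    intro i
    funext l
    have h1 := (Polynomial.X_pow_dvd_iff.1 (hNV l)) (s - i) (by omega)
    refine Eq.trans ?_ h1
    show ∑ a, N (Fin.last s) l a * (V a).coeff (s - i) =
      (∑ a, (algebraMap F F[X]) (N (Fin.last s) l a) * V a).coeff (s - i)
    rw [Polynomial.finsetSum_coeff]
    refine Finset.sum_congr rfl fun a _ => ?_
    have h5 : (algebraMap F F[X]) (N (Fin.last s) l a) =
      Polynomial.C (N (Fin.last s) l a) := rfl
    rw [h5, Polynomial.coeff_C_mul]
  have h2 : Phi t x N y u = ∑ i : Fin (s + 1), ∑ l, (prjO t x N).mulVec (u i) l *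
      (V l).coeff (s - i) := by
    unfold Phi canPhi
    rw [← hV]
    show (∑ l, (∑ i : Fin (s + 1), Polynomial.C ((prjO t x N).mulVec (u i) l) * X ^ (i : ℕ)) *
      V l).coeff s = _
    rw [Polynomial.finsetSum_coeff, Finset.sum_comm]
    refine Finset.sum_congr rfl fun l _ => ?_
    rw [Finset.sum_mul, Polynomial.finsetSum_coeff]
    refine Finset.sum_congr rfl fun i _ => ?_
    rw [mul_assoc, Polynomial.coeff_C_mul, Polynomial.coeff_X_pow_mul']
    rw [if_pos (by omega)]
  rw [h2]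
  refine Finset.sum_congr rfl fun i _ => ?_
  have h3 : ∑ l, (prjO t x N).mulVec (u i) l * (V l).coeff (s - i) =
      dotProduct ((prjO t x N).mulVec (u i)) (fun l => (V l).coeff (s - i)) := rfl
  rw [h3]
  unfold prjO
  rw [Matrix.mulVec_transpose, ← Matrix.dotProduct_mulVec, Matrix.sub_mulVec, Matrix.one_mulVec,
    ← Matrix.mulVec_mulVec, h0, Matrix.mulVec_zero, sub_zero]
  rfl

end aux

variable {s n : ℕ} {F : Type} [Field F] [Fintype F]

open Classical in
theorem can_dual (ψ : AddChar F ℂ) (hψ : ψ ≠ 1) (t : (Fin (s + 1) → Fin n) → Fin n → F)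
    (x : Fin (s + 1) → Fin n → F) (N : Fin (s + 1) → Matrix (Fin n) (Fin n) F)
    (hN : ∀ b, GInv (tmat (A := F) t b x) (N b)) (y : Fin (s + 1) → Fin (s + 1) → Fin n → F) :
    avgC (fun u : Fin (s + 1) → Fin n → F => ψ (Phi t x N y u)) =
      if ∀ l, (X : F[X]) ^ (s + 1) ∣ canV t x N (zz (pry t x N y)) l then 1 else 0 := by
  set V := canV t x N (zz (pry t x N y)) with hV
  have h1 : ∀ u : Fin (s + 1) → Fin n → F, ψ (Phi t x N y u) =
      ∏ i : Fin (s + 1), ψ (∑ l, u i l * (V l).coeff (s - i)) := by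
    intro u
    rw [cd_Phi t x N hN y u, cd_char]
  have h2 : ∑ u : Fin (s + 1) → Fin n → F, ψ (Phi t x N y u) =
      ∏ i : Fin (s + 1), ∑ v : Fin n → F, ψ (∑ l, v l * (V l).coeff (s - i)) := by
    rw [Finset.prod_univ_sum, Fintype.piFinset_univ]
    exact Finset.sum_congr rfl fun u _ => h1 u
  have h3 : ∀ i : Fin (s + 1), ∑ v : Fin n → F, ψ (∑ l, v l * (V l).coeff (s - i)) =
      if (fun l => (V l).coeff (s - i)) = 0 then (Fintype.card F : ℂ) ^ n else 0 :=
    fun i => dual_sum ψ hψ _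
  have hq : (Fintype.card F : ℂ) ≠ 0 := by
    exact_mod_cast Fintype.card_ne_zero
  have hcard : (Fintype.card (Fin (s + 1) → Fin n → F) : ℂ) =
      ∏ _i : Fin (s + 1), (Fintype.card F : ℂ) ^ n := by
    rw [Finset.prod_const, Finset.card_univ, Fintype.card_fin, Fintype.card_fun,
      Fintype.card_fun, Fintype.card_fin, Fintype.card_fin]
    push_cast
    rfl
  unfold avgC
  rw [h2, Finset.prod_congr rfl fun i _ => h3 i, hcard]
  by_cases h : ∀ l, (X : F[X]) ^ (s + 1) ∣ V l
  · rw [if_pos h]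
    have h4 : ∀ i : Fin (s + 1), (fun l => (V l).coeff (s - i)) = 0 := by
      intro i
      funext l
      exact (Polynomial.X_pow_dvd_iff.1 (h l)) (s - i) (by omega)
    rw [Finset.prod_congr rfl fun i _ => if_pos (h4 i)]
    exact div_self (Finset.prod_ne_zero_iff.2 fun i _ => pow_ne_zero _ hq)
  · rw [if_neg h]
    push Not at h
    obtain ⟨l, hl⟩ := h
    rw [Polynomial.X_pow_dvd_iff] at hl
    push Not at hl
    obtain ⟨d, hd, hd0⟩ := hl
    have h5 : ¬ (fun l => (V l).coeff (s - (⟨s - d, by omega⟩ : Fin (s + 1)))) = 0 := by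
      intro h6
      have h7 := congrFun h6 l
      apply hd0
      have e : s - (s - d) = d := by omega
      simp only [e] at h7
      exact h7
    rw [Finset.prod_eq_zero (Finset.mem_univ (⟨s - d, by omega⟩ : Fin (s + 1))) (if_neg h5),
      zero_div]

end Pool.Agent.Helper92.AR
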