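import Pool.Agent.Helper92.AR.Tensor

/-!
AR-C1. Fix the slots `≠ b` of `x`.  Then `rho t b x` is constant (`tmat_update`) and the number of
values `x b` with `x ∈ zset t` is the size of the kernel of the matrix, `q^(n - rho)`.  So for fixed
other slots the number of `x ∈ zset t` with `rho ≥ R` is `0` or `q^(n-rho) ≤ q^n / q^R`.  Sum over the
`q^((k-1) n)` choices of the other slots (e.g. multiply everything by `q^n`: the map
`(x, y) ↦ (update x b y, x b)` is a bijection of `X × V`; or `Fintype.sum` over
`Equiv.piSplitAt`/`Function.update` fibres).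
-/

set_option autoImplicit false

namespace Pool.Agent.Helper92.AR

open Polynomial Finset
open Pool.Agent.Helper83.AH (IsML)

variable {k n : ℕ} {F : Type} [Field F] [Fintype F]

omit [Fintype F] in
private theorem cr_sigma (M : Matrix (Fin n) (Fin n) F) (R : ℕ) (h : R ≤ M.rank) :
    ∃ σ : (Fin R → F) → (Fin n → F), Function.Injective fun w => M.mulVec (σ w) := by
  have h1 : R ≤ Module.finrank F (LinearMap.range M.mulVecLin) := h
  obtain ⟨f, hf⟩ := exists_linearIndependent_of_le_finrank h1
  have h2 : ∀ i, ∃ g : Fin n → F, M.mulVec g = (f i : Fin n → F) := fun i => (f i).2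
  choose g hg using h2
  have hg2 : LinearIndependent F fun i => M.mulVec (g i) := by
    have h3 := hf.map' (Submodule.subtype _) (Submodule.ker_subtype _)
    have h4 : (fun i => M.mulVec (g i)) = (Submodule.subtype (LinearMap.range M.mulVecLin)) ∘ f := by
      funext i
      exact hg i
    rw [h4]
    exact h3
  refine ⟨fun w => ∑ i, w i • g i, ?_⟩
  have h3 : ∀ w : Fin R → F, M.mulVec (∑ i, w i • g i) = ∑ i, w i • M.mulVec (g i) := by
    intro w
    rw [Matrix.mulVec_sum]
    exact Finset.sum_congr rfl fun i _ => Matrix.mulVec_smul _ _ _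
  intro w w' hww
  have h5 : M.mulVec (∑ i, w i • g i) = M.mulVec (∑ i, w' i • g i) := hww
  rw [h3, h3] at h5
  have h7 : ∑ i, (w i - w' i) • M.mulVec (g i) = 0 := by
    simp only [sub_smul, Finset.sum_sub_distrib]
    rw [h5, sub_self]
  have h8 := Fintype.linearIndependent_iff.mp hg2 _ h7
  funext i
  exact sub_eq_zero.mp (h8 i)

theorem card_rho_ge (t : (Fin k → Fin n) → Fin n → F) (b : Fin k) (R : ℕ) :
    ((zset t).filter fun x => R ≤ rho t b x).card * Fintype.card F ^ R ≤
      Fintype.card F ^ (k * n) := by
  classical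
  have hs : ∀ M : Matrix (Fin n) (Fin n) F, ∃ σ : (Fin R → F) → (Fin n → F),
      R ≤ M.rank → Function.Injective fun w => M.mulVec (σ w) := by
    intro M
    by_cases h : R ≤ M.rank
    · obtain ⟨σ, hσ⟩ := cr_sigma M R h
      exact ⟨σ, fun _ => hσ⟩
    · exact ⟨fun _ => 0, fun h' => absurd h' h⟩
  choose σ hσ using hs
  have hX : Fintype.card F ^ (k * n) = (Finset.univ : Finset (Fin k → Fin n → F)).card := by
    rw [Finset.card_univ, Fintype.card_fun, Fintype.card_fun, Fintype.card_fin, Fintype.card_fin,
      ← pow_mul, mul_comm]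
  have hR : Fintype.card F ^ R = (Finset.univ : Finset (Fin R → F)).card := by
    rw [Finset.card_univ, Fintype.card_fun, Fintype.card_fin]
  rw [hX, hR, ← Finset.card_product]
  refine Finset.card_le_card_of_injOn
    (fun p => Function.update p.1 b (p.1 b + σ (tmat (A := F) t b p.1) p.2))
    (fun _ _ => Finset.mem_coe.mpr (Finset.mem_univ _)) ?_
  rintro ⟨x, w⟩ hx ⟨x', w'⟩ hx' he
  have hx1 := (Finset.mem_filter.mp (Finset.mem_product.mp (Finset.mem_coe.mp hx)).1)
  have hx2 := (Finset.mem_filter.mp (Finset.mem_product.mp (Finset.mem_coe.mp hx')).1)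
  have he' : Function.update x b (x b + σ (tmat (A := F) t b x) w) =
      Function.update x' b (x' b + σ (tmat (A := F) t b x') w') := he
  have hM : tmat (A := F) t b x = tmat (A := F) t b x' := by
    rw [← tmat_update t b x (x b + σ (tmat (A := F) t b x) w), he', tmat_update]
  have hz : (tmat (A := F) t b x).mulVec (x b) = 0 := by
    rw [← tev_eq_mulVec]
    exact (Finset.mem_filter.mp hx1.1).2
  have hz' : (tmat (A := F) t b x).mulVec (x' b) = 0 := by
    rw [hM, ← tev_eq_mulVec]
    exact (Finset.mem_filter.mp hx2.1).2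
  have hb : x b + σ (tmat (A := F) t b x) w = x' b + σ (tmat (A := F) t b x) w' := by
    have h1 := congrFun he' b
    rw [Function.update_self, Function.update_self, ← hM] at h1
    exact h1
  have hw : w = w' := by
    apply hσ (tmat (A := F) t b x) hx1.2
    have h1 := congrArg (fun v => (tmat (A := F) t b x).mulVec v) hb
    simp only [Matrix.mulVec_add, hz, hz', zero_add] at h1
    exact h1
  subst hw
  have hxb : x b = x' b := add_right_cancel hb
  have hxx : x = x' := by
    funext i
    by_cases hi : i = b
    · rw [hi, hxb]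
    · have h1 := congrFun he' i
      rw [Function.update_of_ne hi, Function.update_of_ne hi] at h1
      exact h1
  rw [hxx]

end Pool.Agent.Helper92.AR
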