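import Mathlib
import Pool.Agent.Helper83.AH.Defs

/-!
# Linear relation of partition rank and analytic rank: definitions

`F` is a finite field with `q` elements.  A tensor with `k` input slots and one output slot is its
coefficient array `t : (Fin k → Fin n) → Fin n → F`; it defines the `(k+1)`-linear form `tform t`.
-/

set_option autoImplicit false

namespace Pool.Agent.Helper92.AR

open Polynomial Finset
open Pool.Agent.Helper83.AH (IsML)

section tensor

variable {k n : ℕ} {F : Type} [Field F] {A : Type} [CommRing A] [Algebra F A]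

/-- value of the tensor at `p` over an `F`-algebra `A` -/
noncomputable def tev (t : (Fin k → Fin n) → Fin n → F) (p : Fin k → Fin n → A) : Fin n → A :=
  fun l => ∑ i : Fin k → Fin n, algebraMap F A (t i l) * ∏ j, p j (i j)

/-- the matrix of the linear map `y ↦ tev t (p with slot b replaced by y)` -/
noncomputable def tmat (t : (Fin k → Fin n) → Fin n → F) (b : Fin k) (p : Fin k → Fin n → A) :
    Matrix (Fin n) (Fin n) A :=
  Matrix.of fun l a => tev t (Function.update p b (Pi.single a 1)) l

/-- the multilinear form of the tensor; the last slot pairs with the output -/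
noncomputable def tform (t : (Fin k → Fin n) → Fin n → F) (h : Fin (k + 1) → Fin n → F) : F :=
  ∑ l, h (Fin.last k) l * tev (A := F) t (Fin.init h) l

/-- coefficient array of a function of `k+1` vectors -/
noncomputable def tens (f : (Fin (k + 1) → Fin n → F) → F) : (Fin k → Fin n) → Fin n → F :=
  fun i l => f (Fin.snoc (α := fun _ => Fin n → F) (fun j => Pi.single (i j) 1) (Pi.single l 1))

/-- rank of slot `b` at the point `x` -/
noncomputable def rho (t : (Fin k → Fin n) → Fin n → F) (b : Fin k) (x : Fin k → Fin n → F) : ℕ :=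
  (tmat (A := F) t b x).rank

/-- sum of the ranks of all slots -/
noncomputable def Rho (t : (Fin k → Fin n) → Fin n → F) (x : Fin k → Fin n → F) : ℕ :=
  ∑ b, rho t b x

open Classical in
/-- the zero set of the tensor -/
noncomputable def zset [Fintype F] (t : (Fin k → Fin n) → Fin n → F) :
    Finset (Fin k → Fin n → F) :=
  Finset.univ.filter fun x => tev (A := F) t x = 0

/-- analytic rank -/
noncomputable def anrk [Fintype F] (t : (Fin k → Fin n) → Fin n → F) : ℝ :=
  -Real.logb (Fintype.card F) (((zset t).card : ℝ) / (Fintype.card F : ℝ) ^ (k * n))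

/-- generic rank (rank over the rational function field) of a polynomial matrix -/
noncomputable def grank (M : Matrix (Fin n) (Fin n) F[X]) : ℕ :=
  (M.map (algebraMap F[X] (RatFunc F))).rank

/-- evaluation of a tuple of polynomial vectors at `c` -/
noncomputable def evP (c : F) (P : Fin k → Fin n → F[X]) : Fin k → Fin n → F :=
  fun i a => (P i a).eval c

/-- the tuple of constant polynomial vectors -/
noncomputable def cst (x : Fin k → Fin n → F) : Fin k → Fin n → F[X] :=
  fun i a => Polynomial.C (x i a)

/-- sum of the generic ranks of all slots -/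
noncomputable def Theta (t : (Fin k → Fin n) → Fin n → F) (P : Fin k → Fin n → F[X]) : ℕ :=
  ∑ b, grank (tmat t b P)

end tensor

section polymat

variable {n : ℕ} {F : Type} [Field F]

/-- the polynomial vector with coefficients `c 0, c 1, ..., c (ℓ-1)`, as a linear map -/
noncomputable def toPoly {ℓ : ℕ} : (Fin ℓ → Fin n → F) →ₗ[F] (Fin n → F[X]) where
  toFun c := fun a => ∑ i : Fin ℓ, Polynomial.C (c i a) * X ^ (i : ℕ)
  map_add' c d := by
    funext a
    simp only [Pi.add_apply, map_add, add_mul, Finset.sum_add_distrib]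
  map_smul' r c := by
    funext a
    simp only [Pi.smul_apply, smul_eq_mul, map_mul, RingHom.id_apply, Finset.smul_sum,
      Polynomial.smul_eq_C_mul, mul_assoc]

/-- coefficient arrays of length `ℓ` (polynomial vectors of degree `< ℓ`) in the kernel of `M` -/
noncomputable def Kmod (ℓ : ℕ) (M : Matrix (Fin n) (Fin n) F[X]) :
    Submodule F (Fin ℓ → Fin n → F) :=
  LinearMap.ker ((M.mulVecLin.restrictScalars F) ∘ₗ toPoly)

/-- value at `c` of the polynomial vector with coefficient array `z`, as a linear map -/
noncomputable def evL (ℓ : ℕ) (c : F) : (Fin ℓ → Fin n → F) →ₗ[F] (Fin n → F) where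
  toFun z := fun a => ∑ i : Fin ℓ, c ^ (i : ℕ) * z i a
  map_add' c d := by
    funext a
    simp only [Pi.add_apply, mul_add, Finset.sum_add_distrib]
  map_smul' r c := by
    funext a
    simp only [Pi.smul_apply, smul_eq_mul, RingHom.id_apply, Finset.mul_sum]
    exact Finset.sum_congr rfl fun i _ => by ring

/-- the first `m` coefficients -/
def trL (m ℓ : ℕ) (h : m ≤ ℓ) : (Fin ℓ → Fin n → F) →ₗ[F] (Fin m → Fin n → F) where
  toFun z := fun i => z (Fin.castLE h i)
  map_add' _ _ := rfl
  map_smul' _ _ := rfl

/-- average of a function over a finite set (zero for the empty set) -/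
noncomputable def avg {α : Type} (S : Finset α) (g : α → ℝ) : ℝ := (∑ a ∈ S, g a) / S.card

open Classical in
/-- the elements of `Kmod` as a finite set -/
noncomputable def Kset [Fintype F] (ℓ : ℕ) (M : Matrix (Fin n) (Fin n) F[X]) :
    Finset (Fin ℓ → Fin n → F) :=
  Finset.univ.filter fun z => z ∈ Kmod ℓ M

open Classical in
/-- the kernel of a matrix as a finite set -/
noncomputable def kerF [Fintype F] (M : Matrix (Fin n) (Fin n) F) : Finset (Fin n → F) :=
  Finset.univ.filter fun y => M.mulVec y = 0

/-- `N` is a reflexive generalised inverse of `M` -/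
def GInv (M N : Matrix (Fin n) (Fin n) F) : Prop := M * N * M = M ∧ N * M * N = N

end polymat

section process

variable {k n : ℕ} {F : Type} [Field F] [Fintype F]

/-- one step of the process in slot `j`: expectation of `g` after adding `X * ζ` to slot `j`, `ζ`
uniform in the kernel of the matrix of slot `j` among the polynomial vectors of degree `< ℓ` -/
noncomputable def stepE (t : (Fin k → Fin n) → Fin n → F) (ℓ : ℕ) (j : Fin k)
    (g : (Fin k → Fin n → F[X]) → ℝ) (P : Fin k → Fin n → F[X]) : ℝ :=
  avg (Kset ℓ (tmat t j P)) fun z =>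
    g (Function.update P j fun a => P j a + X * (toPoly z : Fin n → F[X]) a)

open Classical in
/-- expectation of `g` after `j` steps of the process started at `x`; the process is killed (value
`0`) if the predicate `good i` fails for the tuple after `i < j` steps -/
noncomputable def QE (t : (Fin k → Fin n) → Fin n → F) (L : ℕ → ℕ)
    (good : ℕ → (Fin k → Fin n → F[X]) → Prop) (x : Fin k → Fin n → F) :
    ℕ → ((Fin k → Fin n → F[X]) → ℝ) → ℝ
  | 0, g => g (cst x)
  | (j + 1), g => if hj : j < k then
      QE t L good x j (fun P => if good j P then stepE t (L j) ⟨j, hj⟩ g P else 0) else 0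

/-- the tuple with the slots `≥ i` replaced by the constants `x` -/
noncomputable def trP (x : Fin k → Fin n → F) (i : ℕ) (P : Fin k → Fin n → F[X]) :
    Fin k → Fin n → F[X] :=
  fun l => if (l : ℕ) < i then P l else cst x l

/-- tuples which can occur after `j` steps of the process started at `x` -/
structure Adm (t : (Fin k → Fin n) → Fin n → F) (L : ℕ → ℕ) (x : Fin k → Fin n → F) (j : ℕ)
    (P : Fin k → Fin n → F[X]) : Prop where
  zero : ∀ i ≤ j, tev t (trP x i P) = 0
  const : trP x j P = P
  eval0 : evP 0 P = x
  deg : ∀ (i : Fin k) (a : Fin n), (P i a).natDegree ≤ L i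

end process

section canonical

variable {s n : ℕ} {F : Type} [Field F] {A : Type} [CommRing A] [Algebra F A]

/-- the difference of the matrix of slot `b` at `p` and at `x` -/
noncomputable def canE (t : (Fin (s + 1) → Fin n) → Fin n → F) (x : Fin (s + 1) → Fin n → F)
    (b : Fin (s + 1)) (p : Fin (s + 1) → Fin n → A) : Matrix (Fin n) (Fin n) A :=
  tmat t b p - (tmat (A := F) t b x).map (algebraMap F A)

/-- truncated Neumann series `∑_{i ≤ s} (-N E)^i z` -/
noncomputable def canZ (t : (Fin (s + 1) → Fin n) → Fin n → F) (x : Fin (s + 1) → Fin n → F)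
    (N : Fin (s + 1) → Matrix (Fin n) (Fin n) F) (b : Fin (s + 1)) (p : Fin (s + 1) → Fin n → A)
    (z : Fin n → A) : Fin n → A :=
  (∑ i ∈ Finset.range (s + 1), (-((N b).map (algebraMap F A) * canE t x b p)) ^ i).mulVec z

/-- the canonical tuple after `j` steps with parameters `z` -/
noncomputable def canP (t : (Fin (s + 1) → Fin n) → Fin n → F) (x : Fin (s + 1) → Fin n → F)
    (N : Fin (s + 1) → Matrix (Fin n) (Fin n) F) (z : Fin (s + 1) → Fin n → A) :
    ℕ → Fin (s + 1) → Fin n → A
  | 0 => fun i a => algebraMap F A (x i a)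
  | (j + 1) => if hj : j < s + 1 then
      Function.update (canP t x N z j) ⟨j, hj⟩ (fun a => algebraMap F A (x ⟨j, hj⟩ a) +
        canZ t x N ⟨j, hj⟩ (canP t x N z j) (z ⟨j, hj⟩) a) else canP t x N z j

/-- the canonical residual vector -/
noncomputable def canV (t : (Fin (s + 1) → Fin n) → Fin n → F) (x : Fin (s + 1) → Fin n → F)
    (N : Fin (s + 1) → Matrix (Fin n) (Fin n) F) (z : Fin (s + 1) → Fin n → A) : Fin n → A :=
  (tmat t (Fin.last s) (canP t x N z s)).mulVec
    (canZ t x N (Fin.last s) (canP t x N z s) (z (Fin.last s)))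

/-- the canonical form -/
noncomputable def canPhi (t : (Fin (s + 1) → Fin n) → Fin n → F) (x : Fin (s + 1) → Fin n → F)
    (N : Fin (s + 1) → Matrix (Fin n) (Fin n) F) (z : Fin (s + 1) → Fin n → A) (u : Fin n → A) :
    A :=
  ∑ l, u l * canV t x N z l

/-- the projection onto the kernel of the matrix of slot `b` at `x` -/
noncomputable def prj (t : (Fin (s + 1) → Fin n) → Fin n → F) (x : Fin (s + 1) → Fin n → F)
    (N : Fin (s + 1) → Matrix (Fin n) (Fin n) F) (b : Fin (s + 1)) : Matrix (Fin n) (Fin n) F :=
  1 - N b * tmat (A := F) t b x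

/-- the projection for the output slot -/
noncomputable def prjO (t : (Fin (s + 1) → Fin n) → Fin n → F) (x : Fin (s + 1) → Fin n → F)
    (N : Fin (s + 1) → Matrix (Fin n) (Fin n) F) : Matrix (Fin n) (Fin n) F :=
  (1 - tmat (A := F) t (Fin.last s) x * N (Fin.last s)).transpose

/-- the parameters of the process: projected coefficients `1, ..., s+1` of the tuple -/
noncomputable def recZ (t : (Fin (s + 1) → Fin n) → Fin n → F) (x : Fin (s + 1) → Fin n → F)
    (N : Fin (s + 1) → Matrix (Fin n) (Fin n) F) (P : Fin (s + 1) → Fin n → F[X]) :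
    Fin (s + 1) → Fin (s + 1) → Fin n → F :=
  fun j i => (prj t x N j).mulVec fun a => (P j a).coeff ((i : ℕ) + 1)

/-- polynomial parameters: `X * z_j` for `j < s`, `z_s` for the last slot -/
noncomputable def zz (y : Fin (s + 1) → Fin (s + 1) → Fin n → F) : Fin (s + 1) → Fin n → F[X] :=
  fun j => if j = Fin.last s then (toPoly (y j) : Fin n → F[X]) else
    fun a => X * (toPoly (y j) : Fin n → F[X]) a

/-- apply the projections to all coefficients -/
noncomputable def pry (t : (Fin (s + 1) → Fin n) → Fin n → F) (x : Fin (s + 1) → Fin n → F)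
    (N : Fin (s + 1) → Matrix (Fin n) (Fin n) F) (y : Fin (s + 1) → Fin (s + 1) → Fin n → F) :
    Fin (s + 1) → Fin (s + 1) → Fin n → F :=
  fun j i => (prj t x N j).mulVec (y j i)

/-- coefficient `s` of the canonical form over `F[X]` as a function of coefficient arrays -/
noncomputable def Phi (t : (Fin (s + 1) → Fin n) → Fin n → F) (x : Fin (s + 1) → Fin n → F)
    (N : Fin (s + 1) → Matrix (Fin n) (Fin n) F) (y : Fin (s + 1) → Fin (s + 1) → Fin n → F)
    (u : Fin (s + 1) → Fin n → F) : F :=
  (canPhi t x N (zz (pry t x N y))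
    (toPoly (fun i => (prjO t x N).mulVec (u i)) : Fin n → F[X])).coeff s

/-- exponent vector of a set of variables -/
noncomputable def ind (J : Finset (Fin s)) : Fin s →₀ ℕ := Finsupp.indicator J fun _ _ => 1

/-- parameters over the polynomial ring in `Y_0, ..., Y_{s-1}`: `Y_j * h_j` (projected) for `j < s`,
the constant `h_s` (projected) for the last slot -/
noncomputable def zY (t : (Fin (s + 1) → Fin n) → Fin n → F) (x : Fin (s + 1) → Fin n → F)
    (N : Fin (s + 1) → Matrix (Fin n) (Fin n) F) (h : Fin (s + 2) → Fin n → F) :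
    Fin (s + 1) → Fin n → MvPolynomial (Fin s) F :=
  fun j a => if hj : (j : ℕ) < s then
    MvPolynomial.X ⟨j, hj⟩ * MvPolynomial.C ((prj t x N j).mulVec (h j.castSucc) a) else
    MvPolynomial.C ((prj t x N j).mulVec (h j.castSucc) a)

/-- the new form: coefficient of `Y_0 ⋯ Y_{s-1}` of the canonical form -/
noncomputable def T1 (t : (Fin (s + 1) → Fin n) → Fin n → F) (x : Fin (s + 1) → Fin n → F)
    (N : Fin (s + 1) → Matrix (Fin n) (Fin n) F) (h : Fin (s + 2) → Fin n → F) : F :=
  MvPolynomial.coeff (ind Finset.univ) (canPhi t x N (zY t x N h)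
    fun l => MvPolynomial.C ((prjO t x N).mulVec (h (Fin.last (s + 1))) l))

end canonical

section pr

variable {d n : ℕ} {F : Type} [Field F]

/-- `f` is a sum of `N` products of multilinear functions in complementary non-empty sets of slots -/
def HasPR (f : (Fin d → Fin n → F) → F) (N : ℕ) : Prop :=
  ∃ (J : Fin N → Finset (Fin d)) (g h : Fin N → (Fin d → Fin n → F) → F),
    (∀ i, (J i).Nonempty ∧ (J i)ᶜ.Nonempty ∧ IsML F (J i) (g i) ∧ IsML F (J i)ᶜ (h i)) ∧
    ∀ x, f x = ∑ i, g i x * h i x

end pr

section misc

/-- complex average over a finite type -/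
noncomputable def avgC {α : Type} [Fintype α] (f : α → ℂ) : ℂ := (∑ a, f a) / Fintype.card α

/-- add `h j` to the coefficient `0` of slot `j < s` -/
noncomputable def addz {s n : ℕ} {F : Type} [Field F] (y : Fin (s + 1) → Fin (s + 1) → Fin n → F)
    (h : Fin s → Fin n → F) : Fin (s + 1) → Fin (s + 1) → Fin n → F :=
  fun j i => if hj : (j : ℕ) < s then (if (i : ℕ) = 0 then y j i + h ⟨j, hj⟩ else y j i) else y j i

/-- the tuple `(h_0, ..., h_{s-1}, v, u)` -/
def join {s n : ℕ} {F : Type} (h : Fin s → Fin n → F) (v u : Fin n → F) :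
    Fin (s + 2) → Fin n → F :=
  Fin.snoc (α := fun _ => Fin n → F) (Fin.snoc (α := fun _ => Fin n → F) h v) u

/-- slot `j < s` as a slot of `Fin (s + 2)` -/
def slotEmb (s : ℕ) : Fin s ↪ Fin (s + 2) := Fin.castLEEmb (Nat.le_add_right s 2)

/-- every square-free coefficient of the `MvPolynomial`-valued function `f` is multilinear: the
coefficient of `∏_{j ∈ J} Y_j` is multilinear in the slots of `J` and of `J0` and depends on no
other slot -/
def Nice {s n : ℕ} {F : Type} [Field F] (J0 : Finset (Fin (s + 2)))
    (f : (Fin (s + 2) → Fin n → F) → MvPolynomial (Fin s) F) : Prop :=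
  ∀ J : Finset (Fin s), IsML F (J.map (slotEmb s) ∪ J0) fun h => MvPolynomial.coeff (ind J) (f h)

/-- base change of a tensor -/
def tK {k n : ℕ} {F : Type} [Field F] (K : Type) [Field K] [Algebra F K]
    (t : (Fin k → Fin n) → Fin n → F) : (Fin k → Fin n) → Fin n → K :=
  fun i l => algebraMap F K (t i l)

end misc

end Pool.Agent.Helper92.AR
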