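import Pool.Agent.Helper92.AR.Defs

/-!
Definitions for the partition rank bound: projected arguments and hybrid tuples.
-/

set_option autoImplicit false

namespace Pool.Agent.Helper92.AR

open Polynomial Finset
open Pool.Agent.Helper83.AH (IsML)

/-- all arguments projected -/
noncomputable def prH {s n : ℕ} {F : Type} [Field F] (t : (Fin (s + 1) → Fin n) → Fin n → F)
    (x : Fin (s + 1) → Fin n → F) (N : Fin (s + 1) → Matrix (Fin n) (Fin n) F)
    (h : Fin (s + 2) → Fin n → F) : Fin (s + 2) → Fin n → F :=
  Fin.snoc (α := fun _ => Fin n → F) (fun j : Fin (s + 1) => (prj t x N j).mulVec (h j.castSucc))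
    ((prjO t x N).mulVec (h (Fin.last (s + 1))))

/-- the hybrid tuple: canonical in the slots `< j`, uncorrected in the slots `≥ j` -/
noncomputable def hyb {s n : ℕ} {F : Type} [Field F] (t : (Fin (s + 1) → Fin n) → Fin n → F)
    (x : Fin (s + 1) → Fin n → F) (N : Fin (s + 1) → Matrix (Fin n) (Fin n) F) (j : ℕ)
    (h : Fin (s + 2) → Fin n → F) : Fin (s + 1) → Fin n → MvPolynomial (Fin s) F :=
  fun i => if (i : ℕ) < j then
      (if (i : ℕ) < s then canP t x N (zY t x N h) s i
        else canZ t x N (Fin.last s) (canP t x N (zY t x N h) s) (zY t x N h (Fin.last s)))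
    else (if (i : ℕ) < s then fun a => MvPolynomial.C (x i a) + zY t x N h i a
      else zY t x N h i)

/-- the form of the hybrid tuple -/
noncomputable def hybF {s n : ℕ} {F : Type} [Field F] (t : (Fin (s + 1) → Fin n) → Fin n → F)
    (x : Fin (s + 1) → Fin n → F) (N : Fin (s + 1) → Matrix (Fin n) (Fin n) F) (j : ℕ)
    (h : Fin (s + 2) → Fin n → F) : F :=
  MvPolynomial.coeff (ind Finset.univ) (∑ l,
    MvPolynomial.C ((prjO t x N).mulVec (h (Fin.last (s + 1))) l) * tev t (hyb t x N j h) l)

end Pool.Agent.Helper92.AR
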