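import Pool.Agent.Helper92.AR.Defs

/-!
AR-B2. Evaluation images.  `(toPoly z a).eval c = evL ℓ c z a`.
(a) If `z ∈ Kmod (ℓ+1) M` and `evL (ℓ+1) c z = 0` then every entry of `toPoly z` is divisible by
`X - C c`, the quotients have degree `< ℓ`, and `M *ᵥ quotient = 0` (`F[X]` is a domain).  So the kernel
of `evL (ℓ+1) c` on `Kmod (ℓ+1) M` is the image of `Kmod ℓ M` under the injective map
`multiplication by X - C c`; hence
`finrank Kmod (ℓ+1) = finrank (image) + finrank Kmod ℓ` (rank-nullity; only `≤` is needed: the quotient map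
is an injective linear map of the kernel into `Kmod ℓ M`).
(b) `evim_mono`: pad the coefficient array with a zero (`Fin.snoc z 0`); the polynomial is the same.
(c) `finrank_kmod_le`: induction on `ℓ` with (a), (b).
-/

set_option autoImplicit false

namespace Pool.Agent.Helper92.AR

open Polynomial Finset
open Pool.Agent.Helper83.AH (IsML)

variable {n : ℕ} {F : Type} [Field F]

theorem eval_toPoly {ℓ : ℕ} (c : F) (z : Fin ℓ → Fin n → F) (a : Fin n) :
    ((toPoly z : Fin n → F[X]) a).eval c = evL ℓ c z a := by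
  change (∑ i : Fin ℓ, Polynomial.C (z i a) * X ^ (i : ℕ)).eval c = ∑ i : Fin ℓ, c ^ (i : ℕ) * z i a
  rw [eval_finsetSum]
  refine Finset.sum_congr rfl fun i _ => ?_
  rw [eval_mul, eval_C, eval_pow, eval_X, mul_comm]

private theorem evim_coeff {ℓ : ℕ} (z : Fin ℓ → Fin n → F) (a : Fin n) (j : ℕ) :
    ((toPoly z : Fin n → F[X]) a).coeff j = if h : j < ℓ then z ⟨j, h⟩ a else 0 := by
  change (∑ i : Fin ℓ, Polynomial.C (z i a) * X ^ (i : ℕ)).coeff j = _
  rw [finsetSum_coeff]
  simp only [coeff_C_mul, coeff_X_pow]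
  by_cases h : j < ℓ
  · rw [dif_pos h, Finset.sum_eq_single (⟨j, h⟩ : Fin ℓ)]
    · simp
    · intro i _ hi
      have : j ≠ (i : ℕ) := fun h' => hi (Fin.ext h'.symm)
      simp [this]
    · intro h'
      exact absurd (Finset.mem_univ _) h'
  · rw [dif_neg h]
    apply Finset.sum_eq_zero
    intro i _
    have : j ≠ (i : ℕ) := by
      have := i.2
      omega
    simp [this]

private theorem evim_mem {ℓ : ℕ} (M : Matrix (Fin n) (Fin n) F[X]) (z : Fin ℓ → Fin n → F) :
    z ∈ Kmod ℓ M ↔ M.mulVec (toPoly z : Fin n → F[X]) = 0 := Iff.rfl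

theorem evim_mono (ℓ : ℕ) (M : Matrix (Fin n) (Fin n) F[X]) (c : F) :
    (Kmod ℓ M).map (evL ℓ c) ≤ (Kmod (ℓ + 1) M).map (evL (ℓ + 1) c) := by
  rintro _ ⟨z, hz, rfl⟩
  have hz' : z ∈ Kmod ℓ M := hz
  have key : (toPoly (Fin.snoc (α := fun _ => Fin n → F) z 0 : Fin (ℓ + 1) → Fin n → F) :
      Fin n → F[X]) = toPoly z := by
    funext a
    ext j
    rw [evim_coeff, evim_coeff]
    by_cases h : j < ℓ
    · have h' : j < ℓ + 1 := by omega
      rw [dif_pos h, dif_pos h']
      simp only [Fin.snoc, h, dif_pos]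
      rfl
    · rw [dif_neg h]
      by_cases h' : j < ℓ + 1
      · rw [dif_pos h']
        simp [Fin.snoc, h]
      · rw [dif_neg h']
  refine ⟨Fin.snoc (α := fun _ => Fin n → F) z 0, ?_, ?_⟩
  · change _ ∈ Kmod (ℓ + 1) M
    rw [evim_mem, key]
    exact hz'
  · funext a
    rw [← eval_toPoly, ← eval_toPoly, key]

theorem evim_mono' {ℓ ℓ' : ℕ} (h : ℓ ≤ ℓ') (M : Matrix (Fin n) (Fin n) F[X]) (c : F) :
    (Kmod ℓ M).map (evL ℓ c) ≤ (Kmod ℓ' M).map (evL ℓ' c) := by
  induction ℓ', h using Nat.le_induction with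
  | base => exact le_rfl
  | succ m _ ih => exact ih.trans (evim_mono m M c)

/-- multiplication by `X - C c` on coefficient arrays -/
private noncomputable def evim_mulX (ℓ : ℕ) (c : F) :
    (Fin ℓ → Fin n → F) →ₗ[F] (Fin (ℓ + 1) → Fin n → F) where
  toFun w := fun i a => ((X - Polynomial.C c) * (toPoly w : Fin n → F[X]) a).coeff i
  map_add' w w' := by
    funext i a
    simp only [map_add, Pi.add_apply, mul_add, coeff_add]
  map_smul' r w := by
    funext i a
    simp only [map_smul, Pi.smul_apply, RingHom.id_apply, mul_smul_comm, coeff_smul]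

private theorem evim_ker {ℓ : ℕ} (M : Matrix (Fin n) (Fin n) F[X]) (c : F)
    (z : Fin (ℓ + 1) → Fin n → F) (hz : z ∈ Kmod (ℓ + 1) M) (h0 : evL (ℓ + 1) c z = 0) :
    z ∈ (Kmod ℓ M).map (evim_mulX ℓ c) := by
  have hdvd : ∀ a, ∃ q : F[X], (toPoly z : Fin n → F[X]) a = (X - Polynomial.C c) * q := by
    intro a
    have h1 : ((toPoly z : Fin n → F[X]) a).IsRoot c := by
      rw [IsRoot.def, eval_toPoly, h0]
      rfl
    exact dvd_iff_isRoot.2 h1
  choose q hq using hdvd
  have hqc : ∀ a j, ℓ ≤ j → (q a).coeff j = 0 := by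
    intro a j hj
    by_cases hq0 : q a = 0
    · rw [hq0, coeff_zero]
    · apply coeff_eq_zero_of_natDegree_lt
      have h1 : ((toPoly z : Fin n → F[X]) a).natDegree = 1 + (q a).natDegree := by
        rw [hq a, natDegree_mul (X_sub_C_ne_zero c) hq0, natDegree_X_sub_C]
      have h2 : ((toPoly z : Fin n → F[X]) a).natDegree ≤ ℓ := by
        rw [natDegree_le_iff_coeff_eq_zero]
        intro N hN
        rw [evim_coeff, dif_neg (by omega)]
      omega
  have hw : (toPoly (fun (i : Fin ℓ) a => (q a).coeff i) : Fin n → F[X]) = q := by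
    funext a
    ext j
    rw [evim_coeff]
    by_cases h : j < ℓ
    · rw [dif_pos h]
    · rw [dif_neg h, hqc a j (by omega)]
  refine ⟨fun (i : Fin ℓ) a => (q a).coeff i, ?_, ?_⟩
  · change _ ∈ Kmod ℓ M
    rw [evim_mem, hw]
    rw [evim_mem] at hz
    have h1 : (toPoly z : Fin n → F[X]) = (X - Polynomial.C c) • q := by
      funext a
      rw [hq a]
      rfl
    rw [h1, Matrix.mulVec_smul] at hz
    rcases smul_eq_zero.1 hz with h2 | h2
    · exact absurd h2 (X_sub_C_ne_zero c)
    · exact h2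
  · funext i a
    change ((X - Polynomial.C c) *
      (toPoly (fun (i : Fin ℓ) a => (q a).coeff i) : Fin n → F[X]) a).coeff i = z i a
    rw [hw, ← hq a, evim_coeff, dif_pos i.2]

theorem finrank_kmod_le (ℓ : ℕ) (M : Matrix (Fin n) (Fin n) F[X]) (c : F) :
    Module.finrank F (Kmod ℓ M) ≤ ℓ * Module.finrank F ((Kmod ℓ M).map (evL ℓ c)) := by
  induction ℓ with
  | zero =>
    have : Subsingleton (Kmod 0 M) := ⟨fun a b => Subtype.ext (Subsingleton.elim _ _)⟩
    rw [Module.finrank_zero_of_subsingleton]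
    exact Nat.zero_le _
  | succ ℓ ih =>
    have h1 := LinearMap.finrank_range_add_finrank_ker
      ((evL (n := n) (ℓ + 1) c).domRestrict (Kmod (ℓ + 1) M))
    rw [LinearMap.range_domRestrict] at h1
    have h2 : Module.finrank F
        (LinearMap.ker ((evL (n := n) (ℓ + 1) c).domRestrict (Kmod (ℓ + 1) M))) ≤
        Module.finrank F (Kmod ℓ M) := by
      rw [← Submodule.finrank_map_subtype_eq]
      refine le_trans (Submodule.finrank_mono ?_)
        (Submodule.finrank_map_le (evim_mulX (n := n) ℓ c) (Kmod ℓ M))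
      rintro _ ⟨⟨z, hz⟩, hz0, rfl⟩
      exact evim_ker M c z hz hz0
    have h3 := Submodule.finrank_mono (evim_mono ℓ M c)
    have h4 : ℓ * Module.finrank F ((Kmod ℓ M).map (evL ℓ c)) ≤
        ℓ * Module.finrank F ((Kmod (ℓ + 1) M).map (evL (ℓ + 1) c)) :=
      Nat.mul_le_mul_left ℓ h3
    rw [Nat.succ_mul]
    omega

end Pool.Agent.Helper92.AR
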