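import Pool.Agent.Helper92.AR.Defs

/-!
AR-G2. Gowers-Cauchy-Schwarz.  Induction on `s`, for all `W`, `Φ`.  `s = 0`: the only `J` is `∅`, equality.
`s + 1`: write `z = Fin.cons z0 z'`.  `‖𝔼_{z',w} 𝔼_{z0} ψ(Φ(z0,z',w))‖² ≤ 𝔼_{z',w} ‖𝔼_{z0} ψ(Φ)‖² =
𝔼_{z',w} 𝔼_{z0,h0} ψ(Φ(z0+h0,z',w) - Φ(z0,z',w))` (substitute the second variable `z0 + h0`;
`conj (ψ a) = ψ (-a)`, values of `ψ` have norm `1`, finite field).  This is the average over `z'` and
`W' = V × V × W` of `ψ (Φ' z' (z0,h0,w))`, `Φ' = Φ(z0+h0,z',w) - Φ(z0,z',w)`; its norm to the power `2^s` is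
bounded by induction by the norm of the average of `ψ (∑_{J'} (-1)^(s-|J'|) Φ'(z' + h' 1_{J'}, ·))`, and this
sum is `∑_J (-1)^(s+1-|J|) Φ(z + h 1_J, w)` over `J ⊆ Fin (s+1)` (`J = J' ∪ {0}` or `J = J'` shifted).
-/

set_option autoImplicit false

namespace Pool.Agent.Helper92.AR

open Polynomial Finset
open Pool.Agent.Helper83.AH (IsML)

variable {F : Type} [Field F] [Fintype F]

private theorem gc_equiv {α β : Type} [Fintype α] [Fintype β] (e : α ≃ β) (f : β → ℂ) :
    avgC (fun a => f (e a)) = avgC f := by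
  unfold avgC
  rw [Equiv.sum_comp e f, Fintype.card_congr e]

private theorem gc_prod {α β : Type} [Fintype α] [Fintype β] (f : α × β → ℂ) :
    avgC f = avgC (fun a => avgC (fun b => f (a, b))) := by
  unfold avgC
  rw [Fintype.sum_prod_type, ← Finset.sum_div, div_div, Fintype.card_prod, Nat.cast_mul,
    mul_comm (Fintype.card α : ℂ)]

private theorem gc_cs {α : Type} [Fintype α] (f : α → ℂ) :
    ‖avgC f‖ ^ 2 ≤ ‖avgC (fun a => ((‖f a‖ ^ 2 : ℝ) : ℂ))‖ := by
  have h0 : avgC (fun a => ((‖f a‖ ^ 2 : ℝ) : ℂ)) =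
      (((∑ a, ‖f a‖ ^ 2) / Fintype.card α : ℝ) : ℂ) := by
    unfold avgC
    push_cast
    rfl
  have h1 : (0 : ℝ) ≤ (∑ a, ‖f a‖ ^ 2) / Fintype.card α := by positivity
  rw [h0, Complex.norm_real, Real.norm_of_nonneg h1]
  unfold avgC
  rw [norm_div, Complex.norm_natCast, div_pow]
  rcases Nat.eq_zero_or_pos (Fintype.card α) with h | h
  · rw [h]
    simp
  have h2 : (0 : ℝ) < Fintype.card α := by exact_mod_cast h
  rw [div_le_div_iff₀ (by positivity) h2]
  have h3 : ‖∑ a, f a‖ ^ 2 ≤ (∑ a, ‖f a‖) ^ 2 :=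
    pow_le_pow_left₀ (norm_nonneg _) (norm_sum_le _ _) 2
  have h4 : (∑ a, ‖f a‖) ^ 2 ≤ (Fintype.card α : ℝ) * ∑ a, ‖f a‖ ^ 2 := by
    have := sq_sum_le_card_mul_sum_sq (s := (Finset.univ : Finset α)) (f := fun a => ‖f a‖)
    rwa [Finset.card_univ] at this
  calc ‖∑ a, f a‖ ^ 2 * (Fintype.card α : ℝ) ≤
      ((Fintype.card α : ℝ) * ∑ a, ‖f a‖ ^ 2) * (Fintype.card α : ℝ) :=
        mul_le_mul_of_nonneg_right (h3.trans h4) h2.le
    _ = (∑ a, ‖f a‖ ^ 2) * (Fintype.card α : ℝ) ^ 2 := by ring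

private theorem gc_sq {V : Type} [AddCommGroup V] [Fintype V] (ψ : AddChar F ℂ) (φ : V → F) :
    ((‖avgC (fun z => ψ (φ z))‖ ^ 2 : ℝ) : ℂ) =
      avgC (fun q : V × V => ψ (φ (q.1 + q.2) - φ q.1)) := by
  have h1 : ((‖avgC (fun z => ψ (φ z))‖ ^ 2 : ℝ) : ℂ) =
      avgC (fun z => ψ (φ z)) * (starRingEnd ℂ) (avgC (fun z => ψ (φ z))) := by
    rw [Complex.mul_conj']
    push_cast
    rfl
  have h2 : (starRingEnd ℂ) (avgC (fun z => ψ (φ z))) = avgC (fun z => ψ (-(φ z))) := by
    unfold avgC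
    rw [map_div₀, map_sum, Complex.conj_natCast]
    congr 1
    exact Finset.sum_congr rfl fun z _ => (AddChar.map_neg_eq_conj ψ (φ z)).symm
  rw [h1, h2, gc_prod]
  unfold avgC
  rw [div_mul_div_comm, mul_comm (∑ a, ψ (φ a)), Finset.sum_mul_sum, ← Finset.sum_div, div_div]
  congr 1
  refine Finset.sum_congr rfl fun z0 _ => ?_
  rw [← Equiv.sum_comp (Equiv.addLeft z0)]
  refine Finset.sum_congr rfl fun h0 _ => ?_
  show ψ (-(φ z0)) * ψ (φ (z0 + h0)) = ψ (φ (z0 + h0) - φ z0)
  rw [← AddChar.map_add_eq_mul]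
  congr 1
  ring

private theorem gc_sum {M : Type} [AddCommMonoid M] {s : ℕ} (f : Finset (Fin (s + 1)) → M) :
    ∑ J, f J = ∑ J : Finset (Fin s), f (J.image Fin.succ) +
      ∑ J : Finset (Fin s), f (insert 0 (J.image Fin.succ)) := by
  have h1 : (univ : Finset (Fin (s + 1))) = insert 0 ((univ : Finset (Fin s)).image Fin.succ) := by
    ext i
    refine Fin.cases ?_ (fun j => ?_) i
    · simp
    · simp
  have h2 : ∑ J, f J = ∑ J ∈ (univ : Finset (Fin (s + 1))).powerset, f J := by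
    rw [Finset.powerset_univ]
  have h3 : Function.Injective fun J : Finset (Fin s) => J.image Fin.succ :=
    Finset.image_injective (Fin.succ_injective s)
  rw [h2, h1, Finset.sum_powerset_insert (by simp), Finset.powerset_image,
    Finset.sum_image (fun a _ b _ h => h3 h), Finset.sum_image (fun a _ b _ h => h3 h),
    Finset.powerset_univ]

omit [Fintype F] in
private theorem gc_alt {s : ℕ} {V : Type} [AddCommGroup V] (φ : (Fin (s + 1) → V) → F)
    (z0 h0 : V) (z h : Fin s → V) :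
    ∑ J : Finset (Fin (s + 1)), (-1 : F) ^ (s + 1 - J.card) *
      φ (fun j => (Fin.cons z0 z : Fin (s + 1) → V) j +
        if j ∈ J then (Fin.cons h0 h : Fin (s + 1) → V) j else 0) =
    ∑ J : Finset (Fin s), (-1 : F) ^ (s - J.card) *
      (φ (Fin.cons (z0 + h0) fun j => z j + if j ∈ J then h j else 0) -
        φ (Fin.cons z0 fun j => z j + if j ∈ J then h j else 0)) := by
  rw [gc_sum, ← Finset.sum_add_distrib]
  refine Finset.sum_congr rfl fun J _ => ?_
  have hc : (J.image Fin.succ).card = J.card :=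
    Finset.card_image_of_injective _ (Fin.succ_injective s)
  have h0' : (0 : Fin (s + 1)) ∉ J.image Fin.succ := by
    simp [Fin.succ_ne_zero]
  have hJ : J.card ≤ s := by
    have := Finset.card_le_univ J
    rwa [Fintype.card_fin] at this
  have e1 : (fun j => (Fin.cons z0 z : Fin (s + 1) → V) j +
      if j ∈ J.image Fin.succ then (Fin.cons h0 h : Fin (s + 1) → V) j else 0) =
      Fin.cons z0 fun j => z j + if j ∈ J then h j else 0 := by
    funext i
    refine Fin.cases ?_ (fun j => ?_) i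
    · rw [if_neg h0', Fin.cons_zero, Fin.cons_zero, add_zero]
    · have : (Fin.succ j ∈ J.image Fin.succ) ↔ j ∈ J := by
        simp
      simp only [this, Fin.cons_succ]
  have e2 : (fun j => (Fin.cons z0 z : Fin (s + 1) → V) j +
      if j ∈ insert 0 (J.image Fin.succ) then (Fin.cons h0 h : Fin (s + 1) → V) j else 0) =
      Fin.cons (z0 + h0) fun j => z j + if j ∈ J then h j else 0 := by
    funext i
    refine Fin.cases ?_ (fun j => ?_) i
    · rw [if_pos (Finset.mem_insert_self _ _), Fin.cons_zero, Fin.cons_zero, Fin.cons_zero]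
    · have : (Fin.succ j ∈ insert 0 (J.image Fin.succ)) ↔ j ∈ J := by
        simp [Fin.succ_ne_zero]
      simp only [this, Fin.cons_succ]
  rw [e1, e2, Finset.card_insert_of_notMem h0', hc]
  have e3 : s + 1 - J.card = (s - J.card) + 1 := by omega
  have e4 : s + 1 - (J.card + 1) = s - J.card := by omega
  rw [e3, e4, pow_succ]
  ring

private theorem gc_main {V : Type} [AddCommGroup V] [Fintype V] (ψ : AddChar F ℂ) (s : ℕ) :
    ∀ (W : Type) [Fintype W] (Φ : (Fin s → V) → W → F),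
    ‖avgC (fun a : (Fin s → V) × W => ψ (Φ a.1 a.2))‖ ^ (2 ^ s) ≤
      ‖avgC (fun a : (Fin s → V) × (Fin s → V) × W =>
        ψ (∑ J : Finset (Fin s), (-1 : F) ^ (s - J.card) *
          Φ (fun j => a.1 j + if j ∈ J then a.2.1 j else 0) a.2.2))‖ := by
  induction s with
  | zero =>
    intro W _ Φ
    let e : (Fin 0 → V) × (Fin 0 → V) × W ≃ (Fin 0 → V) × W :=
      { toFun := fun q => (q.1, q.2.2)
        invFun := fun q => (q.1, q.1, q.2)
        left_inv := by
          rintro ⟨a, b, c⟩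
          exact Prod.ext rfl (Prod.ext (Subsingleton.elim _ _) rfl)
        right_inv := fun _ => rfl }
    rw [pow_zero, pow_one, ← gc_equiv e]
    refine le_of_eq ?_
    congr 2
    funext a
    congr 1
    rw [Fintype.sum_unique]
    have h1 : (fun j : Fin 0 => a.1 j + if j ∈ (default : Finset (Fin 0)) then a.2.1 j else 0) =
        a.1 := funext fun j => j.elim0
    rw [h1]
    have h2 : 0 - (default : Finset (Fin 0)).card = 0 := Nat.zero_sub _
    rw [h2, pow_zero, one_mul]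
    rfl
  | succ s ih =>
    intro W _ Φ
    let e1 : ((Fin s → V) × W) × V ≃ (Fin (s + 1) → V) × W :=
      { toFun := fun q => (Fin.cons q.2 q.1.1, q.1.2)
        invFun := fun q => ((Fin.tail q.1, q.2), q.1 0)
        left_inv := by
          rintro ⟨⟨a, b⟩, c⟩
          rfl
        right_inv := by
          rintro ⟨a, b⟩
          exact Prod.ext (Fin.cons_self_tail a) rfl }
    let Φ' : (Fin s → V) → (V × V × W) → F := fun z q =>
      Φ (Fin.cons (q.1 + q.2.1) z) q.2.2 - Φ (Fin.cons q.1 z) q.2.2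
    let e2 : ((Fin s → V) × W) × (V × V) ≃ (Fin s → V) × (V × V × W) :=
      { toFun := fun q => (q.1.1, q.2.1, q.2.2, q.1.2)
        invFun := fun q => ((q.1, q.2.2.2), (q.2.1, q.2.2.1))
        left_inv := fun _ => rfl
        right_inv := fun _ => rfl }
    let e3 : (Fin s → V) × (Fin s → V) × (V × V × W) ≃
        (Fin (s + 1) → V) × (Fin (s + 1) → V) × W :=
      { toFun := fun q => (Fin.cons q.2.2.1 q.1, Fin.cons q.2.2.2.1 q.2.1, q.2.2.2.2)
        invFun := fun q => (Fin.tail q.1, Fin.tail q.2.1, (q.1 0, q.2.1 0, q.2.2))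
        left_inv := by
          rintro ⟨a, b, c, d, f⟩
          rfl
        right_inv := by
          rintro ⟨a, b, c⟩
          exact Prod.ext (Fin.cons_self_tail a) (Prod.ext (Fin.cons_self_tail b) rfl) }
    have hA : ‖avgC (fun a : (Fin (s + 1) → V) × W => ψ (Φ a.1 a.2))‖ ^ 2 ≤
        ‖avgC (fun a : (Fin s → V) × (V × V × W) => ψ (Φ' a.1 a.2))‖ := by
      rw [← gc_equiv e1, gc_prod]
      refine (gc_cs _).trans (le_of_eq ?_)
      have hE : avgC (fun a : (Fin s → V) × (V × V × W) => ψ (Φ' a.1 a.2)) =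
          avgC (fun a : (Fin s → V) × W => avgC (fun b : V × V =>
            ψ (Φ (Fin.cons (b.1 + b.2) a.1) a.2 - Φ (Fin.cons b.1 a.1) a.2))) := by
        rw [← gc_equiv e2, gc_prod]
        rfl
      rw [hE]
      congr 2
      funext a
      exact gc_sq ψ fun z => Φ (Fin.cons z a.1) a.2
    have hB := ih (V × V × W) Φ'
    rw [pow_succ, mul_comm, pow_mul]
    refine (pow_le_pow_left₀ (by positivity) hA _).trans (hB.trans (le_of_eq ?_))
    rw [← gc_equiv e3]
    congr 2
    funext a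
    congr 1
    exact (gc_alt (fun y => Φ y a.2.2.2.2) a.2.2.1 a.2.2.2.1 a.1 a.2.1).symm

theorem gcs {s : ℕ} {V W : Type} [AddCommGroup V] [Fintype V] [Fintype W] (ψ : AddChar F ℂ)
    (Φ : (Fin s → V) → W → F) :
    ‖avgC (fun a : (Fin s → V) × W => ψ (Φ a.1 a.2))‖ ^ (2 ^ s) ≤
      ‖avgC (fun a : (Fin s → V) × (Fin s → V) × W =>
        ψ (∑ J : Finset (Fin s), (-1 : F) ^ (s - J.card) *
          Φ (fun j => a.1 j + if j ∈ J then a.2.1 j else 0) a.2.2))‖ := by
  exact gc_main ψ s W Φ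

end Pool.Agent.Helper92.AR
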