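import Pool.Agent.Helper92.AR.Defs
import Pool.Agent.Helper83.AH.Basic

/-!
AR-R6. Existence of a reflexive generalised inverse: `N = G₁ * G₂` from
`Pool.Agent.Helper83.AH.exists_pinv` (`G₂ M G₁ = 1`, `M G₁ G₂ M = M`).
Levels: `L j = G * E_j + (s+1)` with `E_j = ∑_{i<j} L i` (define the pair recursively, or by strong
recursion); `Emax = E_{s+1}` (or the sum of all of them).
-/

set_option autoImplicit false

namespace Pool.Agent.Helper92.AR

open Polynomial Finset
open Pool.Agent.Helper83.AH (IsML)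

theorem exists_ginv {n : ℕ} {F : Type} [Field F] (M : Matrix (Fin n) (Fin n) F) :
    ∃ N : Matrix (Fin n) (Fin n) F, GInv M N := by
  obtain ⟨G₁, G₂, h1, h2⟩ := Pool.Agent.Helper83.AH.exists_pinv M
  refine ⟨G₁ * G₂, ?_, ?_⟩
  · rw [← Matrix.mul_assoc M G₁ G₂]
    exact h2
  · have h3 : G₁ * G₂ * M * (G₁ * G₂) = G₁ * (G₂ * M * G₁) * G₂ := by
      simp only [Matrix.mul_assoc]
    rw [h3, h1, Matrix.mul_one]

theorem exists_levels (s G : ℕ) : ∃ (L : ℕ → ℕ) (Emax : ℕ), (∀ j, s + 1 ≤ L j) ∧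
    (∀ j, G * ∑ i ∈ Finset.range j, L i ≤ L j - s) ∧
    (∀ j ≤ s + 1, ∑ i ∈ Finset.range j, L i ≤ Emax) := by
  let E : ℕ → ℕ := fun j => Nat.rec 0 (fun _ e => e + (G * e + (s + 1))) j
  have hE : ∀ j, E (j + 1) = E j + (G * E j + (s + 1)) := fun j => rfl
  have hsum : ∀ j, ∑ i ∈ Finset.range j, (G * E i + (s + 1)) = E j := by
    intro j
    induction j with
    | zero => rfl
    | succ j ih => rw [Finset.sum_range_succ, ih, hE]
  have hmono : Monotone E := monotone_nat_of_le_succ fun j => by rw [hE]; omega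
  refine ⟨fun j => G * E j + (s + 1), E (s + 1), fun j => ?_, fun j => ?_, fun j hj => ?_⟩
  · show s + 1 ≤ G * E j + (s + 1)
    omega
  · show G * ∑ i ∈ Finset.range j, (G * E i + (s + 1)) ≤ G * E j + (s + 1) - s
    rw [hsum]
    omega
  · show ∑ i ∈ Finset.range j, (G * E i + (s + 1)) ≤ E (s + 1)
    rw [hsum]
    exact hmono hj

end Pool.Agent.Helper92.AR
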