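import Pool.Agent.Helper92.AR.MassAvg

/-!
AR-Q8. Existence of a good base point.  By `mass_avg` (`Y` = level set, non-empty by `hRs`) there are
`c ≠ 0` and `x ∈ Y` with `QE t L (goodC c) x k 1 ≥ 1/2` (average over `Y`).
`goodC c` at stage `0` holds for `cst x` (`QE_zero_of_not`, `k ≥ 1`), and `evP c (cst x) = x`, so
`Rho t x ≤ Rs + w0 =: Bd`.
For an admissible `P` with `goodC c`: `Θ = Theta t P ≤ 2 Bd` (as `Θ (1-θ) ≤ Rho (evP c P) ≤ Bd`,
`θ ≤ 1/2`).  `evP 0 P = x` (`Adm.eval0`), so `rho t b x ≤ grank (tmat t b P)` for all `b`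
(`rho_le_grank`), hence `grank_b - rho_b x ≤ Θ - Rho t x ≤ (Bd + θ Θ) - Rs ≤ w0 + 2 θ Bd`
(`Rho t x ≥ Rs` since `x ∈ Y`).  So `goodC → goodX` on admissible tuples and `QE_good_mono` gives the
claim.
-/

set_option autoImplicit false

namespace Pool.Agent.Helper92.AR

open Polynomial Finset
open Pool.Agent.Helper83.AH (IsML)

variable {k n : ℕ} {F : Type} [Field F] [Fintype F]

theorem exists_good_base (hk : 1 ≤ k) (t : (Fin k → Fin n) → Fin n → F) (L : ℕ → ℕ)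
    (Emax G : ℕ)
    (hG : 0 < G) (hL0 : ∀ j < k, 0 < L j) (hE : ∀ j ≤ k, ∑ i ∈ Finset.range j, L i ≤ Emax)
    (hLG : ∀ j < k, G * ∑ i ∈ Finset.range j, L i ≤ L j)
    (θ : ℝ) (hθ : 0 < θ) (hθ2 : θ ≤ 1 / 2)
    (hq : 4 * (k : ℝ) * Emax ≤ θ * ((Fintype.card F : ℝ) - 1)) (Rs : ℕ)
    (hRs : ∃ x ∈ zset t, Rs ≤ Rho t x)
    (htail : ∀ w : ℕ, (((zset t).filter fun x => Rs + w ≤ Rho t x).card : ℝ) ≤
        (Fintype.card F : ℝ) ^ (-((w : ℝ) / (2 * k))) *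
          ((zset t).filter fun x => Rs ≤ Rho t x).card)
    (w0 : ℝ) (hw0 : 0 ≤ w0)
    (hw : (k : ℝ) * ((2 * θ + 2 / G) * (Rs + w0)) + Real.logb (Fintype.card F) (4 * k) ≤
      w0 / (2 * k)) :
    ∃ x ∈ zset t, (Rho t x : ℝ) ≤ Rs + w0 ∧
      1 / 2 ≤ QE t L (goodX t (Rs + w0) (w0 + 2 * θ * (Rs + w0)) x) x k (fun _ => 1) := by
  classical
  obtain ⟨c, hc, hsum⟩ := mass_avg hk t L Emax G hG hL0 hE hLG θ hθ hθ2 hq Rs htail w0 hw0 hw
  set Y : Finset (Fin k → Fin n → F) := (zset t).filter fun x => Rs ≤ Rho t x with hY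
  have hYne : Y.Nonempty := by
    obtain ⟨x, hx, hx2⟩ := hRs
    exact ⟨x, Finset.mem_filter.mpr ⟨hx, hx2⟩⟩
  have hex : ∃ x ∈ Y, (1 : ℝ) / 2 ≤ QE t L (goodC t (Rs + w0) θ c) x k (fun _ => 1) := by
    by_contra hcon
    push Not at hcon
    have h1 : ∑ x ∈ Y, QE t L (goodC t (Rs + w0) θ c) x k (fun _ => 1) <
        ∑ _x ∈ Y, (1 : ℝ) / 2 := Finset.sum_lt_sum_of_nonempty hYne hcon
    rw [Finset.sum_const, nsmul_eq_mul] at h1
    have h2 : (Y.card : ℝ) / 2 ≤ ∑ x ∈ Y, QE t L (goodC t (Rs + w0) θ c) x k (fun _ => 1) := by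
      convert hsum using 2
    linarith
  obtain ⟨x, hxY, hx⟩ := hex
  obtain ⟨hxz, hxR⟩ := Finset.mem_filter.mp hxY
  have hgood0 : goodC t (Rs + w0) θ c 0 (cst x) := by
    by_contra hn
    obtain ⟨k', rfl⟩ : ∃ k', k = k' + 1 := ⟨k - 1, by omega⟩
    rw [QE_zero_of_not hn k' (fun _ => 1)] at hx
    norm_num at hx
  have hev : evP c (cst x) = x := by
    funext i a
    simp [evP, cst]
  have hRx : (Rho t x : ℝ) ≤ Rs + w0 := by
    have h := hgood0.1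
    rwa [hev] at h
  refine ⟨x, hxz, hRx, hx.trans ?_⟩
  refine QE_good_mono hxz k ?_ (fun _ _ => zero_le_one)
  intro i _ P hP hg
  obtain ⟨hg1, hg2⟩ := hg
  have hΘ0 : (0 : ℝ) ≤ Theta t P := Nat.cast_nonneg _
  have hB : (Theta t P : ℝ) ≤ 2 * (Rs + w0) := by nlinarith
  have hRsx : (Rs : ℝ) ≤ Rho t x := by exact_mod_cast hxR
  have hb : ∀ b, rho t b x ≤ grank (tmat t b P) := by
    intro b
    have h := rho_le_grank t b 0 P
    rwa [hP.eval0] at h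
  refine ⟨hB, fun b => ?_⟩
  have h1 : (Theta t P : ℝ) - Rho t x = ∑ b, ((grank (tmat t b P) : ℝ) - rho t b x) := by
    rw [Finset.sum_sub_distrib]
    simp only [Theta, Rho, Nat.cast_sum]
  have h2 : (grank (tmat t b P) : ℝ) - rho t b x ≤
      ∑ b, ((grank (tmat t b P) : ℝ) - rho t b x) :=
    Finset.single_le_sum (f := fun b => (grank (tmat t b P) : ℝ) - rho t b x)
      (fun b' _ => sub_nonneg.mpr (by exact_mod_cast hb b')) (Finset.mem_univ b)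
  have h3 : θ * (Theta t P : ℝ) ≤ θ * (2 * (Rs + w0)) := mul_le_mul_of_nonneg_left hB hθ.le
  nlinarith

end Pool.Agent.Helper92.AR
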