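import Pool.Agent.Helper92.AR.Tensor

/-!
AR-T5. A non-zero tensor has a small zero set (Schwartz-Zippel for multilinear maps).
Claim, by induction on `j ≤ k`: for every set of slots of size `j` ... simplest: choose `h` with
`tform t h ≠ 0`, so `v := tev t (Fin.init h) ≠ 0`.  For `j = 0..k` let `S_j` be the set of `x` such that
`tev t (x_0..x_{j-1}, h_j, ..., h_{k-1}) = 0`; `S_0 = ∅`.  If `x ∉ S_j` then the linear map
`y ↦ tev t (x_0..x_{j-1}, y, h_{j+1}, ...)` is non-zero (its value at `h_j` is non-zero), so its kernel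
has at most `q^{n-1}` elements; so `|S_{j+1}| ≤ |S_j| + q^{kn-1}`, i.e. `|S_j| * q ≤ j * q^{kn}`, and
`S_k = zset t`.  (Alternatively Mathlib's Schwartz-Zippel `MvPolynomial.schwartz_zippel_totalDegree`
for the polynomial `∑_l c_l tev_l` of total degree `≤ k` in `k n` variables.)
-/

set_option autoImplicit false

namespace Pool.Agent.Helper92.AR

open Polynomial Finset
open Pool.Agent.Helper83.AH (IsML)

variable {k n : ℕ} {F : Type} [Field F] [Fintype F]

private def hmix {k n : ℕ} {F : Type} (h x : Fin k → Fin n → F) (j : ℕ) : Fin k → Fin n → F :=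
  fun i => if (i : ℕ) < j then x i else h i

private theorem hmix_succ (h x : Fin k → Fin n → F) (j : ℕ) (hj : j < k) :
    hmix h x (j + 1) = Function.update (hmix h x j) ⟨j, hj⟩ (x ⟨j, hj⟩) := by
  funext i
  by_cases hi : i = ⟨j, hj⟩
  · subst hi
    rw [Function.update_self]
    simp [hmix]
  · rw [Function.update_of_ne hi]
    have h1 : (i : ℕ) ≠ j := fun h2 => hi (Fin.ext h2)
    unfold hmix
    by_cases h3 : (i : ℕ) < j
    · rw [if_pos h3, if_pos (by omega)]
    · rw [if_neg h3, if_neg (by omega)]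

private theorem hmix_update (h x : Fin k → Fin n → F) (j : ℕ) (hj : j < k) (y : Fin n → F) :
    hmix h (Function.update x ⟨j, hj⟩ y) j = hmix h x j := by
  funext i
  unfold hmix
  by_cases h3 : (i : ℕ) < j
  · rw [if_pos h3, if_pos h3, Function.update_of_ne]
    intro h4
    rw [h4] at h3
    exact absurd h3 (lt_irrefl _)
  · rw [if_neg h3, if_neg h3]

private theorem hcard_X : Fintype.card F ^ (k * n) =
    (Finset.univ : Finset (Fin k → Fin n → F)).card := by
  rw [Finset.card_univ, Fintype.card_fun, Fintype.card_fun, Fintype.card_fin, Fintype.card_fin,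
    ← pow_mul, mul_comm]

open Classical in
private theorem hstep (t : (Fin k → Fin n) → Fin n → F) (h : Fin k → Fin n → F) (j : ℕ)
    (hj : j < k) :
    (Finset.univ.filter fun x : Fin k → Fin n → F =>
      tev (A := F) t (hmix h x j) ≠ 0 ∧ tev (A := F) t (hmix h x (j + 1)) = 0).card *
      Fintype.card F ≤ Fintype.card F ^ (k * n) := by
  rw [hcard_X, ← Finset.card_univ (α := F), ← Finset.card_product]
  refine Finset.card_le_card_of_injOn
    (fun p => Function.update p.1 ⟨j, hj⟩ (p.1 ⟨j, hj⟩ + p.2 • h ⟨j, hj⟩))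
    (fun _ _ => Finset.mem_coe.mpr (Finset.mem_univ _)) ?_
  rintro ⟨x, a⟩ hx ⟨x', a'⟩ hx' he
  have hx1 := (Finset.mem_filter.mp (Finset.mem_product.mp (Finset.mem_coe.mp hx)).1).2
  have hx2 := (Finset.mem_filter.mp (Finset.mem_product.mp (Finset.mem_coe.mp hx')).1).2
  have he' : Function.update x ⟨j, hj⟩ (x ⟨j, hj⟩ + a • h ⟨j, hj⟩) =
      Function.update x' ⟨j, hj⟩ (x' ⟨j, hj⟩ + a' • h ⟨j, hj⟩) := he
  simp only at hx1 hx2
  have hm : hmix h x j = hmix h x' j := by
    rw [← hmix_update h x j hj (x ⟨j, hj⟩ + a • h ⟨j, hj⟩), he', hmix_update]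
  obtain ⟨M, hMdef⟩ : ∃ M, M = tmat (A := F) t ⟨j, hj⟩ (hmix h x j) := ⟨_, rfl⟩
  have hmj : hmix h x j ⟨j, hj⟩ = h ⟨j, hj⟩ := by
    unfold hmix
    rw [if_neg (lt_irrefl _)]
  have h1 : M.mulVec (h ⟨j, hj⟩) ≠ 0 := by
    have h2 := hx1.1
    rw [tev_eq_mulVec t ⟨j, hj⟩ (hmix h x j), hmj, ← hMdef] at h2
    exact h2
  have hz : M.mulVec (x ⟨j, hj⟩) = 0 := by
    have h2 := hx1.2
    rw [hmix_succ h x j hj, tev_update, ← hMdef] at h2
    exact h2
  have hz' : M.mulVec (x' ⟨j, hj⟩) = 0 := by
    have h2 := hx2.2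
    rw [hmix_succ h x' j hj, tev_update, ← hm, ← hMdef] at h2
    exact h2
  have hb : x ⟨j, hj⟩ + a • h ⟨j, hj⟩ = x' ⟨j, hj⟩ + a' • h ⟨j, hj⟩ := by
    have h3 := congrFun he' ⟨j, hj⟩
    rw [Function.update_self, Function.update_self] at h3
    exact h3
  have ha : a = a' := by
    have h3 := congrArg (fun v => M.mulVec v) hb
    simp only [Matrix.mulVec_add, Matrix.mulVec_smul, hz, hz', zero_add] at h3
    exact smul_left_injective F h1 h3
  subst ha
  have hxb : x ⟨j, hj⟩ = x' ⟨j, hj⟩ := add_right_cancel hb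
  have hxx : x = x' := by
    funext i
    by_cases hi : i = ⟨j, hj⟩
    · rw [hi, hxb]
    · have h3 := congrFun he' i
      rw [Function.update_of_ne hi, Function.update_of_ne hi] at h3
      exact h3
  rw [hxx]

open Classical in
private theorem hind (t : (Fin k → Fin n) → Fin n → F) (h : Fin k → Fin n → F)
    (hv : tev (A := F) t h ≠ 0) (j : ℕ) (hj : j ≤ k) :
    (Finset.univ.filter fun x : Fin k → Fin n → F =>
      tev (A := F) t (hmix h x j) = 0).card * Fintype.card F ≤
      j * Fintype.card F ^ (k * n) := by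
  induction j with
  | zero =>
    have h1 : (Finset.univ.filter fun x : Fin k → Fin n → F =>
        tev (A := F) t (hmix h x 0) = 0) = ∅ := by
      apply Finset.filter_eq_empty_iff.mpr
      intro x _
      have h2 : hmix h x 0 = h := by
        funext i
        simp [hmix]
      rw [h2]
      exact hv
    rw [h1]
    simp
  | succ j ih =>
    have ih' := ih (by omega)
    have hs := hstep t h j (by omega)
    have hsub : (Finset.univ.filter fun x : Fin k → Fin n → F =>
        tev (A := F) t (hmix h x (j + 1)) = 0) ⊆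
        (Finset.univ.filter fun x : Fin k → Fin n → F => tev (A := F) t (hmix h x j) = 0) ∪
        (Finset.univ.filter fun x : Fin k → Fin n → F =>
          tev (A := F) t (hmix h x j) ≠ 0 ∧ tev (A := F) t (hmix h x (j + 1)) = 0) := by
      intro x hx
      have hx' := (Finset.mem_filter.mp hx).2
      rw [Finset.mem_union, Finset.mem_filter, Finset.mem_filter]
      by_cases h3 : tev (A := F) t (hmix h x j) = 0
      · exact Or.inl ⟨Finset.mem_univ _, h3⟩
      · exact Or.inr ⟨Finset.mem_univ _, h3, hx'⟩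
    have hc := (Finset.card_le_card hsub).trans (Finset.card_union_le _ _)
    calc _ ≤ (_ + _) * Fintype.card F := Nat.mul_le_mul_right _ hc
      _ ≤ j * Fintype.card F ^ (k * n) + Fintype.card F ^ (k * n) := by
        rw [add_mul]
        exact Nat.add_le_add ih' hs
      _ = (j + 1) * Fintype.card F ^ (k * n) := by ring

theorem zset_card_le (t : (Fin k → Fin n) → Fin n → F) (h0 : ∃ h, tform t h ≠ 0) :
    (zset t).card * Fintype.card F ≤ k * Fintype.card F ^ (k * n) := by
  classical
  obtain ⟨h, hh⟩ := h0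
  have hv : tev (A := F) t (Fin.init h) ≠ 0 := by
    intro h1
    apply hh
    unfold tform
    rw [h1]
    simp
  have h2 := hind t (Fin.init h) hv k le_rfl
  have h3 : zset t = (Finset.univ.filter fun x : Fin k → Fin n → F =>
      tev (A := F) t (hmix (Fin.init h) x k) = 0) := by
    unfold zset
    congr 1
    funext x
    have h4 : hmix (Fin.init h) x k = x := by
      funext i
      simp [hmix]
    rw [h4]
  rw [h3]
  exact h2

end Pool.Agent.Helper92.AR
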