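import Pool.Agent.Helper92.AR.Defs

/-!
AR-N1. Calculus of `Nice`.  `coeff (ind J) (C c) = c` if `J = ∅` and `0` otherwise (`ind J = 0` iff `J = ∅`);
`coeff (ind J) (X j * C c) = c` if `J = {j}` and `0` otherwise.  The zero function is `IsML F J` for every
`J`.  For the product: `MvPolynomial.coeff_mul` and the antidiagonal of `ind J`: the pairs
`(ind I, ind (J \ I))`, `I ⊆ J` (both parts of a sum equal to a 0/1 vector are 0/1 vectors), so
`coeff (ind J) (f g) = ∑_{I ⊆ J} coeff (ind I) f * coeff (ind (J \ I)) g`; every term is the product of a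
function multilinear in the slots `I ∪ J0` and one in the disjoint set `(J \ I) ∪ J1`
(see `Pool.Agent.Helper83.AH` `ML.lean` for such lemmas on `IsML`; `IsML.mul` type statements are easy:
updating a slot of the first set does not change the second factor by `dep`).
`prod`: induction over the finset with `mul` and `const 1`.
-/

set_option autoImplicit false

namespace Pool.Agent.Helper92.AR

open Polynomial Finset
open Pool.Agent.Helper83.AH (IsML)

variable {s n : ℕ} {F : Type} [Field F] {J0 J1 : Finset (Fin (s + 2))}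
  {f g : (Fin (s + 2) → Fin n → F) → MvPolynomial (Fin s) F}

omit [Field F] in
private theorem nc_ind_apply (J : Finset (Fin s)) (i : Fin s) :
    ind J i = if i ∈ J then 1 else 0 := by
  classical
  unfold ind
  by_cases h : i ∈ J
  · rw [if_pos h, Finsupp.indicator_of_mem h]
  · rw [if_neg h, Finsupp.indicator_of_notMem h]

private theorem nc_ind_inj {I J : Finset (Fin s)} (h : ind I = ind J) : I = J := by
  classical
  ext i
  have h1 := DFunLike.congr_fun h i
  rw [nc_ind_apply, nc_ind_apply] at h1
  by_cases hi : i ∈ I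
  · by_cases hj : i ∈ J
    · exact ⟨fun _ => hj, fun _ => hi⟩
    · rw [if_pos hi, if_neg hj] at h1
      exact absurd h1 one_ne_zero
  · by_cases hj : i ∈ J
    · rw [if_neg hi, if_pos hj] at h1
      exact absurd h1 zero_ne_one
    · exact ⟨fun h => absurd h hi, fun h => absurd h hj⟩

theorem coeff_ind_mul (p q : MvPolynomial (Fin s) F) (J : Finset (Fin s)) :
    MvPolynomial.coeff (ind J) (p * q) =
      ∑ I ∈ J.powerset, MvPolynomial.coeff (ind I) p * MvPolynomial.coeff (ind (J \ I)) q := by
  classical
  rw [MvPolynomial.coeff_mul]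
  symm
  refine Finset.sum_nbij' (fun I => (ind I, ind (J \ I)))
    (fun x => Finset.univ.filter fun i => x.1 i = 1) ?_ ?_ ?_ ?_ ?_
  · intro I hI
    rw [Finset.mem_powerset] at hI
    rw [Finset.HasAntidiagonal.mem_antidiagonal]
    ext i
    show ind I i + ind (J \ I) i = ind J i
    rw [nc_ind_apply, nc_ind_apply, nc_ind_apply]
    by_cases h1 : i ∈ I
    · rw [if_pos h1, if_pos (hI h1), if_neg (fun h => (Finset.mem_sdiff.mp h).2 h1)]
    · by_cases h2 : i ∈ J
      · rw [if_neg h1, if_pos h2, if_pos (Finset.mem_sdiff.mpr ⟨h2, h1⟩)]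
      · rw [if_neg h1, if_neg h2, if_neg (fun h => h2 (Finset.mem_sdiff.mp h).1)]
  · rintro ⟨a, b⟩ hab
    rw [Finset.HasAntidiagonal.mem_antidiagonal] at hab
    rw [Finset.mem_powerset]
    intro i hi
    rw [Finset.mem_filter] at hi
    have h1 := DFunLike.congr_fun hab i
    have h2 : a i + b i = ind J i := h1
    have h3 : a i = 1 := hi.2
    rw [nc_ind_apply] at h2
    by_contra h4
    rw [if_neg h4] at h2
    omega
  · intro I hI
    ext i
    simp only [Finset.mem_filter, Finset.mem_univ, true_and]
    rw [nc_ind_apply]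
    by_cases h1 : i ∈ I
    · simp [h1]
    · simp [h1]
  · rintro ⟨a, b⟩ hab
    rw [Finset.HasAntidiagonal.mem_antidiagonal] at hab
    have key : ∀ i, a i + b i = if i ∈ J then 1 else 0 := by
      intro i
      have h1 := DFunLike.congr_fun hab i
      have h2 : a i + b i = ind J i := h1
      rw [nc_ind_apply] at h2
      exact h2
    refine Prod.ext ?_ ?_
    · ext i
      show ind _ i = a i
      rw [nc_ind_apply]
      have h1 := key i
      simp only [Finset.mem_filter, Finset.mem_univ, true_and]
      by_cases h2 : i ∈ J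
      · rw [if_pos h2] at h1
        by_cases h3 : a i = 1
        · rw [if_pos h3, h3]
        · rw [if_neg h3]
          omega
      · rw [if_neg h2] at h1
        have h3 : a i ≠ 1 := by omega
        rw [if_neg h3]
        omega
    · ext i
      show ind _ i = b i
      rw [nc_ind_apply]
      have h1 := key i
      simp only [Finset.mem_sdiff, Finset.mem_filter, Finset.mem_univ, true_and]
      by_cases h2 : i ∈ J
      · rw [if_pos h2] at h1
        by_cases h3 : a i = 1
        · rw [if_neg (fun h => h.2 h3)]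
          omega
        · rw [if_pos ⟨h2, h3⟩]
          omega
      · rw [if_neg h2] at h1
        rw [if_neg (fun h => h2 h.1)]
        omega
  · intro I _
    rfl

private theorem nc_ml_zero (J : Finset (Fin (s + 2))) :
    IsML F J (fun _ : Fin (s + 2) → Fin n → F => (0 : F)) :=
  ⟨fun _ _ _ => rfl, fun _ _ _ _ _ => (add_zero 0).symm, fun _ _ _ _ _ => (smul_zero _).symm⟩

private theorem nc_ml_add {J : Finset (Fin (s + 2))} {f g : (Fin (s + 2) → Fin n → F) → F}
    (hf : IsML F J f) (hg : IsML F J g) : IsML F J (fun h => f h + g h) := by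
  refine ⟨fun x y h => ?_, fun i hi x v w => ?_, fun i hi x c v => ?_⟩
  · show f x + g x = f y + g y
    rw [hf.dep x y h, hg.dep x y h]
  · show f _ + g _ = (f _ + g _) + (f _ + g _)
    rw [hf.add i hi x v w, hg.add i hi x v w]
    ring
  · show f _ + g _ = c • (f _ + g _)
    rw [hf.smul i hi x c v, hg.smul i hi x c v, smul_add]

private theorem nc_ml_neg {J : Finset (Fin (s + 2))} {f : (Fin (s + 2) → Fin n → F) → F}
    (hf : IsML F J f) : IsML F J (fun h => -f h) := by
  refine ⟨fun x y h => ?_, fun i hi x v w => ?_, fun i hi x c v => ?_⟩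
  · show -f x = -f y
    rw [hf.dep x y h]
  · show -f _ = -f _ + -f _
    rw [hf.add i hi x v w, neg_add]
  · show -f _ = c • -f _
    rw [hf.smul i hi x c v, smul_neg]

private theorem nc_ml_mul {J K : Finset (Fin (s + 2))} {f g : (Fin (s + 2) → Fin n → F) → F}
    (hd : Disjoint J K) (hf : IsML F J f) (hg : IsML F K g) :
    IsML F (J ∪ K) (fun h => f h * g h) := by
  have hu : ∀ {A : Finset (Fin (s + 2))} {k : (Fin (s + 2) → Fin n → F) → F}, IsML F A k →
      ∀ i, i ∉ A → ∀ (x : Fin (s + 2) → Fin n → F) (v : Fin n → F),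
        k (Function.update x i v) = k x := by
    intro A k hk i hi x v
    refine hk.dep _ _ fun a ha => ?_
    rw [Function.update_of_ne]
    intro h
    rw [h] at ha
    exact hi ha
  refine ⟨fun x y h => ?_, fun i hi x v w => ?_, fun i hi x c v => ?_⟩
  · show f x * g x = f y * g y
    rw [hf.dep x y fun i hi => h i (Finset.mem_union_left _ hi),
      hg.dep x y fun i hi => h i (Finset.mem_union_right _ hi)]
  · show f _ * g _ = f _ * g _ + f _ * g _
    rcases Finset.mem_union.mp hi with h1 | h1
    · have h2 : i ∉ K := Finset.disjoint_left.mp hd h1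
      rw [hf.add i h1 x v w, hu hg i h2, hu hg i h2, hu hg i h2, add_mul]
    · have h2 : i ∉ J := Finset.disjoint_right.mp hd h1
      rw [hg.add i h1 x v w, hu hf i h2, hu hf i h2, hu hf i h2, mul_add]
  · show f _ * g _ = c • (f _ * g _)
    rcases Finset.mem_union.mp hi with h1 | h1
    · have h2 : i ∉ K := Finset.disjoint_left.mp hd h1
      rw [hf.smul i h1 x c v, hu hg i h2, hu hg i h2, smul_mul_assoc]
    · have h2 : i ∉ J := Finset.disjoint_right.mp hd h1
      rw [hg.smul i h1 x c v, hu hf i h2, hu hf i h2, mul_smul_comm]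

private theorem nc_ml_sum {ι : Type} {J : Finset (Fin (s + 2))} (S : Finset ι)
    (f : ι → (Fin (s + 2) → Fin n → F) → F) (hf : ∀ i ∈ S, IsML F J (f i)) :
    IsML F J (fun h => ∑ i ∈ S, f i h) := by
  classical
  induction S using Finset.induction_on with
  | empty =>
    simp only [Finset.sum_empty]
    exact nc_ml_zero J
  | insert a S ha ih =>
    simp only [Finset.sum_insert ha]
    exact nc_ml_add (hf a (Finset.mem_insert_self a S))
      (ih fun i hi => hf i (Finset.mem_insert_of_mem hi))

private theorem nc_coeff_C (c : F) (J : Finset (Fin s)) :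
    MvPolynomial.coeff (ind J) (MvPolynomial.C c : MvPolynomial (Fin s) F) =
      if J = ∅ then c else 0 := by
  classical
  rw [MvPolynomial.coeff_C]
  have h0 : (ind (∅ : Finset (Fin s))) = 0 := by
    ext i
    rw [nc_ind_apply, if_neg (Finset.notMem_empty i)]
    rfl
  by_cases h : J = ∅
  · rw [if_pos h, h, h0, if_pos rfl]
  · rw [if_neg h, if_neg]
    intro h1
    rw [← h0] at h1
    exact h (nc_ind_inj h1).symm

theorem Nice.zero : Nice J0 (fun _ : Fin (s + 2) → Fin n → F => (0 : MvPolynomial (Fin s) F)) := by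
  intro J
  simp only [MvPolynomial.coeff_zero]
  exact nc_ml_zero _

theorem Nice.const (c : F) :
    Nice ∅ (fun _ : Fin (s + 2) → Fin n → F => (MvPolynomial.C c : MvPolynomial (Fin s) F)) := by
  intro J
  simp only [nc_coeff_C]
  by_cases h : J = ∅
  · subst h
    simp only [if_true]
    refine ⟨fun _ _ _ => rfl, fun i hi => ?_, fun i hi => ?_⟩
    · simp at hi
    · simp at hi
  · simp only [if_neg h]
    exact nc_ml_zero _

theorem Nice.add (hf : Nice J0 f) (hg : Nice J0 g) : Nice J0 (fun h => f h + g h) := by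
  intro J
  simp only [MvPolynomial.coeff_add]
  exact nc_ml_add (hf J) (hg J)

theorem Nice.neg (hf : Nice J0 f) : Nice J0 (fun h => -f h) := by
  intro J
  simp only [MvPolynomial.coeff_neg]
  exact nc_ml_neg (hf J)

theorem Nice.sum {ι : Type} (S : Finset ι)
    (F1 : ι → (Fin (s + 2) → Fin n → F) → MvPolynomial (Fin s) F) (hF : ∀ i ∈ S, Nice J0 (F1 i)) :
    Nice J0 (fun h => ∑ i ∈ S, F1 i h) := by
  classical
  induction S using Finset.induction_on with
  | empty =>
    simp only [Finset.sum_empty]
    exact Nice.zero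
  | insert a S ha ih =>
    simp only [Finset.sum_insert ha]
    exact Nice.add (hF a (Finset.mem_insert_self a S))
      (ih fun i hi => hF i (Finset.mem_insert_of_mem hi))

theorem Nice.mul (hd : Disjoint J0 J1) (h0 : ∀ j : Fin s, slotEmb s j ∉ J0)
    (h1 : ∀ j : Fin s, slotEmb s j ∉ J1) (hf : Nice J0 f) (hg : Nice J1 g) :
    Nice (J0 ∪ J1) (fun h => f h * g h) := by
  intro J
  simp only [coeff_ind_mul]
  refine nc_ml_sum _ _ fun I hI => ?_
  rw [Finset.mem_powerset] at hI
  have h2 : J.map (slotEmb s) ∪ (J0 ∪ J1) =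
      (I.map (slotEmb s) ∪ J0) ∪ ((J \ I).map (slotEmb s) ∪ J1) := by
    have h3 : J.map (slotEmb s) = I.map (slotEmb s) ∪ (J \ I).map (slotEmb s) := by
      rw [← Finset.map_union, Finset.union_sdiff_of_subset hI]
    rw [h3]
    ext a
    simp only [Finset.mem_union]
    tauto
  rw [h2]
  refine nc_ml_mul ?_ (hf I) (hg (J \ I))
  rw [Finset.disjoint_left]
  intro a ha hb
  rw [Finset.mem_union, Finset.mem_map] at ha hb
  rcases ha with ⟨i, hi, rfl⟩ | ha
  · rcases hb with ⟨k, hk, hki⟩ | hb
    · have h4 : k = i := (slotEmb s).injective hki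
      rw [h4, Finset.mem_sdiff] at hk
      exact hk.2 hi
    · exact h1 i hb
  · rcases hb with ⟨k, hk, rfl⟩ | hb
    · exact h0 k ha
    · exact Finset.disjoint_left.mp hd ha hb

theorem Nice.mul_left (h1 : ∀ j : Fin s, slotEmb s j ∉ J1) (hf : Nice ∅ f) (hg : Nice J1 g) :
    Nice J1 (fun h => f h * g h) := by
  have h2 := Nice.mul (Finset.disjoint_empty_left J1) (fun j => Finset.notMem_empty _) h1 hf hg
  rw [Finset.empty_union] at h2
  exact h2

theorem Nice.prod {ι : Type} (S : Finset ι)
    (F1 : ι → (Fin (s + 2) → Fin n → F) → MvPolynomial (Fin s) F) (hF : ∀ i ∈ S, Nice ∅ (F1 i)) :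
    Nice ∅ (fun h => ∏ i ∈ S, F1 i h) := by
  classical
  induction S using Finset.induction_on with
  | empty =>
    simp only [Finset.prod_empty]
    have h1 := Nice.const (s := s) (n := n) (F := F) 1
    simpa using h1
  | insert a S ha ih =>
    simp only [Finset.prod_insert ha]
    exact Nice.mul_left (fun j => Finset.notMem_empty _) (hF a (Finset.mem_insert_self a S))
      (ih fun i hi => hF i (Finset.mem_insert_of_mem hi))

private theorem nc_ml_slot (i : Fin (s + 2)) (A : Matrix (Fin n) (Fin n) F) (a : Fin n) :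
    IsML F {i} (fun h : Fin (s + 2) → Fin n → F => A.mulVec (h i) a) := by
  refine ⟨fun x y h => ?_, fun k hk x v w => ?_, fun k hk x c v => ?_⟩
  · show A.mulVec (x i) a = A.mulVec (y i) a
    rw [h i (Finset.mem_singleton_self i)]
  · rw [Finset.mem_singleton] at hk
    subst hk
    show A.mulVec _ a = A.mulVec _ a + A.mulVec _ a
    rw [Function.update_self, Function.update_self, Function.update_self, Matrix.mulVec_add]
    rfl
  · rw [Finset.mem_singleton] at hk
    subst hk
    show A.mulVec _ a = c • A.mulVec _ a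
    rw [Function.update_self, Function.update_self, Matrix.mulVec_smul]
    rfl

theorem Nice.var (j : Fin s) (A : Matrix (Fin n) (Fin n) F) (a : Fin n) :
    Nice ∅ (fun h : Fin (s + 2) → Fin n → F =>
      (MvPolynomial.X j * MvPolynomial.C (A.mulVec (h (slotEmb s j)) a) :
        MvPolynomial (Fin s) F)) := by
  classical
  intro J
  have hX : ∀ c : F, MvPolynomial.coeff (ind J)
      (MvPolynomial.X j * MvPolynomial.C c : MvPolynomial (Fin s) F) =
      if J = {j} then c else 0 := by
    intro c
    rw [mul_comm, MvPolynomial.coeff_C_mul, MvPolynomial.coeff_X]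
    have h0 : ind ({j} : Finset (Fin s)) = Finsupp.single j 1 := by
      ext i
      rw [nc_ind_apply, Finsupp.single_apply]
      by_cases h : j = i
      · rw [if_pos h, if_pos (by rw [h]; exact Finset.mem_singleton_self i)]
      · rw [if_neg h, if_neg (fun h1 => h (Finset.mem_singleton.mp h1).symm)]
    by_cases h : J = {j}
    · rw [if_pos h, h, h0, if_pos rfl, mul_one]
    · rw [if_neg h, if_neg, mul_zero]
      intro h1
      rw [← h0] at h1
      exact h (nc_ind_inj h1).symm
  simp only [hX]
  by_cases h : J = {j}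
  · subst h
    simp only [if_true]
    rw [Finset.map_singleton, Finset.union_empty]
    exact nc_ml_slot _ A a
  · simp only [if_neg h]
    exact nc_ml_zero _

theorem Nice.slot (i : Fin (s + 2)) (hi : ∀ j : Fin s, slotEmb s j ≠ i)
    (A : Matrix (Fin n) (Fin n) F) (a : Fin n) :
    Nice {i} (fun h : Fin (s + 2) → Fin n → F =>
      (MvPolynomial.C (A.mulVec (h i) a) : MvPolynomial (Fin s) F)) := by
  intro J
  simp only [nc_coeff_C]
  by_cases h : J = ∅
  · subst h
    simp only [if_true]
    rw [Finset.map_empty, Finset.empty_union]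
    exact nc_ml_slot _ A a
  · simp only [if_neg h]
    exact nc_ml_zero _

end Pool.Agent.Helper92.AR
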