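import Pool.Agent.Helper92.AR.Defs

/-!
AR-T1. Basic calculus of `tev` and `tmat`.
Let `c_i = algebraMap (t i l)`.  In `tev t (update p b y) l = ∑_i c_i ∏_j (update p b y) j (i j)` split
off the factor `j = b` (`Finset.mul_prod_erase` / `Fintype.prod_eq_mul_prod_compl`): it is
`∑_i c_i y (i b) ∏_{j ≠ b} p j (i j)`, which is linear in `y`, so equals
`∑_a y a * tev t (update p b (Pi.single a 1)) l`.  `tmat` only uses `p` in the slots `≠ b`.
Base change: `map_sum, map_mul, map_prod, AlgHom.commutes`, and
`φ (update p b (Pi.single a 1) j a') = update (φ ∘ p) b (Pi.single a 1) j a'`.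
`evP` is the case `A = F[X]`, `φ = Polynomial.aeval c` (`Polynomial.coe_aeval_eq_eval`), `cst` the case
`A = F`, `A' = F[X]`, `φ = Algebra.ofId F F[X]`.
-/

set_option autoImplicit false

namespace Pool.Agent.Helper92.AR

open Polynomial Finset
open Pool.Agent.Helper83.AH (IsML)

variable {k n : ℕ} {F : Type} [Field F] {A : Type} [CommRing A] [Algebra F A]

private theorem at1_prod (b : Fin k) (p : Fin k → Fin n → A) (y : Fin n → A) (i : Fin k → Fin n) :
    ∏ j, (Function.update p b y) j (i j) = y (i b) * ∏ j ∈ Finset.univ.erase b, p j (i j) := by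
  rw [← Finset.mul_prod_erase Finset.univ _ (Finset.mem_univ b), Function.update_self]
  congr 1
  refine Finset.prod_congr rfl fun j hj => ?_
  rw [Function.update_of_ne (Finset.ne_of_mem_erase hj)]

theorem tev_update (t : (Fin k → Fin n) → Fin n → F) (b : Fin k) (p : Fin k → Fin n → A)
    (y : Fin n → A) : tev t (Function.update p b y) = (tmat t b p).mulVec y := by
  funext l
  show ∑ i : Fin k → Fin n, algebraMap F A (t i l) * ∏ j, (Function.update p b y) j (i j) =
    ∑ a, (∑ i : Fin k → Fin n, algebraMap F A (t i l) *
      ∏ j, (Function.update p b (Pi.single a 1)) j (i j)) * y a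
  simp only [at1_prod, Finset.sum_mul]
  rw [Finset.sum_comm]
  refine Finset.sum_congr rfl fun i _ => ?_
  rw [Finset.sum_eq_single (i b)]
  · rw [Pi.single_eq_same]
    ring
  · intro a _ ha
    rw [Pi.single_eq_of_ne ha.symm]
    ring
  · intro h
    exact absurd (Finset.mem_univ _) h

theorem tev_eq_mulVec (t : (Fin k → Fin n) → Fin n → F) (b : Fin k) (p : Fin k → Fin n → A) :
    tev t p = (tmat t b p).mulVec (p b) := by
  rw [← tev_update, Function.update_eq_self]

theorem tmat_congr (t : (Fin k → Fin n) → Fin n → F) (b : Fin k) {p p' : Fin k → Fin n → A}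
    (h : ∀ i, i ≠ b → p i = p' i) : tmat t b p = tmat t b p' := by
  have h1 : ∀ y : Fin n → A, Function.update p b y = Function.update p' b y := by
    intro y
    funext i
    by_cases hi : i = b
    · subst hi
      rw [Function.update_self, Function.update_self]
    · rw [Function.update_of_ne hi, Function.update_of_ne hi, h i hi]
  ext l a
  show tev t (Function.update p b (Pi.single a 1)) l = tev t (Function.update p' b (Pi.single a 1)) l
  rw [h1]

theorem tmat_update (t : (Fin k → Fin n) → Fin n → F) (b : Fin k) (p : Fin k → Fin n → A)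
    (y : Fin n → A) : tmat t b (Function.update p b y) = tmat t b p :=
  tmat_congr t b fun i hi => Function.update_of_ne hi _ _

theorem tev_map {A' : Type} [CommRing A'] [Algebra F A'] (φ : A →ₐ[F] A')
    (t : (Fin k → Fin n) → Fin n → F) (p : Fin k → Fin n → A) :
    tev t (fun i a => φ (p i a)) = fun l => φ (tev t p l) := by
  funext l
  unfold tev
  simp only [map_sum, map_mul, map_prod, AlgHom.commutes]

theorem tmat_map {A' : Type} [CommRing A'] [Algebra F A'] (φ : A →ₐ[F] A')
    (t : (Fin k → Fin n) → Fin n → F) (b : Fin k) (p : Fin k → Fin n → A) :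
    tmat t b (fun i a => φ (p i a)) = (tmat t b p).map φ := by
  ext l a
  have h1 : Function.update (fun i a => φ (p i a)) b (Pi.single a 1) =
      fun i a' => φ (Function.update p b (Pi.single a 1) i a') := by
    funext i a'
    by_cases hi : i = b
    · subst hi
      rw [Function.update_self, Function.update_self]
      by_cases ha : a' = a
      · subst ha
        rw [Pi.single_eq_same, Pi.single_eq_same, map_one]
      · rw [Pi.single_eq_of_ne ha, Pi.single_eq_of_ne ha, map_zero]
    · rw [Function.update_of_ne hi, Function.update_of_ne hi]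
  show tev t (Function.update (fun i a => φ (p i a)) b (Pi.single a 1)) l =
    φ (tev t (Function.update p b (Pi.single a 1)) l)
  rw [h1, tev_map]

theorem tev_evP (t : (Fin k → Fin n) → Fin n → F) (c : F) (P : Fin k → Fin n → F[X]) :
    tev (A := F) t (evP c P) = fun l => (tev t P l).eval c := by
  have h := tev_map (A := F[X]) (Polynomial.aeval c : F[X] →ₐ[F] F) t P
  simp only [Polynomial.coe_aeval_eq_eval] at h
  exact h

theorem tmat_evP (t : (Fin k → Fin n) → Fin n → F) (b : Fin k) (c : F)
    (P : Fin k → Fin n → F[X]) :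
    tmat (A := F) t b (evP c P) = (tmat t b P).map (Polynomial.eval c) := by
  have h := tmat_map (A := F[X]) (Polynomial.aeval c : F[X] →ₐ[F] F) t b P
  simp only [Polynomial.coe_aeval_eq_eval] at h
  exact h

theorem tev_cst (t : (Fin k → Fin n) → Fin n → F) (x : Fin k → Fin n → F) :
    tev t (cst x) = fun l => Polynomial.C (tev (A := F) t x l) :=
  tev_map (A := F) (Polynomial.CAlgHom : F →ₐ[F] F[X]) t x

theorem tmat_cst (t : (Fin k → Fin n) → Fin n → F) (b : Fin k) (x : Fin k → Fin n → F) :
    tmat t b (cst x) = (tmat (A := F) t b x).map Polynomial.C :=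
  tmat_map (A := F) (Polynomial.CAlgHom : F →ₐ[F] F[X]) t b x

end Pool.Agent.Helper92.AR
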