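import Pool.Agent.Helper92.AR.Defs3
import Pool.Agent.Helper92.AR.Tensor
import Pool.Agent.Helper92.AR.Nice

/-!
AR-R3. The ends of the hybrid chain.
`hyb (s+1)`: slots `< s` are `canP s`, the last slot is `canZ ...`; so `hyb (s+1) = update (canP s) last
(canZ ..)` and `tev t (hyb (s+1)) = canV` (`tev_update`), `hybF (s+1) = T1`.
`hyb 0`: slot `i < s` is `C x_i + X_i * C (prj_i h_i)`, last slot `C (prj_s h_s)`.  The coefficient of
`Y_0 ⋯ Y_{s-1}` of `tev t (hyb 0) l = ∑_i C(t i l) ∏_j hyb 0 j (i j)`: in the product over `j < s` of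
`(C x_j(i j) + X_j C (prj_j h_j)(i j))` the coefficient of `∏ X_j` is `∏_j (prj_j h_j)(i j)` (each factor only
involves its own variable; e.g. `Finset.prod_add`, or evaluate with `coeff_ind_mul` by induction).  So
`hybF 0 = ∑_l (prjO h_last) l * tev t (projected) l = tform t (prH h)`.
-/

set_option autoImplicit false

namespace Pool.Agent.Helper92.AR

open Polynomial Finset
open Pool.Agent.Helper83.AH (IsML)

variable {s n : ℕ} {F : Type} [Field F]

theorem coeff_ind_prod (a b : Fin s → F) :
    MvPolynomial.coeff (ind Finset.univ)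
      (∏ j : Fin s, (MvPolynomial.X j * MvPolynomial.C (b j) + MvPolynomial.C (a j))) =
      ∏ j, b j := by
  classical
  have hind : ∀ J : Finset (Fin s), ind J = ∑ j ∈ J, Finsupp.single j 1 := by
    intro J
    ext j
    unfold ind
    rw [Finsupp.indicator_apply, Finsupp.finsetSum_apply]
    simp only [Finsupp.single_apply]
    rw [Finset.sum_ite_eq']
    split_ifs <;> rfl
  have hterm : ∀ J : Finset (Fin s), MvPolynomial.coeff (ind Finset.univ)
      ((∏ j ∈ J, (MvPolynomial.X j * MvPolynomial.C (b j))) *
        ∏ j ∈ Finset.univ \ J, (MvPolynomial.C (a j) : MvPolynomial (Fin s) F)) =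
      (if ind J = ind Finset.univ then 1 else 0) *
        ((∏ j ∈ J, b j) * ∏ j ∈ Finset.univ \ J, a j) := by
    intro J
    have e1 : (∏ j ∈ J, (MvPolynomial.X j * MvPolynomial.C (b j))) *
        ∏ j ∈ Finset.univ \ J, (MvPolynomial.C (a j) : MvPolynomial (Fin s) F) =
        MvPolynomial.monomial (ind J) 1 *
          MvPolynomial.C ((∏ j ∈ J, b j) * ∏ j ∈ Finset.univ \ J, a j) := by
      rw [Finset.prod_mul_distrib, hind, MvPolynomial.monomial_sum_one, map_mul, map_prod,
        map_prod, mul_assoc]
      rfl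
    rw [e1, mul_comm, MvPolynomial.coeff_C_mul, MvPolynomial.coeff_monomial, mul_comm]
  rw [Finset.prod_add, MvPolynomial.coeff_sum, Finset.sum_eq_single Finset.univ]
  · rw [hterm, if_pos rfl, Finset.sdiff_self, Finset.prod_empty, mul_one, one_mul]
  · intro J _ hJ
    rw [hterm, if_neg, zero_mul]
    intro h
    apply hJ
    rw [Finset.eq_univ_iff_forall]
    intro j
    by_contra hj
    have h1 := DFunLike.congr_fun h j
    unfold ind at h1
    rw [Finsupp.indicator_apply, Finsupp.indicator_apply, dif_neg hj,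
      dif_pos (Finset.mem_univ j)] at h1
    exact absurd h1 (by norm_num)
  · intro h
    exact absurd (Finset.mem_powerset.2 (Finset.Subset.refl _)) h

theorem hybF_last (t : (Fin (s + 1) → Fin n) → Fin n → F) (x : Fin (s + 1) → Fin n → F)
    (N : Fin (s + 1) → Matrix (Fin n) (Fin n) F) (h : Fin (s + 2) → Fin n → F) :
    hybF t x N (s + 1) h = T1 t x N h := by
  have h1 : hyb t x N (s + 1) h = Function.update (canP t x N (zY t x N h) s) (Fin.last s)
      (canZ t x N (Fin.last s) (canP t x N (zY t x N h) s) (zY t x N h (Fin.last s))) := by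
    funext i
    by_cases hi : i = Fin.last s
    · subst hi
      rw [Function.update_self]
      unfold hyb
      rw [if_pos (by simp), if_neg (by simp)]
    · rw [Function.update_of_ne hi]
      unfold hyb
      have h2 : (i : ℕ) < s := by
        have h3 := i.2
        have h4 : (i : ℕ) ≠ s := fun h => hi (Fin.ext h)
        omega
      rw [if_pos i.2, if_pos h2]
  unfold hybF T1 canPhi canV
  rw [h1, tev_update]

theorem hybF_zero (t : (Fin (s + 1) → Fin n) → Fin n → F) (x : Fin (s + 1) → Fin n → F)
    (N : Fin (s + 1) → Matrix (Fin n) (Fin n) F) (h : Fin (s + 2) → Fin n → F) :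
    hybF t x N 0 h = tform t (prH t x N h) := by
  unfold hybF tform
  rw [MvPolynomial.coeff_sum]
  refine Finset.sum_congr rfl fun l _ => ?_
  rw [MvPolynomial.coeff_C_mul]
  have e1 : prH t x N h (Fin.last (s + 1)) = (prjO t x N).mulVec (h (Fin.last (s + 1))) := by
    unfold prH
    rw [Fin.snoc_last]
  have e2 : (Fin.init (prH t x N h) : Fin (s + 1) → Fin n → F) =
      fun j => (prj t x N j).mulVec (h j.castSucc) := by
    unfold prH
    exact Fin.init_snoc _ _
  rw [e1, e2]
  congr 1
  unfold tev
  rw [MvPolynomial.coeff_sum]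
  refine Finset.sum_congr rfl fun i _ => ?_
  rw [MvPolynomial.algebraMap_eq, MvPolynomial.coeff_C_mul]
  show t i l * _ = t i l * _
  congr 1
  rw [Fin.prod_univ_castSucc, Fin.prod_univ_castSucc]
  have e3 : hyb t x N 0 h (Fin.last s) (i (Fin.last s)) =
      MvPolynomial.C ((prj t x N (Fin.last s)).mulVec (h (Fin.last s).castSucc)
        (i (Fin.last s))) := by
    unfold hyb zY
    rw [if_neg (by simp), if_neg (by simp), dif_neg (by simp)]
  have e4 : ∀ j : Fin s, hyb t x N 0 h j.castSucc (i j.castSucc) =
      MvPolynomial.X j * MvPolynomial.C ((prj t x N j.castSucc).mulVec (h j.castSucc.castSucc)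
        (i j.castSucc)) + MvPolynomial.C (x j.castSucc (i j.castSucc)) := by
    intro j
    unfold hyb
    rw [if_neg (by simp), if_pos (by simp)]
    show MvPolynomial.C (x j.castSucc (i j.castSucc)) + zY t x N h j.castSucc (i j.castSucc) = _
    unfold zY
    rw [dif_pos (by simp), add_comm]
    rfl
  rw [e3, mul_comm, MvPolynomial.coeff_C_mul, Finset.prod_congr rfl fun j _ => e4 j,
    coeff_ind_prod, mul_comm]

end Pool.Agent.Helper92.AR
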