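import Pool.Agent.Helper92.AR.Defs3

/-!
AR-R1. Calculus of `HasPR`.  `zero`: take `g = h = 0` (the zero function is `IsML F J` for all `J`) and
`J i = {0}` with complement containing `1` (`2 ≤ d`).  `add`: `Fin.addCases` / `Fin.append`.  `of_fintype`:
reindex by `Fintype.equivFin`.  `neg`: replace `g i` by `- g i`.
-/

set_option autoImplicit false

namespace Pool.Agent.Helper92.AR

open Polynomial Finset
open Pool.Agent.Helper83.AH (IsML)

variable {d n : ℕ} {F : Type} [Field F]

private theorem pr_zeroML (J : Finset (Fin d)) :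
    IsML F J (fun _ : Fin d → Fin n → F => (0 : F)) :=
  ⟨fun _ _ _ => rfl, fun _ _ _ _ _ => (add_zero 0).symm, fun _ _ _ _ _ => (smul_zero _).symm⟩

theorem HasPR.zero (hd : 2 ≤ d) (N : ℕ) : HasPR (fun _ : Fin d → Fin n → F => (0 : F)) N := by
  refine ⟨fun _ => {⟨0, by omega⟩}, fun _ _ => 0, fun _ _ => 0, fun _ => ⟨⟨_, Finset.mem_singleton_self _⟩,
    ⟨⟨1, by omega⟩, ?_⟩, pr_zeroML _, pr_zeroML _⟩, fun x => ?_⟩
  · rw [Finset.mem_compl, Finset.mem_singleton]
    intro h
    have h1 := congrArg Fin.val h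
    simp at h1
  · simp

theorem HasPR.of_fintype {ι : Type} [Fintype ι] (J : ι → Finset (Fin d))
    (g h : ι → (Fin d → Fin n → F) → F)
    (H : ∀ i, (J i).Nonempty ∧ (J i)ᶜ.Nonempty ∧ IsML F (J i) (g i) ∧ IsML F (J i)ᶜ (h i))
    {f : (Fin d → Fin n → F) → F} (hf : ∀ x, f x = ∑ i, g i x * h i x) :
    HasPR f (Fintype.card ι) := by
  refine ⟨fun i => J ((Fintype.equivFin ι).symm i), fun i => g ((Fintype.equivFin ι).symm i),
    fun i => h ((Fintype.equivFin ι).symm i), fun i => H _, fun x => ?_⟩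
  rw [hf x]
  exact (Equiv.sum_comp (Fintype.equivFin ι).symm (fun i => g i x * h i x)).symm

theorem HasPR.add {f f' : (Fin d → Fin n → F) → F} {N N' : ℕ} (h : HasPR f N) (h' : HasPR f' N') :
    HasPR (fun x => f x + f' x) (N + N') := by
  obtain ⟨J, g, k, H, hf⟩ := h
  obtain ⟨J', g', k', H', hf'⟩ := h'
  have h1 := HasPR.of_fintype (ι := Fin N ⊕ Fin N') (Sum.elim J J') (Sum.elim g g')
    (Sum.elim k k') (fun i => by
      rcases i with i | i
      · exact H i
      · exact H' i) (f := fun x => f x + f' x) (fun x => by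
      rw [Fintype.sum_sum_type]
      simp only [Sum.elim_inl, Sum.elim_inr]
      rw [hf x, hf' x])
  rw [Fintype.card_sum, Fintype.card_fin, Fintype.card_fin] at h1
  exact h1

theorem HasPR.neg {f : (Fin d → Fin n → F) → F} {N : ℕ} (h : HasPR f N) :
    HasPR (fun x => -f x) N := by
  obtain ⟨J, g, k, H, hf⟩ := h
  refine ⟨J, fun i x => -g i x, k, fun i => ⟨(H i).1, (H i).2.1, ?_, (H i).2.2.2⟩, fun x => ?_⟩
  · have h1 := (H i).2.2.1
    refine ⟨fun x y hxy => ?_, fun a ha x v w => ?_, fun a ha x c v => ?_⟩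
    · show -g i x = -g i y
      rw [h1.dep x y hxy]
    · show -g i _ = -g i _ + -g i _
      rw [h1.add a ha x v w, neg_add]
    · show -g i _ = c • -g i _
      rw [h1.smul a ha x c v, smul_neg]
  · show -f x = ∑ i, (-g i x) * k i x
    rw [hf x, ← Finset.sum_neg_distrib]
    exact Finset.sum_congr rfl fun i _ => by ring

theorem HasPR.congr {f f' : (Fin d → Fin n → F) → F} {N : ℕ} (h : HasPR f N)
    (hf : ∀ x, f x = f' x) : HasPR f' N := by
  have h1 : f = f' := funext hf
  rw [← h1]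
  exact h

theorem HasPR.mono (hd : 2 ≤ d) {f : (Fin d → Fin n → F) → F} {N N' : ℕ} (h : HasPR f N)
    (hN : N ≤ N') : HasPR f N' := by
  have h1 := h.add (HasPR.zero (n := n) (F := F) hd (N' - N))
  rw [Nat.add_sub_cancel' hN] at h1
  exact h1.congr fun x => add_zero _

theorem HasPR.sum {ι : Type} (S : Finset ι) (f : ι → (Fin d → Fin n → F) → F) (N : ι → ℕ)
    (h : ∀ i ∈ S, HasPR (f i) (N i)) :
    HasPR (fun x => ∑ i ∈ S, f i x) (∑ i ∈ S, N i) := by
  classical
  induction S using Finset.induction_on with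
  | empty =>
    rw [Finset.sum_empty]
    refine ⟨fun i => i.elim0, fun i => i.elim0, fun i => i.elim0, fun i => i.elim0, fun x => ?_⟩
    show ∑ i ∈ (∅ : Finset ι), f i x = _
    rw [Finset.sum_empty, Finset.univ_eq_empty, Finset.sum_empty]
  | insert a S ha ih =>
    have h1 := (h a (Finset.mem_insert_self a S)).add
      (ih fun i hi => h i (Finset.mem_insert_of_mem hi))
    rw [Finset.sum_insert ha]
    refine h1.congr fun x => ?_
    rw [Finset.sum_insert ha]

end Pool.Agent.Helper92.AR
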