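import Pool.Agent.Helper92.AR.NiceCan
import Pool.Agent.Helper92.AR.PRCalc
import Pool.Agent.Helper83.AH.Basic

/-!
AR-R4. One step of the hybrid chain.  Let `b = ⟨j, _⟩`, `A = MvPolynomial (Fin s) F`, `p = canP .. j` (for
`j ≤ s`; the slots `< j` of `canP .. s` equal those of `canP .. j`, and slot `j` of `canP (j+1)` is
`x_b + canZ b p z_b`), `z = zY h b`, `E = canE t x b p`.
`canZ b p z = z - N_b *ᵥ w`, `w = (E * ∑_{i<s} (-(N_b E))^i) *ᵥ z` (split off the term `i = 0` of the sum over
`range (s+1)`).  So `hyb (j+1) = update (hyb j) b (hyb j b - N_b *ᵥ w)` and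
`∑_l C(u_l) * (tev t (hyb (j+1)) l - tev t (hyb j) l) = -∑_l C(u_l) ((tmat t b (hyb j)) *ᵥ (N_b *ᵥ w))_l`,
`u = prjO h_last` (`tev_update`, `tev_eq_mulVec`).  `rank (N_b) = rank (tmat t b x) = rho t b x =: r`
(`N = N M N`), so `N_b = G₁ * G₂` through `Fin r` (`Pool.Agent.Helper83.AH.exists_pinv`) and the expression is
`-∑_{i<r} w'_i * c_i` with `w' = G₂ *ᵥ w` and `c_i = ∑_l C(u_l) ((tmat t b (hyb j)) *ᵥ (column i of G₁))_l`.
By `nice_corr`, `w'_i` is nice over `∅` if `j < s` and over `{slot s}` if `j = s`; `c_i` is nice over
`{slot s, slot s+1}` if `j < s` (the last slot of `hyb j` is `zY last`, which enters linearly: use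
`nice_tmat`-type argument with the last slot as a vector, i.e. write
`tmat t b (hyb j) *ᵥ v = tev t (update (hyb j) b v) = tmat t last (update (hyb j) b v) *ᵥ (zY last)`), over
`{slot s+1}` if `j = s`.  Coefficient `ind univ` of `w'_i c_i` is
`∑_{I ⊆ univ} coeff (ind I) w'_i * coeff (ind Iᶜ) c_i` (`coeff_ind_mul`), `2^s` terms, each multilinear in
`I.map slotEmb (∪ {slot s} if j = s)` and its complement.  For `j < s` and `I = ∅` the term is zero:
`coeff 0 w' = 0` because `z = X_j * (...)` has constant coefficient `0` (use instead `g = h = 0` and any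
non-empty proper set for this index).  Total number of terms `2^s * r`.
-/

set_option autoImplicit false

namespace Pool.Agent.Helper92.AR

open Polynomial Finset
open Pool.Agent.Helper83.AH (IsML)

variable {s n : ℕ} {F : Type} [Field F]

private theorem isML_zero {d : ℕ} (J : Finset (Fin d)) :
    IsML F J (fun _ : Fin d → Fin n → F => (0 : F)) :=
  ⟨fun _ _ _ => rfl, fun _ _ _ _ _ => (add_zero 0).symm, fun _ _ _ _ _ => (smul_zero _).symm⟩

private theorem slot_ne (j : Fin s) : slotEmb s j ≠ (Fin.last s).castSucc := by
  intro h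
  have h1 := congrArg Fin.val h
  have h2 : ((slotEmb s j : Fin (s + 2)) : ℕ) = j := rfl
  rw [h2] at h1
  have h3 : (((Fin.last s).castSucc : Fin (s + 2)) : ℕ) = s := rfl
  rw [h3] at h1
  omega

private theorem slot_ne' (j : Fin s) : slotEmb s j ≠ Fin.last (s + 1) := by
  intro h
  have h1 := congrArg Fin.val h
  have h2 : ((slotEmb s j : Fin (s + 2)) : ℕ) = j := rfl
  rw [h2, Fin.val_last] at h1
  omega

private theorem slot_cases (i : Fin (s + 2)) :
    (∃ j, slotEmb s j = i) ∨ i = (Fin.last s).castSucc ∨ i = Fin.last (s + 1) := by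
  rcases lt_trichotomy (i : ℕ) s with h | h | h
  · exact Or.inl ⟨⟨i, h⟩, Fin.ext rfl⟩
  · exact Or.inr (Or.inl (Fin.ext h))
  · refine Or.inr (Or.inr (Fin.ext ?_))
    rw [Fin.val_last]
    omega

private theorem last_ne : (Fin.last (s + 1)) ≠ (Fin.last s).castSucc := by
  intro h
  have h1 := congrArg Fin.val h
  have h3 : (((Fin.last s).castSucc : Fin (s + 2)) : ℕ) = s := rfl
  rw [h3, Fin.val_last] at h1
  omega

/-- products of nice functions give a partition rank decomposition -/
private theorem hasPR_of_nice {r : ℕ} (J0 J1 : Finset (Fin (s + 2)))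
    (hcov : ∀ i : Fin (s + 2), (∀ j, slotEmb s j ≠ i) → (i ∈ J0 ↔ i ∉ J1))
    (h0 : ∀ j, slotEmb s j ∉ J0) (h1 : ∀ j, slotEmb s j ∉ J1) (hl : Fin.last (s + 1) ∈ J1)
    (w c : Fin r → (Fin (s + 2) → Fin n → F) → MvPolynomial (Fin s) F)
    (hw : ∀ i, Nice J0 (w i)) (hc : ∀ i, Nice J1 (c i))
    (hz : J0.Nonempty ∨ ∀ i h, MvPolynomial.coeff (ind ∅) (w i h) = 0) :
    HasPR (fun h => MvPolynomial.coeff (ind Finset.univ) (∑ i, w i h * c i h)) (2 ^ s * r) := by
  classical
  have hcard : Fintype.card (Finset (Fin s) × Fin r) = 2 ^ s * r := by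
    rw [Fintype.card_prod, Fintype.card_finset, Fintype.card_fin, Fintype.card_fin]
  rw [← hcard]
  refine HasPR.of_fintype
    (fun q => if q.1 = ∅ ∧ ¬ J0.Nonempty then {Fin.last (s + 1)} else q.1.map (slotEmb s) ∪ J0)
    (fun q h => if q.1 = ∅ ∧ ¬ J0.Nonempty then 0 else MvPolynomial.coeff (ind q.1) (w q.2 h))
    (fun q h => if q.1 = ∅ ∧ ¬ J0.Nonempty then 0 else
      MvPolynomial.coeff (ind (Finset.univ \ q.1)) (c q.2 h)) ?_ ?_
  · rintro ⟨I, i⟩
    by_cases hI : I = ∅ ∧ ¬ J0.Nonempty
    · simp only [hI]
      refine ⟨Finset.singleton_nonempty _, ⟨(Fin.last s).castSucc, ?_⟩, ?_, ?_⟩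
      · simp only [not_false_eq_true, and_self, if_true]
        rw [Finset.mem_compl, Finset.mem_singleton]
        exact fun h => last_ne h.symm
      · simp only [not_false_eq_true, and_self, if_true]
        exact isML_zero _
      · simp only [not_false_eq_true, and_self, if_true]
        exact isML_zero _
    · simp only [if_neg hI]
      have hcompl : (I.map (slotEmb s) ∪ J0)ᶜ = (Finset.univ \ I).map (slotEmb s) ∪ J1 := by
        ext k
        rw [Finset.mem_compl, Finset.mem_union, Finset.mem_union, Finset.mem_map, Finset.mem_map]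
        by_cases hk : ∃ j, slotEmb s j = k
        · obtain ⟨j, rfl⟩ := hk
          constructor
          · intro h
            left
            refine ⟨j, ?_, rfl⟩
            rw [Finset.mem_sdiff]
            exact ⟨Finset.mem_univ _, fun hj => h (Or.inl ⟨j, hj, rfl⟩)⟩
          · rintro (⟨j', hj', he⟩ | h)
            · have he' := (slotEmb s).injective he
              subst he'
              rintro (⟨j'', hj'', he''⟩ | h2)
              · have he3 := (slotEmb s).injective he''
                subst he3
                exact (Finset.mem_sdiff.1 hj').2 hj''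
              · exact h0 _ h2
            · exact absurd h (h1 j)
        · have hk' : ∀ j, slotEmb s j ≠ k := fun j h => hk ⟨j, h⟩
          have h3 := hcov k hk'
          constructor
          · intro h
            right
            by_contra h4
            exact h (Or.inr (h3.2 h4))
          · rintro (⟨j', _, he⟩ | h)
            · exact absurd he (hk' j')
            · rintro (⟨j', _, he⟩ | h2)
              · exact absurd he (hk' j')
              · exact h3.1 h2 h
      rw [hcompl]
      refine ⟨?_, ⟨Fin.last (s + 1), Finset.mem_union_right _ hl⟩, hw i I, hc i _⟩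
      rw [not_and_or, not_not] at hI
      rcases hI with hI | hI
      · obtain ⟨j, hj⟩ := Finset.nonempty_iff_ne_empty.2 hI
        exact ⟨slotEmb s j, Finset.mem_union_left _ (Finset.mem_map_of_mem _ hj)⟩
      · obtain ⟨j, hj⟩ := hI
        exact ⟨j, Finset.mem_union_right _ hj⟩
  · intro h
    rw [MvPolynomial.coeff_sum]
    rw [Fintype.sum_prod_type, Finset.sum_comm]
    refine Finset.sum_congr rfl fun i _ => ?_
    rw [coeff_ind_mul, Finset.powerset_univ]
    refine Finset.sum_congr rfl fun I _ => ?_
    by_cases hI : I = ∅ ∧ ¬ J0.Nonempty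
    · rw [if_pos hI, if_pos hI, mul_zero]
      rcases hz with hz | hz
      · exact absurd hz hI.2
      · rw [hI.1, hz, zero_mul]
    · rw [if_neg hI, if_neg hI]

private theorem canP_stable (t : (Fin (s + 1) → Fin n) → Fin n → F) (x : Fin (s + 1) → Fin n → F)
    (N : Fin (s + 1) → Matrix (Fin n) (Fin n) F)
    (z : Fin (s + 1) → Fin n → MvPolynomial (Fin s) F) (j : ℕ) (hj : j < s + 1) (m : ℕ)
    (hm : j + 1 ≤ m) : canP t x N z m ⟨j, hj⟩ = fun a => algebraMap F _ (x ⟨j, hj⟩ a) +
        canZ t x N ⟨j, hj⟩ (canP t x N z j) (z ⟨j, hj⟩) a := by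
  induction m, hm using Nat.le_induction with
  | base =>
    rw [canP, dif_pos hj, Function.update_self]
  | succ m hm ih =>
    rw [canP]
    by_cases h : m < s + 1
    · rw [dif_pos h, Function.update_of_ne, ih]
      intro h2
      have h3 := congrArg Fin.val h2
      change j = m at h3
      omega
    · rw [dif_neg h, ih]

private theorem canZ_eq (t : (Fin (s + 1) → Fin n) → Fin n → F) (x : Fin (s + 1) → Fin n → F)
    (N : Fin (s + 1) → Matrix (Fin n) (Fin n) F) (b : Fin (s + 1))
    (p : Fin (s + 1) → Fin n → MvPolynomial (Fin s) F) (z : Fin n → MvPolynomial (Fin s) F) :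
    canZ t x N b p z = z - ((N b).map (algebraMap F (MvPolynomial (Fin s) F))).mulVec
      (((canE t x b p) * ∑ i ∈ Finset.range s,
      (-((N b).map (algebraMap F (MvPolynomial (Fin s) F)) * canE t x b p)) ^ i).mulVec z) := by
  set N' := (N b).map (algebraMap F (MvPolynomial (Fin s) F)) with hN'
  set E := canE t x b p with hE
  have hS : ∑ i ∈ Finset.range (s + 1), (-(N' * E)) ^ i =
      1 - N' * (E * ∑ i ∈ Finset.range s, (-(N' * E)) ^ i) := by
    rw [Finset.sum_range_succ', pow_zero, ← Matrix.mul_assoc]
    have h1 : ∀ D : Matrix (Fin n) (Fin n) (MvPolynomial (Fin s) F),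
        ∑ k ∈ Finset.range s, D ^ (k + 1) = D * ∑ i ∈ Finset.range s, D ^ i := by
      intro D
      rw [Finset.mul_sum]
      exact Finset.sum_congr rfl fun i _ => pow_succ' D i
    rw [h1]
    generalize (∑ i ∈ Finset.range s, (-(N' * E)) ^ i) = T
    rw [neg_mul, neg_add_eq_sub]
  change (∑ i ∈ Finset.range (s + 1), (-(N' * E)) ^ i).mulVec z = _
  rw [hS, Matrix.sub_mulVec, Matrix.one_mulVec, Matrix.mulVec_mulVec]

private theorem nice_const_mul {J1 : Finset (Fin (s + 2))}
    (h1 : ∀ j : Fin s, slotEmb s j ∉ J1) (c : F)
    {g : (Fin (s + 2) → Fin n → F) → MvPolynomial (Fin s) F} (hg : Nice J1 g) :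
    Nice J1 (fun h => MvPolynomial.C c * g h) :=
  Nice.mul_left h1 (Nice.const c) hg

theorem hyb_step (t : (Fin (s + 1) → Fin n) → Fin n → F) (x : Fin (s + 1) → Fin n → F)
    (N : Fin (s + 1) → Matrix (Fin n) (Fin n) F)
    (hN : ∀ b, GInv (tmat (A := F) t b x) (N b)) (j : ℕ) (hj : j < s + 1) :
    HasPR (fun h => hybF t x N (j + 1) h - hybF t x N j h) (2 ^ s * rho t ⟨j, hj⟩ x) := by
  classical
  set b : Fin (s + 1) := ⟨j, hj⟩ with hb
  obtain ⟨G₁, G₂, -, hG⟩ := Pool.Agent.Helper83.AH.exists_pinv (N b)
  set H₁ : Matrix (Fin n) (Fin (N b).rank) F := N b * G₁ with hH₁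
  set H₂ : Matrix (Fin (N b).rank) (Fin n) F := G₂ * N b with hH₂
  have hfac : H₁ * H₂ = N b := by
    rw [hH₁, hH₂, ← Matrix.mul_assoc]
    exact hG
  have hrank : (N b).rank ≤ rho t b x := by
    have h1 := (hN b).2
    have h2 : (N b * tmat (A := F) t b x * N b).rank ≤ (tmat (A := F) t b x).rank :=
      (Matrix.rank_mul_le_left _ _).trans (Matrix.rank_mul_le_right _ _)
    rw [h1] at h2
    exact h2
  -- the correction
  let p : (Fin (s + 2) → Fin n → F) → Fin (s + 1) → Fin n → MvPolynomial (Fin s) F :=
    fun h => canP t x N (zY t x N h) j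
  let w : (Fin (s + 2) → Fin n → F) → Fin n → MvPolynomial (Fin s) F := fun h =>
    ((canE t x b (p h)) * ∑ i ∈ Finset.range s,
      (-((N b).map (algebraMap F (MvPolynomial (Fin s) F)) * canE t x b (p h))) ^ i).mulVec
        (zY t x N h b)
  let v : Fin (N b).rank → Fin n → MvPolynomial (Fin s) F := fun i a => MvPolynomial.C (H₁ a i)
  let w' : Fin (N b).rank → (Fin (s + 2) → Fin n → F) → MvPolynomial (Fin s) F := fun i h =>
    ∑ a, MvPolynomial.C (-H₂ i a) * w h a
  let c : Fin (N b).rank → (Fin (s + 2) → Fin n → F) → MvPolynomial (Fin s) F := fun i h =>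
    ∑ l, MvPolynomial.C ((prjO t x N).mulVec (h (Fin.last (s + 1))) l) *
      (tmat t b (hyb t x N j h)).mulVec (v i) l
  have hupd : ∀ h, hyb t x N (j + 1) h = Function.update (hyb t x N j h) b
      (hyb t x N j h b - ((N b).map (algebraMap F (MvPolynomial (Fin s) F))).mulVec (w h)) := by
    intro h
    funext i
    by_cases hi : i = b
    · rw [hi, Function.update_self]
      have hij : (b : ℕ) = j := rfl
      have hz := canZ_eq t x N b (p h) (zY t x N h b)
      unfold hyb
      simp only [hij, lt_self_iff_false, if_false, Nat.lt_succ_self, if_true]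
      by_cases hjs : j < s
      · simp only [hjs, if_true]
        have hst : canP t x N (zY t x N h) s b = fun a => algebraMap F _ (x b a) +
            canZ t x N b (canP t x N (zY t x N h) j) (zY t x N h b) a :=
          canP_stable t x N _ j hj s hjs
        rw [hst]
        funext a
        have hz' := congrFun hz a
        change canZ t x N b (p h) (zY t x N h b) a =
          zY t x N h b a - ((N b).map (algebraMap F (MvPolynomial (Fin s) F))).mulVec
            (w h) a at hz'
        change algebraMap F _ (x b a) + canZ t x N b (p h) (zY t x N h b) a =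
          MvPolynomial.C (x b a) + zY t x N h b a -
            ((N b).map (algebraMap F (MvPolynomial (Fin s) F))).mulVec (w h) a
        rw [hz', MvPolynomial.algebraMap_eq]
        ring
      · simp only [hjs, if_false]
        have hjs' : j = s := by omega
        have hbl : b = Fin.last s := Fin.ext hjs'
        change canZ t x N b (canP t x N (zY t x N h) j) (zY t x N h b) = _ at hz
        have hps : p h = canP t x N (zY t x N h) s := by
          change canP t x N (zY t x N h) j = _
          rw [hjs']
        rw [hps, hbl, hjs'] at hz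
        rw [hz]
        change _ = zY t x N h b - ((N b).map (algebraMap F (MvPolynomial (Fin s) F))).mulVec
          ((canE t x b (canP t x N (zY t x N h) j) * ∑ i ∈ Finset.range s,
      (-((N b).map (algebraMap F (MvPolynomial (Fin s) F)) *
        canE t x b (canP t x N (zY t x N h) j))) ^ i).mulVec (zY t x N h b))
        rw [hbl, hjs']
    · rw [Function.update_of_ne hi]
      unfold hyb
      have hij : (i : ℕ) ≠ j := fun h => hi (Fin.ext h)
      have h1 : ((i : ℕ) < j + 1) ↔ ((i : ℕ) < j) := by omega
      simp only [h1]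
  have hdiff : ∀ h, hybF t x N (j + 1) h - hybF t x N j h =
      MvPolynomial.coeff (ind Finset.univ) (∑ i, w' i h * c i h) := by
    intro h
    unfold hybF
    rw [← MvPolynomial.coeff_sub, ← Finset.sum_sub_distrib]
    congr 1
    have h1 : tev t (hyb t x N (j + 1) h) = tev t (hyb t x N j h) -
        (tmat t b (hyb t x N j h)).mulVec
          (((N b).map (algebraMap F (MvPolynomial (Fin s) F))).mulVec (w h)) := by
      rw [hupd, tev_update, Matrix.mulVec_sub, ← tev_eq_mulVec]
    have h2 : ((N b).map (algebraMap F (MvPolynomial (Fin s) F))).mulVec (w h) =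
        ∑ i, (∑ a, MvPolynomial.C (H₂ i a) * w h a) • v i := by
      funext l
      rw [Finset.sum_apply]
      simp only [Pi.smul_apply, smul_eq_mul, v]
      change ∑ a, algebraMap F _ (N b l a) * w h a = _
      have h3 : ∀ a, N b l a = ∑ i, H₁ l i * H₂ i a := by
        intro a
        exact congrArg (fun M : Matrix (Fin n) (Fin n) F => M l a) hfac.symm
      simp only [h3, map_sum, map_mul, MvPolynomial.algebraMap_eq, Finset.sum_mul]
      rw [Finset.sum_comm]
      refine Finset.sum_congr rfl fun i _ => Finset.sum_congr rfl fun a _ => ?_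
      ring
    rw [h1, h2]
    have h4 : (tmat t b (hyb t x N j h)).mulVec
        (∑ i, (∑ a, MvPolynomial.C (H₂ i a) * w h a) • v i) =
        ∑ i, (∑ a, MvPolynomial.C (H₂ i a) * w h a) • (tmat t b (hyb t x N j h)).mulVec (v i) := by
      rw [Matrix.mulVec_sum]
      refine Finset.sum_congr rfl fun i _ => ?_
      rw [Matrix.mulVec_smul]
    rw [h4]
    have h5 : ∀ i, w' i h = -∑ a, MvPolynomial.C (H₂ i a) * w h a := by
      intro i
      simp only [w', map_neg, neg_mul, Finset.sum_neg_distrib]
    have hl : ∀ l, MvPolynomial.C ((prjO t x N).mulVec (h (Fin.last (s + 1))) l) *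
        (tev t (hyb t x N j h) - ∑ i, (∑ a, MvPolynomial.C (H₂ i a) * w h a) •
          (tmat t b (hyb t x N j h)).mulVec (v i)) l -
        MvPolynomial.C ((prjO t x N).mulVec (h (Fin.last (s + 1))) l) * tev t (hyb t x N j h) l =
        ∑ i, w' i h * (MvPolynomial.C ((prjO t x N).mulVec (h (Fin.last (s + 1))) l) *
          (tmat t b (hyb t x N j h)).mulVec (v i) l) := by
      intro l
      rw [Pi.sub_apply, Finset.sum_apply, mul_sub, sub_sub_cancel_left, Finset.mul_sum,
        ← Finset.sum_neg_distrib]
      refine Finset.sum_congr rfl fun i _ => ?_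
      rw [h5, Pi.smul_apply, smul_eq_mul]
      ring
    rw [Finset.sum_congr rfl fun l _ => hl l, Finset.sum_comm]
    refine Finset.sum_congr rfl fun i _ => ?_
    exact (Finset.mul_sum _ _ _).symm
  refine HasPR.congr ?_ fun h => (hdiff h).symm
  refine HasPR.mono (by omega) ?_ (Nat.mul_le_mul_left (2 ^ s) hrank)
  -- the corrections are nice
  have hp : ∀ i, i ≠ b → ∀ a, Nice ∅ (fun h => p h i a) := fun i _ a =>
    nice_canP t x N j (by omega) i a
  have hu : ∀ l, Nice {Fin.last (s + 1)} (fun h : Fin (s + 2) → Fin n → F =>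
      (MvPolynomial.C ((prjO t x N).mulVec (h (Fin.last (s + 1))) l) :
        MvPolynomial (Fin s) F)) := fun l =>
    Nice.slot _ slot_ne' (prjO t x N) l
  by_cases hjs : j < s
  · -- a middle slot
    have e0 : ∀ k : Fin s, slotEmb s k ∉ (∅ : Finset (Fin (s + 2))) := fun k =>
      Finset.notMem_empty _
    have e1 : ∀ k : Fin s, slotEmb s k ∉ ({(Fin.last s).castSucc} : Finset (Fin (s + 2))) :=
      fun k h => slot_ne k (Finset.mem_singleton.1 h)
    have e2 : ∀ k : Fin s, slotEmb s k ∉ ({Fin.last (s + 1)} : Finset (Fin (s + 2))) :=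
      fun k h => slot_ne' k (Finset.mem_singleton.1 h)
    refine hasPR_of_nice ∅ ({Fin.last (s + 1)} ∪ {(Fin.last s).castSucc}) ?_ e0 ?_
      (Finset.mem_union_left _ (Finset.mem_singleton_self _)) w' c ?_ ?_ (Or.inr ?_)
    · intro i hi
      rcases slot_cases i with ⟨k, hk⟩ | h | h
      · exact absurd hk (hi k)
      · simp [h]
      · simp [h]
    · intro k h
      rcases Finset.mem_union.1 h with h | h
      · exact e2 k h
      · exact e1 k h
    · intro i
      refine Nice.sum _ _ fun a _ => nice_const_mul e0 _ ?_
      exact nice_corr t x N b p hp ∅ e0 (fun h => zY t x N h b)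
        (fun a => nice_zY t x N b hjs a) a
    · intro i
      refine Nice.sum _ _ fun l _ => ?_
      refine Nice.mul ?_ e2 e1 (hu l) ?_
      · rw [Finset.disjoint_singleton]
        exact last_ne
      · have hne : Fin.last s ≠ b := by
          intro h
          have h1 := congrArg Fin.val h
          rw [Fin.val_last] at h1
          change s = j at h1
          omega
        have hrew : ∀ h, (tmat t b (hyb t x N j h)).mulVec (v i) l =
            ∑ a, tmat t (Fin.last s) (Function.update (hyb t x N j h) b (v i)) l a *
              zY t x N h (Fin.last s) a := by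
          intro h
          rw [← tev_update, tev_eq_mulVec t (Fin.last s), Function.update_of_ne hne]
          have h3 : hyb t x N j h (Fin.last s) = zY t x N h (Fin.last s) := by
            unfold hyb
            have h4 : ¬ (s < j) := by omega
            simp only [Fin.val_last, h4, if_false, lt_self_iff_false]
          rw [h3]
          rfl
        simp only [hrew]
        refine Nice.sum _ _ fun a _ => Nice.mul_left e1 ?_ (nice_zY_last t x N a)
        refine nice_tmat t (Fin.last s) (fun h => Function.update (hyb t x N j h) b (v i)) ?_ l a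
        intro k hk a'
        by_cases hkb : k = b
        · subst hkb
          simp only [Function.update_self]
          exact Nice.const _
        · simp only [Function.update_of_ne hkb]
          have hks : (k : ℕ) < s := by
            rcases lt_or_eq_of_le (Nat.lt_succ_iff.1 k.2) with h | h
            · exact h
            · exact absurd (Fin.ext h) hk
          unfold hyb
          simp only [hks, if_true]
          by_cases hkj : (k : ℕ) < j
          · simp only [hkj, if_true]
            exact nice_canP t x N s le_rfl k a'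
          · simp only [hkj, if_false]
            exact Nice.add (Nice.const _) (nice_zY t x N k hks a')
    · intro i h
      have hind : ind (∅ : Finset (Fin s)) = 0 := by
        ext k
        simp [ind]
      have hcoef : ∀ q : MvPolynomial (Fin s) F, MvPolynomial.coeff (ind ∅) q =
          MvPolynomial.constantCoeff q := by
        intro q
        rw [hind, MvPolynomial.constantCoeff_eq]
      have hz0 : ∀ a, MvPolynomial.constantCoeff (zY t x N h b a) = 0 := by
        intro a
        unfold zY
        rw [dif_pos hjs, map_mul, MvPolynomial.constantCoeff_X, zero_mul]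
      have hw0 : ∀ a, MvPolynomial.constantCoeff (w h a) = 0 := by
        intro a
        change MvPolynomial.constantCoeff (∑ a', _ * zY t x N h b a') = 0
        rw [map_sum]
        refine Finset.sum_eq_zero fun a' _ => ?_
        rw [map_mul, hz0, mul_zero]
      rw [hcoef]
      simp only [w', map_sum, map_mul, hw0, mul_zero, Finset.sum_const_zero]
  · -- the last slot
    have hjs' : j = s := by omega
    have hbl : b = Fin.last s := Fin.ext hjs'
    have e1 : ∀ k : Fin s, slotEmb s k ∉ ({(Fin.last s).castSucc} : Finset (Fin (s + 2))) :=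
      fun k h => slot_ne k (Finset.mem_singleton.1 h)
    have e2 : ∀ k : Fin s, slotEmb s k ∉ ({Fin.last (s + 1)} : Finset (Fin (s + 2))) :=
      fun k h => slot_ne' k (Finset.mem_singleton.1 h)
    refine hasPR_of_nice {(Fin.last s).castSucc} {Fin.last (s + 1)} ?_ e1 e2
      (Finset.mem_singleton_self _) w' c ?_ ?_ (Or.inl (Finset.singleton_nonempty _))
    · intro i hi
      rcases slot_cases i with ⟨k, hk⟩ | h | h
      · exact absurd hk (hi k)
      · subst h
        simp only [Finset.mem_singleton, true_iff]
        exact fun h => last_ne h.symm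
      · subst h
        simp only [Finset.mem_singleton, not_true, iff_false]
        exact last_ne
    · intro i
      refine Nice.sum _ _ fun a _ => nice_const_mul e1 _ ?_
      refine nice_corr t x N b p hp _ e1 (fun h => zY t x N h b) (fun a => ?_) a
      rw [hbl]
      exact nice_zY_last t x N a
    · intro i
      refine Nice.sum _ _ fun l _ => ?_
      have hT : Nice ∅ (fun h => (tmat t b (hyb t x N j h)).mulVec (v i) l) := by
        refine Nice.sum _ _ fun a _ => Nice.mul_left (fun k => Finset.notMem_empty _) ?_
          (Nice.const _)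
        refine nice_tmat t b (fun h => hyb t x N j h) ?_ l a
        intro k hk a'
        have hks : (k : ℕ) < s := by
          rcases lt_or_eq_of_le (Nat.lt_succ_iff.1 k.2) with h | h
          · exact h
          · exact absurd ((Fin.ext h : k = Fin.last s).trans hbl.symm) hk
        have hkj : (k : ℕ) < j := by omega
        unfold hyb
        simp only [hks, hkj, if_true]
        exact nice_canP t x N s le_rfl k a'
      have h2 := Nice.mul_left e2 hT (hu l)
      have h3 : (fun h => (MvPolynomial.C ((prjO t x N).mulVec (h (Fin.last (s + 1))) l) :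
          MvPolynomial (Fin s) F) * (tmat t b (hyb t x N j h)).mulVec (v i) l) =
          fun h => (tmat t b (hyb t x N j h)).mulVec (v i) l *
            MvPolynomial.C ((prjO t x N).mulVec (h (Fin.last (s + 1))) l) := by
        funext h
        ring
      rw [h3]
      exact h2

end Pool.Agent.Helper92.AR
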