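import Pool.Agent.Helper92.AR.MainStep

/-!
AR-H3. Iteration: partition rank is at most `C` times the analytic rank over large fields.
-/

set_option autoImplicit false

namespace Pool.Agent.Helper92.AR

open Polynomial Finset
open Pool.Agent.Helper83.AH (IsML)

theorem half_le {k n : ℕ} {F : Type} [Field F] [Fintype F] (hk : 1 ≤ k)
    (hq : k ^ 2 ≤ Fintype.card F) (t : (Fin k → Fin n) → Fin n → F)
    (h0 : ∃ h, tform t h ≠ 0) : 1 / 2 ≤ anrk t := by
  have h1 := zset_card_le t h0
  have hcard : (1 : ℝ) < Fintype.card F := by exact_mod_cast Fintype.one_lt_card (α := F)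
  have hcard0 : (0 : ℝ) < Fintype.card F := by linarith
  have hz := zset_nonempty hk t
  have hz' : (0 : ℝ) < (zset t).card := by exact_mod_cast Finset.card_pos.2 hz
  have hkr : (1 : ℝ) ≤ k := by exact_mod_cast hk
  have h2 : ((zset t).card : ℝ) * Fintype.card F ≤ k * (Fintype.card F : ℝ) ^ (k * n) := by
    exact_mod_cast h1
  have h3 : ((zset t).card : ℝ) / (Fintype.card F : ℝ) ^ (k * n) ≤ k / Fintype.card F := by
    rw [div_le_div_iff₀ (by positivity) hcard0]
    exact h2
  have h4 : Real.logb (Fintype.card F) (((zset t).card : ℝ) / (Fintype.card F : ℝ) ^ (k * n)) ≤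
      Real.logb (Fintype.card F) (k / Fintype.card F) :=
    Real.logb_le_logb_of_le hcard (by positivity) h3
  have h5 : Real.logb (Fintype.card F) ((k : ℝ) / Fintype.card F) =
      Real.logb (Fintype.card F) k - 1 := by
    rw [Real.logb_div (by positivity) (by positivity), Real.logb_self_eq_one hcard]
  have h6 : Real.logb (Fintype.card F) (k : ℝ) ≤ 1 / 2 := by
    have h7 : 2 * Real.logb (Fintype.card F) (k : ℝ) ≤ 1 := by
      have h8 : 2 * Real.logb (Fintype.card F) (k : ℝ) =
          Real.logb (Fintype.card F) ((k : ℝ) ^ 2) := by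
        rw [Real.logb_pow]; push_cast; rfl
      rw [h8]
      have h9 : ((k : ℝ)) ^ 2 ≤ Fintype.card F := by exact_mod_cast hq
      calc Real.logb (Fintype.card F) ((k : ℝ) ^ 2) ≤
            Real.logb (Fintype.card F) (Fintype.card F) :=
            Real.logb_le_logb_of_le hcard (by positivity) h9
        _ = 1 := Real.logb_self_eq_one hcard
    linarith
  unfold anrk
  linarith

/-- partition rank is linearly bounded by analytic rank over large finite fields -/
theorem large_field (s : ℕ) : ∃ (q0 : ℕ) (C : ℝ), ∀ (F : Type) [Field F] [Fintype F],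
    q0 ≤ Fintype.card F → ∀ (n : ℕ) (t : (Fin (s + 1) → Fin n) → Fin n → F),
      ∃ N : ℕ, (N : ℝ) ≤ C * anrk t ∧ HasPR (tform t) N := by
  obtain ⟨q1, h1⟩ := main_step s
  set C1 : ℝ := (2 ^ s + 2) * (5 * ((s : ℝ) + 1)) with hC1
  have hC1p : 0 ≤ C1 := by positivity
  refine ⟨max q1 ((s + 1) ^ 2), 2 * C1, ?_⟩
  intro F _ _ hq n
  have hq1 : q1 ≤ Fintype.card F := le_trans (le_max_left _ _) hq
  have hq2 : (s + 1) ^ 2 ≤ Fintype.card F := le_trans (le_max_right _ _) hq
  have hs1 : 1 ≤ s + 1 := by omega
  have key : ∀ (m : ℕ) (t : (Fin (s + 1) → Fin n) → Fin n → F), anrk t < 4 ^ m / 2 →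
      ∃ N : ℕ, (N : ℝ) ≤ 2 * C1 * anrk t ∧ HasPR (tform t) N := by
    intro m
    induction m with
    | zero =>
      intro t ht
      have hz : ∀ h, tform t h = 0 := by
        by_contra hcon
        push Not at hcon
        have := half_le hs1 hq2 t hcon
        rw [pow_zero] at ht
        linarith
      refine ⟨0, ?_, ?_⟩
      · have := anrk_nonneg hs1 t
        push_cast
        positivity
      · exact (HasPR.zero (by omega) 0).congr fun h => (hz h).symm
    | succ m ih =>
      intro t ht
      by_cases hz : ∀ h, tform t h = 0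
      · refine ⟨0, ?_, ?_⟩
        · have := anrk_nonneg hs1 t
          push_cast
          positivity
        · exact (HasPR.zero (by omega) 0).congr fun h => (hz h).symm
      · push Not at hz
        have hhalf := half_le hs1 hq2 t hz
        obtain ⟨t1, N1, hA, hB, hP⟩ := h1 F hq1 n t hhalf
        have hlt : anrk t1 < 4 ^ m / 2 := by
          rw [pow_succ] at ht
          linarith
        obtain ⟨N2, hN2, hP2⟩ := ih t1 hlt
        refine ⟨N1 + N2, ?_, ?_⟩
        · push_cast
          have h3 : 2 * C1 * anrk t1 ≤ 2 * C1 * (anrk t / 4) :=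
            mul_le_mul_of_nonneg_left hA (by positivity)
          have h4 : 0 ≤ C1 * anrk t := mul_nonneg hC1p (anrk_nonneg hs1 t)
          nlinarith [hB, hN2, h3, h4]
        · exact (hP.add hP2).congr fun h => by ring
  intro t
  obtain ⟨m, hm⟩ := pow_unbounded_of_one_lt (2 * anrk t) (by norm_num : (1 : ℝ) < 4)
  exact key m t (by linarith)

end Pool.Agent.Helper92.AR
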