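import Pool.Agent.Helper92.AR.Defs

/-!
AR-B1. Kernel dimension.  Let `g = grank M`.  Choose `g` rows `r : Fin g → Fin n` of
`M' = M.map (algebraMap F[X] (RatFunc F))` which span the row space over `RatFunc F`
(`Matrix.rank_eq_finrank_span_row`, `Submodule.exists_fun_fin_finrank_span_eq`, as in
`Pool.Agent.Helper83.AH.exists_minor`).  If `v : Fin n → F[X]` satisfies `(M v)_{r i} = 0` for all
`i : Fin g` then `M v = 0` (every row of `M'` is a combination of the rows `r i`; the algebra map is
injective).  So `Kmod ℓ M` is the kernel of the linear map `z ↦ ((M (toPoly z))_{r i})_{i : Fin g}`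
from a space of dimension `n ℓ` to `Fin g → degreeLT F (ℓ + e)` of dimension `g (ℓ + e)` (entries of
`toPoly z` have degree `< ℓ`; for `ℓ = 0` everything is zero); rank-nullity.
-/

set_option autoImplicit false

namespace Pool.Agent.Helper92.AR

open Polynomial Finset
open Pool.Agent.Helper83.AH (IsML)

variable {n : ℕ} {F : Type} [Field F]

/-- rows spanning the row space -/
theorem exists_rows_kd {K : Type} [Field K] (N : Matrix (Fin n) (Fin n) K) :
    ∃ r : Fin N.rank → Fin n, ∀ j, N j ∈ Submodule.span K (Set.range fun i => N (r i)) := by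
  classical
  have hfr : N.rank = Module.finrank K (Submodule.span K (Set.range N.row)) :=
    Matrix.rank_eq_finrank_span_row N
  obtain ⟨f, hf1, hf2, -⟩ :=
    Submodule.exists_fun_fin_finrank_span_eq K (Set.range N.row)
  have hf1' : ∀ i, ∃ j, N.row j = f i := fun i => hf1 i
  choose c hc using hf1'
  refine ⟨fun i => c (Fin.cast hfr i), fun j => ?_⟩
  have h1 : N.row j ∈ Submodule.span K (Set.range N.row) := Submodule.subset_span ⟨j, rfl⟩
  rw [← hf2] at h1
  refine Submodule.span_mono ?_ h1
  rintro _ ⟨i, rfl⟩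
  refine ⟨Fin.cast hfr.symm i, ?_⟩
  simp only [Fin.cast_cast, Fin.cast_refl]
  exact hc i

theorem toPoly_coeff_kd {ℓ : ℕ} (z : Fin ℓ → Fin n → F) (a : Fin n) (d : ℕ) (hd : ℓ ≤ d) :
    ((toPoly z : Fin n → F[X]) a).coeff d = 0 := by
  have h1 : (toPoly z : Fin n → F[X]) a = ∑ i : Fin ℓ, Polynomial.C (z i a) * X ^ (i : ℕ) := rfl
  rw [h1, Polynomial.finsetSum_coeff]
  refine Finset.sum_eq_zero fun i _ => ?_
  rw [Polynomial.coeff_C_mul, Polynomial.coeff_X_pow, if_neg, mul_zero]
  have := i.2
  omega

/-- the linear map given by the coefficients of chosen rows of `M v` -/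
noncomputable def rowL_kd (ℓ m : ℕ) (M : Matrix (Fin n) (Fin n) F[X]) {g : ℕ}
    (r : Fin g → Fin n) : (Fin ℓ → Fin n → F) →ₗ[F] (Fin g → Fin m → F) where
  toFun z := fun i d => (M.mulVec (toPoly z : Fin n → F[X]) (r i)).coeff d
  map_add' z w := by
    funext i d
    simp only [map_add, Matrix.mulVec_add, Pi.add_apply, Polynomial.coeff_add]
  map_smul' c z := by
    funext i d
    simp only [map_smul, Matrix.mulVec_smul, Pi.smul_apply, Polynomial.coeff_smul,
      RingHom.id_apply]

theorem kmod_finrank (ℓ e : ℕ) (M : Matrix (Fin n) (Fin n) F[X])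
    (hM : ∀ i j, (M i j).natDegree ≤ e) :
    n * ℓ ≤ Module.finrank F (Kmod ℓ M) + grank M * (ℓ + e) := by
  classical
  unfold grank
  set M' := M.map (algebraMap F[X] (RatFunc F)) with hM'
  obtain ⟨r, hr⟩ := exists_rows_kd M'
  set Ψ := rowL_kd (F := F) ℓ (ℓ + e) M r with hΨ
  have hcoeff : ∀ (z : Fin ℓ → Fin n → F) (i : Fin n) (d : ℕ), ℓ + e ≤ d →
      (M.mulVec (toPoly z : Fin n → F[X]) i).coeff d = 0 := by
    intro z i d hd
    have h1 : M.mulVec (toPoly z : Fin n → F[X]) i =
        ∑ a, M i a * (toPoly z : Fin n → F[X]) a := rfl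
    rw [h1, Polynomial.finsetSum_coeff]
    refine Finset.sum_eq_zero fun a _ => ?_
    rw [Polynomial.coeff_mul]
    refine Finset.sum_eq_zero fun p hp => ?_
    rw [Finset.HasAntidiagonal.mem_antidiagonal] at hp
    rcases Nat.lt_or_ge e p.1 with h2 | h2
    · rw [Polynomial.coeff_eq_zero_of_natDegree_lt (lt_of_le_of_lt (hM i a) h2), zero_mul]
    · rw [toPoly_coeff_kd z a p.2 (by omega), mul_zero]
  have hker : LinearMap.ker Ψ ≤ Kmod ℓ M := by
    intro z hz
    rw [LinearMap.mem_ker] at hz
    have h1 : ∀ i, M.mulVec (toPoly z : Fin n → F[X]) (r i) = 0 := by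
      intro i
      ext d
      rw [Polynomial.coeff_zero]
      rcases Nat.lt_or_ge d (ℓ + e) with hd | hd
      · exact congrFun (congrFun hz i) ⟨d, hd⟩
      · exact hcoeff z _ d hd
    set v : Fin n → RatFunc F := fun a => algebraMap F[X] (RatFunc F)
      ((toPoly z : Fin n → F[X]) a) with hv
    have hmap : ∀ j, ∑ a, M' j a * v a =
        algebraMap F[X] (RatFunc F) (M.mulVec (toPoly z : Fin n → F[X]) j) := by
      intro j
      have h3 : M.mulVec (toPoly z : Fin n → F[X]) j =
        ∑ a, M j a * (toPoly z : Fin n → F[X]) a := rfl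
      rw [h3, map_sum]
      refine Finset.sum_congr rfl fun a _ => ?_
      rw [map_mul]
      rfl
    set φ : (Fin n → RatFunc F) →ₗ[RatFunc F] RatFunc F :=
      { toFun := fun w => ∑ a, w a * v a
        map_add' := fun w w' => by
          simp only [Pi.add_apply, add_mul, Finset.sum_add_distrib]
        map_smul' := fun c w => by
          simp only [Pi.smul_apply, smul_eq_mul, RingHom.id_apply, Finset.mul_sum, mul_assoc] }
      with hφ
    have h2 : ∀ j, φ (M' j) = 0 := by
      intro j
      have h3 : Submodule.span (RatFunc F) (Set.range fun i => M' (r i)) ≤ LinearMap.ker φ := by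
        rw [Submodule.span_le]
        rintro _ ⟨i, rfl⟩
        rw [SetLike.mem_coe, LinearMap.mem_ker]
        have h4 : φ (M' (r i)) = ∑ a, M' (r i) a * v a := rfl
        rw [h4, hmap, h1 i, map_zero]
      exact LinearMap.mem_ker.mp (h3 (hr j))
    have h5 : ∀ j, M.mulVec (toPoly z : Fin n → F[X]) j = 0 := by
      intro j
      have h6 := h2 j
      have h7 : φ (M' j) = ∑ a, M' j a * v a := rfl
      rw [h7, hmap] at h6
      exact (map_eq_zero_iff _ (RatFunc.algebraMap_injective F)).mp h6
    have h8 : M.mulVec (toPoly z : Fin n → F[X]) = 0 := funext h5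
    exact LinearMap.mem_ker.mpr h8
  have h1 := LinearMap.finrank_range_add_finrank_ker Ψ
  have h2 : Module.finrank F (Fin ℓ → Fin n → F) = n * ℓ := by
    rw [Module.finrank_pi_fintype]
    simp [mul_comm]
  have h3 : Module.finrank F (Fin M'.rank → Fin (ℓ + e) → F) = M'.rank * (ℓ + e) := by
    rw [Module.finrank_pi_fintype]
    simp
  have h4 : Module.finrank F (LinearMap.range Ψ) ≤ M'.rank * (ℓ + e) := by
    rw [← h3]
    exact Submodule.finrank_le _
  have h5 : Module.finrank F (LinearMap.ker Ψ) ≤ Module.finrank F (Kmod ℓ M) :=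
    Submodule.finrank_mono hker
  omega

end Pool.Agent.Helper92.AR
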