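import Pool.Agent.Helper92.AR.RecZ
import Pool.Agent.Helper92.AR.CanAdm
import Pool.Agent.Helper92.AR.CanDual

/-!
AR-F5. Lower bound for the bias of `Phi`.  Let `h z = if ∀ l, X^(s+1) ∣ canV t x N (zz z) l then 1 else 0`.
For an admissible `P` at stage `s+1`, `h (recZ P) = 1` (`can_adm`), so by `QE_congr`
`1/2 ≤ QE 1 = QE (h ∘ recZ) ≤ q^((s+1) few) * avg univ (h ∘ pry)` (`QE_recZ`).  The average over `(y, u)` of
`ψ (Phi y u)` is the average over `y` of `h (pry y)` (`can_dual`, Fubini), a real number `≥ 0`.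
-/

set_option autoImplicit false

namespace Pool.Agent.Helper92.AR

open Polynomial Finset
open Pool.Agent.Helper83.AH (IsML)

variable {s n : ℕ} {F : Type} [Field F] [Fintype F]

theorem lower_phi (ψ : AddChar F ℂ) (hψ : ψ ≠ 1) (t : (Fin (s + 1) → Fin n) → Fin n → F)
    (x : Fin (s + 1) → Fin n → F)
    (hx : x ∈ zset t) (N : Fin (s + 1) → Matrix (Fin n) (Fin n) F)
    (hN : ∀ b, GInv (tmat (A := F) t b x) (N b)) (L : ℕ → ℕ) (hL : ∀ j < s + 1, s + 1 ≤ L j)
    (good : ℕ → (Fin (s + 1) → Fin n → F[X]) → Prop) (few : ℝ)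
    (hgood : ∀ (j : ℕ) (hj : j < s + 1) (P : Fin (s + 1) → Fin n → F[X]), Adm t L x j P →
      good j P → ((s : ℝ) + 1) * ((grank (tmat t ⟨j, hj⟩ P) : ℝ) - rho t ⟨j, hj⟩ x) +
        ((s : ℝ) + 1) * (((∑ i ∈ Finset.range j, L i : ℕ) : ℝ) * grank (tmat t ⟨j, hj⟩ P) /
          ((L j - s : ℕ) : ℝ)) ≤ few)
    (hQ : 1 / 2 ≤ QE t L good x (s + 1) (fun _ => 1)) :
    1 / 2 * (Fintype.card F : ℝ) ^ (-(((s : ℝ) + 1) * few)) ≤
      ‖avgC (fun a : (Fin (s + 1) → Fin (s + 1) → Fin n → F) × (Fin (s + 1) → Fin n → F) =>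
        ψ (Phi t x N a.1 a.2))‖ := by
  classical
  obtain ⟨h, hh⟩ : ∃ h : (Fin (s + 1) → Fin (s + 1) → Fin n → F) → ℝ,
      h = fun z => if ∀ l, (X : F[X]) ^ (s + 1) ∣ canV t x N (zz z) l then 1 else 0 := ⟨_, rfl⟩
  have h0 : ∀ z, 0 ≤ h z := by
    intro z
    rw [hh]
    show (0 : ℝ) ≤ if ∀ l, (X : F[X]) ^ (s + 1) ∣ canV t x N (zz z) l then 1 else 0
    split_ifs
    · exact zero_le_one
    · exact le_rfl
  have h1 : QE t L good x (s + 1) (fun _ => 1) =
      QE t L good x (s + 1) (fun P => h (recZ t x N P)) := by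
    refine QE_congr hx (s + 1) fun P hP => ?_
    rw [hh]
    show (1 : ℝ) = if ∀ l, (X : F[X]) ^ (s + 1) ∣ canV t x N (zz (recZ t x N P)) l then 1 else 0
    rw [if_pos fun l => can_adm N hN hP l]
  have h2 := QE_recZ t x hx N hN L hL good few hgood h h0
  rw [← h1] at h2
  have h3 : avgC (fun a : (Fin (s + 1) → Fin (s + 1) → Fin n → F) × (Fin (s + 1) → Fin n → F) =>
        ψ (Phi t x N a.1 a.2)) =
      ((avg Finset.univ (fun y : Fin (s + 1) → Fin (s + 1) → Fin n → F =>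
        h (pry t x N y)) : ℝ) : ℂ) := by
    have h4 : ∀ y : Fin (s + 1) → Fin (s + 1) → Fin n → F,
        ∑ u : Fin (s + 1) → Fin n → F, ψ (Phi t x N y u) =
          (Fintype.card (Fin (s + 1) → Fin n → F) : ℂ) * ((h (pry t x N y) : ℝ) : ℂ) := by
      intro y
      have h5 := can_dual ψ hψ t x N hN y
      unfold avgC at h5
      have hc : (Fintype.card (Fin (s + 1) → Fin n → F) : ℂ) ≠ 0 := by
        exact_mod_cast Fintype.card_ne_zero
      rw [div_eq_iff hc] at h5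
      rw [h5, mul_comm, hh]
      congr 1
      show (if ∀ l, (X : F[X]) ^ (s + 1) ∣ canV t x N (zz (pry t x N y)) l then (1 : ℂ) else 0) =
        (((if ∀ l, (X : F[X]) ^ (s + 1) ∣ canV t x N (zz (pry t x N y)) l
          then (1 : ℝ) else 0) : ℝ) : ℂ)
      split_ifs
      · simp
      · simp
    unfold avgC avg
    rw [Fintype.sum_prod_type, Finset.sum_congr rfl fun y _ => h4 y, ← Finset.mul_sum,
      Fintype.card_prod]
    have hc : (Fintype.card (Fin (s + 1) → Fin n → F) : ℂ) ≠ 0 := by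
      exact_mod_cast Fintype.card_ne_zero
    have hc' : (Fintype.card (Fin (s + 1) → Fin (s + 1) → Fin n → F) : ℂ) ≠ 0 := by
      exact_mod_cast Fintype.card_ne_zero
    push_cast
    rw [Finset.card_univ]
    field_simp
  rw [h3, Complex.norm_real, Real.norm_eq_abs]
  refine le_trans ?_ (le_abs_self _)
  have hq : (0 : ℝ) < (Fintype.card F : ℝ) := by
    exact_mod_cast Fintype.card_pos
  have h6 := hQ.trans h2
  rw [Real.rpow_neg hq.le]
  have hp : (0 : ℝ) < (Fintype.card F : ℝ) ^ (((s : ℝ) + 1) * few) := Real.rpow_pos_of_pos hq _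
  rw [← div_eq_mul_inv, div_le_iff₀ hp, mul_comm]
  exact h6

end Pool.Agent.Helper92.AR
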