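import Pool.Agent.Helper92.AR.PRCalc
import Pool.Agent.Helper92.AR.Form
import Pool.Agent.Helper92.AR.Tensor
import Pool.Agent.Helper83.AH.Basic

/-!
AR-R2. Cost of the projections.  Telescope: for `j ≤ s+2` let `h^(j)` be `h` with the slots `< j` replaced by
the projected ones, so `h^(0) = h`, `h^(s+2) = prH h`.  For `j ≤ s`:
`tform t h^(j) - tform t h^(j+1) = tform t (h^(j) with slot j replaced by (1 - prj j) h_j)`, and
`1 - prj j = N_j * tmat t j x` has rank `≤ rho t j x =: r`, so it factors as `G₁ * G₂` through `Fin r`
(e.g. `Pool.Agent.Helper83.AH.exists_pinv`: `M = (M G₁)(G₂ M)`), and the difference is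
`∑_{i < r} (G₂ h_j)_i * tform t (h^(j) with slot j replaced by the column i of G₁)`: multilinear in `{j}`
times multilinear in the complement (`tform_isML`; the projections in the slots `< j` are linear).
For the output slot: `1 - prjO = (tmat t last x * N last)ᵀ` of rank `≤ rho t (last) x`.
Total `∑_j rho_j + rho_last`.
-/

set_option autoImplicit false

namespace Pool.Agent.Helper92.AR

open Polynomial Finset
open Pool.Agent.Helper83.AH (IsML)

variable {s n : ℕ} {F : Type} [Field F]

/-- slots of a multilinear function composed with linear maps, one slot fixed -/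
private theorem r2_fix {d : ℕ} {f : (Fin d → Fin n → F) → F} (hf : IsML F Finset.univ f)
    (L : Fin d → (Fin n → F) →ₗ[F] (Fin n → F)) (j : Fin d) (c : Fin n → F) :
    IsML F ({j} : Finset (Fin d))ᶜ fun h => f (Function.update (fun i => L i (h i)) j c) := by
  have key : ∀ (x : Fin d → Fin n → F) (i : Fin d) (_ : i ≠ j) (v : Fin n → F),
      Function.update (fun k => L k (Function.update x i v k)) j c =
        Function.update (Function.update (fun k => L k (x k)) j c) i (L i v) := by
    intro x i hi v
    funext k
    by_cases hk : k = i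
    · subst hk
      rw [Function.update_self, Function.update_of_ne hi, Function.update_self]
    · rw [Function.update_of_ne hk]
      by_cases hkj : k = j
      · subst hkj
        rw [Function.update_self, Function.update_self]
      · rw [Function.update_of_ne hkj, Function.update_of_ne hkj, Function.update_of_ne hk]
  refine ⟨fun x y h => ?_, fun i hi x v w => ?_, fun i hi x a v => ?_⟩
  · have h1 : Function.update (fun i => L i (x i)) j c = Function.update (fun i => L i (y i)) j c := by
      funext k
      by_cases hk : k = j
      · subst hk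
        rw [Function.update_self, Function.update_self]
      · rw [Function.update_of_ne hk, Function.update_of_ne hk, h k (by simpa using hk)]
    simp only [h1]
  · have hi' : i ≠ j := by simpa using hi
    simp only [key x i hi', map_add]
    exact hf.add i (Finset.mem_univ i) _ _ _
  · have hi' : i ≠ j := by simpa using hi
    simp only [key x i hi', map_smul]
    exact hf.smul i (Finset.mem_univ i) _ _ _

private theorem r2_sum {d : ℕ} {f : (Fin d → Fin n → F) → F} (hf : IsML F Finset.univ f)
    (x : Fin d → Fin n → F) (j : Fin d) {ι : Type} (S : Finset ι) (c : ι → F)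
    (v : ι → Fin n → F) :
    f (Function.update x j (∑ i ∈ S, c i • v i)) =
      ∑ i ∈ S, c i * f (Function.update x j (v i)) := by
  classical
  have h0 : f (Function.update x j 0) = 0 := by
    have := hf.smul j (Finset.mem_univ j) x 0 0
    rwa [zero_smul, zero_smul] at this
  induction S using Finset.induction_on with
  | empty => rw [Finset.sum_empty, Finset.sum_empty, h0]
  | insert a S ha ih =>
    rw [Finset.sum_insert ha, Finset.sum_insert ha, hf.add j (Finset.mem_univ j), ih,
      hf.smul j (Finset.mem_univ j), smul_eq_mul]

/-- one step of the telescope -/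
private theorem r2_step {d : ℕ} (hd : 2 ≤ d) {f : (Fin d → Fin n → F) → F}
    (hf : IsML F Finset.univ f) (Q : Fin d → Matrix (Fin n) (Fin n) F) (j : Fin d) :
    HasPR (fun h => f (fun i => if (i : ℕ) < j then (Q i).mulVec (h i) else h i) -
      f (fun i => if (i : ℕ) < j + 1 then (Q i).mulVec (h i) else h i)) (1 - Q j).rank := by
  classical
  obtain ⟨M, hMdef⟩ : ∃ M : Matrix (Fin n) (Fin n) F, M = 1 - Q j := ⟨_, rfl⟩
  rw [← hMdef]
  obtain ⟨G₁, G₂, -, hM⟩ := Pool.Agent.Helper83.AH.exists_pinv M
  set L : Fin d → (Fin n → F) →ₗ[F] (Fin n → F) := fun i =>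
    if (i : ℕ) < j then (Q i).mulVecLin else LinearMap.id with hL
  have hLi : ∀ (h : Fin d → Fin n → F) (i : Fin d), L i (h i) =
      if (i : ℕ) < j then (Q i).mulVec (h i) else h i := by
    intro h i
    rw [hL]
    dsimp only
    split_ifs <;> rfl
  have hne : ∃ k : Fin d, k ≠ j := by
    have : Nontrivial (Fin d) := Fin.nontrivial_iff_two_le.2 hd
    exact exists_ne j
  have H := HasPR.of_fintype (ι := Fin M.rank) (fun _ => ({j} : Finset (Fin d)))
    (fun a h => ((G₂ * M).mulVec (h j)) a)
    (fun a h => f (Function.update (fun i => L i (h i)) j (fun b => (M * G₁) b a)))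
    (fun a => ⟨Finset.singleton_nonempty j, by
        obtain ⟨k, hk⟩ := hne
        exact ⟨k, by simpa using hk⟩,
      ⟨fun x y h => by
          simp only [h j (Finset.mem_singleton_self j)],
        fun i hi x v w => by
          rw [Finset.mem_singleton] at hi
          subst hi
          simp only [Function.update_self, Matrix.mulVec_add, Pi.add_apply],
        fun i hi x c v => by
          rw [Finset.mem_singleton] at hi
          subst hi
          simp only [Function.update_self, Matrix.mulVec_smul, Pi.smul_apply]⟩,
      r2_fix hf L j _⟩)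
    (f := fun h => f (fun i => if (i : ℕ) < j then (Q i).mulVec (h i) else h i) -
      f (fun i => if (i : ℕ) < j + 1 then (Q i).mulVec (h i) else h i))
    (by
      intro h
      have e1 : (fun i : Fin d => if (i : ℕ) < j then (Q i).mulVec (h i) else h i) =
          Function.update (fun i => L i (h i)) j (h j) := by
        funext i
        by_cases hi : i = j
        · subst hi
          rw [Function.update_self, if_neg (lt_irrefl _)]
        · rw [Function.update_of_ne hi, hLi]
      have e2 : (fun i : Fin d => if (i : ℕ) < j + 1 then (Q i).mulVec (h i) else h i) =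
          Function.update (fun i => L i (h i)) j ((Q j).mulVec (h j)) := by
        funext i
        by_cases hi : i = j
        · subst hi
          rw [Function.update_self, if_pos (Nat.lt_succ_self _)]
        · have h3 : (i : ℕ) ≠ j := fun h => hi (Fin.ext h)
          rw [Function.update_of_ne hi, hLi]
          by_cases h4 : (i : ℕ) < j
          · rw [if_pos h4, if_pos (by omega)]
          · rw [if_neg h4, if_neg (by omega)]
      have e3 : h j = (Q j).mulVec (h j) + M.mulVec (h j) := by
        rw [← Matrix.add_mulVec, hMdef, add_sub_cancel, Matrix.one_mulVec]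
      have e4 : M.mulVec (h j) = ∑ a : Fin M.rank, ((G₂ * M).mulVec (h j)) a •
          (fun b => (M * G₁) b a : Fin n → F) := by
        have e5 : M.mulVec (h j) = (M * G₁).mulVec ((G₂ * M).mulVec (h j)) := by
          rw [Matrix.mulVec_mulVec]
          congr 1
          rw [← Matrix.mul_assoc]
          exact hM.symm
        rw [e5]
        funext b
        rw [Finset.sum_apply]
        simp only [Matrix.mulVec, dotProduct, Pi.smul_apply, smul_eq_mul]
        exact Finset.sum_congr rfl fun a _ => mul_comm _ _
      rw [e1, e2]
      conv_lhs =>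
        enter [1]
        rw [e3]
      rw [hf.add j (Finset.mem_univ j), add_sub_cancel_left, e4, r2_sum hf])
  rwa [Fintype.card_fin] at H

theorem pr_proj (t : (Fin (s + 1) → Fin n) → Fin n → F) (x : Fin (s + 1) → Fin n → F)
    (N : Fin (s + 1) → Matrix (Fin n) (Fin n) F) :
    HasPR (fun h => tform t h - tform t (prH t x N h)) (Rho t x + rho t (Fin.last s) x) := by
  classical
  set Q : Fin (s + 2) → Matrix (Fin n) (Fin n) F :=
    Fin.snoc (α := fun _ => Matrix (Fin n) (Fin n) F) (fun j : Fin (s + 1) => prj t x N j)
      (prjO t x N) with hQ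
  have hQ1 : ∀ j : Fin (s + 1), Q j.castSucc = prj t x N j := by
    intro j
    rw [hQ, Fin.snoc_castSucc]
  have hQ2 : Q (Fin.last (s + 1)) = prjO t x N := by
    rw [hQ, Fin.snoc_last]
  have hfin : ∀ h : Fin (s + 2) → Fin n → F,
      (fun i : Fin (s + 2) => if (i : ℕ) < s + 2 then (Q i).mulVec (h i) else h i) =
        prH t x N h := by
    intro h
    funext i
    rw [if_pos i.2]
    unfold prH
    induction i using Fin.lastCases with
    | last => rw [Fin.snoc_last, hQ2]
    | cast b => rw [Fin.snoc_castSucc, hQ1]
  have hrk : ∀ j : Fin (s + 2), (1 - Q j).rank ≤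
      (Fin.snoc (α := fun _ => ℕ) (fun j : Fin (s + 1) => rho t j x) (rho t (Fin.last s) x) :
        Fin (s + 2) → ℕ) j := by
    intro j
    induction j using Fin.lastCases with
    | last =>
      rw [Fin.snoc_last, hQ2]
      unfold prjO rho
      rw [show (1 : Matrix (Fin n) (Fin n) F) - (1 - tmat (A := F) t (Fin.last s) x *
        N (Fin.last s)).transpose = (tmat (A := F) t (Fin.last s) x *
        N (Fin.last s)).transpose by
          rw [Matrix.transpose_sub, Matrix.transpose_one, sub_sub_cancel]]
      rw [Matrix.rank_transpose]
      exact Matrix.rank_mul_le_left _ _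
    | cast b =>
      rw [Fin.snoc_castSucc, hQ1]
      unfold prj rho
      rw [sub_sub_cancel]
      exact Matrix.rank_mul_le_right _ _
  have hml := tform_isML t
  have hsum := HasPR.sum (Finset.univ : Finset (Fin (s + 2)))
    (fun j h => tform t (fun i => if (i : ℕ) < j then (Q i).mulVec (h i) else h i) -
      tform t (fun i => if (i : ℕ) < j + 1 then (Q i).mulVec (h i) else h i))
    (Fin.snoc (α := fun _ => ℕ) (fun j : Fin (s + 1) => rho t j x) (rho t (Fin.last s) x))
    (fun j _ => HasPR.mono (by omega) (r2_step (by omega) hml Q j) (hrk j))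
  have hN : ∑ j : Fin (s + 2), (Fin.snoc (α := fun _ => ℕ) (fun j : Fin (s + 1) => rho t j x)
      (rho t (Fin.last s) x) : Fin (s + 2) → ℕ) j = Rho t x + rho t (Fin.last s) x := by
    rw [Fin.sum_univ_castSucc]
    simp only [Fin.snoc_castSucc, Fin.snoc_last]
    rfl
  rw [hN] at hsum
  refine hsum.congr fun h => ?_
  have h1 := Finset.sum_range_sub' (fun j : ℕ =>
    tform t (fun i : Fin (s + 2) => if (i : ℕ) < j then (Q i).mulVec (h i) else h i)) (s + 2)
  rw [Finset.sum_range] at h1
  rw [h1, hfin]
  simp only [Nat.not_lt_zero, if_false]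

end Pool.Agent.Helper92.AR
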