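import Pool.Agent.Helper92.AR.HybStep
import Pool.Agent.Helper92.AR.HybEnds
import Pool.Agent.Helper92.AR.PRProj

/-!
AR-R5. `tform t - T1 = (tform t - tform t ∘ prH) - (hybF (s+1) - hybF 0)`, and
`hybF (s+1) - hybF 0 = ∑_{j<s+1} (hybF (j+1) - hybF j)` (`HasPR.sum`, `Finset.sum_range_sub`), cost
`2^s * ∑_j rho_j = 2^s * Rho`; the first difference costs `Rho + rho_last ≤ 2 Rho`.
-/

set_option autoImplicit false

namespace Pool.Agent.Helper92.AR

open Polynomial Finset
open Pool.Agent.Helper83.AH (IsML)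

variable {s n : ℕ} {F : Type} [Field F]

theorem pr_main (t : (Fin (s + 1) → Fin n) → Fin n → F) (x : Fin (s + 1) → Fin n → F)
    (N : Fin (s + 1) → Matrix (Fin n) (Fin n) F)
    (hN : ∀ b, GInv (tmat (A := F) t b x) (N b)) :
    HasPR (fun h => tform t h - T1 t x N h) ((2 ^ s + 2) * Rho t x) := by
  have h1 := pr_proj t x N
  have h2 := HasPR.sum (Finset.univ : Finset (Fin (s + 1)))
    (fun j h => hybF t x N ((j : ℕ) + 1) h - hybF t x N (j : ℕ) h)
    (fun j => 2 ^ s * rho t j x) (fun j _ => hyb_step t x N hN j j.2)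
  have h3 : ∑ j : Fin (s + 1), 2 ^ s * rho t j x = 2 ^ s * Rho t x := by
    rw [← Finset.mul_sum]
    rfl
  rw [h3] at h2
  have h4 : rho t (Fin.last s) x ≤ Rho t x :=
    Finset.single_le_sum (f := fun b => rho t b x) (fun _ _ => Nat.zero_le _)
      (Finset.mem_univ (Fin.last s))
  have h5 := (h1.add h2.neg).mono (by omega) (N' := (2 ^ s + 2) * Rho t x) (by
    have : (2 ^ s + 2) * Rho t x = Rho t x + Rho t x + 2 ^ s * Rho t x := by ring
    rw [this]
    omega)
  refine h5.congr fun h => ?_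
  have h6 : ∑ j : Fin (s + 1), (hybF t x N ((j : ℕ) + 1) h - hybF t x N (j : ℕ) h) =
      hybF t x N (s + 1) h - hybF t x N 0 h := by
    rw [Fin.sum_univ_eq_sum_range (fun j => hybF t x N (j + 1) h - hybF t x N j h) (s + 1),
      Finset.sum_range_sub (fun j => hybF t x N j h)]
  rw [h6, hybF_last, hybF_zero]
  ring

end Pool.Agent.Helper92.AR
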