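import Pool.Agent.Helper92.AR.Defs

/-!
AR-H1. Choice of the parameters (real arithmetic).  Write `k = s+1 ≥ 1`, `G = 400 * 2^s * k^5 ≥ 400`,
`w0 = 4k (4k Rs / G + lam)`.  As `lam ≤ 1/(2G) ≤ r/G ≤ r`: `Rs ≤ 2k (r + r/G) ≤ 4 k r`, `w0 ≤ 64 k³ r/G + 4 k r/G
≤ 68 k³ r / G`.
(2) `k * (4/G) (Rs + w0) + lam = 4 k Rs/G + lam + 4 k w0 / G = w0/(4k) + 4 k w0/G ≤ w0/(2k)` since
`16 k² ≤ G`.
(3) `Rs + w0 ≤ 4 k r + 68 k³ r/G ≤ 5 k r`.
(4) `few = k (w0 + (2/G) (Rs+w0)) + k (2 (Rs+w0)/G) ≤ 68 k⁴ r/G + 20 k² r/G ≤ 88 k⁴ r / G`,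
`2^s (k few + lam) ≤ 2^s * 89 k⁵ r / G = 89 r / 400 ≤ r/4`.
-/

set_option autoImplicit false

namespace Pool.Agent.Helper92.AR

open Polynomial Finset
open Pool.Agent.Helper83.AH (IsML)

theorem params (s : ℕ) (k G r lam Rs w0 few : ℝ) (hk : k = s + 1) (hG : G = 400 * 2 ^ s * k ^ 5)
    (hr : 1 / 2 ≤ r) (hlam0 : 0 ≤ lam) (hlam : lam ≤ 1 / (2 * G)) (hRs0 : 0 ≤ Rs)
    (hRs : Rs ≤ 2 * k * (r + lam)) (hw0 : w0 = 4 * k * (4 * k * Rs / G + lam))
    (hfew : few = k * (w0 + 2 * (1 / G) * (Rs + w0)) + k * (2 * (Rs + w0) / G)) :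
    0 ≤ w0 ∧ k * ((2 * (1 / G) + 2 / G) * (Rs + w0)) + lam ≤ w0 / (2 * k) ∧
      Rs + w0 ≤ 5 * k * r ∧ 0 ≤ few ∧ 2 ^ s * (k * few + lam) ≤ r / 4 := by
  have hs0 : (0 : ℝ) ≤ s := Nat.cast_nonneg s
  have hk1 : 1 ≤ k := by linarith
  have hP1 : (1 : ℝ) ≤ 2 ^ s := one_le_pow₀ (by norm_num)
  obtain ⟨P, hP⟩ : ∃ P : ℝ, P = 2 ^ s := ⟨_, rfl⟩
  rw [← hP] at hP1 hG ⊢
  have hk5 : (1 : ℝ) ≤ k ^ 5 := one_le_pow₀ hk1
  have hG0 : 0 < G := by
    rw [hG]
    positivity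
  obtain ⟨i, hi⟩ : ∃ i : ℝ, i = 1 / G := ⟨_, rfl⟩
  have hi0 : 0 < i := by
    rw [hi]
    positivity
  have hdiv : ∀ x : ℝ, x / G = x * i := fun x => by rw [hi]; ring
  have hGi : G * i = 1 := by
    rw [hi]
    field_simp
  have hPk : P * k ^ 5 * i = 1 / 400 := by
    rw [hG] at hGi
    linarith
  have hk5i : k ^ 5 * i ≤ 1 / 400 := by
    have h1 : 1 * (k ^ 5 * i) ≤ P * (k ^ 5 * i) :=
      mul_le_mul_of_nonneg_right hP1 (by positivity)
    linarith
  have hpow : ∀ m : ℕ, m ≤ 5 → k ^ m * i ≤ k ^ 5 * i := fun m hm =>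
    mul_le_mul_of_nonneg_right (pow_le_pow_right₀ hk1 hm) hi0.le
  have hk0 : 0 < k := by linarith
  have hr0 : 0 < r := by linarith
  have hlam1 : lam ≤ r * i := by
    have e : 1 / (2 * G) = 1 / 2 * i := by
      rw [hi]
      field_simp
    rw [e] at hlam
    exact hlam.trans (mul_le_mul_of_nonneg_right hr hi0.le)
  have hi1 : i ≤ 1 := by
    have h1 := hpow 0 (by norm_num)
    rw [pow_zero, one_mul] at h1
    linarith
  have hRs1 : Rs ≤ 4 * k * r := by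
    have h1 : lam ≤ r := hlam1.trans (by nlinarith)
    have h2 : 2 * k * (r + lam) ≤ 2 * k * (r + r) :=
      mul_le_mul_of_nonneg_left (by linarith) (by positivity)
    linarith
  rw [hdiv] at hw0
  have e1 : w0 = 16 * k ^ 2 * i * Rs + 4 * k * lam := by rw [hw0]; ring
  have hw00 : 0 ≤ w0 := by
    rw [e1]
    positivity
  have hw01 : w0 ≤ 68 * (k ^ 3 * i) * r := by
    have h1 : 16 * k ^ 2 * i * Rs ≤ 16 * k ^ 2 * i * (4 * k * r) :=
      mul_le_mul_of_nonneg_left hRs1 (by positivity)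
    have h2 : 4 * k * lam ≤ 4 * k * (r * i) :=
      mul_le_mul_of_nonneg_left hlam1 (by positivity)
    have h3 : 4 * k * (r * i) ≤ 4 * (k ^ 3 * i) * r := by
      have h4 : k ^ 1 * i ≤ k ^ 3 * i :=
        mul_le_mul_of_nonneg_right (pow_le_pow_right₀ hk1 (by norm_num)) hi0.le
      rw [pow_one] at h4
      have h5 : k * i * (4 * r) ≤ k ^ 3 * i * (4 * r) :=
        mul_le_mul_of_nonneg_right h4 (by positivity)
      linarith
    rw [e1]
    linarith
  have h16 : 16 * k ^ 2 * i ≤ 1 := by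
    have h1 := hpow 2 (by norm_num)
    linarith
  have hsum : Rs + w0 ≤ 5 * k * r := by
    have h1 : w0 ≤ k * r := by
      refine hw01.trans ?_
      have h2 := hpow 3 (by norm_num)
      have h3 : 68 * (k ^ 3 * i) ≤ k := by linarith
      exact mul_le_mul_of_nonneg_right h3 hr0.le
    linarith
  have hsum0 : 0 ≤ Rs + w0 := by linarith
  have efew : few = k * w0 + 4 * k * i * (Rs + w0) := by
    rw [hfew, hdiv, hdiv]
    ring
  have hfew0 : 0 ≤ few := by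
    rw [efew]
    positivity
  refine ⟨hw00, ?_, hsum, hfew0, ?_⟩
  · rw [hdiv, hdiv]
    have h1 : k * ((2 * (1 * i) + 2 * i) * (Rs + w0)) + lam = w0 / (4 * k) + 4 * k * i * w0 := by
      have h2 : w0 / (4 * k) = 4 * k * i * Rs + lam := by
        rw [e1]
        field_simp
        ring
      rw [h2]
      ring
    rw [h1]
    have h3 : 4 * k * i * w0 ≤ w0 / (4 * k) := by
      rw [le_div_iff₀ (by positivity)]
      have h4 : 16 * k ^ 2 * i * w0 ≤ 1 * w0 := mul_le_mul_of_nonneg_right h16 hw00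
      linarith
    have h5 : w0 / (2 * k) = w0 / (4 * k) + w0 / (4 * k) := by
      field_simp
      ring
    rw [h5]
    linarith
  · have hfew1 : few ≤ 88 * (k ^ 4 * i) * r := by
      have h1 : k * w0 ≤ k * (68 * (k ^ 3 * i) * r) := mul_le_mul_of_nonneg_left hw01 hk0.le
      have h2 : 4 * k * i * (Rs + w0) ≤ 4 * k * i * (5 * k * r) :=
        mul_le_mul_of_nonneg_left hsum (by positivity)
      have h3 : k ^ 2 * i ≤ k ^ 4 * i :=
        mul_le_mul_of_nonneg_right (pow_le_pow_right₀ hk1 (by norm_num)) hi0.le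
      have h4 : k ^ 2 * i * (20 * r) ≤ k ^ 4 * i * (20 * r) :=
        mul_le_mul_of_nonneg_right h3 (by positivity)
      rw [efew]
      have e3 : k * (68 * (k ^ 3 * i) * r) = 68 * (k ^ 4 * i) * r := by ring
      have e4 : 4 * k * i * (5 * k * r) = k ^ 2 * i * (20 * r) := by ring
      rw [e3] at h1
      rw [e4] at h2
      linarith
    have h1 : k * few ≤ 88 * (k ^ 5 * i) * r := by
      have h2 : k * few ≤ k * (88 * (k ^ 4 * i) * r) := mul_le_mul_of_nonneg_left hfew1 hk0.le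
      have e5 : k * (88 * (k ^ 4 * i) * r) = 88 * (k ^ 5 * i) * r := by ring
      rw [e5] at h2
      exact h2
    have h2 : lam ≤ (k ^ 5 * i) * r := by
      have h3 := hpow 0 (by norm_num)
      rw [pow_zero, one_mul] at h3
      have h4 : i * r ≤ k ^ 5 * i * r := mul_le_mul_of_nonneg_right h3 hr0.le
      linarith
    have h3 : k * few + lam ≤ 89 * (k ^ 5 * i) * r := by linarith
    have h4 : P * (k * few + lam) ≤ P * (89 * (k ^ 5 * i) * r) :=
      mul_le_mul_of_nonneg_left h3 (by linarith)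
    have e6 : P * (89 * (k ^ 5 * i) * r) = 89 * (P * k ^ 5 * i) * r := by ring
    rw [e6, hPk] at h4
    linarith

end Pool.Agent.Helper92.AR
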