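import Pool.Agent.Helper92.AR.GoodBase
import Pool.Agent.Helper92.AR.LowerPhi
import Pool.Agent.Helper92.AR.BiasT1
import Pool.Agent.Helper92.AR.PRMain
import Pool.Agent.Helper92.AR.GInvEx
import Pool.Agent.Helper92.AR.Params
import Pool.Agent.Helper92.AR.Level
import Pool.Agent.Helper92.AR.Half

/-!
AR-H2. The main step (assembly).
-/

set_option autoImplicit false

namespace Pool.Agent.Helper92.AR

open Polynomial Finset
open Pool.Agent.Helper83.AH (IsML)

theorem exists_char (F : Type) [Field F] [Fintype F] : ∃ ψ : AddChar F ℂ, ψ ≠ 1 := by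
  classical
  obtain ⟨ψ, hψ⟩ := AddChar.exists_apply_ne_zero.2 (one_ne_zero : (1 : F) ≠ 0)
  refine ⟨ψ, fun h => hψ ?_⟩
  rw [h]
  rfl

theorem main_step (s : ℕ) : ∃ q0 : ℕ, ∀ (F : Type) [Field F] [Fintype F],
    q0 ≤ Fintype.card F → ∀ (n : ℕ) (t : (Fin (s + 1) → Fin n) → Fin n → F), 1 / 2 ≤ anrk t →
    ∃ (t1 : (Fin (s + 1) → Fin n) → Fin n → F) (N : ℕ), anrk t1 ≤ anrk t / 4 ∧
      (N : ℝ) ≤ (2 ^ s + 2) * (5 * ((s : ℝ) + 1)) * anrk t ∧
      HasPR (fun h => tform t h - tform t1 h) N := by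
  classical
  set Gn : ℕ := 400 * 2 ^ s * (s + 1) ^ 5 with hGn
  obtain ⟨L, Emax, hL1, hL2, hE⟩ := exists_levels s Gn
  refine ⟨max (1 + 4 * (s + 1) * Emax * Gn) ((4 * (s + 1)) ^ (2 * Gn)), ?_⟩
  intro F _ _ hq n t hr
  have hq1 : 1 + 4 * (s + 1) * Emax * Gn ≤ Fintype.card F := le_trans (le_max_left _ _) hq
  have hq2 : (4 * (s + 1)) ^ (2 * Gn) ≤ Fintype.card F := le_trans (le_max_right _ _) hq
  have hk1 : 1 ≤ s + 1 := by omega
  have hGpos : 0 < Gn := by positivity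
  have hG400 : 400 ≤ Gn := by
    have h1 : 1 ≤ 2 ^ s * (s + 1) ^ 5 := Nat.one_le_iff_ne_zero.2 (by positivity)
    calc 400 = 400 * 1 := rfl
      _ ≤ 400 * (2 ^ s * (s + 1) ^ 5) := Nat.mul_le_mul_left _ h1
      _ = Gn := by rw [hGn]; ring
  have hGr : (0 : ℝ) < Gn := by exact_mod_cast hGpos
  have hcard : (1 : ℝ) < Fintype.card F := by exact_mod_cast Fintype.one_lt_card (α := F)
  have hcard0 : (0 : ℝ) < Fintype.card F := by linarith
  set q : ℝ := (Fintype.card F : ℝ) with hqdef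
  set k : ℝ := (s : ℝ) + 1 with hk
  have hkpos : 1 ≤ k := by rw [hk]; have : (0 : ℝ) ≤ s := Nat.cast_nonneg s; linarith
  have hkcast : ((s + 1 : ℕ) : ℝ) = k := by push_cast; rfl
  set lam : ℝ := Real.logb q (4 * k) with hlam
  have hlam0 : 0 ≤ lam := Real.logb_nonneg hcard (by linarith)
  have hlam1 : lam ≤ 1 / (2 * (Gn : ℝ)) := by
    rw [le_div_iff₀ (by positivity)]
    have h1 : lam * (2 * (Gn : ℝ)) = Real.logb q ((4 * k) ^ (2 * Gn)) := by
      rw [Real.logb_pow]; push_cast; rw [hlam]; ring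
    rw [h1]
    have h2 : (4 * k) ^ (2 * Gn) ≤ q := by
      have : (((4 * (s + 1)) ^ (2 * Gn) : ℕ) : ℝ) ≤ (Fintype.card F : ℝ) := by exact_mod_cast hq2
      push_cast at this
      exact this
    have h3 : (0 : ℝ) < (4 * k) ^ (2 * Gn) := by positivity
    calc Real.logb q ((4 * k) ^ (2 * Gn)) ≤ Real.logb q q :=
          Real.logb_le_logb_of_le hcard h3 h2
      _ = 1 := Real.logb_self_eq_one hcard
  obtain ⟨Rs, hRs, htail, hRsb⟩ := exists_Rs hk1 t
  set w0 : ℝ := 4 * k * (4 * k * (Rs : ℝ) / (Gn : ℝ) + lam) with hw0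
  set few : ℝ := k * (w0 + 2 * (1 / (Gn : ℝ)) * ((Rs : ℝ) + w0)) +
    k * (2 * ((Rs : ℝ) + w0) / (Gn : ℝ)) with hfew
  have hRsk : (Rs : ℝ) ≤ 2 * k * (anrk t + lam) := by
    rw [hkcast] at hRsb
    have h1 : Real.logb q k ≤ lam := Real.logb_le_logb_of_le hcard (by linarith) (by linarith)
    have h2 : 2 * k * (anrk t + Real.logb q k) ≤ 2 * k * (anrk t + lam) := by
      apply mul_le_mul_of_nonneg_left _ (by linarith)
      linarith
    exact hRsb.trans h2
  have hGeq : (Gn : ℝ) = 400 * 2 ^ s * k ^ 5 := by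
    rw [hGn]; push_cast; rfl
  obtain ⟨hp1, hp2, hp3, hp4, hp5⟩ := params s k Gn (anrk t) lam Rs w0 few hk hGeq hr hlam0 hlam1
    (Nat.cast_nonneg _) hRsk hw0 hfew
  have hLG : ∀ j < s + 1, Gn * ∑ i ∈ Finset.range j, L i ≤ L j := fun j _ =>
    (hL2 j).trans (Nat.sub_le _ _)
  obtain ⟨x, hx, hxB, hQ⟩ := exists_good_base hk1 t L Emax Gn hGpos
    (fun j _ => lt_of_lt_of_le (Nat.succ_pos s) (hL1 j)) hE hLG (1 / (Gn : ℝ)) (by positivity)
    (by
      rw [div_le_div_iff₀ hGr (by norm_num)]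
      have : (400 : ℝ) ≤ Gn := by exact_mod_cast hG400
      linarith)
    (by
      rw [hkcast, one_div, ← div_eq_inv_mul, le_div_iff₀ hGr]
      have : ((1 + 4 * (s + 1) * Emax * Gn : ℕ) : ℝ) ≤ (Fintype.card F : ℝ) := by
        exact_mod_cast hq1
      push_cast at this
      linarith)
    Rs hRs htail w0 hp1 (by rw [hkcast]; exact hp2)
  choose N hN using fun b => exists_ginv (tmat (A := F) t b x)
  obtain ⟨ψ, hψ⟩ := exists_char F
  have hlow := lower_phi ψ hψ t x hx N hN L (fun j _ => hL1 j) _ few (by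
    intro j hj P hP hgood
    obtain ⟨hg1, hg2⟩ := hgood
    have h1 := hg2 ⟨j, hj⟩
    have h2 : (grank (tmat t ⟨j, hj⟩ P) : ℝ) ≤ Theta t P := by
      have : grank (tmat t ⟨j, hj⟩ P) ≤ Theta t P := by
        unfold Theta
        exact Finset.single_le_sum (f := fun b => grank (tmat t b P)) (fun _ _ => Nat.zero_le _)
          (Finset.mem_univ _)
      exact_mod_cast this
    have h3 : ((∑ i ∈ Finset.range j, L i : ℕ) : ℝ) * grank (tmat t ⟨j, hj⟩ P) /
        ((L j - s : ℕ) : ℝ) ≤ 2 * ((Rs : ℝ) + w0) / (Gn : ℝ) := by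
      have hpos : 0 < L j - s := by have := hL1 j; omega
      have hposr : (0 : ℝ) < ((L j - s : ℕ) : ℝ) := by exact_mod_cast hpos
      rw [div_le_div_iff₀ hposr hGr]
      have h4 : ((Gn * ∑ i ∈ Finset.range j, L i : ℕ) : ℝ) ≤ ((L j - s : ℕ) : ℝ) := by
        exact_mod_cast hL2 j
      rw [Nat.cast_mul] at h4
      have h5 : (grank (tmat t ⟨j, hj⟩ P) : ℝ) ≤ 2 * ((Rs : ℝ) + w0) := h2.trans hg1
      have h6 : (0 : ℝ) ≤ grank (tmat t ⟨j, hj⟩ P) := Nat.cast_nonneg _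
      calc ((∑ i ∈ Finset.range j, L i : ℕ) : ℝ) * grank (tmat t ⟨j, hj⟩ P) * Gn
          = ((Gn : ℝ) * ((∑ i ∈ Finset.range j, L i : ℕ) : ℝ)) * grank (tmat t ⟨j, hj⟩ P) := by
            ring
        _ ≤ ((L j - s : ℕ) : ℝ) * (2 * ((Rs : ℝ) + w0)) :=
            mul_le_mul h4 h5 h6 hposr.le
        _ = 2 * ((Rs : ℝ) + w0) * ((L j - s : ℕ) : ℝ) := by ring
    rw [← hk, hfew]
    have hk0 : (0 : ℝ) ≤ k := by linarith
    refine add_le_add (mul_le_mul_of_nonneg_left ?_ hk0) (mul_le_mul_of_nonneg_left h3 hk0)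
    linarith) hQ
  have hT1 := T1_isML t x N
  have hδ : (0 : ℝ) ≤ 1 / 2 * q ^ (-(((s : ℝ) + 1) * few)) := by positivity
  have hb := bias_T1 ψ hψ t x N hT1 _ hδ hlow
  refine ⟨tens (T1 t x N), (2 ^ s + 2) * Rho t x, ?_, ?_, ?_⟩
  · have hpos : (0 : ℝ) < (1 / 2 * q ^ (-(((s : ℝ) + 1) * few))) ^ (2 ^ s) := by positivity
    unfold anrk
    have h1 : Real.logb q ((1 / 2 * q ^ (-(((s : ℝ) + 1) * few))) ^ (2 ^ s)) ≤
        Real.logb q (((zset (tens (T1 t x N))).card : ℝ) /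
          (Fintype.card F : ℝ) ^ ((s + 1) * n)) :=
      Real.logb_le_logb_of_le hcard hpos hb
    have h2 : Real.logb q ((1 / 2 * q ^ (-(((s : ℝ) + 1) * few))) ^ (2 ^ s)) =
        -(2 ^ s * (k * few + Real.logb q 2)) := by
      rw [Real.logb_pow, Real.logb_mul (by norm_num) (by positivity), Real.logb_rpow hcard0 hcard.ne',
        one_div, Real.logb_inv]
      push_cast
      rw [← hk]
      ring
    have h3 : Real.logb q 2 ≤ lam := Real.logb_le_logb_of_le hcard (by norm_num) (by linarith)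
    have h4 : (2 : ℝ) ^ s * (k * few + Real.logb q 2) ≤ 2 ^ s * (k * few + lam) := by
      apply mul_le_mul_of_nonneg_left _ (by positivity)
      linarith
    have h5 : -Real.logb q (((zset (tens (T1 t x N))).card : ℝ) /
        (Fintype.card F : ℝ) ^ ((s + 1) * n)) ≤ 2 ^ s * (k * few + Real.logb q 2) := by
      rw [h2] at h1
      linarith
    exact h5.trans (h4.trans hp5)
  · push_cast
    have h1 : (Rho t x : ℝ) ≤ 5 * k * anrk t := hxB.trans hp3
    have h2 : (0 : ℝ) ≤ 2 ^ s + 2 := by positivity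
    calc ((2 : ℝ) ^ s + 2) * Rho t x ≤ (2 ^ s + 2) * (5 * k * anrk t) :=
          mul_le_mul_of_nonneg_left h1 h2
      _ = _ := by rw [hk]; ring
  · refine (pr_main t x N hN).congr fun h => ?_
    rw [tform_tens hT1]

end Pool.Agent.Helper92.AR
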