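import Pool.Agent.Helper92.AR.Defs

/-!
AR-T2. Degree bounds.  An entry of `tmat t b P` is a sum of terms `C (t i l) * ∏_j p j (i j)`, where
`p = update P b (Pi.single a 1)`; the entries of `p j` have natDegree `≤ w j` (`Pi.single a 1` has
entries `0` or `1`).  `Polynomial.natDegree_sum_le_of_forall_le`, `natDegree_C_mul_le`,
`natDegree_prod_le`.  For an admissible tuple the entries of slot `i` have degree `≤ L i` if `i < j`
and degree `0` if `i ≥ j` (there `P i = cst x i` by `const`), so take `w i = if i < j then L i else 0`
and `∑_{i : Fin k} w i = ∑_{i ∈ range j} L i` (`j ≤ k`; `≤` suffices).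
-/

set_option autoImplicit false

namespace Pool.Agent.Helper92.AR

open Polynomial Finset
open Pool.Agent.Helper83.AH (IsML)

variable {k n : ℕ} {F : Type} [Field F]

theorem tmat_natDegree (t : (Fin k → Fin n) → Fin n → F) (b : Fin k) (P : Fin k → Fin n → F[X])
    (w : Fin k → ℕ) (h : ∀ i a, (P i a).natDegree ≤ w i) (l a : Fin n) :
    (tmat t b P l a).natDegree ≤ ∑ i, w i := by
  have h1 : tmat t b P l a = ∑ i : Fin k → Fin n, Polynomial.C (t i l) *
      ∏ j, (Function.update P b (Pi.single a 1) : Fin k → Fin n → F[X]) j (i j) := rfl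
  rw [h1]
  refine Polynomial.natDegree_sum_le_of_forall_le _ _ fun i _ => ?_
  refine (Polynomial.natDegree_C_mul_le _ _).trans ?_
  refine (Polynomial.natDegree_prod_le _ _).trans ?_
  refine Finset.sum_le_sum fun j _ => ?_
  by_cases hj : j = b
  · subst hj
    rw [Function.update_self]
    by_cases hi : i j = a
    · rw [hi, Pi.single_eq_same, Polynomial.natDegree_one]
      exact Nat.zero_le _
    · rw [Pi.single_eq_of_ne hi, Polynomial.natDegree_zero]
      exact Nat.zero_le _
  · rw [Function.update_of_ne hj]
    exact h j (i j)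

theorem Adm.natDegree_le {t : (Fin k → Fin n) → Fin n → F} {L : ℕ → ℕ} {x : Fin k → Fin n → F}
    {j : ℕ} {P : Fin k → Fin n → F[X]} (hP : Adm t L x j P) (hj : j ≤ k) (b : Fin k)
    (l a : Fin n) : (tmat t b P l a).natDegree ≤ ∑ i ∈ Finset.range j, L i := by
  refine (tmat_natDegree t b P (fun i => if (i : ℕ) < j then L i else 0) ?_ l a).trans ?_
  · intro i a
    split_ifs with hi
    · exact hP.deg i a
    · have h1 : P i = cst x i := by
        have h2 := congrFun hP.const i
        unfold trP at h2
        rw [if_neg hi] at h2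
        exact h2.symm
      rw [h1]
      unfold cst
      rw [Polynomial.natDegree_C]
  · rw [← Finset.sum_range (fun i : ℕ => if i < j then L i else 0), ← Finset.sum_filter]
    refine Finset.sum_le_sum_of_subset ?_
    intro i hi
    rw [Finset.mem_filter] at hi
    exact Finset.mem_range.2 hi.2

end Pool.Agent.Helper92.AR
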