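import Pool.Agent.Helper92.AR.RankDefect
import Pool.Agent.Helper92.AR.TensorDeg
import Pool.Agent.Helper92.AR.Tensor

/-!
AR-Q4. For an admissible tuple the ranks are close to the generic ranks at most points.
Let `e = ∑_{i<j} L i`; entries of `tmat t b P` have natDegree `≤ e` (`Adm.natDegree_le`).
`Theta - Rho (evP c P) = ∑_b (grank (tmat t b P) - rank ((tmat t b P)(c)))` (`tmat_evP`; every term is
`≥ 0` by `rank_eval_le`), and `∑_{c : F}` of it is `≤ e * Theta` (`rank_defect`).  If `Theta > 0`:
`#bad * θ * Theta ≤ e * Theta`, divide.  If `Theta = 0`: `θ * 0 < 0 - Rho` is impossible, so there is no bad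
`c`.
-/

set_option autoImplicit false

namespace Pool.Agent.Helper92.AR

open Polynomial Finset
open Pool.Agent.Helper83.AH (IsML)

variable {k n : ℕ} {F : Type} [Field F] [Fintype F]

theorem rho_le_grank (t : (Fin k → Fin n) → Fin n → F) (b : Fin k) (c : F)
    (P : Fin k → Fin n → F[X]) : rho t b (evP c P) ≤ grank (tmat t b P) := by
  unfold rho
  rw [tmat_evP]
  exact rank_eval_le _ c

theorem Rho_le_Theta (t : (Fin k → Fin n) → Fin n → F) (c : F)
    (P : Fin k → Fin n → F[X]) : Rho t (evP c P) ≤ Theta t P :=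
  Finset.sum_le_sum fun b _ => rho_le_grank t b c P

open Classical in
theorem markov {t : (Fin k → Fin n) → Fin n → F} {L : ℕ → ℕ} {x : Fin k → Fin n → F} {j : ℕ}
    {P : Fin k → Fin n → F[X]} (hP : Adm t L x j P) (hj : j ≤ k) (θ : ℝ) (hθ : 0 < θ) :
    ((Finset.univ.filter fun c : F =>
      θ * Theta t P < (Theta t P : ℝ) - Rho t (evP c P)).card : ℝ) * θ ≤
      ((∑ i ∈ Finset.range j, L i : ℕ) : ℝ) := by
  set e := ∑ i ∈ Finset.range j, L i with he
  have h1 : ∑ c : F, (Theta t P - Rho t (evP c P)) ≤ e * Theta t P := by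
    have h2 : ∀ c : F, Theta t P - Rho t (evP c P) =
        ∑ b, (grank (tmat t b P) - ((tmat t b P).map (Polynomial.eval c)).rank) := by
      intro c
      unfold Theta Rho
      rw [Finset.sum_tsub_distrib]
      · congr 1
        refine Finset.sum_congr rfl fun b _ => ?_
        unfold rho
        rw [tmat_evP]
      · intro b _
        have h3 := rho_le_grank t b c P
        unfold rho at h3
        rw [tmat_evP] at h3
        exact h3
    rw [Finset.sum_congr rfl fun c _ => h2 c, Finset.sum_comm]
    unfold Theta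
    rw [Finset.mul_sum]
    exact Finset.sum_le_sum fun b _ => rank_defect e _ fun l a => hP.natDegree_le hj b l a
  set B := Finset.univ.filter fun c : F =>
    θ * Theta t P < (Theta t P : ℝ) - Rho t (evP c P) with hB
  rcases Nat.eq_zero_or_pos (Theta t P) with h0 | h0
  · have hBe : B = ∅ := by
      rw [hB, Finset.filter_eq_empty_iff]
      intro c _
      rw [h0]
      have h3 : (0 : ℝ) ≤ Rho t (evP c P) := Nat.cast_nonneg _
      simp only [Nat.cast_zero, mul_zero, zero_sub, not_lt]
      linarith
    rw [hBe, Finset.card_empty]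
    simp only [Nat.cast_zero, zero_mul]
    exact Nat.cast_nonneg _
  · have hT : (0 : ℝ) < Theta t P := by exact_mod_cast h0
    have h2 : (B.card : ℝ) * (θ * Theta t P) ≤ ((e * Theta t P : ℕ) : ℝ) := by
      calc (B.card : ℝ) * (θ * Theta t P) = ∑ _c ∈ B, θ * Theta t P := by
            rw [Finset.sum_const, nsmul_eq_mul]
        _ ≤ ∑ c ∈ B, (((Theta t P - Rho t (evP c P) : ℕ)) : ℝ) := by
            refine Finset.sum_le_sum fun c hc => ?_
            rw [Nat.cast_sub (Rho_le_Theta t c P)]
            exact (Finset.mem_filter.1 hc).2.le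
        _ ≤ ∑ c : F, (((Theta t P - Rho t (evP c P) : ℕ)) : ℝ) :=
            Finset.sum_le_sum_of_subset_of_nonneg (Finset.subset_univ _)
              fun c _ _ => Nat.cast_nonneg _
        _ = ((∑ c : F, (Theta t P - Rho t (evP c P)) : ℕ) : ℝ) := by push_cast; rfl
        _ ≤ ((e * Theta t P : ℕ) : ℝ) := by exact_mod_cast h1
    push_cast at h2
    have h3 : ((B.card : ℝ) * θ) * Theta t P ≤ (e : ℝ) * Theta t P := by
      linarith
    exact le_of_mul_le_mul_right h3 hT

end Pool.Agent.Helper92.AR
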