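import Pool.Agent.Helper92.AR.MassC

/-!
AR-Q7. Average over `c`.  Sum `mass_c` over the `q - 1` values `c ≠ 0`.  For fixed `j < k` and `x ∈ Y`
(`Y` = the level set), `∑_{c ≠ 0} QE True x j (1[bad c]) = QE True x j (∑_{c ≠ 0} 1[bad c])` (`QE_sum`)
`≤ QE True x j (E_j / θ) = E_j / θ ≤ Emax / θ` (`markov`, `QE_mono`, `QE_smul`, `QE_true_one`).  So
`∑_{c ≠ 0} (|Y| - m_k(c)) ≤ (q-1) |Y| / 4 + k |Y| Emax / θ ≤ (q-1) |Y| / 4 + (q-1) |Y| / 4` by
`4 k Emax ≤ θ (q-1)`.  Hence `∑_{c ≠ 0} m_k(c) ≥ (q-1) |Y| / 2` and some `c ≠ 0` has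
`m_k(c) ≥ |Y| / 2` (there is a `c ≠ 0`, e.g. `c = 1`; `q ≥ 2`).
-/

set_option autoImplicit false

namespace Pool.Agent.Helper92.AR

open Polynomial Finset
open Pool.Agent.Helper83.AH (IsML)

variable {k n : ℕ} {F : Type} [Field F] [Fintype F]

open Classical in
theorem mass_avg (hk : 1 ≤ k) (t : (Fin k → Fin n) → Fin n → F) (L : ℕ → ℕ) (Emax G : ℕ)
    (hG : 0 < G) (hL0 : ∀ j < k, 0 < L j) (hE : ∀ j ≤ k, ∑ i ∈ Finset.range j, L i ≤ Emax)
    (hLG : ∀ j < k, G * ∑ i ∈ Finset.range j, L i ≤ L j)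
    (θ : ℝ) (hθ : 0 < θ) (hθ2 : θ ≤ 1 / 2)
    (hq : 4 * (k : ℝ) * Emax ≤ θ * ((Fintype.card F : ℝ) - 1)) (Rs : ℕ)
    (htail : ∀ w : ℕ, (((zset t).filter fun x => Rs + w ≤ Rho t x).card : ℝ) ≤
        (Fintype.card F : ℝ) ^ (-((w : ℝ) / (2 * k))) *
          ((zset t).filter fun x => Rs ≤ Rho t x).card)
    (w0 : ℝ) (hw0 : 0 ≤ w0)
    (hw : (k : ℝ) * ((2 * θ + 2 / G) * (Rs + w0)) + Real.logb (Fintype.card F) (4 * k) ≤
      w0 / (2 * k)) :
    ∃ c : F, c ≠ 0 ∧ (((zset t).filter fun x => Rs ≤ Rho t x).card : ℝ) / 2 ≤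
      ∑ x ∈ (zset t).filter (fun x => Rs ≤ Rho t x),
        QE t L (goodC t (Rs + w0) θ c) x k (fun _ => 1) := by
  set Y : Finset (Fin k → Fin n → F) := (zset t).filter fun x => Rs ≤ Rho t x with hY
  set C : Finset F := Finset.univ.filter fun c => c ≠ 0 with hC
  have hq1 : 1 < Fintype.card F := Fintype.one_lt_card
  have hCcard : (C.card : ℝ) = (Fintype.card F : ℝ) - 1 := by
    have h1 : C = Finset.univ.erase 0 := by
      ext c
      rw [hC, Finset.mem_filter, Finset.mem_erase]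
      tauto
    rw [h1, Finset.card_erase_of_mem (Finset.mem_univ _), Finset.card_univ]
    push_cast [Nat.cast_sub hq1.le]
    rfl
  have hCpos : C.Nonempty := ⟨1, Finset.mem_filter.2 ⟨Finset.mem_univ _, one_ne_zero⟩⟩
  have hYz : ∀ x ∈ Y, x ∈ zset t := fun x hx => (Finset.mem_filter.1 hx).1
  -- the inner sum
  have hin : ∀ j ∈ Finset.range k, ∀ x ∈ Y, ∑ c ∈ C, QE t L (fun _ _ => True) x j (fun P =>
      if θ * Theta t P < (Theta t P : ℝ) - Rho t (evP c P) then (1 : ℝ) else 0) ≤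
        (Emax : ℝ) / θ := by
    intro j hj x hx
    have hjk : j ≤ k := (Finset.mem_range.1 hj).le
    rw [← QE_sum]
    have h1 : QE t L (fun _ _ => True) x j (fun P => ∑ c ∈ C,
        if θ * Theta t P < (Theta t P : ℝ) - Rho t (evP c P) then (1 : ℝ) else 0) ≤
        QE t L (fun _ _ => True) x j (fun _ => (Emax : ℝ) / θ * 1) := by
      apply QE_mono (hYz x hx)
      intro P hP
      have h2 := markov hP hjk θ hθ
      have h3 : (∑ c ∈ C, if θ * Theta t P < (Theta t P : ℝ) - Rho t (evP c P) then (1 : ℝ)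
          else 0) ≤ ((Finset.univ.filter fun c : F =>
            θ * Theta t P < (Theta t P : ℝ) - Rho t (evP c P)).card : ℝ) := by
        rw [Finset.sum_ite, Finset.sum_const_zero, add_zero, Finset.sum_const, nsmul_eq_mul,
          mul_one]
        have h4 := Finset.card_le_card (Finset.filter_subset_filter
          (fun c : F => θ * Theta t P < (Theta t P : ℝ) - Rho t (evP c P))
            (Finset.subset_univ C))
        exact_mod_cast h4
      refine h3.trans ?_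
      rw [mul_one, le_div_iff₀ hθ]
      have h5 : ((∑ i ∈ Finset.range j, L i : ℕ) : ℝ) ≤ Emax := by exact_mod_cast hE j hjk
      exact h2.trans h5
    refine h1.trans (le_of_eq ?_)
    rw [QE_smul, QE_true_one j hjk, mul_one]
  by_contra hcon
  push Not at hcon
  have hm : ∀ c ∈ C, ∑ x ∈ Y, QE t L (goodC t (Rs + w0) θ c) x k (fun _ => 1) <
      (Y.card : ℝ) / 2 := fun c hc => hcon c (Finset.mem_filter.1 hc).2
  have hsum1 : ∑ c ∈ C, ∑ x ∈ Y, QE t L (goodC t (Rs + w0) θ c) x k (fun _ => 1) <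
      ∑ _c ∈ C, (Y.card : ℝ) / 2 := Finset.sum_lt_sum_of_nonempty hCpos hm
  have hmass : ∀ c ∈ C, (Y.card : ℝ) -
      ∑ x ∈ Y, QE t L (goodC t (Rs + w0) θ c) x k (fun _ => 1) ≤ (Y.card : ℝ) / 4 +
      ∑ j ∈ Finset.range k, ∑ x ∈ Y, QE t L (fun _ _ => True) x j (fun P =>
        if θ * Theta t P < (Theta t P : ℝ) - Rho t (evP c P) then (1 : ℝ) else 0) := by
    intro c hc
    exact mass_c hk t L G hG hL0 hLG θ hθ hθ2 Rs htail w0 hw0 hw c (Finset.mem_filter.1 hc).2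
  have hsum2 := Finset.sum_le_sum hmass
  rw [Finset.sum_sub_distrib, Finset.sum_add_distrib, Finset.sum_const, Finset.sum_const,
    nsmul_eq_mul, nsmul_eq_mul] at hsum2
  rw [Finset.sum_const, nsmul_eq_mul] at hsum1
  have hsum3 : ∑ c ∈ C, ∑ j ∈ Finset.range k, ∑ x ∈ Y, QE t L (fun _ _ => True) x j (fun P =>
        if θ * Theta t P < (Theta t P : ℝ) - Rho t (evP c P) then (1 : ℝ) else 0) ≤
      k * (Y.card * (Emax / θ)) := by
    rw [Finset.sum_comm]
    have h1 : ∀ j ∈ Finset.range k, ∑ c ∈ C, ∑ x ∈ Y, QE t L (fun _ _ => True) x j (fun P =>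
        if θ * Theta t P < (Theta t P : ℝ) - Rho t (evP c P) then (1 : ℝ) else 0) ≤
        Y.card * (Emax / θ) := by
      intro j hj
      rw [Finset.sum_comm]
      refine (Finset.sum_le_sum fun x hx => hin j hj x hx).trans (le_of_eq ?_)
      rw [Finset.sum_const, nsmul_eq_mul]
    refine (Finset.sum_le_sum h1).trans (le_of_eq ?_)
    rw [Finset.sum_const, Finset.card_range, nsmul_eq_mul]
  have hYc : (0 : ℝ) ≤ Y.card := Nat.cast_nonneg _
  have h4 : (k : ℝ) * (Y.card * (Emax / θ)) ≤ C.card * (Y.card / 4) := by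
    rw [hCcard]
    have h5 : (k : ℝ) * (Emax / θ) ≤ ((Fintype.card F : ℝ) - 1) / 4 := by
      rw [mul_div_assoc', div_le_div_iff₀ hθ (by norm_num)]
      linarith
    calc (k : ℝ) * (Y.card * (Emax / θ)) = (k * (Emax / θ)) * Y.card := by ring
      _ ≤ (((Fintype.card F : ℝ) - 1) / 4) * Y.card := mul_le_mul_of_nonneg_right h5 hYc
      _ = ((Fintype.card F : ℝ) - 1) * (Y.card / 4) := by ring
  linarith

end Pool.Agent.Helper92.AR
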