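import Pool.Agent.Helper92.AR.Defs2

/-!
AR-Q5. Real form of the tail bound, and the exponent bound for the density.
`tail_real`: `w = ⌊w0⌋₊ + 1`; `Rs + w0 < Rho` implies `Rs + w ≤ Rho`; `q^(-w/(2k)) ≤ q^(-w0/(2k))`.
`goodC_fb`: let `Θ = Theta t P`, `ρ = Rho t (evP c P)`, `E = ∑_{i<j} L i`.  From `goodC`: `Θ - ρ ≤ θ Θ` and
`ρ ≤ Bd`, so `Θ ≤ 2 Bd` (`θ ≤ 1/2`).  `grank_j - rho_j ≤ Θ - ρ` (all other terms are `≥ 0`, `hrk`) and
`E * grank_j / L j ≤ Θ / G` (as `G E ≤ L j`, `grank_j ≤ Θ`).  Sum: `≤ (θ + 1/G) Θ ≤ (2θ + 2/G) Bd`.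
-/

set_option autoImplicit false

namespace Pool.Agent.Helper92.AR

open Polynomial Finset
open Pool.Agent.Helper83.AH (IsML)

variable {k n : ℕ} {F : Type} [Field F]

open Classical in
theorem tail_real [Fintype F] (hk : 1 ≤ k) (t : (Fin k → Fin n) → Fin n → F) (Rs : ℕ)
    (htail : ∀ w : ℕ, (((zset t).filter fun x => Rs + w ≤ Rho t x).card : ℝ) ≤
        (Fintype.card F : ℝ) ^ (-((w : ℝ) / (2 * k))) *
          ((zset t).filter fun x => Rs ≤ Rho t x).card) (w0 : ℝ) (hw0 : 0 ≤ w0) :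
    (((zset t).filter fun x => (Rs : ℝ) + w0 < Rho t x).card : ℝ) ≤
      (Fintype.card F : ℝ) ^ (-(w0 / (2 * k))) *
        ((zset t).filter fun x => Rs ≤ Rho t x).card := by
  have hk0 : (0 : ℝ) < k := by exact_mod_cast hk
  have hq : (1 : ℝ) < (Fintype.card F : ℝ) := by
    have : 1 < Fintype.card F := Fintype.one_lt_card
    exact_mod_cast this
  have h1 : ((zset t).filter fun x => (Rs : ℝ) + w0 < Rho t x) ⊆
      (zset t).filter fun x => Rs + (⌊w0⌋₊ + 1) ≤ Rho t x := by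
    intro x hx
    obtain ⟨hx1, hx2⟩ := Finset.mem_filter.1 hx
    refine Finset.mem_filter.2 ⟨hx1, ?_⟩
    have h2 : (⌊w0⌋₊ : ℝ) ≤ w0 := Nat.floor_le hw0
    have h3 : ((Rs + ⌊w0⌋₊ : ℕ) : ℝ) < (Rho t x : ℝ) := by
      push_cast
      linarith
    have h4 : Rs + ⌊w0⌋₊ < Rho t x := by exact_mod_cast h3
    omega
  have h2 : (((zset t).filter fun x => (Rs : ℝ) + w0 < Rho t x).card : ℝ) ≤
      (((zset t).filter fun x => Rs + (⌊w0⌋₊ + 1) ≤ Rho t x).card : ℝ) := by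
    exact_mod_cast Finset.card_le_card h1
  refine h2.trans ((htail (⌊w0⌋₊ + 1)).trans ?_)
  apply mul_le_mul_of_nonneg_right _ (Nat.cast_nonneg _)
  apply Real.rpow_le_rpow_of_exponent_le hq.le
  have h3 : w0 ≤ ((⌊w0⌋₊ + 1 : ℕ) : ℝ) := by
    push_cast
    exact (Nat.lt_floor_add_one w0).le
  have h4 : w0 / (2 * k) ≤ ((⌊w0⌋₊ + 1 : ℕ) : ℝ) / (2 * k) :=
    div_le_div_of_nonneg_right h3 (by positivity)
  linarith

theorem goodC_fb (t : (Fin k → Fin n) → Fin n → F) (L : ℕ → ℕ) (Bd θ : ℝ) (hθ : 0 ≤ θ)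
    (hθ2 : θ ≤ 1 / 2) (G : ℕ) (hG : 0 < G) (c : F) (j : ℕ) (hj : j < k) (hL : 0 < L j)
    (hLG : G * ∑ i ∈ Finset.range j, L i ≤ L j) (P : Fin k → Fin n → F[X])
    (hrk : ∀ b, rho t b (evP c P) ≤ grank (tmat t b P)) (hgood : goodC t Bd θ c j P) :
    (grank (tmat t ⟨j, hj⟩ P) : ℝ) - rho t ⟨j, hj⟩ (evP c P) +
      ((∑ i ∈ Finset.range j, L i : ℕ) : ℝ) * grank (tmat t ⟨j, hj⟩ P) / L j ≤
      (2 * θ + 2 / G) * Bd := by
  obtain ⟨g1, g2⟩ := hgood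
  have hG0 : (0 : ℝ) < G := by exact_mod_cast hG
  have hL0 : (0 : ℝ) < L j := by exact_mod_cast hL
  have hTh : (Theta t P : ℝ) = ∑ b, (grank (tmat t b P) : ℝ) := by
    unfold Theta
    push_cast
    rfl
  have hRh : (Rho t (evP c P) : ℝ) = ∑ b, (rho t b (evP c P) : ℝ) := by
    unfold Rho
    push_cast
    rfl
  have h1 : (grank (tmat t ⟨j, hj⟩ P) : ℝ) - rho t ⟨j, hj⟩ (evP c P) ≤
      (Theta t P : ℝ) - Rho t (evP c P) := by
    rw [hTh, hRh, ← Finset.sum_sub_distrib]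
    exact Finset.single_le_sum (f := fun b => (grank (tmat t b P) : ℝ) - rho t b (evP c P))
      (fun b _ => sub_nonneg.2 (by exact_mod_cast hrk b)) (Finset.mem_univ (⟨j, hj⟩ : Fin k))
  have h2 : (grank (tmat t ⟨j, hj⟩ P) : ℝ) ≤ Theta t P := by
    rw [hTh]
    exact Finset.single_le_sum (f := fun b => (grank (tmat t b P) : ℝ))
      (fun b _ => Nat.cast_nonneg _) (Finset.mem_univ (⟨j, hj⟩ : Fin k))
  have h0 : (0 : ℝ) ≤ Theta t P := Nat.cast_nonneg _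
  have h3 : ((∑ i ∈ Finset.range j, L i : ℕ) : ℝ) * grank (tmat t ⟨j, hj⟩ P) / L j ≤
      (1 / G) * Theta t P := by
    have h4 : (G : ℝ) * ((∑ i ∈ Finset.range j, L i : ℕ) : ℝ) ≤ L j := by exact_mod_cast hLG
    have h5 : ((∑ i ∈ Finset.range j, L i : ℕ) : ℝ) / L j ≤ 1 / G := by
      rw [div_le_div_iff₀ hL0 hG0]
      linarith
    rw [mul_div_right_comm]
    exact mul_le_mul h5 h2 (Nat.cast_nonneg _) (by positivity)
  have h6 : (Theta t P : ℝ) ≤ 2 * Bd := by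
    have h7 : θ * (Theta t P : ℝ) ≤ 1 / 2 * Theta t P := mul_le_mul_of_nonneg_right hθ2 h0
    linarith
  have h8 : (0 : ℝ) ≤ θ + 1 / G := by positivity
  calc (grank (tmat t ⟨j, hj⟩ P) : ℝ) - rho t ⟨j, hj⟩ (evP c P) +
      ((∑ i ∈ Finset.range j, L i : ℕ) : ℝ) * grank (tmat t ⟨j, hj⟩ P) / L j
      ≤ θ * Theta t P + (1 / G) * Theta t P := add_le_add (h1.trans g2) h3
    _ = (θ + 1 / G) * Theta t P := by ring
    _ ≤ (θ + 1 / G) * (2 * Bd) := mul_le_mul_of_nonneg_left h6 h8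
    _ = (2 * θ + 2 / G) * Bd := by ring

end Pool.Agent.Helper92.AR
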