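import Pool.Agent.Helper92.AR.QEDensity
import Pool.Agent.Helper92.AR.Tail
import Pool.Agent.Helper92.AR.Markov

/-!
AR-Q6. Mass of the killed process for fixed `c ≠ 0`.  Put `m_j = ∑_{x ∈ Y} QE t L (goodC c) x j 1`, so
`m_0 = |Y|`, and `m_j - m_{j+1} = ∑_{x ∈ Y} QE t L (goodC c) x j (1[not goodC])` (`QE_succ_one`, `QE_add`,
linearity).  `1[not goodC] ≤ 1[Bd < Rho t (evP c P)] + 1[θ Θ < Θ - Rho t (evP c P)]`.
First term: `QE_density` with `g = 1[Bd < Rho t ·]`, `Fb = (2θ + 2/G) Bd` (`goodC_fb`, `rho_le_grank`),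
`∑_{x ∈ zset} g x ≤ q^(-w0/(2k)) |Y|` (`tail_real`, `Bd = Rs + w0`), total
`≤ q^(j Fb - w0/(2k)) |Y| ≤ q^(k Fb - w0/(2k)) |Y| ≤ |Y| / (4k)`, because
`k Fb - w0/(2k) ≤ -log_q (4k)` (`hw`), `Fb ≥ 0`.
Second term: `QE_good_mono` (`goodC → True`).  Sum over `j < k`.
-/

set_option autoImplicit false

namespace Pool.Agent.Helper92.AR

open Polynomial Finset
open Pool.Agent.Helper83.AH (IsML)

variable {k n : ℕ} {F : Type} [Field F] [Fintype F]

open Classical in
theorem mass_c (hk : 1 ≤ k) (t : (Fin k → Fin n) → Fin n → F) (L : ℕ → ℕ) (G : ℕ) (hG : 0 < G)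
    (hL0 : ∀ j < k, 0 < L j) (hLG : ∀ j < k, G * ∑ i ∈ Finset.range j, L i ≤ L j)
    (θ : ℝ) (hθ : 0 < θ) (hθ2 : θ ≤ 1 / 2) (Rs : ℕ)
    (htail : ∀ w : ℕ, (((zset t).filter fun x => Rs + w ≤ Rho t x).card : ℝ) ≤
        (Fintype.card F : ℝ) ^ (-((w : ℝ) / (2 * k))) *
          ((zset t).filter fun x => Rs ≤ Rho t x).card)
    (w0 : ℝ) (hw0 : 0 ≤ w0)
    (hw : (k : ℝ) * ((2 * θ + 2 / G) * (Rs + w0)) + Real.logb (Fintype.card F) (4 * k) ≤
      w0 / (2 * k)) (c : F) (hc : c ≠ 0) :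
    (((zset t).filter fun x => Rs ≤ Rho t x).card : ℝ) -
      ∑ x ∈ (zset t).filter (fun x => Rs ≤ Rho t x),
        QE t L (goodC t (Rs + w0) θ c) x k (fun _ => 1) ≤
      (((zset t).filter fun x => Rs ≤ Rho t x).card : ℝ) / 4 +
      ∑ j ∈ Finset.range k, ∑ x ∈ (zset t).filter (fun x => Rs ≤ Rho t x),
        QE t L (fun _ _ => True) x j (fun P =>
          if θ * Theta t P < (Theta t P : ℝ) - Rho t (evP c P) then 1 else 0) := by
  have hq1 : (1 : ℝ) < Fintype.card F := by exact_mod_cast Fintype.one_lt_card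
  have hq0 : (0 : ℝ) < Fintype.card F := by linarith
  have hkR : (0 : ℝ) < k := by exact_mod_cast hk
  set q : ℝ := (Fintype.card F : ℝ) with hq
  set Y := (zset t).filter fun x => Rs ≤ Rho t x with hY
  have hYz : Y ⊆ zset t := Finset.filter_subset _ _
  set Bd : ℝ := (Rs : ℝ) + w0 with hBd
  have hBd0 : 0 ≤ Bd := by positivity
  set Fb : ℝ := (2 * θ + 2 / G) * Bd with hFb
  have hFb0 : 0 ≤ Fb := by positivity
  set m : ℕ → ℝ := fun j => ∑ x ∈ Y, QE t L (goodC t Bd θ c) x j (fun _ => 1) with hm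
  have hm0 : m 0 = Y.card := by
    simp only [hm, QE]
    rw [Finset.sum_const, nsmul_eq_mul, mul_one]
  have hA : ∀ j < k, ∑ x ∈ Y, QE t L (goodC t Bd θ c) x j
      (fun P => if Bd < Rho t (evP c P) then (1 : ℝ) else 0) ≤ (Y.card : ℝ) / (4 * k) := by
    intro j hj
    have h1 := QE_density t L hL0 (goodC t Bd θ c) c hc Fb
      (fun j hj x _ P _ hP => goodC_fb t L Bd θ hθ.le hθ2 G hG c j hj (hL0 j hj) (hLG j hj) P
        (fun b => rho_le_grank t b c P) hP) Y hYz j hj.le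
      (fun x => if Bd < Rho t x then (1 : ℝ) else 0) (fun x => by split_ifs <;> norm_num)
    refine h1.trans ?_
    have h2 : ∑ x ∈ zset t, (if Bd < Rho t x then (1 : ℝ) else 0) =
        (((zset t).filter fun x => Bd < Rho t x).card : ℝ) := by
      rw [Finset.sum_ite, Finset.sum_const_zero, add_zero, Finset.sum_const, nsmul_eq_mul, mul_one]
    rw [h2]
    have h3 := tail_real hk t Rs htail w0 hw0
    have h4 : q ^ ((j : ℝ) * Fb) * (((zset t).filter fun x => Bd < Rho t x).card : ℝ) ≤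
        q ^ ((j : ℝ) * Fb) * (q ^ (-(w0 / (2 * k))) * Y.card) :=
      mul_le_mul_of_nonneg_left h3 (Real.rpow_nonneg hq0.le _)
    refine h4.trans ?_
    rw [← mul_assoc, ← Real.rpow_add hq0]
    have h5 : (j : ℝ) * Fb + -(w0 / (2 * k)) ≤ -Real.logb q (4 * k) := by
      have h6 : (j : ℝ) * Fb ≤ k * Fb := by
        apply mul_le_mul_of_nonneg_right _ hFb0
        exact_mod_cast hj.le
      linarith
    have h7 : q ^ ((j : ℝ) * Fb + -(w0 / (2 * k))) ≤ q ^ (-Real.logb q (4 * k)) :=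
      Real.rpow_le_rpow_of_exponent_le hq1.le h5
    have h8 : q ^ (-Real.logb q (4 * k)) = 1 / (4 * k) := by
      rw [Real.rpow_neg hq0.le, Real.rpow_logb hq0 hq1.ne' (by positivity), one_div]
    rw [h8] at h7
    calc q ^ ((j : ℝ) * Fb + -(w0 / (2 * k))) * (Y.card : ℝ) ≤ 1 / (4 * k) * (Y.card : ℝ) :=
          mul_le_mul_of_nonneg_right h7 (Nat.cast_nonneg _)
      _ = (Y.card : ℝ) / (4 * k) := by ring
  have hB : ∀ j < k, m j - m (j + 1) ≤ (Y.card : ℝ) / (4 * k) +
      ∑ x ∈ Y, QE t L (fun _ _ => True) x j (fun P =>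
          if θ * Theta t P < (Theta t P : ℝ) - Rho t (evP c P) then 1 else 0) := by
    intro j hj
    have h1 : m j - m (j + 1) = ∑ x ∈ Y, QE t L (goodC t Bd θ c) x j
        (fun P => if goodC t Bd θ c j P then (0 : ℝ) else 1) := by
      simp only [hm]
      rw [← Finset.sum_sub_distrib]
      refine Finset.sum_congr rfl fun x _ => ?_
      rw [QE_succ_one j hj, sub_eq_iff_eq_add, ← QE_add]
      congr 1
      funext P
      split_ifs <;> norm_num
    rw [h1]
    refine le_trans ?_ (add_le_add_left (hA j hj) _)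
    rw [← Finset.sum_add_distrib]
    refine Finset.sum_le_sum fun x hx => ?_
    have hxz := hYz hx
    have h2 : QE t L (goodC t Bd θ c) x j (fun P => if goodC t Bd θ c j P then (0 : ℝ) else 1) ≤
        QE t L (goodC t Bd θ c) x j (fun P => (if Bd < Rho t (evP c P) then (1 : ℝ) else 0) +
          if θ * Theta t P < (Theta t P : ℝ) - Rho t (evP c P) then 1 else 0) := by
      refine QE_mono hxz j fun P _ => ?_
      by_cases hg : goodC t Bd θ c j P
      · rw [if_pos hg]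
        split_ifs <;> norm_num
      · rw [if_neg hg]
        have hg' : ¬ ((Rho t (evP c P) : ℝ) ≤ Bd ∧
            (Theta t P : ℝ) - Rho t (evP c P) ≤ θ * Theta t P) := hg
        rw [not_and_or, not_le, not_le] at hg'
        rcases hg' with h | h
        · rw [if_pos h]
          split_ifs <;> norm_num
        · rw [if_pos h]
          split_ifs <;> norm_num
    refine h2.trans ?_
    rw [QE_add]
    refine add_le_add le_rfl ?_
    refine QE_good_mono hxz j (fun _ _ _ _ _ => trivial) fun P _ => ?_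
    split_ifs <;> norm_num
  have hsum : (Y.card : ℝ) - m k = ∑ j ∈ Finset.range k, (m j - m (j + 1)) := by
    rw [Finset.sum_range_sub', hm0]
  change (Y.card : ℝ) - m k ≤ _
  rw [hsum]
  refine (Finset.sum_le_sum fun j hj => hB j (Finset.mem_range.1 hj)).trans ?_
  rw [Finset.sum_add_distrib, Finset.sum_const, Finset.card_range, nsmul_eq_mul]
  refine add_le_add (le_of_eq ?_) le_rfl
  field_simp

end Pool.Agent.Helper92.AR
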