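import Pool.Agent.Helper92.AR.Nice
import Pool.Agent.Helper92.AR.Defs3
import Pool.Agent.Helper92.AR.Tensor

/-!
AR-N2. The canonical construction is nice.  `nice_zY`: `Nice.var` for `j < s` (`slotEmb s ⟨j,_⟩ =
(j : Fin (s+1)).castSucc`), `Nice.slot` for the last slot.  `nice_tmat`: an entry of `tmat t b p` is a
sum of `C (t i l) * ∏_j p' j (i j)`, `p' = update p b (Pi.single a 1)` with entries nice over `∅` (those of
`Pi.single` are constants `0`, `1`).  `nice_canZ`: entries of `(-(N E))^i` are nice over `∅` by induction on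
`i` (`E = tmat - const`), and `mulVec` with a vector with entries nice over `J1` (`Nice.mul_left`, `J1 = ∅` or
`{slot s}`).  `nice_canP` by induction on `j`.  `T1_isML`: `canPhi` is a sum of products of
`C (prjO h_last l)` (nice over `{s+1}`) and `canV l` (nice over `{s}`), `Nice.mul`, and
`univ.map (slotEmb s) ∪ {s, s+1} = univ`.
-/

set_option autoImplicit false

namespace Pool.Agent.Helper92.AR

open Polynomial Finset
open Pool.Agent.Helper83.AH (IsML)

variable {s n : ℕ} {F : Type} [Field F] (t : (Fin (s + 1) → Fin n) → Fin n → F)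
  (x : Fin (s + 1) → Fin n → F) (N : Fin (s + 1) → Matrix (Fin n) (Fin n) F)

theorem nice_tmat (b : Fin (s + 1))
    (p : (Fin (s + 2) → Fin n → F) → Fin (s + 1) → Fin n → MvPolynomial (Fin s) F)
    (hp : ∀ i, i ≠ b → ∀ a, Nice ∅ (fun h => p h i a)) (l a : Fin n) :
    Nice ∅ (fun h => tmat t b (p h) l a) := by
  have h1 : (fun h => tmat t b (p h) l a) = fun h => ∑ i : Fin (s + 1) → Fin n,
      (MvPolynomial.C (t i l) : MvPolynomial (Fin s) F) *
        ∏ j, (Function.update (p h) b (Pi.single a 1) :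
          Fin (s + 1) → Fin n → MvPolynomial (Fin s) F) j (i j) := rfl
  rw [h1]
  refine Nice.sum _ _ fun i _ => Nice.mul_left (fun j => Finset.notMem_empty _)
    (Nice.const _) (Nice.prod _ _ fun j _ => ?_)
  by_cases hj : j = b
  · subst hj
    simp only [Function.update_self]
    by_cases hi : i j = a
    · rw [hi]
      simp only [Pi.single_eq_same]
      have h2 := Nice.const (s := s) (n := n) (F := F) 1
      simpa using h2
    · simp only [Pi.single_eq_of_ne hi]
      exact Nice.zero
  · simp only [Function.update_of_ne hj]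
    exact hp j hj (i j)

omit t x N in
private theorem nn_mul {A B : (Fin (s + 2) → Fin n → F) →
      Matrix (Fin n) (Fin n) (MvPolynomial (Fin s) F)}
    (hA : ∀ l a, Nice ∅ (fun h => A h l a)) (hB : ∀ l a, Nice ∅ (fun h => B h l a))
    (l a : Fin n) : Nice ∅ (fun h => (A h * B h) l a) := by
  simp only [Matrix.mul_apply]
  exact Nice.sum _ _ fun c _ => Nice.mul_left (fun j => Finset.notMem_empty _) (hA l c) (hB c a)

private theorem nn_pow {A : (Fin (s + 2) → Fin n → F) →
      Matrix (Fin n) (Fin n) (MvPolynomial (Fin s) F)}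
    (hA : ∀ l a, Nice ∅ (fun h => A h l a)) (i : ℕ) (l a : Fin n) :
    Nice ∅ (fun h => ((A h) ^ i) l a) := by
  induction i generalizing l a with
  | zero =>
    simp only [pow_zero]
    by_cases h : l = a
    · subst h
      simp only [Matrix.one_apply_eq]
      have h2 := Nice.const (s := s) (n := n) (F := F) 1
      simpa using h2
    · simp only [Matrix.one_apply_ne h]
      exact Nice.zero
  | succ i ih =>
    simp only [pow_succ]
    exact nn_mul ih hA l a

private theorem nn_sum {ι : Type} (S : Finset ι) {A : ι → (Fin (s + 2) → Fin n → F) →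
      Matrix (Fin n) (Fin n) (MvPolynomial (Fin s) F)}
    (hA : ∀ i l a, Nice ∅ (fun h => A i h l a)) (l a : Fin n) :
    Nice ∅ (fun h => (∑ i ∈ S, A i h) l a) := by
  simp only [Matrix.sum_apply]
  exact Nice.sum _ _ fun i _ => hA i l a

private theorem nn_mulVec {A : (Fin (s + 2) → Fin n → F) →
      Matrix (Fin n) (Fin n) (MvPolynomial (Fin s) F)}
    (hA : ∀ l a, Nice ∅ (fun h => A h l a)) (J1 : Finset (Fin (s + 2)))
    (h1 : ∀ j : Fin s, slotEmb s j ∉ J1)
    (z : (Fin (s + 2) → Fin n → F) → Fin n → MvPolynomial (Fin s) F)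
    (hz : ∀ a, Nice J1 (fun h => z h a)) (a : Fin n) :
    Nice J1 (fun h => (A h).mulVec (z h) a) := by
  simp only [Matrix.mulVec, dotProduct]
  exact Nice.sum _ _ fun c _ => Nice.mul_left h1 (hA a c) (hz c)

private theorem nn_canE (b : Fin (s + 1))
    (p : (Fin (s + 2) → Fin n → F) → Fin (s + 1) → Fin n → MvPolynomial (Fin s) F)
    (hp : ∀ i, i ≠ b → ∀ a, Nice ∅ (fun h => p h i a)) (l a : Fin n) :
    Nice ∅ (fun h => canE t x b (p h) l a) := by
  have h1 : (fun h => canE t x b (p h) l a) = fun h => tmat t b (p h) l a +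
      -(MvPolynomial.C (tmat (A := F) t b x l a)) := by
    funext h
    unfold canE
    rw [Matrix.sub_apply, Matrix.map_apply, sub_eq_add_neg]
    rfl
  rw [h1]
  exact Nice.add (nice_tmat t b p hp l a) (Nice.neg (Nice.const _))

private theorem nn_B (b : Fin (s + 1))
    (p : (Fin (s + 2) → Fin n → F) → Fin (s + 1) → Fin n → MvPolynomial (Fin s) F)
    (hp : ∀ i, i ≠ b → ∀ a, Nice ∅ (fun h => p h i a)) (l a : Fin n) :
    Nice ∅ (fun h => (-((N b).map (algebraMap F (MvPolynomial (Fin s) F)) *
      canE t x b (p h))) l a) := by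
  simp only [Matrix.neg_apply]
  refine Nice.neg (nn_mul (A := fun _ => (N b).map (algebraMap F (MvPolynomial (Fin s) F)))
    (fun l a => ?_) (nn_canE t x b p hp) l a)
  exact Nice.const _

theorem nice_canZ (b : Fin (s + 1))
    (p : (Fin (s + 2) → Fin n → F) → Fin (s + 1) → Fin n → MvPolynomial (Fin s) F)
    (hp : ∀ i, i ≠ b → ∀ a, Nice ∅ (fun h => p h i a)) (J1 : Finset (Fin (s + 2)))
    (h1 : ∀ j : Fin s, slotEmb s j ∉ J1)
    (z : (Fin (s + 2) → Fin n → F) → Fin n → MvPolynomial (Fin s) F)
    (hz : ∀ a, Nice J1 (fun h => z h a)) (a : Fin n) :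
    Nice J1 (fun h => canZ t x N b (p h) (z h) a) := by
  unfold canZ
  exact nn_mulVec (A := fun h => ∑ i ∈ Finset.range (s + 1),
      (-((N b).map (algebraMap F (MvPolynomial (Fin s) F)) * canE t x b (p h))) ^ i)
    (nn_sum _ fun i => nn_pow (nn_B t x N b p hp) i) J1 h1 z hz a

/-- the correction `z - canZ z = N *ᵥ w` has a nice `w` -/
theorem nice_corr (b : Fin (s + 1))
    (p : (Fin (s + 2) → Fin n → F) → Fin (s + 1) → Fin n → MvPolynomial (Fin s) F)
    (hp : ∀ i, i ≠ b → ∀ a, Nice ∅ (fun h => p h i a)) (J1 : Finset (Fin (s + 2)))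
    (h1 : ∀ j : Fin s, slotEmb s j ∉ J1)
    (z : (Fin (s + 2) → Fin n → F) → Fin n → MvPolynomial (Fin s) F)
    (hz : ∀ a, Nice J1 (fun h => z h a)) (a : Fin n) :
    Nice J1 (fun h => ((canE t x b (p h)) * ∑ i ∈ Finset.range s,
      (-((N b).map (algebraMap F (MvPolynomial (Fin s) F)) * canE t x b (p h))) ^ i).mulVec
        (z h) a) := by
  exact nn_mulVec (A := fun h => (canE t x b (p h)) * ∑ i ∈ Finset.range s,
      (-((N b).map (algebraMap F (MvPolynomial (Fin s) F)) * canE t x b (p h))) ^ i)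
    (nn_mul (nn_canE t x b p hp) (nn_sum _ fun i => nn_pow (nn_B t x N b p hp) i)) J1 h1 z hz a

theorem nice_zY (j : Fin (s + 1)) (hj : (j : ℕ) < s) (a : Fin n) :
    Nice ∅ (fun h => zY t x N h j a) := by
  have h1 : (fun h : Fin (s + 2) → Fin n → F => zY t x N h j a) = fun h =>
      (MvPolynomial.X ⟨j, hj⟩ * MvPolynomial.C ((prj t x N j).mulVec (h (slotEmb s ⟨j, hj⟩)) a) :
        MvPolynomial (Fin s) F) := by
    funext h
    unfold zY
    rw [dif_pos hj]
    rfl
  rw [h1]
  exact Nice.var ⟨j, hj⟩ (prj t x N j) a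

private theorem nn_last (j : Fin s) : slotEmb s j ≠ (Fin.last s).castSucc := by
  intro h
  have h1 := congrArg Fin.val h
  have h2 : ((slotEmb s j : Fin (s + 2)) : ℕ) = (j : ℕ) := rfl
  have h3 : (((Fin.last s).castSucc : Fin (s + 2)) : ℕ) = s := rfl
  rw [h2, h3] at h1
  have h4 := j.2
  omega

private theorem nn_last' (j : Fin s) : slotEmb s j ∉ ({(Fin.last s).castSucc} :
    Finset (Fin (s + 2))) := by
  rw [Finset.mem_singleton]
  exact nn_last j

theorem nice_zY_last (a : Fin n) :
    Nice {(Fin.last s).castSucc} (fun h => zY t x N h (Fin.last s) a) := by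
  have h1 : (fun h : Fin (s + 2) → Fin n → F => zY t x N h (Fin.last s) a) = fun h =>
      (MvPolynomial.C ((prj t x N (Fin.last s)).mulVec (h (Fin.last s).castSucc) a) :
        MvPolynomial (Fin s) F) := by
    funext h
    unfold zY
    rw [dif_neg]
    exact lt_irrefl s
  rw [h1]
  exact Nice.slot _ nn_last (prj t x N (Fin.last s)) a

theorem nice_canP (j : ℕ) (hj : j ≤ s) (i : Fin (s + 1)) (a : Fin n) :
    Nice ∅ (fun h => canP t x N (zY t x N h) j i a) := by
  induction j generalizing i a with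
  | zero => exact Nice.const (x i a)
  | succ j ih =>
    have hj' : j < s + 1 := by omega
    have ih' := fun i a => ih (by omega) i a
    have h1 : ∀ h : Fin (s + 2) → Fin n → F, canP t x N (zY t x N h) (j + 1) =
        Function.update (canP t x N (zY t x N h) j) ⟨j, hj'⟩
          (fun a => algebraMap F (MvPolynomial (Fin s) F) (x ⟨j, hj'⟩ a) +
            canZ t x N ⟨j, hj'⟩ (canP t x N (zY t x N h) j) (zY t x N h ⟨j, hj'⟩) a) := by
      intro h
      rw [canP, dif_pos hj']
    simp only [h1]
    by_cases hi : i = ⟨j, hj'⟩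
    · subst hi
      simp only [Function.update_self]
      refine Nice.add (Nice.const _) ?_
      exact nice_canZ t x N ⟨j, hj'⟩ (fun h => canP t x N (zY t x N h) j)
        (fun i _ a => ih' i a) ∅ (fun j => Finset.notMem_empty _)
        (fun h => zY t x N h ⟨j, hj'⟩) (fun a => nice_zY t x N ⟨j, hj'⟩ (by
          show j < s
          omega) a) a
    · simp only [Function.update_of_ne hi]
      exact ih' i a

theorem nice_canV (l : Fin n) :
    Nice {(Fin.last s).castSucc} (fun h => canV t x N (zY t x N h) l) := by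
  unfold canV
  refine nn_mulVec (A := fun h => tmat t (Fin.last s) (canP t x N (zY t x N h) s))
    (nice_tmat t (Fin.last s) (fun h => canP t x N (zY t x N h) s)
      fun i _ a => nice_canP t x N s le_rfl i a) _ nn_last' _ (fun a => ?_) l
  exact nice_canZ t x N (Fin.last s) (fun h => canP t x N (zY t x N h) s)
    (fun i _ a => nice_canP t x N s le_rfl i a) _ nn_last' (fun h => zY t x N h (Fin.last s))
    (nice_zY_last t x N) a

theorem T1_isML : IsML F Finset.univ (T1 t x N) := by
  have h0 : ∀ j : Fin s, slotEmb s j ≠ Fin.last (s + 1) := by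
    intro j h
    have h1 := congrArg Fin.val h
    have h2 : ((slotEmb s j : Fin (s + 2)) : ℕ) = (j : ℕ) := rfl
    have h3 : ((Fin.last (s + 1) : Fin (s + 2)) : ℕ) = s + 1 := rfl
    rw [h2, h3] at h1
    have h4 := j.2
    omega
  have hN : Nice ({Fin.last (s + 1)} ∪ {(Fin.last s).castSucc}) (fun h =>
      canPhi t x N (zY t x N h)
        fun l => MvPolynomial.C ((prjO t x N).mulVec (h (Fin.last (s + 1))) l)) := by
    unfold canPhi
    refine Nice.sum _ _ fun l _ => Nice.mul ?_ (fun j => ?_) nn_last'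
      (Nice.slot (Fin.last (s + 1)) h0 (prjO t x N) l) (nice_canV t x N l)
    · rw [Finset.disjoint_singleton]
      intro h
      have h1 := congrArg Fin.val h
      have h2 : (((Fin.last s).castSucc : Fin (s + 2)) : ℕ) = s := rfl
      have h3 : ((Fin.last (s + 1) : Fin (s + 2)) : ℕ) = s + 1 := rfl
      rw [h2, h3] at h1
      omega
    · rw [Finset.mem_singleton]
      exact h0 j
  have hU := hN Finset.univ
  have hE : Finset.univ.map (slotEmb s) ∪ ({Fin.last (s + 1)} ∪ {(Fin.last s).castSucc}) =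
      (Finset.univ : Finset (Fin (s + 2))) := by
    rw [Finset.eq_univ_iff_forall]
    intro i
    rw [Finset.mem_union, Finset.mem_union, Finset.mem_map, Finset.mem_singleton,
      Finset.mem_singleton]
    by_cases h1 : (i : ℕ) < s
    · exact Or.inl ⟨⟨i, h1⟩, Finset.mem_univ _, rfl⟩
    · by_cases h2 : (i : ℕ) = s
      · exact Or.inr (Or.inr (Fin.ext h2))
      · refine Or.inr (Or.inl (Fin.ext ?_))
        show (i : ℕ) = s + 1
        have h3 := i.2
        omega
  rw [hE] at hU
  exact hU

end Pool.Agent.Helper92.AR
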