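import Pool.Agent.Helper92.AR.AdmStep

/-!
AR-Q2. Calculus of the killed process.  All statements by induction on `j`, generalising `g`; at
`j + 1` unfold `QE`, case `j < k` or not (then both sides are `0`).  For `QE_mono`: for an admissible
`P` at stage `j`, `stepE` is an average over `z ∈ Kset` of values at tuples which are admissible at stage
`j+1` (`Adm.step`), so it is monotone; `avg` of a finset is `(sum)/card` with `card ≥ 0`.
`QE_good_mono`: at stage `j+1` compare `if good j P then stepE g P else 0` with
`if good' j P then stepE g P else 0` (both non-negative as `g ≥ 0` on admissible tuples), then the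
induction hypothesis and `QE_mono`.
`QE_true_one`: `stepE` of the constant `1` is `1` as `Kset` is non-empty (`zero_mem_Kset`).
-/

set_option autoImplicit false

namespace Pool.Agent.Helper92.AR

open Polynomial Finset
open Pool.Agent.Helper83.AH (IsML)

variable {k n : ℕ} {F : Type} [Field F] [Fintype F] {t : (Fin k → Fin n) → Fin n → F} {L : ℕ → ℕ}
  {good good' : ℕ → (Fin k → Fin n → F[X]) → Prop} {x : Fin k → Fin n → F}

namespace QECalc

open Classical in
theorem QE_zero (g : (Fin k → Fin n → F[X]) → ℝ) : QE t L good x 0 g = g (cst x) := rfl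

open Classical in
theorem QE_succ (j : ℕ) (g : (Fin k → Fin n → F[X]) → ℝ) :
    QE t L good x (j + 1) g = if hj : j < k then
      QE t L good x j (fun P => if good j P then stepE t (L j) ⟨j, hj⟩ g P else 0) else 0 := rfl

theorem avg_mono {α : Type} {S : Finset α} {g g' : α → ℝ} (h : ∀ a ∈ S, g a ≤ g' a) :
    avg S g ≤ avg S g' := by
  unfold avg
  exact div_le_div_of_nonneg_right (Finset.sum_le_sum h) (Nat.cast_nonneg _)

theorem avg_nonneg {α : Type} {S : Finset α} {g : α → ℝ} (h : ∀ a ∈ S, 0 ≤ g a) :
    0 ≤ avg S g := by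
  unfold avg
  exact div_nonneg (Finset.sum_nonneg h) (Nat.cast_nonneg _)

theorem avg_add {α : Type} (S : Finset α) (g g' : α → ℝ) :
    avg S (fun a => g a + g' a) = avg S g + avg S g' := by
  unfold avg
  rw [Finset.sum_add_distrib, add_div]

theorem avg_smul {α : Type} (S : Finset α) (r : ℝ) (g : α → ℝ) :
    avg S (fun a => r * g a) = r * avg S g := by
  unfold avg
  rw [← Finset.mul_sum, mul_div_assoc]

theorem avg_zero {α : Type} (S : Finset α) : avg S (fun _ => (0 : ℝ)) = 0 := by
  unfold avg
  rw [Finset.sum_const_zero, zero_div]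

theorem avg_one {α : Type} {S : Finset α} (h : S.Nonempty) : avg S (fun _ => (1 : ℝ)) = 1 := by
  unfold avg
  rw [Finset.sum_const, nsmul_eq_mul, mul_one]
  exact div_self (by exact_mod_cast h.card_pos.ne')

end QECalc

theorem QE_mono (hx : x ∈ zset t) (j : ℕ) {g g' : (Fin k → Fin n → F[X]) → ℝ}
    (h : ∀ P, Adm t L x j P → g P ≤ g' P) : QE t L good x j g ≤ QE t L good x j g' := by
  induction j generalizing g g' with
  | zero => exact h _ (Adm.init L hx)
  | succ j ih =>
    rw [QECalc.QE_succ, QECalc.QE_succ]
    by_cases hj : j < k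
    · rw [dif_pos hj, dif_pos hj]
      refine ih fun P hP => ?_
      by_cases hg : good j P
      · rw [if_pos hg, if_pos hg]
        exact QECalc.avg_mono fun z hz => h _ (hP.step hj hz)
      · rw [if_neg hg, if_neg hg]
    · rw [dif_neg hj, dif_neg hj]

theorem QE_congr (hx : x ∈ zset t) (j : ℕ) {g g' : (Fin k → Fin n → F[X]) → ℝ}
    (h : ∀ P, Adm t L x j P → g P = g' P) : QE t L good x j g = QE t L good x j g' := by
  exact le_antisymm (QE_mono hx j fun P hP => (h P hP).le) (QE_mono hx j fun P hP => (h P hP).ge)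

theorem QE_nonneg (hx : x ∈ zset t) (j : ℕ) {g : (Fin k → Fin n → F[X]) → ℝ}
    (h : ∀ P, Adm t L x j P → 0 ≤ g P) : 0 ≤ QE t L good x j g := by
  induction j generalizing g with
  | zero => exact h _ (Adm.init L hx)
  | succ j ih =>
    rw [QECalc.QE_succ]
    by_cases hj : j < k
    · rw [dif_pos hj]
      refine ih fun P hP => ?_
      by_cases hg : good j P
      · rw [if_pos hg]
        exact QECalc.avg_nonneg fun z hz => h _ (hP.step hj hz)
      · rw [if_neg hg]
    · rw [dif_neg hj]

theorem QE_add (j : ℕ) (g g' : (Fin k → Fin n → F[X]) → ℝ) :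
    QE t L good x j (fun P => g P + g' P) = QE t L good x j g + QE t L good x j g' := by
  induction j generalizing g g' with
  | zero => rfl
  | succ j ih =>
    rw [QECalc.QE_succ, QECalc.QE_succ, QECalc.QE_succ]
    by_cases hj : j < k
    · rw [dif_pos hj, dif_pos hj, dif_pos hj, ← ih]
      congr 1
      funext P
      by_cases hg : good j P
      · rw [if_pos hg, if_pos hg, if_pos hg]
        exact QECalc.avg_add _ _ _
      · rw [if_neg hg, if_neg hg, if_neg hg, add_zero]
    · rw [dif_neg hj, dif_neg hj, dif_neg hj, add_zero]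

theorem QE_smul (j : ℕ) (r : ℝ) (g : (Fin k → Fin n → F[X]) → ℝ) :
    QE t L good x j (fun P => r * g P) = r * QE t L good x j g := by
  induction j generalizing g with
  | zero => rfl
  | succ j ih =>
    rw [QECalc.QE_succ, QECalc.QE_succ]
    by_cases hj : j < k
    · rw [dif_pos hj, dif_pos hj, ← ih]
      congr 1
      funext P
      by_cases hg : good j P
      · rw [if_pos hg, if_pos hg]
        exact QECalc.avg_smul _ _ _
      · rw [if_neg hg, if_neg hg, mul_zero]
    · rw [dif_neg hj, dif_neg hj, mul_zero]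

theorem QE_sum {ι : Type} (S : Finset ι) (j : ℕ) (g : ι → (Fin k → Fin n → F[X]) → ℝ) :
    QE t L good x j (fun P => ∑ i ∈ S, g i P) = ∑ i ∈ S, QE t L good x j (g i) := by
  classical
  induction S using Finset.induction_on with
  | empty =>
    simp only [Finset.sum_empty]
    have h := QE_smul (t := t) (L := L) (good := good) (x := x) j 0 (fun _ => 0)
    simpa using h
  | insert a S ha ih =>
    simp only [Finset.sum_insert ha]
    rw [QE_add, ih]

theorem QE_good_mono (hx : x ∈ zset t) (j : ℕ)
    (h : ∀ i < j, ∀ P, Adm t L x i P → good i P → good' i P)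
    {g : (Fin k → Fin n → F[X]) → ℝ} (hg : ∀ P, Adm t L x j P → 0 ≤ g P) :
    QE t L good x j g ≤ QE t L good' x j g := by
  induction j generalizing g with
  | zero => exact le_rfl
  | succ j ih =>
    rw [QECalc.QE_succ, QECalc.QE_succ]
    by_cases hj : j < k
    · rw [dif_pos hj, dif_pos hj]
      have h0 : ∀ P, Adm t L x j P → 0 ≤ stepE t (L j) ⟨j, hj⟩ g P := fun P hP =>
        QECalc.avg_nonneg fun z hz => hg _ (hP.step hj hz)
      refine (ih (fun i hi => h i (by omega)) (fun P hP => ?_)).trans
        (QE_mono hx j fun P hP => ?_)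
      · split_ifs
        · exact h0 P hP
        · exact le_rfl
      · by_cases hg1 : good j P
        · rw [if_pos hg1, if_pos (h j (by omega) P hP hg1)]
        · rw [if_neg hg1]
          split_ifs
          · exact h0 P hP
          · exact le_rfl
    · rw [dif_neg hj, dif_neg hj]

theorem QE_true_one (j : ℕ) (hj : j ≤ k) :
    QE t L (fun _ _ => True) x j (fun _ => 1) = 1 := by
  have hstep : ∀ (j : ℕ) (hj : j < k) (P : Fin k → Fin n → F[X]),
      stepE t (L j) ⟨j, hj⟩ (fun _ => 1) P = 1 := fun j hj P =>
    QECalc.avg_one ⟨0, zero_mem_Kset _ _⟩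
  induction j with
  | zero => rfl
  | succ j ih =>
    rw [QECalc.QE_succ, dif_pos (by omega : j < k)]
    simp only [if_true, hstep]
    exact ih (by omega)

open Classical in
theorem QE_succ_one (j : ℕ) (hj : j < k) :
    QE t L good x (j + 1) (fun _ => 1) =
      QE t L good x j (fun P => if good j P then 1 else 0) := by
  rw [QECalc.QE_succ, dif_pos hj]
  have hstep : ∀ P : Fin k → Fin n → F[X],
      stepE t (L j) ⟨j, hj⟩ (fun _ => 1) P = 1 := fun P =>
    QECalc.avg_one ⟨0, zero_mem_Kset _ _⟩
  simp only [hstep]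

theorem QE_zero_of_not (h : ¬ good 0 (cst x)) (j : ℕ) (g : (Fin k → Fin n → F[X]) → ℝ) :
    QE t L good x (j + 1) g = 0 := by
  induction j generalizing g with
  | zero =>
    rw [QECalc.QE_succ]
    by_cases hj : 0 < k
    · rw [dif_pos hj, QECalc.QE_zero, if_neg h]
    · rw [dif_neg hj]
  | succ j ih =>
    rw [QECalc.QE_succ]
    by_cases hj : j + 1 < k
    · rw [dif_pos hj]
      exact ih _
    · rw [dif_neg hj]

end Pool.Agent.Helper92.AR
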