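import Pool.Agent.Helper92.AR.Tensor

/-!
AR-C2. Resampling slot `b` preserves the uniform distribution on `zset t`.
`∑_{x ∈ zset} (1/|K(x)|) ∑_{y ∈ K(x)} g (update x b y)`, `K(x) = kerF (tmat t b x)`.  The map
`(x, y) ↦ (update x b y, x b)` is an involution-like bijection of the set
`{(x, y) | x ∈ zset t, y ∈ K(x)}` (`x b ∈ K(x)` iff `x ∈ zset t`, by `tev_eq_mulVec`;
`K(update x b y) = K(x)` by `tmat_update`).  So the sum is `∑_{x' ∈ zset} ∑_{y' ∈ K(x')} g (x') / |K(x')| =
∑_{x' ∈ zset} g x'` (`|K(x')| > 0` since `0 ∈ K(x')`).  `Finset.sum_sigma'`, `Finset.sum_bij'` or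
`Finset.sum_nbij'`.
-/

set_option autoImplicit false

namespace Pool.Agent.Helper92.AR

open Polynomial Finset
open Pool.Agent.Helper83.AH (IsML)

variable {k n : ℕ} {F : Type} [Field F] [Fintype F]

theorem resample (t : (Fin k → Fin n) → Fin n → F) (b : Fin k) (g : (Fin k → Fin n → F) → ℝ) :
    ∑ x ∈ zset t, avg (kerF (tmat (A := F) t b x)) (fun y => g (Function.update x b y)) =
      ∑ x ∈ zset t, g x := by
  classical
  have hz : ∀ x : Fin k → Fin n → F, x ∈ zset t ↔ tev (A := F) t x = 0 := fun x => by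
    unfold zset
    rw [Finset.mem_filter, and_iff_right (Finset.mem_univ x)]
  have hk : ∀ (x : Fin k → Fin n → F) (y : Fin n → F), y ∈ kerF (tmat (A := F) t b x) ↔
      (tmat (A := F) t b x).mulVec y = 0 := fun x y => by
    unfold kerF
    rw [Finset.mem_filter, and_iff_right (Finset.mem_univ y)]
  have h1 : ∀ x ∈ zset t, g x = ∑ _y ∈ kerF (tmat (A := F) t b x),
      g x / ((kerF (tmat (A := F) t b x)).card : ℝ) := by
    intro x _
    have h0 : (0 : Fin n → F) ∈ kerF (tmat (A := F) t b x) := by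
      rw [hk, Matrix.mulVec_zero]
    have hc : ((kerF (tmat (A := F) t b x)).card : ℝ) ≠ 0 := by
      exact_mod_cast (Finset.card_pos.2 ⟨0, h0⟩).ne'
    rw [Finset.sum_const, nsmul_eq_mul, mul_div_cancel₀ _ hc]
  rw [Finset.sum_congr rfl h1]
  have h2 : ∀ x ∈ zset t, avg (kerF (tmat (A := F) t b x)) (fun y => g (Function.update x b y)) =
      ∑ y ∈ kerF (tmat (A := F) t b x),
        g (Function.update x b y) / ((kerF (tmat (A := F) t b x)).card : ℝ) := by
    intro x _
    unfold avg
    rw [Finset.sum_div]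
  rw [Finset.sum_congr rfl h2, Finset.sum_sigma', Finset.sum_sigma']
  refine Finset.sum_nbij'
    (fun p : (_ : Fin k → Fin n → F) × (Fin n → F) => ⟨Function.update p.1 b p.2, p.1 b⟩)
    (fun p : (_ : Fin k → Fin n → F) × (Fin n → F) => ⟨Function.update p.1 b p.2, p.1 b⟩)
    ?_ ?_ ?_ ?_ ?_
  · rintro ⟨x, y⟩ hp
    rw [Finset.mem_sigma, hz, hk] at hp ⊢
    refine ⟨?_, ?_⟩
    · show tev (A := F) t (Function.update x b y) = 0
      rw [tev_update]
      exact hp.2
    · show (tmat (A := F) t b (Function.update x b y)).mulVec (x b) = 0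
      rw [tmat_update, ← tev_eq_mulVec]
      exact hp.1
  · rintro ⟨x, y⟩ hp
    rw [Finset.mem_sigma, hz, hk] at hp ⊢
    refine ⟨?_, ?_⟩
    · show tev (A := F) t (Function.update x b y) = 0
      rw [tev_update]
      exact hp.2
    · show (tmat (A := F) t b (Function.update x b y)).mulVec (x b) = 0
      rw [tmat_update, ← tev_eq_mulVec]
      exact hp.1
  · rintro ⟨x, y⟩ _
    simp only [Function.update_idem, Function.update_eq_self, Function.update_self]
  · rintro ⟨x, y⟩ _
    simp only [Function.update_idem, Function.update_eq_self, Function.update_self]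
  · rintro ⟨x, y⟩ _
    show g (Function.update x b y) / _ = g (Function.update x b y) / _
    rw [tmat_update]

end Pool.Agent.Helper92.AR
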