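import Pool.Agent.Helper92.AR.EvIm
import Pool.Agent.Helper92.AR.KerDim
import Pool.Agent.Helper92.AR.AvgPush

/-!
AR-P6. One step density.  Apply `avg_push` with `S = Kmod ℓ M`, `φ = c • evL ℓ c`, `W' = ker M(c)`
(`M(c) = M.map (eval c)`), `y0`.  `φ(S) ⊆ W'`: `M(c) (toPoly z evaluated at c) = (M toPoly z)(c) = 0`.
`finrank W' = n - rank M(c)`; as `c ≠ 0`, `finrank φ(S) = finrank ((Kmod ℓ M).map (evL ℓ c)) =: δ`, and
`ℓ * δ ≥ finrank Kmod ≥ n ℓ - grank (ℓ + e)`, so `δ ≥ n - grank - e grank / ℓ`.  Hence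
`finrank W' - δ ≤ grank - rank M(c) + e grank / ℓ ≤ f`.  Use `eval_toPoly`.
-/

set_option autoImplicit false

namespace Pool.Agent.Helper92.AR

open Polynomial Finset
open Pool.Agent.Helper83.AH (IsML)

variable {n : ℕ} {F : Type} [Field F] [Fintype F]

theorem step_density (ℓ e : ℕ) (hℓ : 0 < ℓ) (M : Matrix (Fin n) (Fin n) F[X])
    (hM : ∀ i j, (M i j).natDegree ≤ e) (c : F) (hc : c ≠ 0) (y0 : Fin n → F)
    (hy0 : (M.map (Polynomial.eval c)).mulVec y0 = 0) (f : ℝ)
    (hf : (grank M : ℝ) - (M.map (Polynomial.eval c)).rank + (e : ℝ) * grank M / ℓ ≤ f)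
    (g : (Fin n → F) → ℝ) (hg : ∀ y, 0 ≤ g y) :
    avg (Kset ℓ M) (fun z => g (fun a => y0 a + c * ((toPoly z : Fin n → F[X]) a).eval c)) ≤
      (Fintype.card F : ℝ) ^ f * avg (kerF (M.map (Polynomial.eval c))) g := by
  classical
  have hker : ∀ w, w ∈ LinearMap.ker (M.map (Polynomial.eval c)).mulVecLin ↔
      (M.map (Polynomial.eval c)).mulVec w = 0 := fun w => by
    rw [LinearMap.mem_ker, Matrix.mulVecLin_apply]
  have hev : ∀ z ∈ Kmod ℓ M, (M.map (Polynomial.eval c)).mulVec (evL ℓ c z) = 0 := by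
    intro z hz
    have h1 : M.mulVec (toPoly z) = 0 := by
      have := LinearMap.mem_ker.1 hz
      exact this
    funext i
    have h2 : ((M.mulVec (toPoly z)) i).eval c = 0 := by
      rw [h1]
      exact Polynomial.eval_zero
    rw [Matrix.mulVec, dotProduct, Polynomial.eval_finsetSum] at h2
    rw [Matrix.mulVec, dotProduct, Pi.zero_apply, ← h2]
    apply Finset.sum_congr rfl
    intro j _
    rw [Polynomial.eval_mul, eval_toPoly, Matrix.map_apply]
  have hφ : (Kmod ℓ M).map (c • evL (n := n) ℓ c) ≤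
      LinearMap.ker (M.map (Polynomial.eval c)).mulVecLin := by
    rintro w ⟨z, hz, rfl⟩
    rw [hker, LinearMap.smul_apply, Matrix.mulVec_smul, hev z hz, smul_zero]
  have hfr : (Module.finrank F (LinearMap.ker (M.map (Polynomial.eval c)).mulVecLin) : ℝ) -
      Module.finrank F ((Kmod ℓ M).map (c • evL (n := n) ℓ c)) ≤ f := by
    rw [Submodule.map_smul _ _ _ hc]
    have h1 := LinearMap.finrank_range_add_finrank_ker (M.map (Polynomial.eval c)).mulVecLin
    rw [Module.finrank_fintype_fun_eq_card, Fintype.card_fin] at h1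
    have h2 : (M.map (Polynomial.eval c)).rank +
        Module.finrank F (LinearMap.ker (M.map (Polynomial.eval c)).mulVecLin) = n := h1
    have h3 := finrank_kmod_le ℓ M c
    have h4 := kmod_finrank ℓ e M hM
    have hℓ' : (0 : ℝ) < ℓ := by exact_mod_cast hℓ
    have h5 : (n : ℝ) * ℓ ≤ ℓ * Module.finrank F ((Kmod ℓ M).map (evL (n := n) ℓ c)) +
        grank M * (ℓ + e) := by
      have h6 : n * ℓ ≤ ℓ * Module.finrank F ((Kmod ℓ M).map (evL (n := n) ℓ c)) +
        grank M * (ℓ + e) := by omega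
      exact_mod_cast h6
    have h7 : (n : ℝ) ≤ Module.finrank F ((Kmod ℓ M).map (evL (n := n) ℓ c)) +
        (grank M + (e : ℝ) * grank M / ℓ) := by
      have h8 : ((Module.finrank F ((Kmod ℓ M).map (evL (n := n) ℓ c)) : ℝ) +
          (grank M + (e : ℝ) * grank M / ℓ)) * ℓ =
          ℓ * Module.finrank F ((Kmod ℓ M).map (evL (n := n) ℓ c)) + grank M * (ℓ + e) := by
        field_simp
      rw [← h8] at h5
      exact le_of_mul_le_mul_right h5 hℓ'
    have h2' : ((M.map (Polynomial.eval c)).rank : ℝ) +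
        Module.finrank F (LinearMap.ker (M.map (Polynomial.eval c)).mulVecLin) = n := by
      exact_mod_cast h2
    linarith
  have key := avg_push (Kmod ℓ M) (LinearMap.ker (M.map (Polynomial.eval c)).mulVecLin)
    (c • evL (n := n) ℓ c) hφ y0 ((hker y0).2 hy0) (Kset ℓ M)
    (fun v => by unfold Kset; rw [Finset.mem_filter]; simp)
    (kerF (M.map (Polynomial.eval c)))
    (fun w => by unfold kerF; rw [Finset.mem_filter, hker]; simp) f hfr g hg
  refine le_trans (le_of_eq ?_) key
  congr 1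
  funext z
  congr 1
  funext a
  rw [eval_toPoly]
  rfl

end Pool.Agent.Helper92.AR
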