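import Pool.Agent.Helper92.AR.QECalc
import Pool.Agent.Helper92.AR.StepDensity
import Pool.Agent.Helper92.AR.Resample
import Pool.Agent.Helper92.AR.TensorDeg

/-!
AR-Q3. Density of the points on the curves.  Induction on `j`, for all `g ≥ 0`.
`j = 0`: `evP c (cst x) = x`, and `Y ⊆ zset t`.
Step: `QE (j+1) (g ∘ evP c) = QE j (P ↦ if good j P then stepE t (L j) j (g ∘ evP c) P else 0)`.
For an admissible `P` at stage `j` with `good j P`: `evP c` of the updated tuple is
`update (evP c P) j (fun a => evP c P j a + c * (toPoly z a).eval c)`.  Let `M = tmat t j P`;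
`M(c) = tmat t j (evP c P)` (`tmat_evP`), and `M(c) (evP c P j) = tev t (evP c P) = 0` since
`tev t P = 0` (`Adm.zero` at `i = j` with `Adm.const`, `tev_evP`).  Entries of `M` have degree
`≤ ∑_{i<j} L i` (`Adm.natDegree_le`).  `step_density` with `f = Fb` (hypothesis `hgood`) gives
`stepE ≤ q^Fb * avg (kerF (tmat t j (evP c P))) (fun y => g (update (evP c P) j y)) =: q^Fb * g1 (evP c P)`.
So by `QE_mono`, `QE_smul` and the induction hypothesis for `g1 ≥ 0`,
`∑_{x ∈ Y} QE (j+1) ≤ q^Fb * q^(j Fb) * ∑_{x ∈ zset} g1 x = q^((j+1) Fb) ∑_{x ∈ zset} g x` (`resample`).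
(When `good` fails the value is `0 ≤ q^Fb * g1`.)
-/

set_option autoImplicit false

namespace Pool.Agent.Helper92.AR

open Polynomial Finset
open Pool.Agent.Helper83.AH (IsML)

variable {k n : ℕ} {F : Type} [Field F] [Fintype F]

theorem QE_density (t : (Fin k → Fin n) → Fin n → F) (L : ℕ → ℕ) (hL : ∀ j < k, 0 < L j)
    (good : ℕ → (Fin k → Fin n → F[X]) → Prop) (c : F) (hc : c ≠ 0) (Fb : ℝ)
    (hgood : ∀ (j : ℕ) (hj : j < k), ∀ x ∈ zset t, ∀ P, Adm t L x j P → good j P →
      (grank (tmat t ⟨j, hj⟩ P) : ℝ) - rho t ⟨j, hj⟩ (evP c P) +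
        ((∑ i ∈ Finset.range j, L i : ℕ) : ℝ) * grank (tmat t ⟨j, hj⟩ P) / L j ≤ Fb)
    (Y : Finset (Fin k → Fin n → F)) (hY : Y ⊆ zset t) (j : ℕ) (hj : j ≤ k)
    (g : (Fin k → Fin n → F) → ℝ) (hg : ∀ x, 0 ≤ g x) :
    ∑ x ∈ Y, QE t L good x j (fun P => g (evP c P)) ≤
      (Fintype.card F : ℝ) ^ ((j : ℝ) * Fb) * ∑ x ∈ zset t, g x := by
  classical
  have hq : (0 : ℝ) < Fintype.card F := by exact_mod_cast Fintype.card_pos
  induction j generalizing g with
  | zero =>
    have h0 : ∀ x : Fin k → Fin n → F, evP c (cst x) = x := by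
      intro x
      funext i a
      unfold evP cst
      rw [Polynomial.eval_C]
    have h1 : ∀ x ∈ Y, QE t L good x 0 (fun P => g (evP c P)) = g x := by
      intro x _
      show g (evP c (cst x)) = g x
      rw [h0]
    rw [Finset.sum_congr rfl h1, Nat.cast_zero, zero_mul, Real.rpow_zero, one_mul]
    exact Finset.sum_le_sum_of_subset_of_nonneg hY fun x _ _ => hg x
  | succ j ih =>
    have hjk : j < k := hj
    obtain ⟨g1, hg1⟩ : ∃ g1 : (Fin k → Fin n → F) → ℝ, g1 = fun x =>
        avg (kerF (tmat (A := F) t ⟨j, hjk⟩ x)) (fun y => g (Function.update x ⟨j, hjk⟩ y)) :=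
      ⟨_, rfl⟩
    have hg1n : ∀ x, 0 ≤ g1 x := by
      intro x
      rw [hg1]
      exact div_nonneg (Finset.sum_nonneg fun y _ => hg _) (Nat.cast_nonneg _)
    have hstep : ∀ x ∈ Y, QE t L good x (j + 1) (fun P => g (evP c P)) ≤
        (Fintype.card F : ℝ) ^ Fb * QE t L good x j (fun P => g1 (evP c P)) := by
      intro x hx
      rw [← QE_smul]
      have h1 : QE t L good x (j + 1) (fun P => g (evP c P)) =
          QE t L good x j (fun P => if good j P then
            stepE t (L j) ⟨j, hjk⟩ (fun P => g (evP c P)) P else 0) := by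
        rw [QE, dif_pos hjk]
      rw [h1]
      refine QE_mono (hY hx) j fun P hP => ?_
      split_ifs with hgd
      · have hev : ∀ z : Fin (L j) → Fin n → F,
            evP c (Function.update P ⟨j, hjk⟩ fun a =>
              P ⟨j, hjk⟩ a + X * (toPoly z : Fin n → F[X]) a) =
            Function.update (evP c P) ⟨j, hjk⟩ fun a =>
              evP c P ⟨j, hjk⟩ a + c * ((toPoly z : Fin n → F[X]) a).eval c := by
          intro z
          funext i a
          by_cases hi : i = ⟨j, hjk⟩
          · subst hi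
            rw [Function.update_self]
            show Polynomial.eval c ((Function.update P ⟨j, hjk⟩ fun a =>
              P ⟨j, hjk⟩ a + X * (toPoly z : Fin n → F[X]) a) ⟨j, hjk⟩ a) = _
            rw [Function.update_self, Polynomial.eval_add, Polynomial.eval_mul, Polynomial.eval_X]
            rfl
          · rw [Function.update_of_ne hi]
            show Polynomial.eval c ((Function.update P ⟨j, hjk⟩ fun a =>
              P ⟨j, hjk⟩ a + X * (toPoly z : Fin n → F[X]) a) i a) = _
            rw [Function.update_of_ne hi]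
            rfl
        have htev : tev t P = 0 := by
          have h2 := hP.zero j le_rfl
          rwa [hP.const] at h2
        have hy0 : ((tmat t ⟨j, hjk⟩ P).map (Polynomial.eval c)).mulVec (evP c P ⟨j, hjk⟩) = 0 := by
          rw [← tmat_evP, ← tev_eq_mulVec, tev_evP, htev]
          funext l
          exact Polynomial.eval_zero
        have hf := hgood j hjk x (hY hx) P hP hgd
        unfold rho at hf
        rw [tmat_evP] at hf
        have key := step_density (L j) (∑ i ∈ Finset.range j, L i) (hL j hjk) (tmat t ⟨j, hjk⟩ P)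
          (fun l a => hP.natDegree_le hjk.le ⟨j, hjk⟩ l a) c hc (evP c P ⟨j, hjk⟩) hy0 Fb hf
          (fun y => g (Function.update (evP c P) ⟨j, hjk⟩ y)) (fun y => hg _)
        rw [hg1]
        show avg (Kset (L j) (tmat t ⟨j, hjk⟩ P)) (fun z => g (evP c (Function.update P ⟨j, hjk⟩
          fun a => P ⟨j, hjk⟩ a + X * (toPoly z : Fin n → F[X]) a))) ≤
          (Fintype.card F : ℝ) ^ Fb * avg (kerF (tmat (A := F) t ⟨j, hjk⟩ (evP c P)))
            (fun y => g (Function.update (evP c P) ⟨j, hjk⟩ y))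
        rw [tmat_evP]
        simp only [hev]
        exact key
      · exact mul_nonneg (Real.rpow_nonneg hq.le _) (hg1n _)
    calc ∑ x ∈ Y, QE t L good x (j + 1) (fun P => g (evP c P))
        ≤ ∑ x ∈ Y, (Fintype.card F : ℝ) ^ Fb * QE t L good x j (fun P => g1 (evP c P)) :=
          Finset.sum_le_sum hstep
      _ = (Fintype.card F : ℝ) ^ Fb * ∑ x ∈ Y, QE t L good x j (fun P => g1 (evP c P)) := by
          rw [Finset.mul_sum]
      _ ≤ (Fintype.card F : ℝ) ^ Fb * ((Fintype.card F : ℝ) ^ ((j : ℝ) * Fb) *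
            ∑ x ∈ zset t, g1 x) :=
          mul_le_mul_of_nonneg_left (ih hjk.le g1 hg1n) (Real.rpow_nonneg hq.le _)
      _ = (Fintype.card F : ℝ) ^ (((j + 1 : ℕ) : ℝ) * Fb) * ∑ x ∈ zset t, g x := by
          rw [hg1, resample, ← mul_assoc, ← Real.rpow_add hq]
          congr 2
          push_cast
          ring

end Pool.Agent.Helper92.AR
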