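import Pool.Agent.Helper92.AR.Defs
import Pool.Agent.Helper83.AH.PolyRank

/-!
AR-B4, B5. Rank defects.  `rank_eval_le`: choose an invertible minor of `M(c)` of size `rank M(c)`
(`Pool.Agent.Helper83.AH.exists_minor`); the determinant of the same submatrix of `M` is non-zero (its
value at `c` is), so its image in `RatFunc F` is non-zero, and the rank of `M` over `RatFunc F` is at
least the size (`Matrix.rank_submatrix_le`, `Matrix.rank_of_isUnit` ...).
`rank_defect`: let `g = grank M`; choose `r, c` with `D = M.submatrix r c`, `g × g`, non-zero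
determinant (`exists_minor` over `RatFunc F`; `det` commutes with `algebraMap`, so `det D ≠ 0` in `F[X]`);
`natDegree (det D) ≤ e * g` (`natDegree_det_PR`).  For every `s : F`,
`(X - C s)^(g - rank M(s)) ∣ det D` by `Pool.Agent.Helper83.AH.dvd_det D s (rank M(s)) _` (see the proof of
`rank_eval_zero_le` in `PolyRank.lean`), the factors are pairwise coprime, so the product divides
`det D`; compare degrees.
-/

set_option autoImplicit false

namespace Pool.Agent.Helper92.AR

open Polynomial Finset
open Pool.Agent.Helper83.AH (IsML)

variable {n : ℕ} {F : Type} [Field F]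

theorem rank_eval_le (M : Matrix (Fin n) (Fin n) F[X]) (c : F) :
    (M.map (Polynomial.eval c)).rank ≤ grank M := by
  obtain ⟨r, c', hrc⟩ := Pool.Agent.Helper83.AH.exists_minor (M.map (Polynomial.eval c))
  have hD : (M.submatrix r c').det ≠ 0 := by
    intro h0
    apply hrc
    have h1 : ((M.submatrix r c').map (Polynomial.evalRingHom c)).det =
        Polynomial.evalRingHom c (M.submatrix r c').det := by
      rw [RingHom.map_det]
      rfl
    rw [h0, map_zero] at h1
    exact h1
  have hD' : ((M.map (algebraMap F[X] (RatFunc F))).submatrix r c').det ≠ 0 := by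
    have h1 : ((M.map (algebraMap F[X] (RatFunc F))).submatrix r c').det =
        algebraMap F[X] (RatFunc F) (M.submatrix r c').det := by
      rw [RingHom.map_det]
      rfl
    rw [h1]
    exact (map_ne_zero_iff _ (IsFractionRing.injective F[X] (RatFunc F))).2 hD
  have h2 := Matrix.rank_of_isUnit _ ((Matrix.isUnit_iff_isUnit_det _).2 hD'.isUnit)
  rw [Fintype.card_fin] at h2
  rw [← h2]
  exact Matrix.rank_submatrix_le _ r c'

theorem rank_defect [Fintype F] (e : ℕ) (M : Matrix (Fin n) (Fin n) F[X])
    (hM : ∀ i j, (M i j).natDegree ≤ e) :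
    ∑ c : F, (grank M - (M.map (Polynomial.eval c)).rank) ≤ e * grank M := by
  classical
  obtain ⟨r, c, hrc⟩ := Pool.Agent.Helper83.AH.exists_minor
    (M.map (algebraMap F[X] (RatFunc F)))
  change Fin (grank M) → Fin n at r c
  have hD : (M.submatrix r c).det ≠ 0 := by
    intro h0
    apply hrc
    have h1 : ((M.map (algebraMap F[X] (RatFunc F))).submatrix r c).det =
        algebraMap F[X] (RatFunc F) (M.submatrix r c).det := by
      rw [RingHom.map_det]
      rfl
    rw [h0, map_zero] at h1
    exact h1
  have hdegD : (M.submatrix r c).det.natDegree ≤ e * grank M :=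
    Pool.Agent.Helper83.AH.natDegree_det_PR _ e fun i j => hM _ _
  have hdvd : ∀ s ∈ (univ : Finset F), (Polynomial.X - Polynomial.C s) ^
      (grank M - (M.map (Polynomial.eval s)).rank) ∣ (M.submatrix r c).det := by
    intro s _
    have h1 : ((M.submatrix r c).map (Polynomial.eval s)).rank ≤
        (M.map (Polynomial.eval s)).rank :=
      Matrix.rank_submatrix_le (M.map (Polynomial.eval s)) r c
    have := Pool.Agent.Helper83.AH.dvd_det (M.submatrix r c) s _ h1
    simpa using this
  have hprod : (∏ s : F, (Polynomial.X - Polynomial.C s) ^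
      (grank M - (M.map (Polynomial.eval s)).rank)) ∣ (M.submatrix r c).det := by
    apply Finset.prod_dvd_of_coprime
    · intro s _ t _ hst
      apply IsCoprime.pow
      apply Polynomial.isCoprime_X_sub_C_of_isUnit_sub
      exact (sub_ne_zero.2 hst).isUnit
    · exact hdvd
  have hdeg2 := Polynomial.natDegree_le_of_dvd hprod hD
  have hdeg3 : (∏ s : F, (Polynomial.X - Polynomial.C s) ^
      (grank M - (M.map (Polynomial.eval s)).rank)).natDegree =
      ∑ s : F, (grank M - (M.map (Polynomial.eval s)).rank) := by
    rw [Polynomial.natDegree_prod_of_monic]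
    · simp
    · intro s _
      exact (Polynomial.monic_X_sub_C s).pow _
  rw [hdeg3] at hdeg2
  exact hdeg2.trans hdegD

end Pool.Agent.Helper92.AR
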