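import Pool.Agent.Helper92.AR.TrIm
import Pool.Agent.Helper92.AR.KerDim
import Pool.Agent.Helper92.AR.AvgPush

/-!
AR-P7. Density of the truncated parameters.  Let `M0 = M.map (eval 0)`, `π = 1 - N * M0`, `ρ = rank M0`,
`g* = grank M`.  `π` is the projection onto `ker M0` (`M0 N M0 = M0` gives `M0 π = 0`, and `π y = y` for
`y ∈ ker M0`).  Apply `avg_push` with `S = Kmod ℓ M`, `φ z = (π (z_i))_{i < m}`, `y0 = 0`,
`W' = {w : Fin m → Fin n → F | ∀ i, M0 w_i = 0}`, of dimension `m (n - ρ)`.
Dimension of `φ(S)`: it is the image of `T = (Kmod ℓ M).map (trL m ℓ _)` under `w ↦ (π w_i)_i`, and this is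
injective on `T`: let `z ∈ Kmod ℓ M` with `π z_i = 0` for `i < m`; if some `z_i ≠ 0`, `i < m`, take the
smallest such `i`; then coefficient `i` of `M (toPoly z) = 0` is `M0 z_i = 0` (lower coefficients of `z`
vanish), so `π z_i = z_i`, i.e. `z_i = 0`, contradiction.
So `finrank φ(S) = finrank T ≥ m δ`, `δ = finrank ((Kmod (ℓ+1-m) M).map (evL _ 0))`, and
`(ℓ+1-m) δ ≥ finrank Kmod (ℓ+1-m) ≥ n (ℓ+1-m) - g* (ℓ+1-m+e)`, so `δ ≥ n - g* - e g* / (ℓ+1-m)`
(`ℓ+1-m ≥ 1`).  Hence `finrank W' - finrank φ(S) ≤ m (g* - ρ) + m e g* / (ℓ+1-m) ≤ f`.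
Finally the average over `W'` equals the average over all `y` of `g (π y)` (`avg_surj`: the image of
`y ↦ (π y_i)_i` is `W'`).
-/

set_option autoImplicit false

namespace Pool.Agent.Helper92.AR

open Polynomial Finset
open Pool.Agent.Helper83.AH (IsML)

variable {n : ℕ} {F : Type} [Field F] [Fintype F]


theorem coeff_toPoly_td {ℓ : ℕ} (z : Fin ℓ → Fin n → F) (a : Fin n) (r : ℕ) :
    ((toPoly z : Fin n → F[X]) a).coeff r = if h : r < ℓ then z ⟨r, h⟩ a else 0 := by
  have h1 : ((toPoly z : Fin n → F[X]) a) =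
      ∑ i : Fin ℓ, Polynomial.C (z i a) * X ^ (i : ℕ) := rfl
  rw [h1, Polynomial.finsetSum_coeff]
  simp only [Polynomial.coeff_C_mul, Polynomial.coeff_X_pow]
  split_ifs with h
  · rw [Finset.sum_eq_single (⟨r, h⟩ : Fin ℓ)]
    · simp
    · intro b _ hb
      have : ¬ (r = (b : ℕ)) := by
        intro hc; apply hb; ext; exact hc.symm
      simp [this]
    · intro hc; exact absurd (Finset.mem_univ _) hc
  · apply Finset.sum_eq_zero
    intro b _
    have : ¬ (r = (b : ℕ)) := by
      intro hc; apply h; rw [hc]; exact b.2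
    simp [this]

/-- if all lower coefficients vanish then `M0` kills the next one -/
theorem lowest_coeff_td {ℓ : ℕ} (M : Matrix (Fin n) (Fin n) F[X]) (z : Fin ℓ → Fin n → F)
    (hz : z ∈ Kmod ℓ M) (i : Fin ℓ) (hlow : ∀ j : Fin ℓ, (j : ℕ) < i → z j = 0) :
    (M.map (Polynomial.eval 0)).mulVec (z i) = 0 := by
  have hk : M.mulVec (toPoly z : Fin n → F[X]) = 0 := by
    have := LinearMap.mem_ker.1 hz
    exact this
  funext b
  have hb : (∑ a, M b a * (toPoly z : Fin n → F[X]) a) = 0 := by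
    have := congrFun hk b
    simpa [Matrix.mulVec, dotProduct] using this
  have hc := congrArg (fun p : F[X] => p.coeff (i : ℕ)) hb
  simp only [Polynomial.finsetSum_coeff, Polynomial.coeff_zero] at hc
  have hterm : ∀ a, (M b a * (toPoly z : Fin n → F[X]) a).coeff (i : ℕ) =
      (M b a).eval 0 * z i a := by
    intro a
    rw [Polynomial.coeff_mul, Finset.sum_eq_single ((0, (i : ℕ)) : ℕ × ℕ)]
    · rw [coeff_toPoly_td, dif_pos i.2, Polynomial.coeff_zero_eq_eval_zero]
    · rintro ⟨p, r⟩ hpr hne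
      rw [Finset.HasAntidiagonal.mem_antidiagonal] at hpr
      have hr : r < (i : ℕ) := by
        rcases Nat.lt_or_ge r (i : ℕ) with h | h
        · exact h
        · exfalso
          apply hne
          have h1 : r = (i : ℕ) := by simp only at hpr; omega
          have h2 : p = 0 := by simp only at hpr; omega
          rw [h1, h2]
      have hr' : r < ℓ := lt_trans hr i.2
      rw [coeff_toPoly_td, dif_pos hr']
      have := hlow ⟨r, hr'⟩ hr
      rw [this]
      simp
    · intro hc
      exact absurd (Finset.HasAntidiagonal.mem_antidiagonal.2 (by simp)) hc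
  simp only [hterm] at hc
  simpa [Matrix.mulVec, dotProduct] using hc

/-- apply a matrix to all entries of a tuple -/
noncomputable def psiL (m : ℕ) (P : Matrix (Fin n) (Fin n) F) :
    (Fin m → Fin n → F) →ₗ[F] (Fin m → Fin n → F) where
  toFun y := fun i => P.mulVec (y i)
  map_add' y w := by
    funext i
    exact Matrix.mulVec_add P (y i) (w i)
  map_smul' r y := by
    funext i
    exact Matrix.mulVec_smul P r (y i)

theorem psiL_range_finrank_td (m : ℕ) (M0 N : Matrix (Fin n) (Fin n) F) (hN : GInv M0 N) :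
    Module.finrank F (LinearMap.range (psiL m (1 - N * M0))) ≤ m * (n - M0.rank) := by
  have hmem : ∀ w ∈ LinearMap.range (psiL m (1 - N * M0)), ∀ i,
      w i ∈ LinearMap.ker M0.mulVecLin := by
    rintro w ⟨y, rfl⟩ i
    rw [LinearMap.mem_ker, Matrix.mulVecLin_apply]
    change M0.mulVec ((1 - N * M0).mulVec (y i)) = 0
    rw [Matrix.mulVec_mulVec, Matrix.mul_sub, Matrix.mul_one, ← Matrix.mul_assoc, hN.1,
      sub_self, Matrix.zero_mulVec]
  let Φ : LinearMap.range (psiL m (1 - N * M0)) →ₗ[F] (Fin m → LinearMap.ker M0.mulVecLin) :=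
    { toFun := fun w => fun i => ⟨w.1 i, hmem w.1 w.2 i⟩
      map_add' := fun a b => rfl
      map_smul' := fun a b => rfl }
  have hinj : Function.Injective Φ := by
    intro a b hab
    apply Subtype.ext
    funext i
    have := congrFun hab i
    exact congrArg Subtype.val this
  have h1 := LinearMap.finrank_le_finrank_of_injective hinj
  have h2 : Module.finrank F (Fin m → LinearMap.ker M0.mulVecLin) =
      m * Module.finrank F (LinearMap.ker M0.mulVecLin) := by
    rw [Module.finrank_pi_fintype]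
    simp
  have h3 : Module.finrank F (LinearMap.ker M0.mulVecLin) = n - M0.rank := by
    have h := LinearMap.finrank_range_add_finrank_ker M0.mulVecLin
    have h4 : Module.finrank F (Fin n → F) = n := by simp
    rw [h4] at h
    have h5 : M0.rank = Module.finrank F (LinearMap.range M0.mulVecLin) := rfl
    omega
  rw [h2, h3] at h1
  exact h1

theorem trunc_map_finrank_td (m ℓ : ℕ) (hℓ : m ≤ ℓ) (M : Matrix (Fin n) (Fin n) F[X])
    (N : Matrix (Fin n) (Fin n) F) :
    Module.finrank F (((Kmod ℓ M).map (trL m ℓ hℓ)).map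
      (psiL m (1 - N * M.map (Polynomial.eval 0)))) =
    Module.finrank F ((Kmod ℓ M).map (trL m ℓ hℓ)) := by
  set T := (Kmod ℓ M).map (trL m ℓ hℓ) with hT
  set ψ := psiL (n := n) m (1 - N * M.map (Polynomial.eval 0)) with hψ
  have hinj : Function.Injective (ψ.domRestrict T) := by
    rw [← LinearMap.ker_eq_bot, LinearMap.ker_eq_bot']
    rintro ⟨w, hw⟩ h0
    have h0' : ψ w = 0 := h0
    obtain ⟨z, hz, rfl⟩ := hw
    have hz' : z ∈ Kmod ℓ M := hz
    have key : ∀ r : ℕ, ∀ hr : r < m, z ⟨r, lt_of_lt_of_le hr hℓ⟩ = 0 := by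
      intro r
      induction r using Nat.strong_induction_on with
      | _ r ih =>
        intro hr
        have h1 := lowest_coeff_td M z hz' ⟨r, lt_of_lt_of_le hr hℓ⟩ (by
          intro j hj
          have hj' : (j : ℕ) < r := hj
          exact ih j hj' (lt_trans hj' hr))
        have h2 : (1 - N * M.map (Polynomial.eval 0)).mulVec
            (z ⟨r, lt_of_lt_of_le hr hℓ⟩) = 0 := congrFun h0' ⟨r, hr⟩
        rw [Matrix.sub_mulVec, Matrix.one_mulVec, ← Matrix.mulVec_mulVec, h1,
          Matrix.mulVec_zero, sub_zero] at h2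
        exact h2
    apply Subtype.ext
    funext i
    exact key i i.2
  have h1 := LinearMap.finrank_range_of_inj hinj
  rw [LinearMap.range_domRestrict] at h1
  exact h1

theorem trunc_density (m ℓ e : ℕ) (hm : 1 ≤ m) (hℓ : m ≤ ℓ) (M : Matrix (Fin n) (Fin n) F[X])
    (hM : ∀ i j, (M i j).natDegree ≤ e) (N : Matrix (Fin n) (Fin n) F)
    (hN : GInv (M.map (Polynomial.eval 0)) N) (f : ℝ)
    (hf : (m : ℝ) * ((grank M : ℝ) - (M.map (Polynomial.eval 0)).rank) +
      (m : ℝ) * ((e : ℝ) * grank M / ((ℓ + 1 - m : ℕ) : ℝ)) ≤ f)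
    (g : (Fin m → Fin n → F) → ℝ) (hg : ∀ y, 0 ≤ g y) :
    avg (Kset ℓ M) (fun z => g (fun i =>
        (1 - N * M.map (Polynomial.eval 0)).mulVec (z (Fin.castLE hℓ i)))) ≤
      (Fintype.card F : ℝ) ^ f * avg Finset.univ (fun y : Fin m → Fin n → F =>
        g (fun i => (1 - N * M.map (Polynomial.eval 0)).mulVec (y i))) := by
  classical
  set M0 := M.map (Polynomial.eval 0) with hM0
  set ψ := psiL (n := n) m (1 - N * M0) with hψ
  set φ : (Fin ℓ → Fin n → F) →ₗ[F] (Fin m → Fin n → F) := ψ ∘ₗ (trL m ℓ hℓ) with hφdef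
  set WF : Finset (Fin m → Fin n → F) := Finset.univ.filter fun w => w ∈ LinearMap.range ψ with hWF
  have hmap : (Kmod ℓ M).map φ = ((Kmod ℓ M).map (trL m ℓ hℓ)).map ψ := by
    rw [hφdef, Submodule.map_comp]
  have hdim1 := psiL_range_finrank_td (n := n) m M0 N hN
  have hdim2 := trunc_map_finrank_td (n := n) m ℓ hℓ M N
  have hdim3 := trunc_finrank (n := n) m ℓ hm hℓ M
  have hdim4 := finrank_kmod_le (n := n) (ℓ + 1 - m) M 0
  have hdim5 := kmod_finrank (n := n) (ℓ + 1 - m) e M hM
  have hf' : (Module.finrank F (LinearMap.range ψ) : ℝ) -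
      Module.finrank F ((Kmod ℓ M).map φ) ≤ f := by
    refine le_trans ?_ hf
    rw [hmap]
    rw [hdim2]
    have hrk : M0.rank ≤ n := by
      have := Matrix.rank_le_width M0
      simpa using this
    set δ := Module.finrank F ((Kmod (ℓ + 1 - m) M).map (evL (ℓ + 1 - m) 0)) with hδ
    set gs := grank M with hgs
    set L' := ℓ + 1 - m with hL'
    have hL1 : 1 ≤ L' := by omega
    have e1 : (Module.finrank F (LinearMap.range ψ) : ℝ) ≤ m * ((n : ℝ) - M0.rank) := by
      have : (Module.finrank F (LinearMap.range ψ) : ℝ) ≤ ((m * (n - M0.rank) : ℕ) : ℝ) := by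
        exact_mod_cast hdim1
      rwa [Nat.cast_mul, Nat.cast_sub hrk] at this
    have e2 : (m : ℝ) * δ ≤ Module.finrank F ((Kmod ℓ M).map (trL m ℓ hℓ)) := by
      exact_mod_cast hdim3
    have e3 : (n : ℝ) * L' ≤ L' * δ + gs * (L' + e) := by
      have h6 : n * L' ≤ L' * δ + gs * (L' + e) := le_trans hdim5 (by
        exact Nat.add_le_add_right hdim4 _)
      exact_mod_cast h6
    have hLpos : (0 : ℝ) < L' := by exact_mod_cast hL1
    have e4 : (n : ℝ) ≤ δ + gs + e * gs / L' := by
      have h7 : (n : ℝ) ≤ (L' * δ + gs * (L' + e)) / L' := by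
        rw [le_div_iff₀ hLpos]; exact e3
      have h8 : ((L' : ℝ) * δ + gs * (L' + e)) / L' = δ + gs + e * gs / L' := by
        field_simp
        ring
      rw [h8] at h7
      exact h7
    have hmpos : (0 : ℝ) ≤ m := Nat.cast_nonneg m
    have e5 : (m : ℝ) * n ≤ m * (δ + gs + e * gs / L') := mul_le_mul_of_nonneg_left e4 hmpos
    nlinarith [e1, e2, e5]
  have hpush := avg_push (F := F) (Kmod ℓ M) (LinearMap.range ψ) φ (by
      rw [hmap]; exact LinearMap.map_le_range) 0 (Submodule.zero_mem _) (Kset ℓ M) (by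
      intro v; simp [Kset]) WF (by
      intro w; simp [hWF]) f hf' g hg
  have hsurj := avg_surj (F := F) ψ WF (by intro w; simp [hWF]) g
  rw [← hsurj] at hpush
  simp only [zero_add] at hpush
  exact hpush

end Pool.Agent.Helper92.AR
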