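import Pool.Agent.Helper92.AR.QECalc
import Pool.Agent.Helper92.AR.TruncDensity
import Pool.Agent.Helper92.AR.TensorDeg

/-!
AR-F2. Density of the parameters of the process.  For `j ≤ s+1` and `h ≥ 0` put
`U_j h = avg univ (fun y => h (fun i => if (i : ℕ) < j then pry t x N y i else 0))`.  Claim, by induction on
`j`, for all `h ≥ 0`: `QE t L good x j (fun P => h (recZ t x N P)) ≤ q^(j few) * U_j h`.
`j = 0`: `recZ (cst x) = 0` (coefficients `≥ 1` of constants).
Step: for an admissible `P` at stage `j` with `good j P`, let `M = tmat t j P`, so `M(0) = tmat t j x`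
(`tmat_evP`, `Adm.eval0`), `b = ⟨j, _⟩`.  For `z ∈ Kset (L j) M`, `recZ` of the updated tuple is
`update (recZ P) b (fun i => prj t x N b *ᵥ z_i)`, `i < s+1 ≤ L j` (coefficient `i+1` of
`cst x b + X * toPoly z` is `z_i`; slot `b` of `P` is constant by `Adm.const`).  `trunc_density` with
`m = s+1`, `ℓ = L j`, `e = ∑_{i<j} L i`, `f = few` and `g w = h (update (recZ P) b w)` gives
`stepE ≤ q^few * avg univ (fun y => h (update (recZ P) b (fun i => prj t x N b *ᵥ y i)))
=: q^few * h1 (recZ P)`; `h1 ≥ 0`.  Induction hypothesis for `h1`: `≤ q^((j+1) few) * U_j h1`, and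
`U_j h1 = U_{j+1} h` (averaging over an independent copy of coordinate `b`: Fubini; `h1` at the truncated
tuple replaces slot `b`, which is `0`, by `prj *ᵥ y`).  At the end `U_{s+1} h = avg univ (h ∘ pry)`.
-/

set_option autoImplicit false

namespace Pool.Agent.Helper92.AR

open Polynomial Finset
open Pool.Agent.Helper83.AH (IsML)

variable {s n : ℕ} {F : Type} [Field F] [Fintype F]

private theorem rz_fubini {ι W : Type} [Fintype ι] [DecidableEq ι] [Fintype W] [Nonempty W]
    (b : ι) (G : (ι → W) → ℝ) :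
    avg Finset.univ (fun y => avg Finset.univ (fun w => G (Function.update y b w))) =
      avg Finset.univ G := by
  have hinv : Function.Involutive
      (fun p : (ι → W) × W => ((Function.update p.1 b p.2, p.1 b) : (ι → W) × W)) := by
    rintro ⟨y, w⟩
    simp
  have h1 : ∑ p : (ι → W) × W, G (Function.update p.1 b p.2) =
      ∑ p : (ι → W) × W, G p.1 :=
    Equiv.sum_comp hinv.toPerm (fun p => G p.1)
  rw [Fintype.sum_prod_type, Fintype.sum_prod_type] at h1
  have hW : (Fintype.card W : ℝ) ≠ 0 := by exact_mod_cast Fintype.card_ne_zero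
  have h2 : ∑ y : ι → W, ∑ _w : W, G y = (Fintype.card W : ℝ) * ∑ y : ι → W, G y := by
    simp only [Finset.sum_const, Finset.card_univ, nsmul_eq_mul]
    rw [← Finset.mul_sum]
  unfold avg
  rw [← Finset.sum_div]
  have h3 : ∑ y : ι → W, ∑ w : W, G (Function.update y b w) =
      (Fintype.card W : ℝ) * ∑ y : ι → W, G y := h1.trans h2
  rw [h3, Finset.card_univ (α := W), mul_div_cancel_left₀ _ hW]

private def rz_tr {s n : ℕ} {F : Type} [Field F] (j : ℕ)
    (v : Fin (s + 1) → Fin (s + 1) → Fin n → F) :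
    Fin (s + 1) → Fin (s + 1) → Fin n → F := fun i => if (i : ℕ) < j then v i else 0

private theorem rz_recZ {t : (Fin (s + 1) → Fin n) → Fin n → F} {x : Fin (s + 1) → Fin n → F}
    (N : Fin (s + 1) → Matrix (Fin n) (Fin n) F) (L : ℕ → ℕ)
    (j : ℕ) (hj : j < s + 1) (hL : s + 1 ≤ L j) {P : Fin (s + 1) → Fin n → F[X]}
    (hP : Adm t L x j P) (z : Fin (L j) → Fin n → F) :
    recZ t x N (Function.update P ⟨j, hj⟩ fun a =>
      P ⟨j, hj⟩ a + X * (toPoly z : Fin n → F[X]) a) =
    Function.update (recZ t x N P) ⟨j, hj⟩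
      (fun i => (prj t x N ⟨j, hj⟩).mulVec (z (Fin.castLE hL i))) := by
  have hc : P ⟨j, hj⟩ = cst x ⟨j, hj⟩ := by
    have h1 := congrFun hP.const ⟨j, hj⟩
    unfold trP at h1
    rw [if_neg (lt_irrefl _)] at h1
    exact h1.symm
  funext b
  by_cases hb : b = ⟨j, hj⟩
  · subst hb
    rw [Function.update_self]
    funext i
    unfold recZ
    congr 1
    funext a
    rw [Function.update_self, hc]
    show (Polynomial.C (x ⟨j, hj⟩ a) + X * (toPoly z : Fin n → F[X]) a).coeff ((i : ℕ) + 1) = _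
    rw [Polynomial.coeff_add, Polynomial.coeff_C_succ, zero_add, Polynomial.coeff_X_mul,
      coeff_toPoly_td, dif_pos (lt_of_lt_of_le i.2 hL)]
    rfl
  · rw [Function.update_of_ne hb]
    unfold recZ
    rw [Function.update_of_ne hb]

private theorem rz_ind (t : (Fin (s + 1) → Fin n) → Fin n → F) (x : Fin (s + 1) → Fin n → F)
    (hx : x ∈ zset t) (N : Fin (s + 1) → Matrix (Fin n) (Fin n) F)
    (hN : ∀ b, GInv (tmat (A := F) t b x) (N b)) (L : ℕ → ℕ) (hL : ∀ j < s + 1, s + 1 ≤ L j)
    (good : ℕ → (Fin (s + 1) → Fin n → F[X]) → Prop) (few : ℝ)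
    (hgood : ∀ (j : ℕ) (hj : j < s + 1) (P : Fin (s + 1) → Fin n → F[X]), Adm t L x j P →
      good j P → ((s : ℝ) + 1) * ((grank (tmat t ⟨j, hj⟩ P) : ℝ) - rho t ⟨j, hj⟩ x) +
        ((s : ℝ) + 1) * (((∑ i ∈ Finset.range j, L i : ℕ) : ℝ) * grank (tmat t ⟨j, hj⟩ P) /
          ((L j - s : ℕ) : ℝ)) ≤ few) (j : ℕ) (hj : j ≤ s + 1) :
    ∀ (h : (Fin (s + 1) → Fin (s + 1) → Fin n → F) → ℝ), (∀ z, 0 ≤ h z) →
    QE t L good x j (fun P => h (recZ t x N P)) ≤
      (Fintype.card F : ℝ) ^ ((j : ℝ) * few) *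
        avg Finset.univ (fun y => h (rz_tr j (pry t x N y))) := by
  have hq : (0 : ℝ) < (Fintype.card F : ℝ) := by exact_mod_cast Fintype.card_pos
  induction j with
  | zero =>
    intro h hh
    have h1 : recZ t x N (cst x) = 0 := by
      funext b i
      unfold recZ
      have h2 : (fun a => (cst x b a).coeff ((i : ℕ) + 1)) = (0 : Fin n → F) := by
        funext a
        exact Polynomial.coeff_C_succ
      rw [h2, Matrix.mulVec_zero]
      rfl
    have h3 : ∀ v : Fin (s + 1) → Fin (s + 1) → Fin n → F, rz_tr 0 v = 0 := by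
      intro v
      funext i
      unfold rz_tr
      rw [if_neg (Nat.not_lt_zero _)]
      rfl
    have h4 : avg Finset.univ (fun y : Fin (s + 1) → Fin (s + 1) → Fin n → F =>
        h (rz_tr 0 (pry t x N y))) = h 0 := by
      have h5 : (fun y : Fin (s + 1) → Fin (s + 1) → Fin n → F => h (rz_tr 0 (pry t x N y))) =
          fun _ => h 0 * 1 := by
        funext y
        rw [h3, mul_one]
      rw [h5, QECalc.avg_smul, QECalc.avg_one Finset.univ_nonempty, mul_one]
    rw [h4, QECalc.QE_zero, h1]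
    simp
  | succ j ih =>
    intro h hh
    have hj' : j < s + 1 := by omega
    set h1 : (Fin (s + 1) → Fin (s + 1) → Fin n → F) → ℝ := fun v =>
      avg Finset.univ (fun w : Fin (s + 1) → Fin n → F =>
        h (Function.update v ⟨j, hj'⟩ (fun i => (prj t x N ⟨j, hj'⟩).mulVec (w i)))) with hh1
    have h1nn : ∀ v, 0 ≤ h1 v := fun v => QECalc.avg_nonneg fun w _ => hh _
    have ih' := ih (by omega) h1 h1nn
    have hstep : ∀ P, Adm t L x j P → good j P →
        stepE t (L j) ⟨j, hj'⟩ (fun P => h (recZ t x N P)) P ≤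
          (Fintype.card F : ℝ) ^ few * h1 (recZ t x N P) := by
      intro P hP hg
      have hM0 : (tmat t ⟨j, hj'⟩ P).map (Polynomial.eval 0) = tmat (A := F) t ⟨j, hj'⟩ x := by
        rw [← tmat_evP, hP.eval0]
      have hNb : GInv ((tmat t ⟨j, hj'⟩ P).map (Polynomial.eval 0)) (N ⟨j, hj'⟩) := by
        rw [hM0]
        exact hN _
      have hdeg := fun l a => hP.natDegree_le hj'.le ⟨j, hj'⟩ l a
      have hf : ((s + 1 : ℕ) : ℝ) * ((grank (tmat t ⟨j, hj'⟩ P) : ℝ) -
          ((tmat t ⟨j, hj'⟩ P).map (Polynomial.eval 0)).rank) +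
          ((s + 1 : ℕ) : ℝ) * (((∑ i ∈ Finset.range j, L i : ℕ) : ℝ) *
            grank (tmat t ⟨j, hj'⟩ P) / ((L j + 1 - (s + 1) : ℕ) : ℝ)) ≤ few := by
        rw [hM0, Nat.add_sub_add_right]
        have h2 := hgood j hj' P hP hg
        have h3 : ((s + 1 : ℕ) : ℝ) = (s : ℝ) + 1 := by push_cast; ring
        rw [h3]
        exact h2
      have htd := trunc_density (s + 1) (L j) (∑ i ∈ Finset.range j, L i) (by omega) (hL j hj')
        (tmat t ⟨j, hj'⟩ P) hdeg (N ⟨j, hj'⟩) hNb few hf
        (fun w => h (Function.update (recZ t x N P) ⟨j, hj'⟩ w)) (fun _ => hh _)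
      rw [hM0] at htd
      have h4 : stepE t (L j) ⟨j, hj'⟩ (fun P => h (recZ t x N P)) P =
          avg (Kset (L j) (tmat t ⟨j, hj'⟩ P)) (fun z =>
            h (Function.update (recZ t x N P) ⟨j, hj'⟩
              (fun i => (prj t x N ⟨j, hj'⟩).mulVec (z (Fin.castLE (hL j hj') i))))) := by
        unfold stepE
        congr 1
        funext z
        show h (recZ t x N (Function.update P ⟨j, hj'⟩ fun a =>
          P ⟨j, hj'⟩ a + X * (toPoly z : Fin n → F[X]) a)) = _
        rw [rz_recZ N L j hj' (hL j hj') hP z]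
      rw [h4]
      exact htd
    have hA : QE t L good x (j + 1) (fun P => h (recZ t x N P)) ≤
        QE t L good x j (fun P => (Fintype.card F : ℝ) ^ few * h1 (recZ t x N P)) := by
      rw [QECalc.QE_succ, dif_pos hj']
      refine QE_mono hx j fun P hP => ?_
      by_cases hg : good j P
      · rw [if_pos hg]
        exact hstep P hP hg
      · rw [if_neg hg]
        exact mul_nonneg (Real.rpow_nonneg hq.le _) (h1nn _)
    have hB : QE t L good x j (fun P => (Fintype.card F : ℝ) ^ few * h1 (recZ t x N P)) =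
        (Fintype.card F : ℝ) ^ few * QE t L good x j (fun P => h1 (recZ t x N P)) :=
      QE_smul j _ _
    have hC : avg Finset.univ (fun y => h1 (rz_tr j (pry t x N y))) =
        avg Finset.univ (fun y => h (rz_tr (j + 1) (pry t x N y))) := by
      rw [← rz_fubini (⟨j, hj'⟩ : Fin (s + 1))
        (fun y => h (rz_tr (j + 1) (pry t x N y)))]
      congr 1
      funext y
      show avg Finset.univ (fun w : Fin (s + 1) → Fin n → F =>
        h (Function.update (rz_tr j (pry t x N y)) ⟨j, hj'⟩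
          (fun i => (prj t x N ⟨j, hj'⟩).mulVec (w i)))) = _
      congr 1
      funext w
      congr 1
      funext i
      by_cases hi : i = ⟨j, hj'⟩
      · subst hi
        rw [Function.update_self]
        unfold rz_tr
        rw [if_pos (Nat.lt_succ_self _)]
        unfold pry
        rw [Function.update_self]
      · have hij : (i : ℕ) ≠ j := fun h2 => hi (Fin.ext h2)
        rw [Function.update_of_ne hi]
        unfold rz_tr
        by_cases h3 : (i : ℕ) < j
        · rw [if_pos h3, if_pos (by omega)]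
          unfold pry
          rw [Function.update_of_ne hi]
        · rw [if_neg h3, if_neg (by omega)]
    have hD : (Fintype.card F : ℝ) ^ few * (Fintype.card F : ℝ) ^ ((j : ℝ) * few) =
        (Fintype.card F : ℝ) ^ (((j + 1 : ℕ) : ℝ) * few) := by
      rw [← Real.rpow_add hq]
      congr 1
      push_cast
      ring
    calc QE t L good x (j + 1) (fun P => h (recZ t x N P)) ≤
        (Fintype.card F : ℝ) ^ few * QE t L good x j (fun P => h1 (recZ t x N P)) :=
          hA.trans (le_of_eq hB)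
      _ ≤ (Fintype.card F : ℝ) ^ few * ((Fintype.card F : ℝ) ^ ((j : ℝ) * few) *
          avg Finset.univ (fun y => h1 (rz_tr j (pry t x N y)))) :=
          mul_le_mul_of_nonneg_left ih' (Real.rpow_nonneg hq.le _)
      _ = _ := by rw [hC, ← mul_assoc, hD]

theorem QE_recZ (t : (Fin (s + 1) → Fin n) → Fin n → F) (x : Fin (s + 1) → Fin n → F)
    (hx : x ∈ zset t) (N : Fin (s + 1) → Matrix (Fin n) (Fin n) F)
    (hN : ∀ b, GInv (tmat (A := F) t b x) (N b)) (L : ℕ → ℕ) (hL : ∀ j < s + 1, s + 1 ≤ L j)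
    (good : ℕ → (Fin (s + 1) → Fin n → F[X]) → Prop) (few : ℝ)
    (hgood : ∀ (j : ℕ) (hj : j < s + 1) (P : Fin (s + 1) → Fin n → F[X]), Adm t L x j P →
      good j P → ((s : ℝ) + 1) * ((grank (tmat t ⟨j, hj⟩ P) : ℝ) - rho t ⟨j, hj⟩ x) +
        ((s : ℝ) + 1) * (((∑ i ∈ Finset.range j, L i : ℕ) : ℝ) * grank (tmat t ⟨j, hj⟩ P) /
          ((L j - s : ℕ) : ℝ)) ≤ few)
    (h : (Fin (s + 1) → Fin (s + 1) → Fin n → F) → ℝ) (hh : ∀ z, 0 ≤ h z) :
    QE t L good x (s + 1) (fun P => h (recZ t x N P)) ≤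
      (Fintype.card F : ℝ) ^ (((s : ℝ) + 1) * few) *
        avg Finset.univ (fun y => h (pry t x N y)) := by
  have h1 := rz_ind t x hx N hN L hL good few hgood (s + 1) le_rfl h hh
  have h2 : ((s + 1 : ℕ) : ℝ) = (s : ℝ) + 1 := by
    push_cast
    ring
  have h3 : ∀ v : Fin (s + 1) → Fin (s + 1) → Fin n → F, rz_tr (s + 1) v = v := by
    intro v
    funext i
    unfold rz_tr
    rw [if_pos i.2]
  rw [h2] at h1
  simp only [h3] at h1
  exact h1

end Pool.Agent.Helper92.AR
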