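import Pool.Agent.Helper92.AR.EvIm

/-!
AR-B3. Truncated images.  Let `T = (Kmod ℓ M).map (trL m ℓ h)`, `δ = finrank ((Kmod (ℓ+1-m) M).map
(evL (ℓ+1-m) 0))`.  For `i < m` let `T_i = {w ∈ T | w_0 = ... = w_{i-1} = 0}`, so `T_0 = T`, `T_m = 0`.
The linear map `T_i → (Fin n → F)`, `w ↦ w_i` has kernel `T_{i+1}` and its image contains
`(Kmod (ℓ-i) M).map (evL (ℓ-i) 0)`: for `z ∈ Kmod (ℓ-i) M` shift the array by `i` places
(`toPoly` is multiplied by `X^i`, still in the kernel of `M`, length `ℓ`), its truncation is in `T_i`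
and has coefficient `z_0 = evL 0 z` at place `i`.  As `ℓ - i ≥ ℓ + 1 - m`, `evim_mono'` gives
`finrank T_i ≥ finrank T_{i+1} + δ`; sum over `i < m`.
(A convenient form: prove by induction on `i` that `i * δ ≤ finrank T_{m-i}`.)
-/

set_option autoImplicit false

namespace Pool.Agent.Helper92.AR

open Polynomial Finset
open Pool.Agent.Helper83.AH (IsML)

variable {n : ℕ} {F : Type} [Field F]

/-- shift of a coefficient array -/
private theorem ti_shift {j r ℓ : ℕ} (hl : j + r = ℓ) (M : Matrix (Fin n) (Fin n) F[X])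
    (z : Fin r → Fin n → F) (hz : z ∈ Kmod r M) :
    ∃ z' ∈ Kmod ℓ M, (∀ i : Fin ℓ, (i : ℕ) < j → z' i = 0) ∧
      ∀ (i : Fin ℓ) (i' : Fin r), (i : ℕ) = j + i' → z' i = z i' := by
  subst hl
  refine ⟨Fin.append (fun _ : Fin j => 0) z, ?_, ?_, ?_⟩
  · have h1 : (toPoly (Fin.append (fun _ : Fin j => (0 : Fin n → F)) z) : Fin n → F[X]) =
        (X ^ j : F[X]) • (toPoly z : Fin n → F[X]) := by
      funext a
      show ∑ i : Fin (j + r), C (Fin.append (fun _ : Fin j => (0 : Fin n → F)) z i a) * X ^ (i : ℕ) =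
        X ^ j * ∑ i : Fin r, C (z i a) * X ^ (i : ℕ)
      rw [Fin.sum_univ_add, Finset.mul_sum]
      simp only [Fin.append_left, Fin.append_right, Pi.zero_apply, map_zero, zero_mul,
        Finset.sum_const_zero, zero_add, Fin.val_natAdd, pow_add]
      exact Finset.sum_congr rfl fun i _ => by ring
    have h2 : M.mulVec (toPoly z) = 0 := hz
    show M.mulVec (toPoly (Fin.append (fun _ : Fin j => (0 : Fin n → F)) z)) = 0
    rw [h1, Matrix.mulVec_smul, h2, smul_zero]
  · intro i hi
    have h1 : i = Fin.castAdd r ⟨i, hi⟩ := Fin.ext rfl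
    rw [h1, Fin.append_left]
  · intro i i' hi
    have h1 : i = Fin.natAdd j i' := Fin.ext hi
    rw [h1, Fin.append_right]

private theorem ti_ev {r : ℕ} (hr : 0 < r) (z : Fin r → Fin n → F) :
    evL r 0 z = z ⟨0, hr⟩ := by
  funext a
  show ∑ i : Fin r, (0 : F) ^ (i : ℕ) * z i a = z ⟨0, hr⟩ a
  rw [Finset.sum_eq_single (⟨0, hr⟩ : Fin r)]
  · simp
  · intro i _ hi
    have h1 : (i : ℕ) ≠ 0 := fun h => hi (Fin.ext h)
    rw [zero_pow h1, zero_mul]
  · intro h
    exact absurd (Finset.mem_univ _) h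

/-- arrays whose first `i` entries are zero -/
private def tiZ (n : ℕ) (F : Type) [Field F] (m i : ℕ) : Submodule F (Fin m → Fin n → F) where
  carrier := {w | ∀ a : Fin m, (a : ℕ) < i → w a = 0}
  add_mem' := by
    intro v w hv hw a ha
    show v a + w a = 0
    rw [hv a ha, hw a ha, add_zero]
  zero_mem' := fun _ _ => rfl
  smul_mem' := by
    intro r w hw a ha
    show r • w a = 0
    rw [hw a ha, smul_zero]

private theorem ti_rank {V U : Type} [AddCommGroup V] [Module F V] [Module.Finite F V]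
    [AddCommGroup U] [Module F U] [Module.Finite F U] (S S' : Submodule F V) (g : V →ₗ[F] U)
    (D : Submodule F U) (h1 : S' ≤ S) (h2 : S' ≤ LinearMap.ker g) (h3 : D ≤ S.map g) :
    Module.finrank F S' + Module.finrank F D ≤ Module.finrank F S := by
  have h4 := LinearMap.finrank_range_add_finrank_ker (g.domRestrict S)
  have h5 : D ≤ LinearMap.range (g.domRestrict S) := by
    rw [LinearMap.range_domRestrict]
    exact h3
  have h6 := Submodule.finrank_mono h5
  have h7 : Submodule.comap S.subtype S' ≤ LinearMap.ker (g.domRestrict S) := by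
    intro x hx
    exact h2 hx
  have h8 := Submodule.finrank_mono h7
  rw [(Submodule.comapSubtypeEquivOfLe h1).finrank_eq] at h8
  omega

theorem trunc_finrank (m ℓ : ℕ) (hm : 1 ≤ m) (h : m ≤ ℓ) (M : Matrix (Fin n) (Fin n) F[X]) :
    m * Module.finrank F ((Kmod (ℓ + 1 - m) M).map (evL (ℓ + 1 - m) 0)) ≤
      Module.finrank F ((Kmod ℓ M).map (trL m ℓ h)) := by
  set D := (Kmod (ℓ + 1 - m) M).map (evL (ℓ + 1 - m) 0) with hD
  set T := (Kmod ℓ M).map (trL m ℓ h) with hT
  have key : ∀ i, i ≤ m → i * Module.finrank F D ≤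
      Module.finrank F ↥(T ⊓ tiZ n F m (m - i)) := by
    intro i
    induction i with
    | zero => intro _; rw [zero_mul]; exact Nat.zero_le _
    | succ i ih =>
      intro hi
      have h1 := ih (by omega)
      obtain ⟨j, hj⟩ : ∃ j, m - i = j + 1 := ⟨m - i - 1, by omega⟩
      have hj' : m - (i + 1) = j := by omega
      have hjm : j < m := by omega
      rw [hj']
      rw [hj] at h1
      have h2 : Module.finrank F ↥(T ⊓ tiZ n F m (j + 1)) + Module.finrank F D ≤
          Module.finrank F ↥(T ⊓ tiZ n F m j) := by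
        refine ti_rank _ _ (LinearMap.proj (⟨j, hjm⟩ : Fin m)) D ?_ ?_ ?_
        · exact inf_le_inf_left _ fun w hw a ha => hw a (by omega)
        · rintro w ⟨-, hw⟩
          exact hw ⟨j, hjm⟩ (Nat.lt_succ_self j)
        · have h3 : D ≤ (Kmod (ℓ - j) M).map (evL (ℓ - j) 0) :=
            evim_mono' (by omega) M 0
          refine h3.trans ?_
          rintro _ ⟨z, hz, rfl⟩
          obtain ⟨z', hz', hz0, hz1⟩ := ti_shift (j := j) (r := ℓ - j) (ℓ := ℓ) (by omega) M z hz
          refine ⟨trL m ℓ h z', ⟨⟨z', hz', rfl⟩, ?_⟩, ?_⟩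
          · intro a ha
            exact hz0 (Fin.castLE h a) ha
          · show z' (Fin.castLE h ⟨j, hjm⟩) = _
            rw [ti_ev (by omega : 0 < ℓ - j)]
            exact hz1 _ _ rfl
      have h4 : (i + 1) * Module.finrank F D = i * Module.finrank F D + Module.finrank F D := by
        ring
      rw [h4]
      omega
  have h5 := key m le_rfl
  exact h5.trans (Submodule.finrank_mono inf_le_left)

end Pool.Agent.Helper92.AR
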